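import Pool.Agent.LibLP59.Defs

/-
PLAN (A1). Power mean: (sum_b deg b)^n <= |B|^(n-1) sum_b (deg b)^n (inner_le.. : Finset.pow_sum_le / inv version, Mathlib: inner product or `pow_sum_div_card_le_sum_pow`,
`Real.pow_sum_div_card_le_sum_pow`), and the sum of deg b = number of a in A with G a b over b is the double count >= delta |A| |B|. B nonempty.
-/

set_option autoImplicit false

noncomputable section

open MeasureTheory Metric Set Filter

namespace Pool.LibLP59

open scoped Classical in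
/-- power mean for the degrees -/
theorem power_mean {α β : Type} (A : Finset α) (B : Finset β) (G : α → β → Prop) (δ : ℝ)
    (hδ : 0 ≤ δ) (n : ℕ) (hn : 1 ≤ n) (hB : B.Nonempty)
    (h : δ * A.card * B.card ≤ ∑ a ∈ A, ((B.filter (fun b => G a b)).card : ℝ)) :
    δ ^ n * (A.card : ℝ) ^ n * B.card ≤ ∑ b ∈ B, ((A.filter (fun a => G a b)).card : ℝ) ^ n := by
  obtain ⟨m, rfl⟩ : ∃ m, n = m + 1 := ⟨n - 1, by omega⟩
  have hdc : ∑ a ∈ A, ((B.filter (fun b => G a b)).card : ℝ) =
      ∑ b ∈ B, ((A.filter (fun a => G a b)).card : ℝ) := by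
    have h1 := Finset.sum_card_bipartiteAbove_eq_sum_card_bipartiteBelow (s := A) (t := B) G
    have h2 : ∑ a ∈ A, (B.filter (fun b => G a b)).card =
        ∑ b ∈ B, (A.filter (fun a => G a b)).card := h1
    exact_mod_cast h2
  have hB0 : (0 : ℝ) < B.card := by exact_mod_cast hB.card_pos
  have h0 : 0 ≤ δ * A.card * B.card := by positivity
  have h3 : (δ * A.card * B.card) ^ (m + 1) ≤
      (∑ b ∈ B, ((A.filter (fun a => G a b)).card : ℝ)) ^ (m + 1) := by
    apply pow_le_pow_left₀ h0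
    rw [← hdc]
    exact h
  have h4 : (∑ b ∈ B, ((A.filter (fun a => G a b)).card : ℝ)) ^ (m + 1) / (B.card : ℝ) ^ m ≤
      ∑ b ∈ B, ((A.filter (fun a => G a b)).card : ℝ) ^ (m + 1) :=
    pow_sum_div_card_le_sum_pow (fun _ _ => Nat.cast_nonneg _) m
  have h5 : δ ^ (m + 1) * (A.card : ℝ) ^ (m + 1) * B.card =
      (δ * A.card * B.card) ^ (m + 1) / (B.card : ℝ) ^ m := by
    rw [eq_div_iff (pow_ne_zero m hB0.ne')]
    ring
  rw [h5]
  exact (div_le_div_of_nonneg_right h3 (pow_pos hB0 m).le).trans h4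

end Pool.LibLP59
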