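import Pool.Agent.LibLP59.Defs

/-
PLAN (A5). If det M = 0 trivial (rho i >= 0 by hrow). f = Matrix.toLin' M (or mulVecLin). The half open unit cubes w + [0,1)^ι, w in S, are disjoint (integer differences), so their images under f
(injective) are disjoint, each of volume |det M| (MeasureTheory.Measure.addHaar_image_linearMap, Real.volume_pi_Ico / volume of the unit cube is 1). All images shifted by -f w0 lie in the box
of the y with |y i| <= 2 rho i, of volume prod (4 rho i) (Real.volume_Icc_pi / volume_pi). Sum over S (measure_biUnion_finset).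
-/

set_option autoImplicit false

noncomputable section

open MeasureTheory Metric Set Filter

namespace Pool.LibLP59

/-- half open unit cube -/
private def a5_cube {ι : Type} (w : ι → ℝ) : Set (ι → ℝ) :=
  Set.pi Set.univ (fun i => Set.Ico (w i) (w i + 1))

private theorem a5_cube_meas {ι : Type} [Fintype ι] (w : ι → ℝ) : MeasurableSet (a5_cube w) :=
  MeasurableSet.univ_pi (fun _ => measurableSet_Ico)

private theorem a5_cube_vol {ι : Type} [Fintype ι] (w : ι → ℝ) : volume (a5_cube w) = 1 := by
  unfold a5_cube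
  rw [MeasureTheory.volume_pi_pi]
  simp [Real.volume_Ico]

private theorem a5_cube_disj {ι : Type} (S : Finset (ι → ℝ)) (hS : LatV S) :
    (S : Set (ι → ℝ)).PairwiseDisjoint a5_cube := by
  intro a ha b hb hab
  rw [Function.onFun, Set.disjoint_left]
  intro x hxa hxb
  apply hab
  funext i
  obtain ⟨n, hn⟩ := hS a ha b hb i
  have h1 := hxa i (Set.mem_univ i)
  have h2 := hxb i (Set.mem_univ i)
  rw [Set.mem_Ico] at h1 h2
  have h3 : (n : ℝ) < 1 := by linarith [h1.1, h2.2]
  have h4 : (-1 : ℝ) < n := by linarith [h1.2, h2.1]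
  have h5 : n < 1 := by exact_mod_cast h3
  have h6 : -1 < n := by exact_mod_cast h4
  have h7 : n = 0 := by omega
  rw [h7, Int.cast_zero] at hn
  linarith

/-- packing: number of lattice points in a parallelepiped -/
theorem packing_lin {ι : Type} [Fintype ι] [DecidableEq ι] (M : Matrix ι ι ℝ)
    (S : Finset (ι → ℝ)) (hS : LatV S) (ρ w0 : ι → ℝ) (hrow : ∀ i, ∑ j, |M i j| ≤ ρ i)
    (hval : ∀ w ∈ S, ∀ i, |∑ j, M i j * (w j - w0 j)| ≤ ρ i) :
    (S.card : ℝ) * |M.det| ≤ ∏ i, (4 * ρ i) := by
  have hρ : ∀ i, 0 ≤ ρ i := fun i =>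
    le_trans (Finset.sum_nonneg fun j _ => abs_nonneg _) (hrow i)
  have hU : volume (⋃ w ∈ S, a5_cube w) = (S.card : ENNReal) := by
    rw [MeasureTheory.measure_biUnion_finset (a5_cube_disj S hS) (fun w _ => a5_cube_meas w)]
    simp [a5_cube_vol]
  have hsub : (Matrix.toLin' M) '' (⋃ w ∈ S, a5_cube w) ⊆
      Set.pi Set.univ (fun i => Set.Icc ((∑ j, M i j * w0 j) - 2 * ρ i)
        ((∑ j, M i j * w0 j) + 2 * ρ i)) := by
    rintro y ⟨x, hx, rfl⟩
    rw [Set.mem_iUnion₂] at hx
    obtain ⟨w, hw, hx⟩ := hx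
    intro i _
    have h1 : (Matrix.toLin' M x) i - (∑ j, M i j * w0 j) =
        (∑ j, M i j * (w j - w0 j)) + ∑ j, M i j * (x j - w j) := by
      rw [Matrix.toLin'_apply]
      simp only [Matrix.mulVec, dotProduct]
      rw [← Finset.sum_sub_distrib, ← Finset.sum_add_distrib]
      exact Finset.sum_congr rfl fun j _ => by ring
    have h2 : |∑ j, M i j * (x j - w j)| ≤ ρ i := by
      refine le_trans (Finset.abs_sum_le_sum_abs _ _) (le_trans ?_ (hrow i))
      refine Finset.sum_le_sum fun j _ => ?_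
      rw [abs_mul]
      have hj := hx j (Set.mem_univ j)
      rw [Set.mem_Ico] at hj
      have : |x j - w j| ≤ 1 := by
        rw [abs_le]
        constructor <;> linarith [hj.1, hj.2]
      calc |M i j| * |x j - w j| ≤ |M i j| * 1 :=
            mul_le_mul_of_nonneg_left this (abs_nonneg _)
        _ = |M i j| := mul_one _
    have h3 := hval w hw i
    rw [abs_le] at h2 h3
    show (Matrix.toLin' M x) i ∈ Set.Icc _ _
    rw [Set.mem_Icc]
    constructor <;> linarith [h2.1, h2.2, h3.1, h3.2]
  have hvol := MeasureTheory.measure_mono (μ := volume) hsub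
  rw [MeasureTheory.Measure.addHaar_image_linearMap, hU, LinearMap.det_toLin',
    MeasureTheory.volume_pi_pi] at hvol
  have hbox : ∏ i, volume (Set.Icc ((∑ j, M i j * w0 j) - 2 * ρ i)
        ((∑ j, M i j * w0 j) + 2 * ρ i)) = ENNReal.ofReal (∏ i, (4 * ρ i)) := by
    rw [ENNReal.ofReal_prod_of_nonneg (fun i _ => by linarith [hρ i])]
    refine Finset.prod_congr rfl fun i _ => ?_
    rw [Real.volume_Icc]
    congr 1
    ring
  rw [hbox] at hvol
  have hcard : (S.card : ENNReal) = ENNReal.ofReal (S.card : ℝ) := by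
    rw [ENNReal.ofReal_natCast]
  rw [hcard, ← ENNReal.ofReal_mul (abs_nonneg _)] at hvol
  have h8 := (ENNReal.ofReal_le_ofReal_iff
    (Finset.prod_nonneg fun i _ => by linarith [hρ i])).1 hvol
  linarith

end Pool.LibLP59
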