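import Pool.Agent.LibLP59.A4
import Pool.Agent.LibLP59.A5

/-
PLAN (A6). X = the z i - z 0 and the unit vectors; v from exists_basis. V = Matrix.of v, M = (V⁻¹)ᵀ: its row k gives the k-th coordinate: for w = sum t i v i: sum_j M k j w j = t k.
Row sums: sum_j |M k j| with M k j = coordinate of the unit vector j, so <= card ι <= rho := card ι + 1. For a in A1: a - z 0 = sum_i mu i (z i - z 0) (sum mu = 1), coordinates bounded by
sum |mu i| <= card ι + 1. packing_lin (w0 = z 0): |A1| |det M| <= (4 (card ι + 1))^(card ι), det M = 1/det V.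
-/

set_option autoImplicit false

noncomputable section

open MeasureTheory Metric Set Filter

namespace Pool.LibLP59

/-- a base with large determinant -/
theorem base_volume {ι : Type} [Fintype ι] [DecidableEq ι]
    (z : Fin (Fintype.card ι + 1) → ι → ℝ) (A1 : Finset (ι → ℝ)) (hL : LatV A1)
    (hb : ∀ a ∈ A1, InBox z a) : ∃ v : ι → ι → ℝ,
      (∀ k, (∃ i, v k = z i - z 0) ∨ ∃ j : ι, v k = Pi.single j (1 : ℝ)) ∧
      (Matrix.of v).det ≠ 0 ∧
      (A1.card : ℝ) ≤ (4 * ((Fintype.card ι : ℝ) + 1)) ^ Fintype.card ι * |(Matrix.of v).det| := by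
  classical
  obtain ⟨X, hX⟩ : ∃ X : Finset (ι → ℝ), X = (Finset.univ.image fun i => z i - z 0) ∪
    (Finset.univ.image fun j : ι => (Pi.single j (1 : ℝ) : ι → ℝ)) := ⟨_, rfl⟩
  have hz : ∀ i, z i - z 0 ∈ X := fun i => by
    rw [hX]
    exact Finset.mem_union_left _ (Finset.mem_image_of_mem _ (Finset.mem_univ i))
  have he : ∀ j : ι, (Pi.single j (1 : ℝ) : ι → ℝ) ∈ X := fun j => by
    rw [hX]
    exact Finset.mem_union_right _ (Finset.mem_image_of_mem _ (Finset.mem_univ j))
  obtain ⟨v, hv, hdet, hrep⟩ := exists_basis X he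
  refine ⟨v, fun k => ?_, hdet, ?_⟩
  · have h1 := hv k
    rw [hX, Finset.mem_union, Finset.mem_image, Finset.mem_image] at h1
    rcases h1 with ⟨i, _, h⟩ | ⟨j, _, h⟩
    · exact Or.inl ⟨i, h.symm⟩
    · exact Or.inr ⟨j, h.symm⟩
  · obtain ⟨V, hV⟩ : ∃ V : Matrix ι ι ℝ, V = Matrix.of v := ⟨_, rfl⟩
    rw [← hV] at hdet ⊢
    have hunit : IsUnit V.det := isUnit_iff_ne_zero.2 hdet
    have key : ∀ (w : ι → ℝ) (t : ι → ℝ), w = ∑ i, t i • v i →
        ∀ k, ∑ j, (Matrix.transpose V⁻¹) k j * w j = t k := by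
      intro w t hw k
      have h1 : w = Matrix.vecMul t V := by
        funext j
        rw [hw, Finset.sum_apply, hV]
        rfl
      have h2 : (Matrix.vecMul w V⁻¹) k = t k := by
        rw [h1, Matrix.vecMul_vecMul, Matrix.mul_nonsing_inv _ hunit, Matrix.vecMul_one]
      rw [← h2]
      show ∑ j, (Matrix.transpose V⁻¹) k j * w j = ∑ j, w j * V⁻¹ j k
      refine Finset.sum_congr rfl fun j _ => ?_
      rw [Matrix.transpose_apply, mul_comm]
    have hM1 : ∀ k j, |(Matrix.transpose V⁻¹) k j| ≤ 1 := by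
      intro k j
      obtain ⟨t, ht, ht1⟩ := hrep _ (he j)
      have h1 := key _ t ht k
      have h2 : ∑ j', (Matrix.transpose V⁻¹) k j' * (Pi.single j (1 : ℝ) : ι → ℝ) j' = (Matrix.transpose V⁻¹) k j := by
        rw [Finset.sum_eq_single j]
        · rw [Pi.single_eq_same, mul_one]
        · intro j' _ hj'
          rw [Pi.single_eq_of_ne hj', mul_zero]
        · intro h
          exact absurd (Finset.mem_univ j) h
      rw [← h2, h1]
      exact ht1 k
    have hpack := packing_lin (Matrix.transpose V⁻¹) A1 hL (fun _ => (Fintype.card ι : ℝ) + 1) (z 0)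
      (fun i => by
        refine (Finset.sum_le_sum fun j _ => hM1 i j).trans ?_
        rw [Finset.sum_const, Finset.card_univ, nsmul_eq_mul, mul_one]
        linarith)
      (fun a ha i => by
        obtain ⟨μ, hμ1, hμ2, hμ3⟩ := hb a ha
        have hq : ∀ k, ∃ τ : ℝ, ∑ j, (Matrix.transpose V⁻¹) i j * (z k j - z 0 j) = τ ∧ |τ| ≤ 1 := by
          intro k
          obtain ⟨t, ht, ht1⟩ := hrep _ (hz k)
          exact ⟨t i, key _ t ht i, ht1 i⟩
        choose τ hτ1 hτ2 using hq
        have h1 : ∑ j, (Matrix.transpose V⁻¹) i j * (a j - z 0 j) = ∑ k, μ k * τ k := by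
          have h2 : ∀ j, a j - z 0 j = ∑ k, μ k * (z k j - z 0 j) := by
            intro j
            have h3 : ∑ k, μ k * (z k j - z 0 j) = ∑ k, μ k * z k j - (∑ k, μ k) * z 0 j := by
              rw [Finset.sum_mul, ← Finset.sum_sub_distrib]
              exact Finset.sum_congr rfl fun k _ => by ring
            rw [h3, hμ1, one_mul, hμ3, Finset.sum_apply]
            rfl
          rw [Finset.sum_congr rfl fun j _ => by rw [h2 j, Finset.mul_sum], Finset.sum_comm]
          refine Finset.sum_congr rfl fun k _ => ?_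
          rw [← hτ1 k, Finset.mul_sum]
          exact Finset.sum_congr rfl fun j _ => by ring
        rw [h1]
        refine (Finset.abs_sum_le_sum_abs _ _).trans ?_
        refine (Finset.sum_le_sum fun k _ => ?_).trans_eq
          (?_ : ∑ _k : Fin (Fintype.card ι + 1), (1 : ℝ) = (Fintype.card ι : ℝ) + 1)
        · rw [abs_mul]
          exact mul_le_one₀ (hμ2 k) (abs_nonneg _) (hτ2 k)
        · simp)
    rw [Finset.prod_const, Finset.card_univ, Matrix.det_transpose, Matrix.det_nonsing_inv,
      Ring.inverse_eq_inv', abs_inv] at hpack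
    have hpos : 0 < |V.det| := abs_pos.2 hdet
    rw [← div_eq_mul_inv, div_le_iff₀ hpos] at hpack
    exact hpack

end Pool.LibLP59
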