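import Pool.Agent.LibLP59.A7

/-
PLAN (A8). h = sum_k c k v k (det <> 0). bf s h h = sum_k c k bf s h (v k), so |bf s h h| <= 2 t D N |c j|, j = index with |c j| maximal. diff_packing with v' = Function.update v j h
(det = c j det: Matrix.det_updateRow_sum or det_updateRow_smul..; |h i| <= 2 D, |bf s w h| <= 2 t D): |W| |c j| |det v| <= (8 N t D)^N. Multiply.
-/

set_option autoImplicit false

noncomputable section

open MeasureTheory Metric Set Filter

namespace Pool.LibLP59

private theorem a8_coef {ι : Type} [Fintype ι] [DecidableEq ι] (v : ι → ι → ℝ)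
    (hdet : (Matrix.of v).det ≠ 0) (h : ι → ℝ) : ∃ c : ι → ℝ, h = ∑ k, c k • v k := by
  refine ⟨Matrix.vecMul h (Matrix.of v)⁻¹, ?_⟩
  have h1 : Matrix.vecMul (Matrix.vecMul h (Matrix.of v)⁻¹) (Matrix.of v) = h := by
    rw [Matrix.vecMul_vecMul, Matrix.nonsing_inv_mul _ (isUnit_iff_ne_zero.2 hdet),
      Matrix.vecMul_one]
  funext i
  have h2 := congrFun h1 i
  rw [Finset.sum_apply]
  rw [← h2]
  simp only [Matrix.vecMul, dotProduct, Matrix.of_apply, Pi.smul_apply, smul_eq_mul]

/-- a vector almost orthogonal to many vectors is almost isotropic -/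
theorem slab {ι : Type} [Fintype ι] [DecidableEq ι] [Nonempty ι] (s : ι → ℝ)
    (hs : ∀ i, |s i| = 1) (v : ι → ι → ℝ) (hdet : (Matrix.of v).det ≠ 0) (D t : ℝ) (hD : 0 ≤ D)
    (ht : 1 ≤ t) (hv : ∀ k i, |v k i| ≤ 2 * D) (h : ι → ℝ) (hh : ∀ i, |h i| ≤ 2 * D)
    (hhv : ∀ k, |bf s h (v k)| ≤ 2 * t * D) (W : Finset (ι → ℝ)) (hW : LatV W)
    (hWv : ∀ w ∈ W, ∀ k, |bf s w (v k)| ≤ 2 * t * D) (hWh : ∀ w ∈ W, |bf s w h| ≤ 2 * t * D) :
    (W.card : ℝ) * |bf s h h| * |(Matrix.of v).det| ≤
      2 * (Fintype.card ι : ℝ) * t * D * (8 * (Fintype.card ι : ℝ) * t * D) ^ Fintype.card ι := by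
  obtain ⟨c, hc⟩ := a8_coef v hdet h
  obtain ⟨j, -, hj⟩ := Finset.exists_max_image (Finset.univ : Finset ι) (fun k => |c k|)
    Finset.univ_nonempty
  have h1 : bf s h h = ∑ k, c k * bf s h (v k) := by
    have e1 : ∀ i, h i = ∑ k, c k * v k i := by
      intro i
      conv_lhs => rw [hc]
      rw [Finset.sum_apply]
      simp only [Pi.smul_apply, smul_eq_mul]
    unfold bf
    have e2 : ∀ i, s i * h i * h i = ∑ k, c k * (s i * h i * v k i) := by
      intro i
      have e3 : s i * h i * h i = s i * h i * ∑ k, c k * v k i := by rw [← e1 i]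
      rw [e3, Finset.mul_sum]
      exact Finset.sum_congr rfl fun k _ => by ring
    rw [Finset.sum_congr rfl fun i _ => e2 i, Finset.sum_comm]
    exact Finset.sum_congr rfl fun k _ => by rw [Finset.mul_sum]
  have hbf : |bf s h h| ≤ 2 * (Fintype.card ι : ℝ) * t * D * |c j| := by
    rw [h1]
    calc |∑ k, c k * bf s h (v k)| ≤ ∑ k, |c k * bf s h (v k)| := Finset.abs_sum_le_sum_abs _ _
      _ ≤ ∑ _k : ι, |c j| * (2 * t * D) := by
          refine Finset.sum_le_sum fun k _ => ?_
          rw [abs_mul]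
          exact mul_le_mul (hj k (Finset.mem_univ k)) (hhv k) (abs_nonneg _) (abs_nonneg _)
      _ = 2 * (Fintype.card ι : ℝ) * t * D * |c j| := by
          rw [Finset.sum_const, Finset.card_univ, nsmul_eq_mul]
          ring
  have hdet2 : (Matrix.of (Function.update v j h)).det = c j * (Matrix.of v).det := by
    have e1 := Matrix.det_updateRow_sum (Matrix.of v) j c
    rw [smul_eq_mul] at e1
    rw [← e1]
    congr 1
    rw [hc]
    rfl
  have hp := diff_packing s hs (Function.update v j h) D t hD ht (fun k i => by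
    by_cases hk : k = j
    · subst hk
      rw [Function.update_self]
      exact hh i
    · rw [Function.update_of_ne hk]
      exact hv k i) W hW (fun w hw k => by
    by_cases hk : k = j
    · subst hk
      rw [Function.update_self]
      exact hWh w hw
    · rw [Function.update_of_ne hk]
      exact hWv w hw k)
  rw [hdet2, abs_mul] at hp
  have h0 : (0 : ℝ) ≤ 2 * (Fintype.card ι : ℝ) * t * D := by positivity
  calc (W.card : ℝ) * |bf s h h| * |(Matrix.of v).det|
      ≤ (W.card : ℝ) * (2 * (Fintype.card ι : ℝ) * t * D * |c j|) * |(Matrix.of v).det| := by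
        gcongr
    _ = 2 * (Fintype.card ι : ℝ) * t * D *
        ((W.card : ℝ) * (|c j| * |(Matrix.of v).det|)) := by ring
    _ ≤ _ := mul_le_mul_of_nonneg_left hp h0

end Pool.LibLP59
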