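import Pool.Agent.LibLP59.Defs

/-
PLAN (A9). Cauchy-Schwarz: sum over g in B - B of r(g) = |B|^2, r(g) = number of (b1,b2) in B^2 with b2 - b1 = g; so |B|^4 <= |B - B| sum r(g)^2, and sum r(g)^2 = number of
(b1,b2,b3,b4) with b2 - b1 = b4 - b3 = number of triples (b1,b2,b3) with b2 + b3 - b1 in B. Mathlib: Finset.addEnergy and le_card_add_mul_addEnergy (with -B) may help.
-/

set_option autoImplicit false

noncomputable section

open MeasureTheory Metric Set Filter
open scoped Pointwise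

namespace Pool.LibLP59

open scoped Classical in
private theorem a9_energy_le {V : Type} [AddCommGroup V] (B : Finset V) :
    Finset.addEnergy B (-B) ≤
      ((B ×ˢ (B ×ˢ B)).filter (fun x => x.2.1 + x.2.2 - x.1 ∈ B)).card := by
  unfold Finset.addEnergy
  refine Finset.card_le_card_of_injOn (fun x => (x.1.1, (x.1.2, -x.2.1))) ?_ ?_
  · intro x hx
    simp only [Finset.coe_filter, Finset.mem_product, Set.mem_setOf_eq, Finset.mem_neg'] at hx ⊢
    obtain ⟨⟨⟨h1, h2⟩, h3, h4⟩, h5⟩ := hx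
    refine ⟨⟨h1, h2, h3⟩, ?_⟩
    have h6 : x.1.2 + -x.2.1 - x.1.1 = -x.2.2 := by
      have : x.1.2 + x.2.2 - (x.1.1 + x.2.1) = 0 := by rw [h5, sub_self]
      have h7 : x.1.2 + -x.2.1 - x.1.1 + x.2.2 = 0 := by
        rw [← this]; abel
      exact eq_neg_of_add_eq_zero_left h7
    rw [h6]; exact h4
  · intro x hx y hy hxy
    simp only [Finset.coe_filter, Finset.mem_product, Set.mem_setOf_eq, Finset.mem_neg'] at hx hy
    simp only [Prod.mk.injEq, neg_inj] at hxy
    obtain ⟨e1, e2, e3⟩ := hxy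
    have hx5 := hx.2
    have hy5 := hy.2
    have e4 : x.2.2 = y.2.2 := by
      rw [e1, e2, e3, hy5] at hx5
      exact (add_left_cancel hx5).symm
    exact Prod.ext (Prod.ext e1 e2) (Prod.ext e3 e4)

open scoped Classical in
/-- additive energy -/
theorem energy_triples {V : Type} [AddCommGroup V] (B : Finset V) :
    ((B.card : ℝ)) ^ 4 ≤ ((B - B).card : ℝ) *
      (((B ×ˢ (B ×ˢ B)).filter (fun x => x.2.1 + x.2.2 - x.1 ∈ B)).card : ℝ) := by
  have h := Finset.le_card_add_mul_addEnergy B (-B)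
  rw [Finset.card_neg, ← sub_eq_add_neg] at h
  have h2 : B.card ^ 4 ≤ (B - B).card *
      ((B ×ˢ (B ×ˢ B)).filter (fun x => x.2.1 + x.2.2 - x.1 ∈ B)).card := by
    calc B.card ^ 4 = B.card ^ 2 * B.card ^ 2 := by ring
      _ ≤ (B - B).card * Finset.addEnergy B (-B) := h
      _ ≤ _ := Nat.mul_le_mul_left _ (a9_energy_le B)
  exact_mod_cast h2

end Pool.LibLP59
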