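import Pool.Agent.LibLP59.A3
import Pool.Agent.LibLP59.A6
import Pool.Agent.LibLP59.A8
import Pool.Agent.LibLP59.A9

/-
PLAN (A10). N = card ι, K = N + 2. choose_base: z; A1 = {a in A | InBox z a}, B1 = {b in B | for all i, G (z i) b}. base_volume: v, |A1| <= (4(N+1))^N |det|. The entries of v k are <= 2 D
(z i, z 0 in A, b in B1: |z i - b| <= D; unit vectors: 1 <= 2 D). Differences b - b' in B1: entries <= 2 D (through z 0). dual_small on B1 (hG). L := (8 N t D)^N / |det|.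
diff_packing with W = B1 - B1 (LatV: integer vectors; w = b - b'): |B1 - B1| <= L. energy_triples: #Tr >= |B1|^4 / L, Tr = triples (b1,b2,b3) with b4 = b2 + b3 - b1 in B1. For them
2 bf s (b2-b1) (b3-b1) = q(b4) - q(b3) - q(b2) + q(b1), q(b) = bf s (z 0 - b) (z 0 - b), so |bf s (b3-b1) (b2-b1)| <= 2 t D. beta = |B1|/L (<= 1 since |B1| <= |B1 - B1|).
Choose b1 with >= beta |B1|^2 pairs; B2 = {b2 : number of b3 >= beta |B1| / 2}, |B2| >= beta |B1|/2 (sum over b2 of the numbers <= |B2||B1| + |B1| beta|B1|/2).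
For b2 in B2: slab with h = b2 - b1 and W = the vectors b3 - b1: #W |bf h h| <= 2 N t D L, so |bf h h| <= 4 N t D L/(beta|B1|) = 4 N t D/beta^2. Finally beta >= be0 (lower bounds for |B1|, |A1| <= .. |det|).
-/

set_option autoImplicit false

noncomputable section

open MeasureTheory Metric Set Filter

namespace Pool.LibLP59

/-- the quantity beta of the structure theorem -/
def be0 (N : ℕ) (a b D t δ : ℝ) : ℝ :=
  δ ^ (N + 2) * (a * b) / (16 * ((N : ℝ) + 2) ^ 2 * (32 * N * ((N : ℝ) + 1) * t * D) ^ N)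

open scoped Pointwise in
private theorem a10_energy {V : Type} [AddCommGroup V] (B : Finset V) :
    ∃ W : Finset V, (∀ w ∈ W, ∃ b ∈ B, ∃ b' ∈ B, w = b - b') ∧
      ((B.card : ℝ)) ^ 4 ≤ (W.card : ℝ) *
        ∑ b1 ∈ B, ∑ b2 ∈ B, ((@Finset.filter _ (fun b3 => b2 + b3 - b1 ∈ B) (Classical.decPred _) B).card : ℝ) := by
  classical
  obtain ⟨W, hW, hW2⟩ : ∃ W : Finset V, (∀ w ∈ W, ∃ b ∈ B, ∃ b' ∈ B, w = b - b') ∧
      ((B.card : ℝ)) ^ 4 ≤ (W.card : ℝ) *
        (((B ×ˢ (B ×ˢ B)).filter (fun x => x.2.1 + x.2.2 - x.1 ∈ B)).card : ℝ) := by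
    refine ⟨B - B, ?_, (energy_triples B).trans (le_of_eq ?_)⟩
    · intro w hw
      obtain ⟨b, hb, b', hb', h⟩ := Finset.mem_sub.1 hw
      exact ⟨b, hb, b', hb', h.symm⟩
    · congr!
  refine ⟨W, hW, hW2.trans (le_of_eq ?_)⟩
  · congr 1
    rw [Finset.card_filter, Finset.sum_product, Nat.cast_sum]
    refine Finset.sum_congr rfl fun b1 _ => ?_
    rw [Finset.sum_product, Nat.cast_sum]
    refine Finset.sum_congr rfl fun b2 _ => ?_
    rw [← Finset.card_filter]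
    congr!

private theorem a10_rich {V : Type} [AddCommGroup V] (B : Finset V) (hB : B.Nonempty) (L : ℝ)
    (hL : 0 < L) (W : Finset V) (hWL : (W.card : ℝ) ≤ L)
    (h : ((B.card : ℝ)) ^ 4 ≤ (W.card : ℝ) *
        ∑ b1 ∈ B, ∑ b2 ∈ B, ((@Finset.filter _ (fun b3 => b2 + b3 - b1 ∈ B) (Classical.decPred _) B).card : ℝ)) :
    (B.card : ℝ) / L ≤ 1 ∧ ∃ b1 ∈ B, ∃ B2 ⊆ B, (B.card : ℝ) / L * B.card / 2 ≤ (B2.card : ℝ) ∧
      ∀ b2 ∈ B2, (B.card : ℝ) / L * B.card / 2 ≤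
        ((@Finset.filter _ (fun b3 => b2 + b3 - b1 ∈ B) (Classical.decPred _) B).card : ℝ) := by
  classical
  have hb0 : (0 : ℝ) < B.card := by exact_mod_cast hB.card_pos
  obtain ⟨n, hn⟩ : ∃ n : V → V → ℝ, ∀ b1 b2, n b1 b2 =
      ((@Finset.filter _ (fun b3 => b2 + b3 - b1 ∈ B) (Classical.decPred _) B).card : ℝ) :=
    ⟨fun b1 b2 => _, fun b1 b2 => rfl⟩
  have hn0 : ∀ b1 b2, 0 ≤ n b1 b2 := fun b1 b2 => by rw [hn]; positivity
  have hnB : ∀ b1 b2, n b1 b2 ≤ B.card := fun b1 b2 => by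
    rw [hn]
    exact_mod_cast Finset.card_le_card (@Finset.filter_subset _ _ (Classical.decPred _) B)
  have hS0 : 0 ≤ ∑ b1 ∈ B, ∑ b2 ∈ B, n b1 b2 :=
    Finset.sum_nonneg fun b1 _ => Finset.sum_nonneg fun b2 _ => hn0 b1 b2
  have h1 : (B.card : ℝ) ^ 4 ≤ L * ∑ b1 ∈ B, ∑ b2 ∈ B, n b1 b2 := by
    simp only [hn] at hS0 ⊢
    exact h.trans (mul_le_mul_of_nonneg_right hWL hS0)
  have hS1 : ∑ b1 ∈ B, ∑ b2 ∈ B, n b1 b2 ≤ (B.card : ℝ) ^ 3 := by
    have h2 : ∑ b1 ∈ B, ∑ b2 ∈ B, n b1 b2 ≤ ∑ b1 ∈ B, ∑ b2 ∈ B, (B.card : ℝ) :=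
      Finset.sum_le_sum fun b1 _ => Finset.sum_le_sum fun b2 _ => hnB b1 b2
    refine h2.trans (le_of_eq ?_)
    rw [Finset.sum_const, Finset.sum_const, nsmul_eq_mul, nsmul_eq_mul]
    ring
  have hBL : (B.card : ℝ) / L ≤ 1 := by
    rw [div_le_one hL]
    have h2 : (B.card : ℝ) ^ 4 ≤ L * (B.card : ℝ) ^ 3 := h1.trans (mul_le_mul_of_nonneg_left hS1 hL.le)
    have h3 : (0 : ℝ) < (B.card : ℝ) ^ 3 := by positivity
    have h4 : (B.card : ℝ) * (B.card : ℝ) ^ 3 ≤ L * (B.card : ℝ) ^ 3 := by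
      calc (B.card : ℝ) * (B.card : ℝ) ^ 3 = (B.card : ℝ) ^ 4 := by ring
        _ ≤ _ := h2
    exact le_of_mul_le_mul_right h4 h3
  refine ⟨hBL, ?_⟩
  obtain ⟨b1, hb1, h2⟩ : ∃ b1 ∈ B, (B.card : ℝ) ^ 3 / L ≤ ∑ b2 ∈ B, n b1 b2 := by
    refine Finset.exists_le_of_sum_le hB ?_
    rw [Finset.sum_const, nsmul_eq_mul]
    have h3 : (B.card : ℝ) * ((B.card : ℝ) ^ 3 / L) = (B.card : ℝ) ^ 4 / L := by ring
    rw [h3, div_le_iff₀ hL, mul_comm _ L]
    exact h1
  refine ⟨b1, hb1, B.filter (fun b2 => (B.card : ℝ) / L * B.card / 2 ≤ n b1 b2), Finset.filter_subset _ _, ?_, ?_⟩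
  · obtain ⟨T, hT⟩ : ∃ T, T = B.filter (fun b2 => (B.card : ℝ) / L * B.card / 2 ≤ n b1 b2) := ⟨_, rfl⟩
    rw [← hT]
    have h3 : ∑ b2 ∈ B, n b1 b2 ≤ ∑ b2 ∈ B, ((if b2 ∈ T then (B.card : ℝ) else 0) + (B.card : ℝ) / L * B.card / 2) := by
      refine Finset.sum_le_sum fun b2 hb2 => ?_
      have h5 : (0 : ℝ) ≤ (B.card : ℝ) / L * B.card / 2 := by positivity
      by_cases h4 : b2 ∈ T
      · rw [if_pos h4]
        linarith [hnB b1 b2]
      · rw [if_neg h4, zero_add]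
        rw [hT, Finset.mem_filter, not_and, not_le] at h4
        exact (h4 hb2).le
    have h4 : ∑ b2 ∈ B, (if b2 ∈ T then (B.card : ℝ) else 0) = T.card * B.card := by
      rw [← Finset.sum_filter, Finset.sum_const, nsmul_eq_mul]
      congr 2
      congr 1
      ext x
      rw [Finset.mem_filter]
      constructor
      · exact fun h => h.2
      · intro h
        refine ⟨?_, h⟩
        rw [hT] at h
        exact (Finset.mem_filter.1 h).1
    rw [Finset.sum_add_distrib, h4, Finset.sum_const, nsmul_eq_mul] at h3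
    have h5 := h2.trans h3
    have h6 : ((B.card : ℝ) / L * B.card / 2) * B.card ≤ (T.card : ℝ) * B.card := by
      have h7 : (B.card : ℝ) ^ 3 / L = 2 * (((B.card : ℝ) / L * B.card / 2) * B.card) := by ring
      have h8 : (B.card : ℝ) * ((B.card : ℝ) / L * B.card / 2) = ((B.card : ℝ) / L * B.card / 2) * B.card := by ring
      rw [h7, h8] at h5
      linarith
    exact le_of_mul_le_mul_right h6 hb0
  · intro b2 hb2
    have h3 := (Finset.mem_filter.1 hb2).2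
    rw [← hn]
    exact h3

private theorem a10_second {ι : Type} [Fintype ι] (s z b1 b2 b3 : ι → ℝ) :
    2 * bf s (b3 - b1) (b2 - b1) = bf s (z - (b2 + b3 - b1)) (z - (b2 + b3 - b1)) - bf s (z - b3) (z - b3) -
      bf s (z - b2) (z - b2) + bf s (z - b1) (z - b1) := by
  unfold bf
  rw [Finset.mul_sum, ← Finset.sum_sub_distrib, ← Finset.sum_sub_distrib, ← Finset.sum_add_distrib]
  refine Finset.sum_congr rfl fun i _ => ?_
  simp only [Pi.sub_apply, Pi.add_apply]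
  ring

open scoped Classical in
/-- the structure theorem in coordinates -/
theorem core {ι : Type} [Fintype ι] [DecidableEq ι] [Nonempty ι] (hι : 4 ≤ Fintype.card ι)
    (s : ι → ℝ) (hs : ∀ i, |s i| = 1) (A B : Finset (ι → ℝ)) (hA : A.Nonempty)
    (hB : B.Nonempty)
    (hAL : LatV A) (hBL : LatV B) (G : (ι → ℝ) → (ι → ℝ) → Prop) (D t δ : ℝ) (hD : 1 ≤ D)
    (ht : 1 ≤ t) (hδ : 0 < δ) (hAB : ∀ a ∈ A, ∀ b ∈ B, ∀ i, |a i - b i| ≤ D)
    (hG : ∀ a ∈ A, ∀ b ∈ B, G a b → |bf s (a - b) (a - b)| ≤ t * D)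
    (h : δ * A.card * B.card ≤ ∑ a ∈ A, ((B.filter (fun b => G a b)).card : ℝ)) :
    be0 (Fintype.card ι) A.card B.card D t δ ≤ 1 ∧
    ∃ a ∈ A, ∃ b1 ∈ B, ∃ B2 : Finset (ι → ℝ), B2 ⊆ B ∧ G a b1 ∧
      be0 (Fintype.card ι) A.card B.card D t δ *
        (δ ^ (Fintype.card ι + 1) / (8 * ((Fintype.card ι : ℝ) + 2))) * B.card ≤
        (B2.card : ℝ) ∧
      ∀ b ∈ B2, G a b ∧ |bf s (b - b1) (b - b1)| ≤
        4 * (Fintype.card ι : ℝ) * t * D / be0 (Fintype.card ι) A.card B.card D t δ ^ 2 := by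
  obtain ⟨z, hzA, hB1c, hA1c⟩ := choose_base hι A B G δ hδ hA hB h
  obtain ⟨B1, hB1⟩ : ∃ B1, B1 = B.filter (fun b => ∀ i, G (z i) b) := ⟨_, rfl⟩
  obtain ⟨A1, hA1⟩ : ∃ A1, A1 = A.filter (fun a => InBox z a) := ⟨_, rfl⟩
  rw [← hB1] at hB1c
  rw [← hA1] at hA1c
  have hB1m : ∀ b, b ∈ B1 ↔ b ∈ B ∧ ∀ i, G (z i) b := fun b => by rw [hB1, Finset.mem_filter]
  have hB1B : ∀ b ∈ B1, b ∈ B := fun b hb => ((hB1m b).1 hb).1
  obtain ⟨N, hN⟩ : ∃ N : ℕ, N = Fintype.card ι := ⟨_, rfl⟩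
  obtain ⟨v, hv, hdet, hvol⟩ := base_volume z A1
    (fun a ha b hb => hAL a (by rw [hA1] at ha; exact (Finset.mem_filter.1 ha).1) b
      (by rw [hA1] at hb; exact (Finset.mem_filter.1 hb).1))
    (fun a ha => by rw [hA1] at ha; exact (Finset.mem_filter.1 ha).2)
  have hD0 : (0 : ℝ) < D := by linarith
  have ht0 : (0 : ℝ) < t := by linarith
  obtain ⟨b0, hb0⟩ := hB
  obtain ⟨a0, ha0⟩ := hA
  have hvD : ∀ k i, |v k i| ≤ 2 * D := by
    intro k i
    rcases hv k with ⟨j, hj⟩ | ⟨j, hj⟩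
    · rw [hj, Pi.sub_apply]
      have e1 := hAB (z j) (hzA j) b0 hb0 i
      have e2 := hAB (z 0) (hzA 0) b0 hb0 i
      rw [abs_le] at e1 e2 ⊢
      constructor <;> linarith
    · rw [hj]
      have : |(Pi.single j (1 : ℝ) : ι → ℝ) i| ≤ 1 := by
        by_cases hij : i = j
        · subst hij
          simp
        · rw [Pi.single_eq_of_ne hij]
          simp
      linarith
  have hBD : ∀ b ∈ B, ∀ b' ∈ B, ∀ i, |b i - b' i| ≤ 2 * D := by
    intro b hb b' hb' i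
    have e1 := hAB a0 ha0 b hb i
    have e2 := hAB a0 ha0 b' hb' i
    rw [abs_le] at e1 e2 ⊢
    constructor <;> linarith
  have hq : ∀ b ∈ B1, ∀ i, |bf s (z i - b) (z i - b)| ≤ t * D := fun b hb i =>
    hG (z i) (hzA i) b (hB1B b hb) (((hB1m b).1 hb).2 i)
  have hdual := dual_small s hs z v hv D t hD0.le ht B1 hq
    (fun b hb b' hb' => hBD b (hB1B b hb) b' (hB1B b' hb'))
  have hdp : 0 < |(Matrix.of v).det| := abs_pos.2 hdet
  have hNR : (0 : ℝ) < (Fintype.card ι : ℝ) := by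
    have : (4 : ℝ) ≤ (Fintype.card ι : ℝ) := by exact_mod_cast hι
    linarith
  obtain ⟨L, hL⟩ : ∃ L : ℝ, L = (8 * (Fintype.card ι : ℝ) * t * D) ^ Fintype.card ι / |(Matrix.of v).det| := ⟨_, rfl⟩
  have hLp : 0 < L := by rw [hL]; positivity
  have hbc : (0 : ℝ) < B.card := by exact_mod_cast Finset.card_pos.2 ⟨b0, hb0⟩
  have hac : (0 : ℝ) < A.card := by exact_mod_cast Finset.card_pos.2 ⟨a0, ha0⟩
  have hB1pos : (0 : ℝ) < B1.card := lt_of_lt_of_le (by positivity) hB1c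
  have hB1ne : B1.Nonempty := Finset.card_pos.1 (by exact_mod_cast hB1pos)
  obtain ⟨W, hWm, hWe⟩ := a10_energy B1
  have hWlat : LatV W := by
    intro w hw w' hw' i
    obtain ⟨b, hb, b', hb', rfl⟩ := hWm w hw
    obtain ⟨c, hc, c', hc', rfl⟩ := hWm w' hw'
    obtain ⟨n, hn⟩ := hBL b (hB1B b hb) b' (hB1B b' hb') i
    obtain ⟨m, hm⟩ := hBL c (hB1B c hc) c' (hB1B c' hc') i
    refine ⟨n - m, ?_⟩
    rw [Pi.sub_apply, Pi.sub_apply, hn, hm]
    push_cast
    ring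
  have hWp := diff_packing s hs v D t hD0.le ht hvD W hWlat (by
    intro w hw k
    obtain ⟨b, hb, b', hb', rfl⟩ := hWm w hw
    exact hdual b hb b' hb' k)
  have hWL : (W.card : ℝ) ≤ L := by
    rw [hL, le_div_iff₀ hdp]
    exact hWp
  obtain ⟨hβ1, b1, hb1, B2, hB2, hB2c, hB2n⟩ := a10_rich B1 hB1ne L hLp W hWL hWe
  obtain ⟨β, hβ⟩ : ∃ β : ℝ, β = (B1.card : ℝ) / L := ⟨_, rfl⟩
  rw [← hβ] at hβ1 hB2c hB2n
  have hβp : 0 < β := by rw [hβ]; positivity
  obtain ⟨β0, hβ0⟩ : ∃ β0 : ℝ, β0 = be0 (Fintype.card ι) A.card B.card D t δ := ⟨_, rfl⟩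
  have hβ0p : 0 < β0 := by
    rw [hβ0]
    unfold be0
    positivity
  have hβ0β : β0 ≤ β := by
    rw [hβ0, hβ, hL]
    unfold be0
    have e1 : (B1.card : ℝ) / ((8 * (Fintype.card ι : ℝ) * t * D) ^ Fintype.card ι / |(Matrix.of v).det|) =
        (B1.card : ℝ) * |(Matrix.of v).det| / (8 * (Fintype.card ι : ℝ) * t * D) ^ Fintype.card ι := by
      field_simp
    rw [e1, div_le_div_iff₀ (by positivity) (by positivity)]
    have e2 : (32 * (Fintype.card ι : ℝ) * ((Fintype.card ι : ℝ) + 1) * t * D) ^ Fintype.card ι =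
        (4 * ((Fintype.card ι : ℝ) + 1)) ^ Fintype.card ι * (8 * (Fintype.card ι : ℝ) * t * D) ^ Fintype.card ι := by
      rw [← mul_pow]
      congr 1
      ring
    rw [e2]
    have e3 : δ ^ (Fintype.card ι + 2) * ((A.card : ℝ) * B.card) ≤
        16 * ((Fintype.card ι : ℝ) + 2) ^ 2 * ((B1.card : ℝ) * A1.card) := by
      have f1 := mul_le_mul hB1c hA1c (by positivity) hB1pos.le
      have f2 : δ ^ (Fintype.card ι + 1) / (4 * ((Fintype.card ι : ℝ) + 2)) * B.card *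
          (δ / (4 * ((Fintype.card ι : ℝ) + 2)) * A.card) =
          δ ^ (Fintype.card ι + 2) * ((A.card : ℝ) * B.card) / (16 * ((Fintype.card ι : ℝ) + 2) ^ 2) := by
        rw [pow_succ δ (Fintype.card ι + 1)]
        field_simp
        ring
      rw [f2, div_le_iff₀ (by positivity)] at f1
      linarith
    have e4 : δ ^ (Fintype.card ι + 2) * ((A.card : ℝ) * B.card) ≤
        16 * ((Fintype.card ι : ℝ) + 2) ^ 2 * ((B1.card : ℝ) *
          ((4 * ((Fintype.card ι : ℝ) + 1)) ^ Fintype.card ι * |(Matrix.of v).det|)) := by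
      refine e3.trans ?_
      gcongr
    calc δ ^ (Fintype.card ι + 2) * ((A.card : ℝ) * B.card) * (8 * (Fintype.card ι : ℝ) * t * D) ^ Fintype.card ι ≤
        16 * ((Fintype.card ι : ℝ) + 2) ^ 2 * ((B1.card : ℝ) *
          ((4 * ((Fintype.card ι : ℝ) + 1)) ^ Fintype.card ι * |(Matrix.of v).det|)) *
          (8 * (Fintype.card ι : ℝ) * t * D) ^ Fintype.card ι := by gcongr
      _ = _ := by ring
  have hb1B := hB1B b1 hb1
  refine ⟨by rw [← hβ0]; exact hβ0β.trans hβ1, z 0, hzA 0, b1, hb1B, B2, fun b hb => hB1B b (hB2 hb),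
    ((hB1m b1).1 hb1).2 0, ?_, ?_⟩
  · rw [← hβ0]
    refine le_trans ?_ hB2c
    have e1 : β0 * (δ ^ (Fintype.card ι + 1) / (8 * ((Fintype.card ι : ℝ) + 2))) * B.card =
        β0 * (δ ^ (Fintype.card ι + 1) / (4 * ((Fintype.card ι : ℝ) + 2)) * B.card) / 2 := by
      field_simp
      ring
    rw [e1]
    have e2 := mul_le_mul hβ0β hB1c (by positivity) hβp.le
    linarith
  · intro b hb
    have hbB1 := hB2 hb
    refine ⟨((hB1m b).1 hbB1).2 0, ?_⟩
    rw [← hβ0]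
    obtain ⟨T, hT⟩ : ∃ T, T = @Finset.filter _ (fun b3 => b + b3 - b1 ∈ B1) (Classical.decPred _) B1 := ⟨_, rfl⟩
    have hTc := hB2n b hb
    rw [← hT] at hTc
    have hTm : ∀ x ∈ T, x ∈ B1 ∧ b + x - b1 ∈ B1 := by
      intro x hx
      rw [hT] at hx
      exact (@Finset.mem_filter _ _ (Classical.decPred _) _ _).1 hx
    have hsl := slab s hs v hdet D t hD0.le ht hvD (b - b1)
      (fun i => by rw [Pi.sub_apply]; exact hBD b (hB1B b hbB1) b1 hb1B i) (fun k => hdual b hbB1 b1 hb1 k)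
      (T.image (fun x => x - b1)) (by
        intro x hx y hy i
        obtain ⟨x', hx', rfl⟩ := Finset.mem_image.1 hx
        obtain ⟨y', hy', rfl⟩ := Finset.mem_image.1 hy
        obtain ⟨n, hn⟩ := hBL x' (hB1B x' (hTm x' hx').1) y' (hB1B y' (hTm y' hy').1) i
        refine ⟨n, ?_⟩
        rw [← hn, Pi.sub_apply, Pi.sub_apply]
        ring) (by
        intro x hx k
        obtain ⟨x', hx', rfl⟩ := Finset.mem_image.1 hx
        exact hdual x' (hTm x' hx').1 b1 hb1 k) (by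
        intro x hx
        obtain ⟨x', hx', rfl⟩ := Finset.mem_image.1 hx
        have g1 := hq _ (hTm x' hx').2 0
        have g2 := hq _ (hTm x' hx').1 0
        have g3 := hq _ hbB1 0
        have g4 := hq _ hb1 0
        have g5 := a10_second s (z 0) b1 b x'
        rw [abs_le] at g1 g2 g3 g4 ⊢
        constructor <;> linarith)
    rw [Finset.card_image_of_injective _ (fun x y hxy => by simpa using hxy)] at hsl
    have hq0 : 0 ≤ |bf s (b - b1) (b - b1)| := abs_nonneg _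
    have e1 : (T.card : ℝ) * |bf s (b - b1) (b - b1)| ≤ 2 * (Fintype.card ι : ℝ) * t * D * L := by
      rw [hL, ← mul_div_assoc, le_div_iff₀ hdp]
      exact hsl
    have e2 : β * B1.card / 2 * |bf s (b - b1) (b - b1)| ≤ 2 * (Fintype.card ι : ℝ) * t * D * L :=
      (mul_le_mul_of_nonneg_right hTc hq0).trans e1
    have e3 : (B1.card : ℝ) = β * L := by
      rw [hβ]
      field_simp
    rw [e3] at e2
    have e4 : β ^ 2 * |bf s (b - b1) (b - b1)| ≤ 4 * (Fintype.card ι : ℝ) * t * D := by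
      have e5 : (β ^ 2 * |bf s (b - b1) (b - b1)|) * L ≤ (4 * (Fintype.card ι : ℝ) * t * D) * L := by
        linarith
      exact le_of_mul_le_mul_right e5 hLp
    have e6 : |bf s (b - b1) (b - b1)| ≤ 4 * (Fintype.card ι : ℝ) * t * D / β ^ 2 := by
      rw [le_div_iff₀ (by positivity)]
      linarith
    refine e6.trans ?_
    gcongr

end Pool.LibLP59
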