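import Pool.Agent.LibLP59.Defs

/-
PLAN (A2). box_index: the card ι + 2 vectors (x i, 1) in (ι → ℝ) x ℝ (dimension card ι + 1) are linearly dependent: Fintype.not_linearIndependent_iff
(LinearIndependent.fintype_card_le_finrank): g not identically 0 with sum g i x i = 0 and sum g i = 0. Choose j with |g j| maximal (> 0); mu i = - g i / g j for i <> j, mu j = 0.
box_count: tuples x in X^(N+2), N = card ι: for each x some j with x j in the box of the others z = j.removeNth x (Fin.sum_univ_succAbove turns box_index into InBox z (x j)). So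
|X|^(N+2) <= sum over j of #{x : InBox (removeNth j x) (x j)} and for every j this number is sum over z in X^(N+1) of #{a in X : InBox z a} (x = Fin.insertNth j a z,
Fin.insertNthEquiv).
-/

set_option autoImplicit false

noncomputable section

open MeasureTheory Metric Set Filter

namespace Pool.LibLP59

/-- among card ι + 2 points one is an affine combination of the others with small coefficients -/
theorem box_index {ι : Type} [Fintype ι] (x : Fin (Fintype.card ι + 2) → ι → ℝ) :
    ∃ (j : Fin (Fintype.card ι + 2)) (μ : Fin (Fintype.card ι + 2) → ℝ), μ j = 0 ∧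
      ∑ i, μ i = 1 ∧ (∀ i, |μ i| ≤ 1) ∧ x j = ∑ i, μ i • x i := by
  classical
  have h1 : ¬ LinearIndependent ℝ
      (fun i : Fin (Fintype.card ι + 2) => ((x i, (1 : ℝ)) : (ι → ℝ) × ℝ)) := by
    intro h
    have h2 := h.fintype_card_le_finrank
    rw [Fintype.card_fin, Module.finrank_prod, Module.finrank_fintype_fun_eq_card,
      Module.finrank_self] at h2
    omega
  rw [Fintype.not_linearIndependent_iff] at h1
  obtain ⟨g, hg, i₀, hi₀⟩ := h1
  have hg1 : ∑ i, g i • x i = 0 := by
    have h2 := congrArg Prod.fst hg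
    rw [Prod.fst_sum] at h2
    simpa using h2
  have hg2 : ∑ i, g i = 0 := by
    have h2 := congrArg Prod.snd hg
    rw [Prod.snd_sum] at h2
    simpa using h2
  obtain ⟨j, hj⟩ := Finite.exists_max (fun i => |g i|)
  have hj0 : g j ≠ 0 := by
    intro h
    have h2 := hj i₀
    rw [h, abs_zero] at h2
    exact hi₀ (abs_nonpos_iff.1 h2)
  have hsum : ∀ (M : Type) [AddCommGroup M] [Module ℝ M] (y : Fin (Fintype.card ι + 2) → M),
      ∑ i, (-(g i / g j) + if i = j then (1 : ℝ) else 0) • y i =
        -((g j)⁻¹ • ∑ i, g i • y i) + y j := by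
    intro M _ _ y
    rw [Finset.smul_sum, ← Finset.sum_neg_distrib]
    have h3 : y j = ∑ i, (if i = j then (1 : ℝ) else 0) • y i := by
      simp
    conv_rhs => rw [h3]
    rw [← Finset.sum_add_distrib]
    refine Finset.sum_congr rfl fun i _ => ?_
    rw [add_smul, neg_smul, smul_smul, div_eq_inv_mul]
  refine ⟨j, fun i => -(g i / g j) + if i = j then (1 : ℝ) else 0, ?_, ?_, ?_, ?_⟩
  · simp [div_self hj0]
  · have h2 := hsum ℝ (fun _ => 1)
    simp only [smul_eq_mul, mul_one] at h2
    rw [h2, hg2]
    simp
  · intro i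
    rcases eq_or_ne i j with h | h
    · subst h
      simp [div_self hj0]
    · simp only [if_neg h, add_zero, abs_neg, abs_div]
      exact div_le_one_of_le₀ (hj i) (abs_nonneg _)
  · have h2 := hsum (ι → ℝ) x
    rw [h2, hg1]
    simp

open scoped Classical in
/-- on the average the box of N+1 points of X contains a fixed portion of X -/
theorem box_count {ι : Type} [Fintype ι] (X : Finset (ι → ℝ)) :
    (X.card : ℝ) ^ (Fintype.card ι + 2) ≤ ((Fintype.card ι : ℝ) + 2) *
      ∑ z ∈ Fintype.piFinset (fun _ : Fin (Fintype.card ι + 1) => X),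
        ((X.filter (fun a => InBox z a)).card : ℝ) := by
  have h1 : (Fintype.piFinset (fun _ : Fin (Fintype.card ι + 2) => X)).card ≤
      ∑ j : Fin (Fintype.card ι + 2),
        ((Fintype.piFinset (fun _ : Fin (Fintype.card ι + 2) => X)).filter
          (fun x => InBox (fun k => x (j.succAbove k)) (x j))).card := by
    refine le_trans (Finset.card_le_card ?_) Finset.card_biUnion_le
    intro x hx
    rw [Finset.mem_biUnion]
    obtain ⟨j, μ, h0, h1, h2, h3⟩ := box_index x
    refine ⟨j, Finset.mem_univ _, Finset.mem_filter.2 ⟨hx, fun k => μ (j.succAbove k), ?_, ?_, ?_⟩⟩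
    · rw [Fin.sum_univ_succAbove _ j, h0, zero_add] at h1
      exact h1
    · intro k
      exact h2 _
    · rw [Fin.sum_univ_succAbove _ j, h0, zero_smul, zero_add] at h3
      exact h3
  have h2 : ∀ j : Fin (Fintype.card ι + 2),
      ((Fintype.piFinset (fun _ : Fin (Fintype.card ι + 2) => X)).filter
          (fun x => InBox (fun k => x (j.succAbove k)) (x j))).card ≤
        ∑ z ∈ Fintype.piFinset (fun _ : Fin (Fintype.card ι + 1) => X),
          (X.filter (fun a => InBox z a)).card := by
    intro j
    rw [← Finset.card_sigma]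
    refine Finset.card_le_card_of_injOn
      (fun x => (⟨fun k => x (j.succAbove k), x j⟩ :
        (_ : Fin (Fintype.card ι + 1) → ι → ℝ) × (ι → ℝ))) ?_ ?_
    · intro x hx
      rw [Finset.mem_coe, Finset.mem_filter, Fintype.mem_piFinset] at hx
      rw [Finset.mem_coe, Finset.mem_sigma, Fintype.mem_piFinset, Finset.mem_filter]
      exact ⟨fun k => hx.1 _, hx.1 j, hx.2⟩
    · intro x _ y _ hxy
      have h3 : (fun k => x (j.succAbove k)) = fun k => y (j.succAbove k) :=
        congrArg (fun z : (_ : Fin (Fintype.card ι + 1) → ι → ℝ) × (ι → ℝ) => z.1) hxy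
      have h4 : x j = y j :=
        congrArg (fun z : (_ : Fin (Fintype.card ι + 1) → ι → ℝ) × (ι → ℝ) => z.2) hxy
      funext i
      rcases Fin.eq_self_or_eq_succAbove j i with h5 | ⟨k, h5⟩
      · rw [h5, h4]
      · rw [h5]
        exact congrFun h3 k
  have h3 : X.card ^ (Fintype.card ι + 2) ≤ (Fintype.card ι + 2) *
      ∑ z ∈ Fintype.piFinset (fun _ : Fin (Fintype.card ι + 1) => X),
        (X.filter (fun a => InBox z a)).card := by
    rw [Fintype.card_piFinset_const] at h1
    refine h1.trans ((Finset.sum_le_sum fun j _ => h2 j).trans ?_)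
    rw [Finset.sum_const, Finset.card_univ, Fintype.card_fin, smul_eq_mul]
  exact_mod_cast h3

end Pool.LibLP59
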