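import Pool.Agent.LibLP59.A1
import Pool.Agent.LibLP59.A2

/-
PLAN (A3). n = N+1, K = N+2, N = card ι >= 4. A_b = {a in A | G a b}, W = sum_b |A_b|^n >= delta^n |A|^n |B| > 0 (power_mean). Suppose the conclusion fails. S := sum_b sum_{z in A_b^n}
#{x in A_b : InBox z x} / |A_b| >= W / K (box_count for X = A_b, those with |A_b| > 0). Split the pairs (b, z), every term is <= 1: (1) z with fewer than delta^n/(4K) |B| common neighbours:
number of such pairs = sum over these z in A^n of #(common neighbours) <= |A|^n delta^n |B|/(4K) <= W/(4K); (2) |A_b| < delta |A|/2: number of pairs <= |B| (delta|A|/2)^n <= W/2^n < W/(4K)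
(2^(N+1) > 4(N+2) for N >= 4); (3) the rest: #{x in A_b : InBox z x} <= #{x in A : InBox z x} < delta |A|/(4K) <= |A_b|/(2K): sum <= W/(2K). Total < W/K: contradiction.
-/

set_option autoImplicit false

noncomputable section

open MeasureTheory Metric Set Filter

namespace Pool.LibLP59

open scoped Classical in
private theorem a3_core {Z β : Type} (Zs : Finset Z) (B : Finset β) (R : Z → β → Prop) (n : ℕ)
    (al : β → ℝ) (t : β → Z → ℝ) (c1 m q K : ℝ) (hal : ∀ b ∈ B, 0 ≤ al b) (hc1 : 0 ≤ c1)
    (hm : 0 ≤ m) (hK : 0 ≤ K)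
    (hcard : ∀ b ∈ B, ((Zs.filter (fun z => R z b)).card : ℝ) = al b ^ n)
    (ht : ∀ b ∈ B, ∀ z ∈ Zs, R z b → t b z ≤
      (if ((B.filter (fun b => R z b)).card : ℝ) < c1 then (1 : ℝ) else 0) +
        (if al b < m then (1 : ℝ) else 0) + q)
    (hW : ∀ b ∈ B, al b ^ n ≤ K * ∑ z ∈ Zs.filter (fun z => R z b), t b z) :
    ∑ b ∈ B, al b ^ n ≤ K * (Zs.card * c1 + B.card * m ^ n + q * ∑ b ∈ B, al b ^ n) := by
  have h1 : ∑ b ∈ B, al b ^ n ≤ K * ∑ b ∈ B, ∑ z ∈ Zs.filter (fun z => R z b), t b z := by
    rw [Finset.mul_sum]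
    exact Finset.sum_le_sum hW
  refine h1.trans (mul_le_mul_of_nonneg_left ?_ hK)
  have h2 : ∑ b ∈ B, ∑ z ∈ Zs.filter (fun z => R z b), t b z ≤
      ∑ b ∈ B, ∑ z ∈ Zs.filter (fun z => R z b),
        ((if ((B.filter (fun b => R z b)).card : ℝ) < c1 then (1 : ℝ) else 0) +
        (if al b < m then (1 : ℝ) else 0) + q) := by
    refine Finset.sum_le_sum fun b hb => Finset.sum_le_sum fun z hz => ?_
    rw [Finset.mem_filter] at hz
    exact ht b hb z hz.1 hz.2
  refine h2.trans ?_
  have h3 : ∑ b ∈ B, ∑ z ∈ Zs.filter (fun z => R z b),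
        (if ((B.filter (fun b => R z b)).card : ℝ) < c1 then (1 : ℝ) else 0) ≤ Zs.card * c1 := by
    have h3a : ∑ b ∈ B, ∑ z ∈ Zs.filter (fun z => R z b),
        (if ((B.filter (fun b => R z b)).card : ℝ) < c1 then (1 : ℝ) else 0) =
        ∑ z ∈ Zs, ∑ b ∈ B.filter (fun b => R z b),
        (if ((B.filter (fun b => R z b)).card : ℝ) < c1 then (1 : ℝ) else 0) := by
      simp only [Finset.sum_filter]
      rw [Finset.sum_comm]
    rw [h3a]
    have h3b : ∀ z ∈ Zs, ∑ b ∈ B.filter (fun b => R z b),
        (if ((B.filter (fun b => R z b)).card : ℝ) < c1 then (1 : ℝ) else 0) ≤ c1 := by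
      intro z hz
      rw [Finset.sum_const, nsmul_eq_mul]
      split_ifs with hlt
      · rw [mul_one]; exact hlt.le
      · rw [mul_zero]; exact hc1
    have := Finset.sum_le_sum h3b
    rwa [Finset.sum_const, nsmul_eq_mul] at this
  have h4 : ∑ b ∈ B, ∑ z ∈ Zs.filter (fun z => R z b),
        (if al b < m then (1 : ℝ) else 0) ≤ B.card * m ^ n := by
    have h4b : ∀ b ∈ B, ∑ z ∈ Zs.filter (fun z => R z b),
        (if al b < m then (1 : ℝ) else 0) ≤ m ^ n := by
      intro b hb
      rw [Finset.sum_const, nsmul_eq_mul, hcard b hb]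
      split_ifs with hlt
      · rw [mul_one]; exact pow_le_pow_left₀ (hal b hb) hlt.le n
      · rw [mul_zero]; positivity
    have := Finset.sum_le_sum h4b
    rwa [Finset.sum_const, nsmul_eq_mul] at this
  have h5 : ∑ b ∈ B, ∑ z ∈ Zs.filter (fun z => R z b), q = q * ∑ b ∈ B, al b ^ n := by
    rw [Finset.mul_sum]
    refine Finset.sum_congr rfl fun b hb => ?_
    rw [Finset.sum_const, nsmul_eq_mul, hcard b hb, mul_comm]
  simp only [Finset.sum_add_distrib]
  linarith

private theorem a3_two (N : ℕ) (hN : 4 ≤ N) : 4 * ((N : ℝ) + 2) < 2 ^ (N + 1) := by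
  induction N, hN using Nat.le_induction with
  | base => norm_num
  | succ k hk ih =>
    have hk' : (4 : ℝ) ≤ k := by exact_mod_cast hk
    rw [pow_succ]
    push_cast
    nlinarith

open scoped Classical in
/-- a simplex with many common neighbours whose box contains many points -/
theorem choose_base {ι β : Type} [Fintype ι] (hι : 4 ≤ Fintype.card ι) (A : Finset (ι → ℝ))
    (B : Finset β) (G : (ι → ℝ) → β → Prop) (δ : ℝ) (hδ : 0 < δ) (hA : A.Nonempty)
    (hB : B.Nonempty)
    (h : δ * A.card * B.card ≤ ∑ a ∈ A, ((B.filter (fun b => G a b)).card : ℝ)) :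
    ∃ z : Fin (Fintype.card ι + 1) → ι → ℝ, (∀ i, z i ∈ A) ∧
      δ ^ (Fintype.card ι + 1) / (4 * ((Fintype.card ι : ℝ) + 2)) * B.card ≤
        ((B.filter (fun b => ∀ i, G (z i) b)).card : ℝ) ∧
      δ / (4 * ((Fintype.card ι : ℝ) + 2)) * A.card ≤
        ((A.filter (fun a => InBox z a)).card : ℝ) := by
  by_contra hcon
  push Not at hcon
  set n : ℕ := Fintype.card ι + 1 with hn
  have hK0 : (0 : ℝ) < (Fintype.card ι : ℝ) + 2 := by positivity
  have hA0 : (0 : ℝ) < A.card := by exact_mod_cast hA.card_pos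
  have hB0 : (0 : ℝ) < B.card := by exact_mod_cast hB.card_pos
  have hWlow := power_mean A B G δ hδ.le n (by omega) hB h
  have hcore := a3_core (Fintype.piFinset (fun _ : Fin n => A)) B
    (fun z b => ∀ i, G (z i) b) n (fun b => ((A.filter (fun a => G a b)).card : ℝ))
    (fun b z => (((A.filter (fun a => G a b)).filter (fun a => InBox z a)).card : ℝ) /
      ((A.filter (fun a => G a b)).card : ℝ))
    (δ ^ n / (4 * ((Fintype.card ι : ℝ) + 2)) * B.card) (δ * A.card / 2)
    (1 / (2 * ((Fintype.card ι : ℝ) + 2))) ((Fintype.card ι : ℝ) + 2)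
    (fun b _ => by positivity) (by positivity) (by positivity) hK0.le
    ?_ ?_ ?_
  · set W : ℝ := ∑ b ∈ B, ((A.filter (fun a => G a b)).card : ℝ) ^ n with hW
    have hcardZ : ((Fintype.piFinset (fun _ : Fin n => A)).card : ℝ) = (A.card : ℝ) ^ n := by
      rw [Fintype.card_piFinset_const]
      push_cast
      rfl
    rw [hcardZ] at hcore
    have h2 : 4 * ((Fintype.card ι : ℝ) + 2) < 2 ^ n := a3_two _ hι
    have hWpos : 0 < W := lt_of_lt_of_le (by positivity) hWlow
    set K : ℝ := (Fintype.card ι : ℝ) + 2 with hK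
    have e1 : K * ((A.card : ℝ) ^ n * (δ ^ n / (4 * K) * B.card)) =
        (δ ^ n * (A.card : ℝ) ^ n * B.card) / 4 := by
      field_simp
    have e2 : (B.card : ℝ) * (δ * A.card / 2) ^ n =
        (δ ^ n * (A.card : ℝ) ^ n * B.card) / 2 ^ n := by
      rw [div_pow, mul_pow]
      ring
    have e3 : K * (1 / (2 * K) * W) = W / 2 := by
      field_simp
    have e4 : K * ((δ ^ n * (A.card : ℝ) ^ n * B.card) / 2 ^ n) < W / 4 := by
      have : K * ((δ ^ n * (A.card : ℝ) ^ n * B.card) / 2 ^ n) ≤ K * (W / 2 ^ n) := by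
        gcongr
      refine this.trans_lt ?_
      rw [mul_div_assoc', div_lt_div_iff₀ (by positivity) (by norm_num)]
      nlinarith
    rw [mul_add, mul_add, e1, e2, e3] at hcore
    linarith
  · intro b hb
    have hset : ∀ inst : DecidablePred (fun z : Fin n → ι → ℝ => ∀ i, G (z i) b),
        @Finset.filter _ (fun z : Fin n → ι → ℝ => ∀ i, G (z i) b) inst
          (Fintype.piFinset (fun _ : Fin n => A)) =
        Fintype.piFinset (fun _ : Fin n => A.filter (fun a => G a b)) := by
      intro inst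
      ext z
      simp only [Finset.mem_filter, Fintype.mem_piFinset]
      exact ⟨fun hz i => ⟨hz.1 i, hz.2 i⟩, fun hz => ⟨fun i => (hz i).1, fun i => (hz i).2⟩⟩
    rw [hset, Fintype.card_piFinset_const]
    push_cast
    rfl
  · intro b hb z hz hzb
    rw [Fintype.mem_piFinset] at hz
    have hle1 : (((A.filter (fun a => G a b)).filter (fun a => InBox z a)).card : ℝ) /
      ((A.filter (fun a => G a b)).card : ℝ) ≤ 1 := by
      apply div_le_one_of_le₀ _ (by positivity)
      exact_mod_cast Finset.card_le_card (Finset.filter_subset _ _)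
    have hq : (0 : ℝ) ≤ 1 / (2 * ((Fintype.card ι : ℝ) + 2)) := by positivity
    split_ifs with h1 h2 h2
    · linarith
    · linarith
    · linarith
    · have hbox := hcon z hz (by
        have h1' : δ ^ n / (4 * ((Fintype.card ι : ℝ) + 2)) * B.card ≤ _ := not_lt.mp h1
        convert h1')
      have h2' := not_lt.mp h2
      have hα : (0 : ℝ) < ((A.filter (fun a => G a b)).card : ℝ) :=
        lt_of_lt_of_le (by positivity) h2'
      have hsub : (((A.filter (fun a => G a b)).filter (fun a => InBox z a)).card : ℝ) ≤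
          ((A.filter (fun a => InBox z a)).card : ℝ) := by
        exact_mod_cast Finset.card_le_card
          (Finset.filter_subset_filter _ (Finset.filter_subset _ _))
      rw [zero_add, zero_add, div_le_div_iff₀ hα (by positivity)]
      have h3 : (((A.filter (fun a => G a b)).filter (fun a => InBox z a)).card : ℝ) ≤
          δ / (4 * ((Fintype.card ι : ℝ) + 2)) * A.card := hsub.trans hbox.le
      have h4 : δ / (4 * ((Fintype.card ι : ℝ) + 2)) * A.card *
          (2 * ((Fintype.card ι : ℝ) + 2)) = δ * A.card / 2 := by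
        field_simp
        norm_num
      calc _ ≤ δ / (4 * ((Fintype.card ι : ℝ) + 2)) * A.card *
          (2 * ((Fintype.card ι : ℝ) + 2)) := by gcongr
        _ = δ * A.card / 2 := h4
        _ ≤ _ := by rw [one_mul]; exact h2'
  · intro b hb
    have hset : ∀ inst : DecidablePred (fun z : Fin n → ι → ℝ => ∀ i, G (z i) b),
        @Finset.filter _ (fun z : Fin n → ι → ℝ => ∀ i, G (z i) b) inst
          (Fintype.piFinset (fun _ : Fin n => A)) =
        Fintype.piFinset (fun _ : Fin n => A.filter (fun a => G a b)) := by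
      intro inst
      ext z
      simp only [Finset.mem_filter, Fintype.mem_piFinset]
      exact ⟨fun hz i => ⟨hz.1 i, hz.2 i⟩, fun hz => ⟨fun i => (hz i).1, fun i => (hz i).2⟩⟩
    have hbc := box_count (A.filter (fun a => G a b))
    rw [hset]
    rcases (Nat.cast_nonneg ((A.filter (fun a => G a b)).card) : (0 : ℝ) ≤ _).eq_or_lt with h0 | h0
    · rw [← h0, zero_pow (by omega)]
      simp
    · rw [← Finset.sum_div, mul_div_assoc', le_div_iff₀ h0]
      calc _ = ((A.filter (fun a => G a b)).card : ℝ) ^ (Fintype.card ι + 2) := by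
            rw [← pow_succ]
        _ ≤ _ := hbc

end Pool.LibLP59
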