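import Pool.Agent.LibLP59.Defs

/-
PLAN (A4). Among the finitely many v : ι → X (Fintype.piFinset) choose one with |det (Matrix.of v)| maximal; it is >= det of the identity = 1 (v i = Pi.single i 1). For w in X write
w = sum t i v i (the rows are a basis as det is a unit; t = w ᵥ* M⁻¹ or Matrix.cramer of the transpose): det of M with row i replaced by w is t i det M (Matrix.det_updateRow_sum / cramer_apply),
and it is one of the competitors, so |t i| <= 1.
-/

set_option autoImplicit false

noncomputable section

open MeasureTheory Metric Set Filter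

namespace Pool.LibLP59

/-- a basis of maximal determinant -/
theorem exists_basis {ι : Type} [Fintype ι] [DecidableEq ι] (X : Finset (ι → ℝ))
    (hX : ∀ i : ι, (Pi.single i (1 : ℝ) : ι → ℝ) ∈ X) : ∃ v : ι → ι → ℝ, (∀ i, v i ∈ X) ∧
      (Matrix.of v).det ≠ 0 ∧
      ∀ w ∈ X, ∃ t : ι → ℝ, w = ∑ i, t i • v i ∧ ∀ i, |t i| ≤ 1 := by
  classical
  have hmemF : ∀ u : ι → ι → ℝ, u ∈ Fintype.piFinset (fun _ : ι => X) ↔ ∀ i, u i ∈ X := by
    intro u
    exact Fintype.mem_piFinset
  have hne : (Fintype.piFinset (fun _ : ι => X)).Nonempty :=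
    ⟨fun i => Pi.single i 1, (hmemF _).2 hX⟩
  obtain ⟨v, hv, hmax⟩ := Finset.exists_max_image (Fintype.piFinset (fun _ : ι => X))
    (fun v => |(Matrix.of v).det|) hne
  have hvX : ∀ i, v i ∈ X := (hmemF v).1 hv
  have h1 : (1 : ℝ) ≤ |(Matrix.of v).det| := by
    have := hmax (fun i => Pi.single i 1) ((hmemF _).2 hX)
    have h2 : (Matrix.of (fun i : ι => (Pi.single i (1 : ℝ) : ι → ℝ))) = 1 := by
      ext i j
      simp [Matrix.one_apply, Pi.single_apply, eq_comm]
    simp only [h2, Matrix.det_one, abs_one] at this
    exact this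
  have hdet : (Matrix.of v).det ≠ 0 := by
    intro h
    rw [h, abs_zero] at h1
    linarith
  refine ⟨v, hvX, hdet, ?_⟩
  intro w hw
  refine ⟨fun i => ((Matrix.of v).updateRow i w).det / (Matrix.of v).det, ?_, ?_⟩
  · have hc := Matrix.mulVec_cramer (Matrix.of v).transpose w
    rw [Matrix.det_transpose] at hc
    funext j
    have hj := congrFun hc j
    simp only [Matrix.mulVec, dotProduct, Matrix.cramer_transpose_apply, Matrix.transpose_apply,
      Matrix.of_apply, Pi.smul_apply, smul_eq_mul] at hj
    rw [Finset.sum_apply]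
    simp only [Pi.smul_apply, smul_eq_mul]
    have h3 : ∑ i, ((Matrix.of v).updateRow i w).det / (Matrix.of v).det * v i j =
        (∑ i, v i j * ((Matrix.of v).updateRow i w).det) / (Matrix.of v).det := by
      rw [Finset.sum_div]
      exact Finset.sum_congr rfl fun i _ => by ring
    rw [h3, hj]
    field_simp
  · intro i
    have h4 : (Matrix.of v).updateRow i w = Matrix.of (Function.update v i w) := by
      ext a b
      by_cases hab : a = i
      · subst hab
        simp
      · simp [Matrix.updateRow_ne hab, Function.update_of_ne hab]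
    have h5 := hmax (Function.update v i w) ((hmemF _).2 (fun a => by
      by_cases hab : a = i
      · subst hab
        simpa using hw
      · rw [Function.update_of_ne hab]
        exact hvX a))
    rw [abs_div, h4]
    exact div_le_one_of_le₀ h5 (abs_nonneg _)

end Pool.LibLP59
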