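import Pool.Agent.LibLP59.A5

/-
PLAN (A7). dual_small: bilinearity of bf. v k = z i - z 0: bf s (z i - b) (z i - b) - bf s (z 0 - b) (z 0 - b) - (the same with b') = -2 bf s (z i - z 0) (b - b') (s-bilinear, symmetric), four terms
of size <= t D. v k = Pi.single j 1: bf s (b-b') = s j (b j - b' j), <= 2 D <= 2 t D.
diff_packing: packing_lin with M k j = s j * v k j, rho = 2 N t D (N = card ι >= 1), w0 = 0; row sums <= N 2 D; det M = det (of v) * prod s (Matrix.det_mul_row / det_mul_column), |prod s| = 1.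
4 rho = 8 N t D.
-/

set_option autoImplicit false

noncomputable section

open MeasureTheory Metric Set Filter

namespace Pool.LibLP59

private lemma a7_expand {ι : Type} [Fintype ι] (s x x' b b' : ι → ℝ) :
    (bf s (x - b) (x - b) - bf s (x - b') (x - b')) -
      (bf s (x' - b) (x' - b) - bf s (x' - b') (x' - b')) = -2 * bf s (b - b') (x - x') := by
  unfold bf
  rw [← Finset.sum_sub_distrib, ← Finset.sum_sub_distrib, ← Finset.sum_sub_distrib,
    Finset.mul_sum]
  apply Finset.sum_congr rfl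
  intro i _
  simp only [Pi.sub_apply]
  ring

/-- second differences of the quadratic form -/
theorem dual_small {ι : Type} [Fintype ι] [DecidableEq ι] (s : ι → ℝ) (hs : ∀ i, |s i| = 1)
    {n : ℕ} (z : Fin (n + 1) → ι → ℝ) (v : ι → ι → ℝ)
    (hv : ∀ k, (∃ i, v k = z i - z 0) ∨ ∃ j : ι, v k = Pi.single j (1 : ℝ)) (D t : ℝ)
    (hD : 0 ≤ D) (ht : 1 ≤ t) (B : Finset (ι → ℝ))
    (hB : ∀ b ∈ B, ∀ i, |bf s (z i - b) (z i - b)| ≤ t * D)
    (hBD : ∀ b ∈ B, ∀ b' ∈ B, ∀ i, |b i - b' i| ≤ 2 * D) :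
    ∀ b ∈ B, ∀ b' ∈ B, ∀ k, |bf s (b - b') (v k)| ≤ 2 * t * D := by
  intro b hb b' hb' k
  rcases hv k with ⟨i, hi⟩ | ⟨j, hj⟩
  · rw [hi]
    have e := a7_expand s (z i) (z 0) b b'
    have h1 := abs_le.1 (hB b hb i)
    have h2 := abs_le.1 (hB b' hb' i)
    have h3 := abs_le.1 (hB b hb 0)
    have h4 := abs_le.1 (hB b' hb' 0)
    rw [abs_le]
    constructor <;> linarith [h1.1, h1.2, h2.1, h2.2, h3.1, h3.2, h4.1, h4.2]
  · rw [hj]
    have e : bf s (b - b') (Pi.single j (1 : ℝ)) = s j * (b j - b' j) := by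
      unfold bf
      rw [Finset.sum_eq_single j]
      · simp
      · intro i _ hij
        rw [Pi.single_eq_of_ne hij, mul_zero]
      · intro h
        exact absurd (Finset.mem_univ j) h
    rw [e, abs_mul, hs j, one_mul]
    have h1 := hBD b hb b' hb' j
    have h2 : 1 * D ≤ t * D := mul_le_mul_of_nonneg_right ht hD
    linarith

/-- number of lattice vectors almost orthogonal to a basis -/
theorem diff_packing {ι : Type} [Fintype ι] [DecidableEq ι] [Nonempty ι] (s : ι → ℝ)
    (hs : ∀ i, |s i| = 1) (v : ι → ι → ℝ) (D t : ℝ) (hD : 0 ≤ D) (ht : 1 ≤ t)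
    (hv : ∀ k i, |v k i| ≤ 2 * D) (W : Finset (ι → ℝ)) (hW : LatV W)
    (h : ∀ w ∈ W, ∀ k, |bf s w (v k)| ≤ 2 * t * D) :
    (W.card : ℝ) * |(Matrix.of v).det| ≤ (8 * (Fintype.card ι : ℝ) * t * D) ^ Fintype.card ι := by
  have hN : (1 : ℝ) ≤ (Fintype.card ι : ℝ) := by exact_mod_cast Fintype.card_pos
  have hDt : D ≤ t * D := by
    have h2 : 1 * D ≤ t * D := mul_le_mul_of_nonneg_right ht hD
    linarith
  have htD : 0 ≤ t * D := hD.trans hDt
  have key := packing_lin (Matrix.of fun k j => s j * v k j) W hW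
    (fun _ => 2 * (Fintype.card ι : ℝ) * (t * D)) 0 ?_ ?_
  · have hdet : (Matrix.of fun k j => s j * v k j).det = (∏ i, s i) * (Matrix.of v).det :=
      Matrix.det_mul_row s (Matrix.of v)
    have habs : |(Matrix.of fun k j => s j * v k j).det| = |(Matrix.of v).det| := by
      rw [hdet, abs_mul, Finset.abs_prod, Finset.prod_congr rfl (fun i _ => hs i),
        Finset.prod_const_one, one_mul]
    rw [habs, Finset.prod_const, Finset.card_univ] at key
    calc (W.card : ℝ) * |(Matrix.of v).det|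
        ≤ (4 * (2 * (Fintype.card ι : ℝ) * (t * D))) ^ Fintype.card ι := key
      _ = (8 * (Fintype.card ι : ℝ) * t * D) ^ Fintype.card ι := by
        congr 1
        ring
  · intro k
    calc ∑ j, |(Matrix.of fun k j => s j * v k j) k j| ≤ ∑ _j : ι, 2 * D := by
          apply Finset.sum_le_sum
          intro j _
          rw [Matrix.of_apply, abs_mul, hs j, one_mul]
          exact hv k j
      _ = (Fintype.card ι : ℝ) * (2 * D) := by
          rw [Finset.sum_const, Finset.card_univ, nsmul_eq_mul]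
      _ ≤ 2 * (Fintype.card ι : ℝ) * (t * D) := by
          have := mul_le_mul_of_nonneg_left hDt (by linarith : (0 : ℝ) ≤ 2 * (Fintype.card ι : ℝ))
          linarith
  · intro w hw k
    have e : ∑ j, (Matrix.of fun k j => s j * v k j) k j * (w j - (0 : ι → ℝ) j) =
        bf s w (v k) := by
      unfold bf
      apply Finset.sum_congr rfl
      intro j _
      rw [Matrix.of_apply, Pi.zero_apply]
      ring
    rw [e]
    have h1 := h w hw k
    have h2 : 1 * (t * D) ≤ (Fintype.card ι : ℝ) * (t * D) := mul_le_mul_of_nonneg_right hN htD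
    linarith

end Pool.LibLP59
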