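import Pool.Agent.LibLP59.Defs

/-
PLAN (B1). c = b1 - a; w = sgn * c.1/|c.1| with sgn = 1 if 0 <= c.2, else -1 (|c.1| >= D/8 > 0). For b put h = b - b1. Lorentz form <x,y> = inner x.1 y.1 - x.2 y.2, Q x = <x,x>.
|Q c| = ||c.1| - |c.2|| (|c.1| + |c.2|) <= t 16 D (|c.1|, |c.2| <= 8 D), the same for |Q (c + h)| (c + h = b - a). Q(c+h) = Q c + 2 <c,h> + Q h, so |<c,h>| <= D (16 t + Psi/2).
sgn <c,h> = |c.1| (inner w h.1 - h.2) + (|c.1| - |c.2|) h.2 (sgn c.2 = |c.2|), |h.2| <= 16 D (triangle inequality through a), hence |inner h.1 w - h.2| <= 8 (32 t + Psi/2) <= C Psi (t <= Psi).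
|perp w h.1|^2 = |h.1|^2 - (inner h.1 w)^2 = Q h - (inner h.1 w - h.2)(inner h.1 w + h.2) <= D Psi + C Psi 32 D. One C for both. Note inner ℝ (b.1 - b1.1) w as in the statement.
-/

set_option autoImplicit false

noncomputable section

open MeasureTheory Metric Set Filter

namespace Pool.LibLP59

open Pool.LibSR53 Pool.LibTP53

private theorem b1_quad {N T t D : ℝ} (ht : |N - (|T|)| ≤ t) (hN0 : 0 ≤ N) (hN : N ≤ 8 * D)
    (hT : |T| ≤ 8 * D) : |N ^ 2 - T ^ 2| ≤ 16 * t * D := by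
  have h1 : N ^ 2 - T ^ 2 = (N - (|T|)) * (N + |T|) := by
    rw [← sq_abs T]
    ring
  have h2 : 0 ≤ |T| := abs_nonneg T
  have h3 : |N + (|T|)| ≤ 16 * D := by
    rw [abs_of_nonneg (by linarith)]
    linarith
  rw [h1, abs_mul]
  calc |N - (|T|)| * |N + (|T|)| ≤ t * (16 * D) :=
        mul_le_mul ht h3 (abs_nonneg _) ((abs_nonneg _).trans ht)
    _ = 16 * t * D := by ring

private theorem b1_main {N T S s t D Ψ G V I i σ : ℝ} (hD : 1 ≤ D) (ht1 : 1 ≤ t) (htΨ : t ≤ Ψ)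
    (hNT : |N - (|T|)| ≤ t) (hN8 : D / 8 ≤ N) (hN : N ≤ 8 * D) (hT : |T| ≤ 8 * D)
    (hVS : |V - (|S|)| ≤ t) (hV0 : 0 ≤ V) (hV : V ≤ 8 * D) (hS : |S| ≤ 8 * D)
    (hs : s = S - T) (hG0 : 0 ≤ G) (hG : G ≤ 16 * D)
    (hVV : V ^ 2 = N ^ 2 + 2 * I + G ^ 2) (hQ : |G ^ 2 - s ^ 2| ≤ D * Ψ)
    (hσ : σ ^ 2 = 1) (hσT : σ * T = |T|) (hi : N * i = σ * I) (hiG : |i| ≤ G) :
    |i - s| ≤ 8321 * Ψ ∧ G ^ 2 - i ^ 2 ≤ D * (8321 * Ψ) ∧ |s| ≤ 16 * D := by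
  have hN0 : 0 < N := by linarith
  have q1 := b1_quad hNT hN0.le hN hT
  have q2 := b1_quad hVS hV0 hV hS
  have hs16 : |s| ≤ 16 * D := by
    rw [hs]
    have := abs_sub S T
    linarith
  have e1 : |I - T * s| ≤ D * (16 * t + Ψ / 2) := by
    have h1 : 2 * (I - T * s) = (V ^ 2 - S ^ 2) - (N ^ 2 - T ^ 2) - (G ^ 2 - s ^ 2) := by
      rw [hVV, hs]
      ring
    rw [abs_le] at q1 q2 hQ ⊢
    constructor
    · nlinarith [q1.1, q1.2, q2.1, q2.2, hQ.1, hQ.2]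
    · nlinarith [q1.1, q1.2, q2.1, q2.2, hQ.1, hQ.2]
  have e2 : N * (i - s) = σ * (I - T * s) - (N - (|T|)) * s := by
    have h1 : N * i - |T| * s = σ * (I - T * s) := by
      rw [hi, ← hσT]
      ring
    linear_combination h1
  have hσ1 : |σ| = 1 := by
    have h1 : |σ| ^ 2 = 1 := by rw [sq_abs, hσ]
    have h2 := abs_nonneg σ
    nlinarith
  have e3 : N * |i - s| ≤ D * (32 * t + Ψ / 2) := by
    have h1 : N * |i - s| = |N * (i - s)| := by rw [abs_mul, abs_of_pos hN0]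
    rw [h1, e2]
    have h2 := abs_sub (σ * (I - T * s)) ((N - (|T|)) * s)
    rw [abs_mul σ, hσ1, one_mul, abs_mul (N - (|T|))] at h2
    have h3 : |N - (|T|)| * |s| ≤ t * (16 * D) :=
      mul_le_mul hNT hs16 (abs_nonneg _) (by linarith)
    nlinarith
  have e4 : |i - s| ≤ 260 * Ψ := by
    have h1 : D / 8 * |i - s| ≤ N * |i - s| := mul_le_mul_of_nonneg_right hN8 (abs_nonneg _)
    have h2 : D * |i - s| ≤ D * (260 * Ψ) := by nlinarith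
    exact le_of_mul_le_mul_left h2 (by linarith)
  have hΨ : 1 ≤ Ψ := ht1.trans htΨ
  refine ⟨by linarith, ?_, hs16⟩
  have h1 : G ^ 2 - i ^ 2 = (G ^ 2 - s ^ 2) - (i - s) * (i + s) := by ring
  have h2 : |(i - s) * (i + s)| ≤ 260 * Ψ * (32 * D) := by
    rw [abs_mul]
    have h3 : |i + s| ≤ 32 * D := (abs_add_le i s).trans (by linarith)
    exact mul_le_mul e4 h3 (abs_nonneg _) (by linarith)
  rw [h1]
  have h4 := le_abs_self (G ^ 2 - s ^ 2)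
  have h5 := neg_abs_le ((i - s) * (i + s))
  nlinarith

/-- almost isotropic differences among the common null neighbours lie in a fat plank -/
theorem fat (d : ℕ) : ∃ C : ℝ, 0 < C ∧ ∀ (D t Ψ : ℝ) (a b1 : P d), 1 ≤ D → 1 ≤ t → 16 * t ≤ D →
    t ≤ Ψ → Nul D t a b1 → dist a b1 ≤ 8 * D → ∃ w : E d, ‖w‖ = 1 ∧ ∀ b : P d, Nul D t a b →
      dist a b ≤ 8 * D → |‖b.1 - b1.1‖ ^ 2 - (b.2 - b1.2) ^ 2| ≤ D * Ψ →
      |inner ℝ (b.1 - b1.1) w - (b.2 - b1.2)| ≤ C * Ψ ∧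
      ‖perp w (b.1 - b1.1)‖ ^ 2 ≤ D * (C * Ψ) ∧ |b.2 - b1.2| ≤ 16 * D := by
  refine ⟨8321, by norm_num, ?_⟩
  intro D t Ψ a b1 hD ht htD htΨ hN hd
  obtain ⟨hN1, hN2⟩ := hN
  have hdist : ∀ b : P d, dist a b ≤ 8 * D → ‖b.1 - a.1‖ ≤ 8 * D ∧ |b.2 - a.2| ≤ 8 * D := by
    intro b hb
    rw [Prod.dist_eq, max_le_iff, dist_eq_norm, Real.dist_eq, norm_sub_rev, abs_sub_comm] at hb
    exact hb
  obtain ⟨hd1, hd2⟩ := hdist b1 hd
  rw [norm_sub_rev] at hN1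
  rw [norm_sub_rev, abs_sub_comm a.2] at hN2
  have hu0 : 0 < ‖b1.1 - a.1‖ := by linarith
  obtain ⟨σ, hσ, hσT⟩ : ∃ σ : ℝ, σ ^ 2 = 1 ∧ σ * (b1.2 - a.2) = |b1.2 - a.2| := by
    rcases le_or_gt 0 (b1.2 - a.2) with h0 | h0
    · exact ⟨1, by norm_num, by rw [abs_of_nonneg h0, one_mul]⟩
    · exact ⟨-1, by norm_num, by rw [abs_of_neg h0]; ring⟩
  have hw : ‖(σ / ‖b1.1 - a.1‖) • (b1.1 - a.1)‖ = 1 := by
    have h1 : |σ| ^ 2 = 1 := by rw [sq_abs, hσ]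
    have h2 := abs_nonneg σ
    have h3 : |σ| = 1 := by nlinarith
    rw [norm_smul, Real.norm_eq_abs, abs_div, abs_norm, h3]
    field_simp
  refine ⟨(σ / ‖b1.1 - a.1‖) • (b1.1 - a.1), hw, ?_⟩
  intro b hb hdb hQ
  obtain ⟨hb1, hb2⟩ := hb
  obtain ⟨hd3, hd4⟩ := hdist b hdb
  rw [norm_sub_rev, abs_sub_comm a.2] at hb2
  have hg : b.1 - b1.1 = (b.1 - a.1) - (b1.1 - a.1) := by abel
  have hG : ‖b.1 - b1.1‖ ≤ 16 * D := by
    rw [hg]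
    exact (norm_sub_le _ _).trans (by linarith)
  have hVV : ‖b.1 - a.1‖ ^ 2 = ‖b1.1 - a.1‖ ^ 2 + 2 * inner ℝ (b1.1 - a.1) (b.1 - b1.1) +
      ‖b.1 - b1.1‖ ^ 2 := by
    have h1 : b.1 - a.1 = (b1.1 - a.1) + (b.1 - b1.1) := by abel
    rw [h1, norm_add_sq_real]
  have hinn : inner ℝ (b.1 - b1.1) ((σ / ‖b1.1 - a.1‖) • (b1.1 - a.1)) =
      σ / ‖b1.1 - a.1‖ * inner ℝ (b1.1 - a.1) (b.1 - b1.1) := by
    rw [real_inner_smul_right, real_inner_comm]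
  have hi : ‖b1.1 - a.1‖ * inner ℝ (b.1 - b1.1) ((σ / ‖b1.1 - a.1‖) • (b1.1 - a.1)) =
      σ * inner ℝ (b1.1 - a.1) (b.1 - b1.1) := by
    rw [hinn]
    field_simp
  have hiG : |inner ℝ (b.1 - b1.1) ((σ / ‖b1.1 - a.1‖) • (b1.1 - a.1))| ≤ ‖b.1 - b1.1‖ := by
    have h1 := abs_real_inner_le_norm (b.1 - b1.1) ((σ / ‖b1.1 - a.1‖) • (b1.1 - a.1))
    rw [hw, mul_one] at h1
    exact h1
  have hmain := b1_main hD ht htΨ hN2 hN1 hd1 hd2 hb2 (norm_nonneg _) hd3 hd4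
    (s := b.2 - b1.2) (by ring) (norm_nonneg _) hG hVV hQ hσ hσT hi hiG
  refine ⟨hmain.1, ?_, hmain.2.2⟩
  have hperp : ‖perp ((σ / ‖b1.1 - a.1‖) • (b1.1 - a.1)) (b.1 - b1.1)‖ ^ 2 =
      ‖b.1 - b1.1‖ ^ 2 -
        inner ℝ (b.1 - b1.1) ((σ / ‖b1.1 - a.1‖) • (b1.1 - a.1)) ^ 2 := by
    unfold perp
    rw [norm_sub_sq_real, real_inner_smul_right, norm_smul, hw, Real.norm_eq_abs, mul_one, sq_abs]
    ring
  rw [hperp]
  exact hmain.2.1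

end Pool.LibLP59
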