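import Pool.Agent.LibLP59.A10
import Pool.Agent.LibLP59.B1

/-
PLAN (B3). Coordinates: toV p : Option (Fin d) -> R, none |-> p.2, some i |-> p.1 i; s none = -1, s (some i) = 1; bf s (toV a - toV b) (same) = |a.1-b.1|^2 - (a.2-b.2)^2
(EuclideanSpace.norm_sq_eq). toV injective; images of A, B: LatV from LatP (IsInt (a - b)); |x i| <= norm of x. core with D := 8 D, t := 2 t (Nul: |Q(a-b)| = ||y|-|r|| (|y|+|r|) <= t 16 D =
(2t)(8D)), N = card (Option (Fin d)) = d + 1. G x y := exists a b, toV a = x, toV b = y, Nul D t a b (then Nul for THE preimages by injectivity). be0 >= c2 be d D t delta m (m <= card A,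
card B; a b >= m^2), c2 = c2(d) > 0, and be0 <= 1. Psi = C t / be^2 with C so large that 4 N (2t) (8D)/be0^2 <= D Psi' with Psi' <= Psi/C_fat, t <= Psi' (be <= 1/c2). fat (B1): all b in B2 satisfy
InPl b1 w D (C_fat Psi') hence InPl b1 w D h, h = C t/be^2. plank B contains B2. |B2| >= be0 delta^(d+2)/(8(d+3)) |B| >= c be delta^(d+2) m = c pn. c0 = b1.
-/

set_option autoImplicit false

noncomputable section

open MeasureTheory Metric Set Filter

namespace Pool.LibLP59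

open Pool.LibSR53 Pool.LibTP53

/-- coordinates -/
private def b3V {d : ℕ} (p : P d) : Option (Fin d) → ℝ := fun o => o.elim p.2 (fun i => p.1 i)

/-- signs -/
private def b3s (d : ℕ) : Option (Fin d) → ℝ := fun o => o.elim (-1) (fun _ => 1)

private lemma b3V_inj {d : ℕ} : Function.Injective (b3V (d := d)) := by
  intro p q h
  have h2 : p.2 = q.2 := congrFun h none
  have h1 : p.1 = q.1 := by
    ext i
    exact congrFun h (some i)
  exact Prod.ext h1 h2

private lemma b3_bf {d : ℕ} (p q : P d) : bf (b3s d) (b3V p - b3V q) (b3V p - b3V q) =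
    ‖p.1 - q.1‖ ^ 2 - (p.2 - q.2) ^ 2 := by
  unfold bf
  rw [Fintype.sum_option, EuclideanSpace.norm_sq_eq]
  have h1 : ∀ i : Fin d, b3s d (some i) * (b3V p - b3V q) (some i) * (b3V p - b3V q) (some i) =
      ‖(p.1 - q.1) i‖ ^ 2 := by
    intro i
    simp only [b3s, b3V, Option.elim, Pi.sub_apply, PiLp.sub_apply, Real.norm_eq_abs, sq_abs]
    ring
  rw [Finset.sum_congr rfl (fun i _ => h1 i)]
  simp only [b3s, b3V, Option.elim, Pi.sub_apply]
  ring

private lemma b3_coord {d : ℕ} (p q : P d) (o : Option (Fin d)) :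
    |b3V p o - b3V q o| ≤ dist p q := by
  cases o with
  | none =>
    have h1 : dist p.2 q.2 ≤ dist p q := by
      rw [Prod.dist_eq]
      exact le_max_right _ _
    rw [Real.dist_eq] at h1
    exact h1
  | some i =>
    have h1 : dist p.1 q.1 ≤ dist p q := by
      rw [Prod.dist_eq]
      exact le_max_left _ _
    have h2 : ‖(p.1 - q.1) i‖ ≤ ‖p.1 - q.1‖ := PiLp.norm_apply_le (p.1 - q.1) i
    rw [dist_eq_norm] at h1
    have h3 : |b3V p (some i) - b3V q (some i)| = ‖(p.1 - q.1) i‖ := by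
      simp only [b3V, Option.elim, PiLp.sub_apply, Real.norm_eq_abs]
    rw [h3]
    exact h2.trans h1

open scoped Classical in
private lemma b3_lat {d : ℕ} (A : Finset (P d)) (hA : LatP A) : LatV (A.image b3V) := by
  intro x hx y hy i
  obtain ⟨a, ha, rfl⟩ := Finset.mem_image.1 hx
  obtain ⟨b, hb, rfl⟩ := Finset.mem_image.1 hy
  have h := hA a ha b hb
  cases i with
  | none =>
    obtain ⟨n, hn⟩ := h.2
    exact ⟨n, by simpa [b3V] using hn⟩
  | some i =>
    obtain ⟨n, hn⟩ := h.1 i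
    exact ⟨n, by simpa [b3V] using hn⟩

private lemma b3_nul {d : ℕ} {D t : ℝ} {a b : P d} (ht : 1 ≤ t) (h : Nul D t a b)
    (hd : dist a b ≤ 8 * D) : |bf (b3s d) (b3V a - b3V b) (b3V a - b3V b)| ≤
      2 * t * (8 * D) := by
  rw [b3_bf]
  have h1 : ‖a.1 - b.1‖ ≤ 8 * D := by
    have h1 : dist a.1 b.1 ≤ dist a b := by
      rw [Prod.dist_eq]
      exact le_max_left _ _
    rw [dist_eq_norm] at h1
    exact h1.trans hd
  have h2 : |a.2 - b.2| ≤ 8 * D := by
    have h1 : dist a.2 b.2 ≤ dist a b := by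
      rw [Prod.dist_eq]
      exact le_max_right _ _
    rw [Real.dist_eq] at h1
    exact h1.trans hd
  have h3 : ‖a.1 - b.1‖ ^ 2 - (a.2 - b.2) ^ 2 =
      (‖a.1 - b.1‖ - |a.2 - b.2|) * (‖a.1 - b.1‖ + |a.2 - b.2|) := by
    rw [← sq_abs (a.2 - b.2)]
    ring
  rw [h3, abs_mul]
  have h4 : |‖a.1 - b.1‖ + (|a.2 - b.2|)| ≤ 16 * D := by
    rw [abs_of_nonneg (by positivity)]
    linarith
  calc |‖a.1 - b.1‖ - (|a.2 - b.2|)| * |‖a.1 - b.1‖ + (|a.2 - b.2|)| ≤ t * (16 * D) :=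
        mul_le_mul h.2 h4 (abs_nonneg _) (by linarith)
    _ = 2 * t * (8 * D) := by ring

private lemma b3_be0 (d : ℕ) (D t δ a b : ℝ) (hD : 0 < D) (ht : 0 < t) :
    be0 (d + 1) a b (8 * D) (2 * t) δ =
      1 / (16 * ((d : ℝ) + 3) ^ 2 * (512 * ((d : ℝ) + 1) * ((d : ℝ) + 2)) ^ (d + 1)) *
        (δ ^ (d + 3) * (a * b) / (t * D) ^ (d + 1)) := by
  unfold be0
  push_cast
  have h1 : (32 * ((d : ℝ) + 1) * ((d : ℝ) + 1 + 1) * (2 * t) * (8 * D)) ^ (d + 1) =
      (512 * ((d : ℝ) + 1) * ((d : ℝ) + 2)) ^ (d + 1) * (t * D) ^ (d + 1) := by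
    rw [← mul_pow]
    congr 1
    ring
  rw [h1]
  have h2 : ((d : ℝ) + 1 + 2) = (d : ℝ) + 3 := by ring
  rw [h2]
  have h3 : d + 1 + 2 = d + 3 := by ring
  rw [h3]
  field_simp

open scoped Classical in
/-- the structure theorem: a dense light-like graph contains a plank -/
theorem structure_P (d : ℕ) (hd : 3 ≤ d) : ∃ C c : ℝ, 0 < C ∧ 0 < c ∧ ∀ (D t δ m : ℝ)
    (A B : Finset (P d)), 1 ≤ D → 1 ≤ t → 16 * t ≤ D → 0 < δ → δ ≤ 1 → LatP A → LatP B →
    0 < m → m ≤ A.card → m ≤ B.card → (∀ a ∈ A, ∀ b ∈ B, dist a b ≤ 8 * D) →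
    δ * A.card * B.card ≤ ∑ a ∈ A, ((B.filter (fun b => Nul D t a b)).card : ℝ) →
    ∃ c0 ∈ B, ∃ w : E d, ‖w‖ = 1 ∧
      c * pn d D t δ m ≤ ((plank B c0 w D (C * t / be d D t δ m ^ 2)).card : ℝ) := by
  obtain ⟨Cf, hCf, hfat⟩ := fat d
  set c2 : ℝ := 1 / (16 * ((d : ℝ) + 3) ^ 2 * (512 * ((d : ℝ) + 1) * ((d : ℝ) + 2)) ^ (d + 1))
    with hc2
  have hc2p : 0 < c2 := by
    rw [hc2]
    positivity
  refine ⟨Cf * (64 * ((d : ℝ) + 1)) / c2 ^ 2, c2 / (8 * ((d : ℝ) + 3)), by positivity,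
    by positivity, ?_⟩
  intro D t δ m A B hD ht htD hδ hδ1 hA hB hm hmA hmB hAB hG
  have hAne : A.Nonempty := by
    rw [← Finset.card_pos]
    have : (0 : ℝ) < A.card := lt_of_lt_of_le hm hmA
    exact_mod_cast this
  have hBne : B.Nonempty := by
    rw [← Finset.card_pos]
    have : (0 : ℝ) < B.card := lt_of_lt_of_le hm hmB
    exact_mod_cast this
  have hcard : Fintype.card (Option (Fin d)) = d + 1 := by simp
  set G : (Option (Fin d) → ℝ) → (Option (Fin d) → ℝ) → Prop :=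
    fun x y => ∃ a b : P d, b3V a = x ∧ b3V b = y ∧ Nul D t a b with hGdef
  have hGi : ∀ a b : P d, G (b3V a) (b3V b) ↔ Nul D t a b := by
    intro a b
    constructor
    · rintro ⟨a', b', h1, h2, h3⟩
      rw [b3V_inj h1, b3V_inj h2] at h3
      exact h3
    · intro h
      exact ⟨a, b, rfl, rfl, h⟩
  have hcA : (A.image b3V).card = A.card := Finset.card_image_of_injective _ b3V_inj
  have hcB : (B.image b3V).card = B.card := Finset.card_image_of_injective _ b3V_inj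
  have hcore := core (ι := Option (Fin d)) (by rw [hcard]; omega) (b3s d)
    (by intro i; cases i <;> simp [b3s]) (A.image b3V) (B.image b3V) (hAne.image _)
    (hBne.image _) (b3_lat A hA) (b3_lat B hB) G (8 * D) (2 * t) δ (by linarith) (by linarith) hδ
    (by
      intro x hx y hy i
      obtain ⟨a, ha, rfl⟩ := Finset.mem_image.1 hx
      obtain ⟨b, hb, rfl⟩ := Finset.mem_image.1 hy
      exact (b3_coord a b i).trans (hAB a ha b hb))
    (by
      intro x hx y hy hxy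
      obtain ⟨a, ha, rfl⟩ := Finset.mem_image.1 hx
      obtain ⟨b, hb, rfl⟩ := Finset.mem_image.1 hy
      exact b3_nul ht ((hGi a b).1 hxy) (hAB a ha b hb))
    (by
      rw [hcA, hcB, Finset.sum_image (fun x _ y _ h => b3V_inj h)]
      refine hG.trans (le_of_eq (Finset.sum_congr rfl ?_))
      intro a _
      rw [Finset.filter_image, Finset.card_image_of_injective _ b3V_inj]
      congr 2
      ext b
      simp only [Finset.mem_filter, hGi])
  rw [hcard, hcA, hcB, b3_be0 d D t δ _ _ (by linarith) (by linarith), ← hc2] at hcore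
  set e : ℝ := c2 * (δ ^ (d + 3) * ((A.card : ℝ) * B.card) / (t * D) ^ (d + 1)) with he
  obtain ⟨he1, x, hx, y, hy, B2, hB2, hxy, hcB2, hB2b⟩ := hcore
  obtain ⟨a, ha, rfl⟩ := Finset.mem_image.1 hx
  obtain ⟨b1, hb1, rfl⟩ := Finset.mem_image.1 hy
  have hDp : 0 < D := by linarith
  have htp : 0 < t := by linarith
  have hbep : 0 < be d D t δ m := by
    unfold be
    positivity
  have hebe : c2 * be d D t δ m ≤ e := by
    rw [he]
    refine mul_le_mul_of_nonneg_left ?_ hc2p.le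
    unfold be
    have h1 : m ^ 2 ≤ (A.card : ℝ) * B.card := by
      rw [sq]
      exact mul_le_mul hmA hmB hm.le (hm.le.trans hmA)
    gcongr
  have hep : 0 < e := lt_of_lt_of_le (by positivity) hebe
  have hab1 : Nul D t a b1 := (hGi a b1).1 hxy
  set Ψ : ℝ := 64 * ((d : ℝ) + 1) * t / e ^ 2 with hΨ
  have he2 : e ^ 2 ≤ 1 := by
    nlinarith
  have htΨ : t ≤ Ψ := by
    rw [hΨ, le_div_iff₀ (by positivity)]
    have h1 : t * e ^ 2 ≤ t * 1 := mul_le_mul_of_nonneg_left he2 htp.le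
    have h2 : (0 : ℝ) ≤ d := Nat.cast_nonneg d
    nlinarith [mul_nonneg h2 htp.le]
  obtain ⟨w, hw, hwb⟩ := hfat D t Ψ a b1 hD ht htD htΨ hab1 (hAB a ha b1 hb1)
  refine ⟨b1, hb1, w, hw, ?_⟩
  set h : ℝ := Cf * (64 * ((d : ℝ) + 1)) / c2 ^ 2 * t / be d D t δ m ^ 2 with hh
  have hle : Cf * Ψ ≤ h := by
    have h1 : Cf * Ψ = Cf * (64 * ((d : ℝ) + 1)) * t / e ^ 2 := by
      rw [hΨ]
      ring
    have h2 : h = Cf * (64 * ((d : ℝ) + 1)) * t / (c2 * be d D t δ m) ^ 2 := by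
      rw [hh]
      field_simp
    rw [h1, h2]
    gcongr
  have hsub : B2 ⊆ (plank B b1 w D h).image b3V := by
    intro z hz
    obtain ⟨b, hb, rfl⟩ := Finset.mem_image.1 (hB2 hz)
    refine Finset.mem_image.2 ⟨b, ?_, rfl⟩
    obtain ⟨hb3, hb4⟩ := hB2b _ hz
    have hb5 : Nul D t a b := (hGi a b).1 hb3
    rw [b3_bf] at hb4
    have hb6 : |‖b.1 - b1.1‖ ^ 2 - (b.2 - b1.2) ^ 2| ≤ D * Ψ := by
      refine hb4.trans (le_of_eq ?_)
      rw [hΨ]
      push_cast
      ring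
    obtain ⟨k1, k2, k3⟩ := hwb b hb5 (hAB a ha b hb) hb6
    unfold plank
    refine Finset.mem_filter.2 ⟨hb, k1.trans hle, k2.trans ?_, k3⟩
    exact mul_le_mul_of_nonneg_left hle hDp.le
  have hcc : (B2.card : ℝ) ≤ ((plank B b1 w D h).card : ℝ) := by
    have h1 := Finset.card_le_card hsub
    rw [Finset.card_image_of_injective _ b3V_inj] at h1
    exact_mod_cast h1
  refine le_trans ?_ (hcB2.trans hcc)
  unfold pn
  push_cast
  have h1 : c2 / (8 * ((d : ℝ) + 3)) * (δ ^ (d + 2) * be d D t δ m * m) =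
      (c2 * be d D t δ m) * (δ ^ (d + 2) / (8 * ((d : ℝ) + 3))) * m := by
    ring
  rw [h1]
  have h2 : δ ^ (d + 1 + 1) / (8 * ((d : ℝ) + 1 + 2)) = δ ^ (d + 2) / (8 * ((d : ℝ) + 3)) := by
    have h3 : d + 1 + 1 = d + 2 := by ring
    have h4 : ((d : ℝ) + 1 + 2) = (d : ℝ) + 3 := by ring
    rw [h3, h4]
  rw [h2]
  gcongr

end Pool.LibLP59
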