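import Pool.Agent.LibLP59.B3

/-
PLAN (C1). n0 = min i k, U = u 2^n0. Cells of side h0 = 2^n0/d: cell p = (floor (p.1 j / h0))_j, floor (p.2/h0). Two points of a cell have distance <= sqrt d h0 <= 2^n0, so every cell contains <= U
points of sc k T (Dens at scale n0 <= k). If dist p q <= 2^i (<= 8 2^n0) the cells differ by <= 8 d + 1 in every coordinate: every cell has <= Cd neighbours. Cells X, Y (neighbours): for p in X, q in Y,
2^i/2 < dist p q <= 2^i: Wf p q = 1/(1+x1)^2 + 1/(1+x2)^2. If x1 <= t then Nul (2^i) t p q (|p.1-q.1| >= 2^i/8, otherwise |p.2-q.2| > 2^i/2 and x1 > 3/8 2^i >= t). If x2 <= t then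
Nul (2^i) t p q' with q' = (q.1, -q.2) (p.2 + q.2 >= 2^(k+1) >= 2^i/4). So Wf <= 1_Nul(p,q) + 1_Nul(p,q') + 2/t^2. Sum of 1_Nul over X x Y: if it is <= delta |X||Y| or |X| < delta U or
|Y| < delta U, it is <= delta U (|X|+|Y|). Otherwise structure_P (D = 2^i, m = delta U; distances <= 2^i + 2 2^n0 <= 3 2^i; for the reflected set: p.2 + q.2 <= 2^(k+2) and 2^(k+1) <= 2^i + t because
some pair is related) gives a plank of Y (or of the reflection of Y: then plank of Y with centre (c0.1,-c0.2) and direction -w) with >= c pn > m0 points of sc k T and thickness <= h (planks are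
monotone in the thickness): contradiction to Light. Sum over the neighbouring cells: <= C (delta + 1/t^2) U |sc k T|.
-/

set_option autoImplicit false

noncomputable section

open MeasureTheory Metric Set Filter

namespace Pool.LibLP59

open Pool.LibSR53 Pool.LibTP53

/-- index of the cell of side s containing p -/
private def c1_cell {d : ℕ} (s : ℝ) (p : P d) : (Fin d → ℤ) × ℤ :=
  (fun j => ⌊p.1 j / s⌋, ⌊p.2 / s⌋)

private def c1_near {d : ℕ} (M : ℤ) (x y : (Fin d → ℤ) × ℤ) : Prop :=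
  (∀ j, |x.1 j - y.1 j| ≤ M) ∧ |x.2 - y.2| ≤ M

private def c1_rf {d : ℕ} (q : P d) : P d := (q.1, -q.2)

private lemma c1_rf_rf {d : ℕ} (q : P d) : c1_rf (c1_rf q) = q := by
  unfold c1_rf
  simp

private lemma c1_rf_inj {d : ℕ} : Function.Injective (c1_rf : P d → P d) := fun a b h => by
  rw [← c1_rf_rf a, h, c1_rf_rf]

private lemma c1_floor_eq {a b s : ℝ} (hs : 0 < s) (h : ⌊a / s⌋ = ⌊b / s⌋) : |a - b| ≤ s := by
  have h1 := (Int.abs_sub_lt_one_of_floor_eq_floor h).le
  rw [← sub_div, abs_div, abs_of_pos hs, div_le_one hs] at h1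
  exact h1

private lemma c1_floor_near {a b s : ℝ} {M : ℤ} (hs : 0 < s) (h : |a - b| ≤ M * s) :
    |⌊a / s⌋ - ⌊b / s⌋| ≤ M + 1 := by
  have h1 : |a / s - b / s| ≤ M := by
    rw [← sub_div, abs_div, abs_of_pos hs, div_le_iff₀ hs]
    exact h
  rw [abs_le] at h1 ⊢
  have h2 := Int.floor_le (a / s)
  have h3 := Int.lt_floor_add_one (a / s)
  have h4 := Int.floor_le (b / s)
  have h5 := Int.lt_floor_add_one (b / s)
  constructor
  · have : (-(M + 1) : ℝ) < (⌊a / s⌋ : ℝ) - ⌊b / s⌋ := by linarith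
    have h6 : (-(M + 1) : ℤ) < ⌊a / s⌋ - ⌊b / s⌋ := by exact_mod_cast this
    omega
  · have : (⌊a / s⌋ : ℝ) - ⌊b / s⌋ < (M + 1 : ℝ) := by linarith
    have h6 : ⌊a / s⌋ - ⌊b / s⌋ < M + 1 := by exact_mod_cast this
    omega

private lemma c1_coord {d : ℕ} (v : E d) (j : Fin d) : |v j| ≤ ‖v‖ := by
  have := EuclideanSpace.norm_eq v
  rw [this]
  apply Real.le_sqrt_of_sq_le
  have h1 : ‖v j‖ ^ 2 ≤ ∑ i, ‖v i‖ ^ 2 :=
    Finset.single_le_sum (f := fun i => ‖v i‖ ^ 2) (fun i _ => sq_nonneg _) (Finset.mem_univ j)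
  rw [Real.norm_eq_abs] at h1
  exact h1

private lemma c1_cell_dist {d : ℕ} (hd : 0 < d) {L : ℝ} (hL : 0 < L) {p q : P d}
    (h : c1_cell (L / d) p = c1_cell (L / d) q) : dist p q ≤ L := by
  have hd' : (0 : ℝ) < d := by exact_mod_cast hd
  have hd1 : (1 : ℝ) ≤ d := by exact_mod_cast hd
  have hs : 0 < L / d := div_pos hL hd'
  have hsL : L / d ≤ L := div_le_self hL.le hd1
  unfold c1_cell at h
  rw [Prod.mk.injEq] at h
  have h1 : ∀ j, |p.1 j - q.1 j| ≤ L / d := fun j => c1_floor_eq hs (congrFun h.1 j)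
  have h2 : |p.2 - q.2| ≤ L / d := c1_floor_eq hs h.2
  rw [Prod.dist_eq]
  apply max_le
  · rw [EuclideanSpace.dist_eq]
    rw [Real.sqrt_le_left hL.le]
    calc ∑ j, dist (p.1 j) (q.1 j) ^ 2 ≤ ∑ _j : Fin d, (L / d) ^ 2 := by
          refine Finset.sum_le_sum fun j _ => ?_
          rw [Real.dist_eq]
          exact pow_le_pow_left₀ (abs_nonneg _) (h1 j) 2
      _ = d * (L / d) ^ 2 := by
          rw [Finset.sum_const, Finset.card_univ, Fintype.card_fin, nsmul_eq_mul]
      _ = L * (L / d) := by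
          field_simp
      _ ≤ L ^ 2 := by
          rw [pow_two]
          exact mul_le_mul_of_nonneg_left hsL hL.le
  · rw [Real.dist_eq]
    exact h2.trans hsL

private lemma c1_cell_near {d : ℕ} (hd : 0 < d) {L : ℝ} (hL : 0 < L) {p q : P d}
    (h : dist p q ≤ 8 * L) : c1_near (8 * (d : ℤ) + 1) (c1_cell (L / d) p) (c1_cell (L / d) q) := by
  have hd' : (0 : ℝ) < d := by exact_mod_cast hd
  have hs : 0 < L / d := div_pos hL hd'
  have he : ((8 * (d : ℤ) : ℤ) : ℝ) * (L / d) = 8 * L := by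
    push_cast
    field_simp
  rw [Prod.dist_eq, max_le_iff] at h
  constructor
  · intro j
    apply c1_floor_near hs
    rw [he]
    refine le_trans ?_ h.1
    rw [dist_eq_norm]
    exact c1_coord (p.1 - q.1) j
  · apply c1_floor_near hs
    rw [he]
    refine le_trans ?_ h.2
    rw [Real.dist_eq]

open scoped Classical in
private lemma c1_near_card {d : ℕ} (M : ℕ) (K : Finset ((Fin d → ℤ) × ℤ))
    (x : (Fin d → ℤ) × ℤ) :
    ((K.filter (fun y => c1_near (M : ℤ) x y)).card : ℝ) ≤ (2 * (M : ℝ) + 1) ^ (d + 1) := by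
  have h1 : K.filter (fun y => c1_near (M : ℤ) x y) ⊆
      (Fintype.piFinset fun j => Finset.Icc (x.1 j - M) (x.1 j + M)) ×ˢ
        Finset.Icc (x.2 - M) (x.2 + M) := by
    intro y hy
    rw [Finset.mem_filter] at hy
    obtain ⟨-, h2, h3⟩ := hy
    rw [Finset.mem_product, Fintype.mem_piFinset]
    refine ⟨fun j => ?_, ?_⟩
    · have := abs_le.mp (h2 j)
      rw [Finset.mem_Icc]
      constructor <;> linarith [this.1, this.2]
    · have := abs_le.mp h3
      rw [Finset.mem_Icc]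
      constructor <;> linarith [this.1, this.2]
  have h2 := Finset.card_le_card h1
  rw [Finset.card_product, Fintype.card_piFinset] at h2
  have h3 : ∀ z : ℤ, (Finset.Icc (z - M) (z + M)).card = 2 * M + 1 := by
    intro z
    rw [Int.card_Icc]
    omega
  simp only [h3] at h2
  rw [Finset.prod_const, Finset.card_univ, Fintype.card_fin, ← pow_succ] at h2
  calc ((K.filter (fun y => c1_near (M : ℤ) x y)).card : ℝ) ≤ (((2 * M + 1) ^ (d + 1) : ℕ) : ℝ) := by
        exact_mod_cast h2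
    _ = (2 * (M : ℝ) + 1) ^ (d + 1) := by push_cast; ring

open scoped Classical in
private lemma c1_near_sum {d : ℕ} (M : ℕ) (K : Finset ((Fin d → ℤ) × ℤ))
    (f : (Fin d → ℤ) × ℤ → ℝ) (hf : ∀ x, 0 ≤ f x) :
    ∑ x ∈ K, ∑ y ∈ K, (if c1_near (M : ℤ) x y then f x else 0) ≤
      (2 * (M : ℝ) + 1) ^ (d + 1) * ∑ x ∈ K, f x := by
  rw [Finset.mul_sum]
  refine Finset.sum_le_sum fun x _ => ?_
  rw [← Finset.sum_filter, Finset.sum_const, nsmul_eq_mul]
  exact mul_le_mul_of_nonneg_right (c1_near_card M K x) (hf x)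

private lemma c1_near_symm {d : ℕ} {M : ℤ} {x y : (Fin d → ℤ) × ℤ} :
    c1_near M x y ↔ c1_near M y x := by
  unfold c1_near
  simp only [abs_sub_comm]

open scoped Classical in
private lemma c1_near_sum' {d : ℕ} (M : ℕ) (K : Finset ((Fin d → ℤ) × ℤ))
    (f : (Fin d → ℤ) × ℤ → ℝ) (hf : ∀ x, 0 ≤ f x) :
    ∑ x ∈ K, ∑ y ∈ K, (if c1_near (M : ℤ) x y then f y else 0) ≤
      (2 * (M : ℝ) + 1) ^ (d + 1) * ∑ x ∈ K, f x := by
  rw [Finset.sum_comm]
  refine le_trans (le_of_eq ?_) (c1_near_sum M K f hf)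
  refine Finset.sum_congr rfl fun y _ => Finset.sum_congr rfl fun x _ => ?_
  by_cases h : c1_near (M : ℤ) x y
  · rw [if_pos h, if_pos (c1_near_symm.mp h)]
  · rw [if_neg h, if_neg (fun h' => h (c1_near_symm.mp h'))]

open scoped Classical in
private lemma c1_W {d : ℕ} {D t : ℝ} {k : ℕ} {p q : P d} (ht : 1 ≤ t) (h16 : 16 * t ≤ D)
    (hk : D ≤ 8 * (2 : ℝ) ^ k) (hp : (2 : ℝ) ^ k ≤ p.2) (hq : (2 : ℝ) ^ k ≤ q.2)
    (h1 : D / 2 < dist p q) :
    Wf p q ≤ (if Nul D t p q then 1 else 0) + (if Nul D t p (c1_rf q) then 1 else 0) +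
      2 / t ^ 2 := by
  have ht0 : 0 < t := by linarith
  have hf : ∀ x : ℝ, 0 ≤ x → 1 / (1 + x) ^ 2 ≤ 1 := by
    intro x hx
    rw [div_le_one (by positivity)]
    exact one_le_pow₀ (by linarith)
  have hg : ∀ x : ℝ, t < x → 1 / (1 + x) ^ 2 ≤ 1 / t ^ 2 := by
    intro x hx
    apply one_div_le_one_div_of_le (by positivity)
    exact pow_le_pow_left₀ ht0.le (by linarith) 2
  have ht2 : 0 ≤ 1 / t ^ 2 := by positivity
  have e1 : 1 / (1 + |‖p.1 - q.1‖ - (|p.2 - q.2|)|) ^ 2 ≤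
      (if Nul D t p q then 1 else 0) + 1 / t ^ 2 := by
    by_cases h : |‖p.1 - q.1‖ - (|p.2 - q.2|)| ≤ t
    · have hN : Nul D t p q := by
        refine ⟨?_, h⟩
        by_contra hcon
        push Not at hcon
        have h2 : D / 2 < |p.2 - q.2| := by
          rw [Prod.dist_eq, lt_max_iff] at h1
          rcases h1 with h1 | h1
          · rw [dist_eq_norm] at h1
            linarith
          · rwa [Real.dist_eq] at h1
        have h3 := (abs_le.mp h).1
        linarith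
      rw [if_pos hN]
      have := hf _ (abs_nonneg (‖p.1 - q.1‖ - (|p.2 - q.2|)))
      linarith
    · push Not at h
      have h2 := hg _ h
      have h3 : (0 : ℝ) ≤ (if Nul D t p q then 1 else 0) := by
        split_ifs <;> norm_num
      linarith
  have e2 : 1 / (1 + |‖p.1 - q.1‖ - (p.2 + q.2)|) ^ 2 ≤
      (if Nul D t p (c1_rf q) then 1 else 0) + 1 / t ^ 2 := by
    have h2k : (0 : ℝ) < 2 ^ k := by positivity
    by_cases h : |‖p.1 - q.1‖ - (p.2 + q.2)| ≤ t
    · have hN : Nul D t p (c1_rf q) := by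
        have hab : |p.2 - (c1_rf q).2| = p.2 + q.2 := by
          unfold c1_rf
          rw [sub_neg_eq_add, abs_of_nonneg (by linarith)]
        refine ⟨?_, ?_⟩
        · have h3 := (abs_le.mp h).1
          have h4 : (c1_rf q).1 = q.1 := rfl
          rw [h4]
          linarith
        · rw [hab]
          exact h
      rw [if_pos hN]
      have := hf _ (abs_nonneg (‖p.1 - q.1‖ - (p.2 + q.2)))
      linarith
    · push Not at h
      have h2 := hg _ h
      have h3 : (0 : ℝ) ≤ (if Nul D t p (c1_rf q) then 1 else 0) := by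
        split_ifs <;> norm_num
      linarith
  have e3 : 2 / t ^ 2 = 1 / t ^ 2 + 1 / t ^ 2 := by ring
  unfold Wf
  rw [e3]
  linarith

open scoped Classical in
private lemma c1_core {d : ℕ} {C c D t δ U : ℝ}
    (hS : ∀ (D t δ m : ℝ) (A B : Finset (P d)), 1 ≤ D → 1 ≤ t → 16 * t ≤ D → 0 < δ → δ ≤ 1 →
      LatP A → LatP B → 0 < m → m ≤ A.card → m ≤ B.card → (∀ a ∈ A, ∀ b ∈ B, dist a b ≤ 8 * D) →
      δ * A.card * B.card ≤ ∑ a ∈ A, ((B.filter (fun b => Nul D t a b)).card : ℝ) →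
      ∃ c0 ∈ B, ∃ w : E d, ‖w‖ = 1 ∧
        c * pn d D t δ m ≤ ((plank B c0 w D (C * t / be d D t δ m ^ 2)).card : ℝ))
    (A B : Finset (P d)) (R : P d → P d → Prop) (hD : 1 ≤ D) (ht : 1 ≤ t) (h16 : 16 * t ≤ D)
    (hδ : 0 < δ) (hδ1 : δ ≤ 1) (hA : LatP A) (hB : LatP B) (hU : 0 < U)
    (hAU : (A.card : ℝ) ≤ U) (hBU : (B.card : ℝ) ≤ U)
    (hdist : (∃ a ∈ A, ∃ b ∈ B, Nul D t a b ∧ R a b) → ∀ a ∈ A, ∀ b ∈ B, dist a b ≤ 8 * D)
    (hpl : ∀ c0 ∈ B, ∀ w : E d, ‖w‖ = 1 →
      ((plank B c0 w D (C * t / be d D t δ (δ * U) ^ 2)).card : ℝ) < c * pn d D t δ (δ * U)) :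
    ∑ a ∈ A, ((B.filter (fun b => Nul D t a b ∧ R a b)).card : ℝ) ≤
      δ * U * (A.card + B.card) := by
  by_contra hcon
  push Not at hcon
  have hA0 : (0 : ℝ) ≤ A.card := Nat.cast_nonneg _
  have hB0 : (0 : ℝ) ≤ B.card := Nat.cast_nonneg _
  have hδU : 0 < δ * U := mul_pos hδ hU
  have h1 : ∑ a ∈ A, ((B.filter (fun b => Nul D t a b ∧ R a b)).card : ℝ) ≤
      (A.card : ℝ) * B.card := by
    rw [← nsmul_eq_mul, ← Finset.sum_const]
    refine Finset.sum_le_sum fun a _ => ?_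
    exact_mod_cast Finset.card_filter_le _ _
  have hAm : δ * U ≤ A.card := by
    by_contra h
    push Not at h
    have : (A.card : ℝ) * B.card ≤ δ * U * B.card := mul_le_mul_of_nonneg_right h.le hB0
    have h2 : 0 ≤ δ * U * A.card := mul_nonneg hδU.le hA0
    linarith
  have hBm : δ * U ≤ B.card := by
    by_contra h
    push Not at h
    have : (A.card : ℝ) * B.card ≤ A.card * (δ * U) := mul_le_mul_of_nonneg_left h.le hA0
    have h2 : 0 ≤ δ * U * B.card := mul_nonneg hδU.le hB0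
    linarith
  have h2 : ∑ a ∈ A, ((B.filter (fun b => Nul D t a b ∧ R a b)).card : ℝ) ≤
      ∑ a ∈ A, ((B.filter (fun b => Nul D t a b)).card : ℝ) := by
    refine Finset.sum_le_sum fun a _ => ?_
    have : B.filter (fun b => Nul D t a b ∧ R a b) ⊆ B.filter (fun b => Nul D t a b) := by
      intro b hb
      rw [Finset.mem_filter] at hb ⊢
      exact ⟨hb.1, hb.2.1⟩
    exact_mod_cast Finset.card_le_card this
  have h3 : δ * A.card * B.card ≤ δ * U * (A.card + B.card) := by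
    have e1 : δ * A.card * B.card ≤ δ * A.card * U :=
      mul_le_mul_of_nonneg_left hBU (mul_nonneg hδ.le hA0)
    have e2 : 0 ≤ δ * U * B.card := mul_nonneg hδU.le hB0
    linarith
  have hex : ∃ a ∈ A, ∃ b ∈ B, Nul D t a b ∧ R a b := by
    by_contra hno
    push Not at hno
    have : ∑ a ∈ A, ((B.filter (fun b => Nul D t a b ∧ R a b)).card : ℝ) = 0 := by
      refine Finset.sum_eq_zero fun a ha => ?_
      rw [Nat.cast_eq_zero, Finset.card_eq_zero, Finset.filter_eq_empty_iff]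
      intro b hb hb2
      exact hno a ha b hb hb2.1 hb2.2
    rw [this] at hcon
    have e2 : 0 ≤ δ * U * ((A.card : ℝ) + B.card) :=
      mul_nonneg hδU.le (add_nonneg hA0 hB0)
    linarith
  obtain ⟨c0, hc0, w, hw, hp⟩ := hS D t δ (δ * U) A B hD ht h16 hδ hδ1 hA hB hδU hAm hBm
    (hdist hex) (by linarith)
  have := hpl c0 hc0 w hw
  linarith

private lemma c1_LatP_sub {d : ℕ} {A B : Finset (P d)} (h : A ⊆ B) (hB : LatP B) : LatP A :=
  fun a ha b hb => hB a (h ha) b (h hb)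

open scoped Classical in
private lemma c1_LatP_rf {d : ℕ} {A : Finset (P d)} (hA : LatP A) : LatP (A.image c1_rf) := by
  intro a ha b hb
  rw [Finset.mem_image] at ha hb
  obtain ⟨a', ha', rfl⟩ := ha
  obtain ⟨b', hb', rfl⟩ := hb
  obtain ⟨h1, n, hn⟩ := hA a' ha' b' hb'
  refine ⟨h1, -n, ?_⟩
  have : (c1_rf a' - c1_rf b').2 = -((a' - b').2) := by
    unfold c1_rf
    simp only [Prod.snd_sub]
    ring
  rw [this, hn]
  push_cast
  ring

private lemma c1_InPl_mono {d : ℕ} {c : P d} {w : E d} {D h h' : ℝ} {q : P d} (hD : 0 ≤ D)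
    (hh : h ≤ h') (hq : InPl c w D h q) : InPl c w D h' q :=
  ⟨hq.1.trans hh, hq.2.1.trans (mul_le_mul_of_nonneg_left hh hD), hq.2.2⟩

private lemma c1_InPl_rf {d : ℕ} {c : P d} {w : E d} {D h : ℝ} {q : P d}
    (hq : InPl (c1_rf c) w D h (c1_rf q)) : InPl c (-w) D h q := by
  obtain ⟨h1, h2, h3⟩ := hq
  unfold c1_rf at h1 h2 h3
  simp only at h1 h2 h3
  refine ⟨?_, ?_, ?_⟩
  · rw [inner_neg_right]
    rw [← abs_neg] at h1
    refine le_trans (le_of_eq ?_) h1
    congr 1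
    ring
  · have : perp (-w) (q.1 - c.1) = perp w (q.1 - c.1) := by
      unfold perp
      rw [inner_neg_right, neg_smul_neg]
    rw [this]
    exact h2
  · have : -q.2 - -c.2 = -(q.2 - c.2) := by ring
    rw [this, abs_neg] at h3
    exact h3

open scoped Classical in
/-- light sets: few light-like pairs at distance 2^i -/
theorem mid (d : ℕ) (hd : 3 ≤ d) : ∃ C c : ℝ, 0 < C ∧ 0 < c ∧ ∀ (T : Finset (P d))
    (u δ t h m0 : ℝ) (k i : ℕ), Adm T → 1 ≤ u → Dens u T → i ≤ k + 3 → 1 ≤ t →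
    16 * t ≤ (2 : ℝ) ^ i → 0 < δ → δ ≤ 1 → Light T i h m0 →
    C * t / be d ((2 : ℝ) ^ i) t δ (δ * u * 2 ^ min i k) ^ 2 ≤ h →
    m0 < c * pn d ((2 : ℝ) ^ i) t δ (δ * u * 2 ^ min i k) →
    ∑ p ∈ sc k T, ∑ q ∈ (sc k T).filter (fun q => (2 : ℝ) ^ i / 2 < dist p q ∧
      dist p q ≤ (2 : ℝ) ^ i), Wf p q ≤
      C * (δ + 1 / t ^ 2) * u * 2 ^ i * ((sc k T).card : ℝ) := by
  obtain ⟨C0, c0, hC0, hc0, hS⟩ := structure_P d hd
  obtain ⟨Cd, hCd⟩ : ∃ Cd : ℝ, Cd = (2 * ((8 * d + 1 : ℕ) : ℝ) + 1) ^ (d + 1) := ⟨_, rfl⟩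
  have hCd0 : 0 < Cd := by rw [hCd]; positivity
  refine ⟨C0 + 4 * Cd, c0, by positivity, hc0, ?_⟩
  intro T u δ t h m0 k i hT hu hDens hik ht h16 hδ hδ1 hLight hh hm0
  have hd0 : 0 < d := by omega
  obtain ⟨D, hDdef⟩ : ∃ D : ℝ, D = (2 : ℝ) ^ i := ⟨_, rfl⟩
  obtain ⟨L, hLdef⟩ : ∃ L : ℝ, L = (2 : ℝ) ^ min i k := ⟨_, rfl⟩
  obtain ⟨U, hUdef⟩ : ∃ U : ℝ, U = u * L := ⟨_, rfl⟩
  have hL0 : 0 < L := by rw [hLdef]; positivity
  have hU0 : 0 < U := by rw [hUdef]; exact mul_pos (by linarith) hL0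
  have hmU : δ * u * (2 : ℝ) ^ min i k = δ * U := by rw [hUdef, hLdef]; ring
  have hD1 : 1 ≤ D := by rw [hDdef]; exact one_le_pow₀ (by norm_num)
  have hLD : L ≤ D := by
    rw [hLdef, hDdef]
    exact pow_le_pow_right₀ (by norm_num) (min_le_left _ _)
  have hDL : D ≤ 8 * L := by
    rw [hLdef, hDdef]
    have : (8 : ℝ) = 2 ^ 3 := by norm_num
    rw [this, ← pow_add]
    apply pow_le_pow_right₀ (by norm_num)
    rcases le_total i k with h1 | h1
    · rw [min_eq_left h1]; omega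
    · rw [min_eq_right h1]; omega
  have hDk : D ≤ 8 * (2 : ℝ) ^ k := by
    refine hDL.trans ?_
    rw [hLdef]
    have : (2 : ℝ) ^ min i k ≤ 2 ^ k := pow_le_pow_right₀ (by norm_num) (min_le_right _ _)
    linarith
  rw [← hDdef] at h16 hh hm0 ⊢
  rw [hmU] at hh hm0
  obtain ⟨S, hSdef⟩ : ∃ S : Finset (P d), S = sc k T := ⟨_, rfl⟩
  have hSmem : ∀ p ∈ S, (2 : ℝ) ^ k ≤ p.2 ∧ p.2 < (2 : ℝ) ^ (k + 1) ∧ p ∈ T := by
    intro p hp
    rw [hSdef] at hp
    unfold sc at hp
    rw [Finset.mem_filter] at hp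
    exact ⟨hp.2.1, hp.2.2, hp.1⟩
  have hSLat : LatP S := c1_LatP_sub (fun p hp => (hSmem p hp).2.2) hT.2
  rw [← hSdef]
  -- cells
  obtain ⟨X, hX⟩ : ∃ X : (Fin d → ℤ) × ℤ → Finset (P d),
      ∀ x, X x = S.filter (fun p => c1_cell (L / d) p = x) := ⟨_, fun _ => rfl⟩
  have hXS : ∀ x, X x ⊆ S := fun x => by rw [hX]; exact Finset.filter_subset _ _
  have hXd : ∀ x, ∀ p ∈ X x, ∀ q ∈ X x, dist p q ≤ L := by
    intro x p hp q hq
    rw [hX, Finset.mem_filter] at hp hq
    exact c1_cell_dist hd0 hL0 (hp.2.trans hq.2.symm)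
  have hXU : ∀ x, ((X x).card : ℝ) ≤ U := by
    intro x
    rcases (X x).eq_empty_or_nonempty with h1 | ⟨p, hp⟩
    · rw [h1]
      simp only [Finset.card_empty, Nat.cast_zero]
      exact hU0.le
    · have hpS : p ∈ sc k T := by rw [← hSdef]; exact hXS x hp
      have h2 := hDens k p hpS (min i k) (min_le_right _ _)
      rw [← hLdef, ← hUdef] at h2
      refine le_trans ?_ h2
      have h3 : X x ⊆ nb (sc k T) p L := by
        intro q hq
        unfold nb
        rw [Finset.mem_filter, ← hSdef]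
        exact ⟨hXS x hq, hXd x q hq p hp⟩
      exact_mod_cast Finset.card_le_card h3
  have hC0h : C0 * t / be d D t δ (δ * U) ^ 2 ≤ h := by
    refine le_trans ?_ hh
    apply div_le_div_of_nonneg_right _ (sq_nonneg _)
    apply mul_le_mul_of_nonneg_right _ (by linarith)
    linarith
  -- planks contain few points
  have hpl1 : ∀ Y : Finset (P d), Y ⊆ S → ∀ b ∈ Y, ∀ w : E d, ‖w‖ = 1 →
      ((plank Y b w D (C0 * t / be d D t δ (δ * U) ^ 2)).card : ℝ) <
        c0 * pn d D t δ (δ * U) := by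
    intro Y hY b hb w hw
    refine lt_of_le_of_lt ?_ hm0
    have h1 := hLight k hik b (by rw [← hSdef]; exact hY hb) w hw
    refine le_trans ?_ h1
    rw [← hDdef, ← hSdef]
    have h2 : plank Y b w D (C0 * t / be d D t δ (δ * U) ^ 2) ⊆ plank S b w D h := by
      intro q hq
      unfold plank at hq ⊢
      rw [Finset.mem_filter] at hq ⊢
      exact ⟨hY hq.1, c1_InPl_mono (by linarith) hC0h hq.2⟩
    exact_mod_cast Finset.card_le_card h2
  have hpl2 : ∀ Y : Finset (P d), Y ⊆ S → ∀ b ∈ Y.image c1_rf, ∀ w : E d, ‖w‖ = 1 →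
      ((plank (Y.image c1_rf) b w D (C0 * t / be d D t δ (δ * U) ^ 2)).card : ℝ) <
        c0 * pn d D t δ (δ * U) := by
    intro Y hY b hb w hw
    rw [Finset.mem_image] at hb
    obtain ⟨b', hb', rfl⟩ := hb
    have hw' : ‖-w‖ = 1 := by rw [norm_neg]; exact hw
    refine lt_of_le_of_lt ?_ (hpl1 Y hY b' hb' (-w) hw')
    have h2 : plank (Y.image c1_rf) (c1_rf b') w D (C0 * t / be d D t δ (δ * U) ^ 2) ⊆
        (plank Y b' (-w) D (C0 * t / be d D t δ (δ * U) ^ 2)).image c1_rf := by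
      intro q hq
      unfold plank at hq ⊢
      rw [Finset.mem_filter, Finset.mem_image] at hq
      obtain ⟨⟨q', hq', rfl⟩, hq2⟩ := hq
      rw [Finset.mem_image]
      exact ⟨q', Finset.mem_filter.mpr ⟨hq', c1_InPl_rf hq2⟩, rfl⟩
    have h3 := (Finset.card_le_card h2).trans Finset.card_image_le
    exact_mod_cast h3
  -- one pair of cells
  obtain ⟨R, hR⟩ : ∃ R : P d → P d → Prop, ∀ p q, R p q ↔ (D / 2 < dist p q ∧ dist p q ≤ D) :=
    ⟨fun p q => D / 2 < dist p q ∧ dist p q ≤ D, fun _ _ => Iff.rfl⟩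
  have hpair : ∀ x y, ∑ p ∈ X x, ∑ q ∈ (X y).filter (R p), Wf p q ≤
      2 * (δ * U * ((X x).card + (X y).card)) + 2 / t ^ 2 * (U * (X x).card) := by
    intro x y
    have hA0 : (0 : ℝ) ≤ (X x).card := Nat.cast_nonneg _
    have g1 : ∑ p ∈ X x, (((X y).filter (fun q => Nul D t p q ∧ R p q)).card : ℝ) ≤
        δ * U * ((X x).card + (X y).card) := by
      refine c1_core hS (X x) (X y) R hD1 ht h16 hδ hδ1 (c1_LatP_sub (hXS x) hSLat)
        (c1_LatP_sub (hXS y) hSLat) hU0 (hXU x) (hXU y) ?_ (hpl1 (X y) (hXS y))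
      rintro ⟨a, ha, b, hb, -, hab⟩ a' ha' b' hb'
      have h1 := ((hR a b).mp hab).2
      have h2 := hXd x a' ha' a ha
      have h3 := hXd y b hb b' hb'
      have h4 := dist_triangle4 a' a b b'
      linarith
    have g2 : ∑ p ∈ X x, (((X y).filter (fun q => Nul D t p (c1_rf q) ∧ R p q)).card : ℝ) ≤
        δ * U * ((X x).card + (X y).card) := by
      have h0 : ((X y).image c1_rf).card = (X y).card := Finset.card_image_of_injective _ c1_rf_inj
      have h1 := c1_core hS (X x) ((X y).image c1_rf) (fun p q => R p (c1_rf q)) hD1 ht h16 hδ hδ1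
        (c1_LatP_sub (hXS x) hSLat) (c1_LatP_rf (c1_LatP_sub (hXS y) hSLat)) hU0 (hXU x)
        (by rw [h0]; exact hXU y) ?_ (hpl2 (X y) (hXS y))
      · rw [h0] at h1
        refine le_trans (le_of_eq ?_) h1
        refine Finset.sum_congr rfl fun p _ => ?_
        have h2 : ((X y).image c1_rf).filter (fun b => Nul D t p b ∧ R p (c1_rf b)) =
            ((X y).filter (fun q => Nul D t p (c1_rf q) ∧ R p q)).image c1_rf := by
          ext b
          simp only [Finset.mem_filter, Finset.mem_image]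
          constructor
          · rintro ⟨⟨q, hq, rfl⟩, h3, h4⟩
            rw [c1_rf_rf] at h4
            exact ⟨q, ⟨hq, h3, h4⟩, rfl⟩
          · rintro ⟨q, ⟨hq, h3, h4⟩, rfl⟩
            refine ⟨⟨q, hq, rfl⟩, h3, ?_⟩
            rw [c1_rf_rf]
            exact h4
        rw [h2, Finset.card_image_of_injective _ c1_rf_inj]
      · rintro ⟨a, ha, b, hb, hN, hab⟩ a' ha' b' hb'
        rw [Finset.mem_image] at hb hb'
        obtain ⟨b1, hb1, rfl⟩ := hb
        obtain ⟨b2, hb2, rfl⟩ := hb'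
        simp only [c1_rf_rf] at hab
        have h1 := ((hR a b1).mp hab).2
        have h2 := hXd x a' ha' a ha
        have h3 := hXd y b1 hb1 b2 hb2
        have h4 := dist_triangle4 a' a b1 b2
        have ha1 := hSmem a (hXS x ha)
        have hb1' := hSmem b1 (hXS y hb1)
        have ha2 := hSmem a' (hXS x ha')
        have hb2' := hSmem b2 (hXS y hb2)
        have hk0 : (0 : ℝ) < 2 ^ k := by positivity
        have h5 : a.2 + b1.2 ≤ D + t := by
          have h6 := hN.2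
          unfold c1_rf at h6
          simp only at h6
          rw [sub_neg_eq_add, abs_of_nonneg (by linarith : 0 ≤ a.2 + b1.2)] at h6
          have h7 := (abs_le.mp h6).1
          have h8 : ‖a.1 - b1.1‖ ≤ D := by
            rw [Prod.dist_eq, max_le_iff, dist_eq_norm] at h1
            exact h1.1
          linarith
        rw [Prod.dist_eq]
        apply max_le
        · have h6 : dist a'.1 (c1_rf b2).1 ≤ dist a' b2 := by
            rw [Prod.dist_eq]
            exact le_max_left _ _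
          linarith
        · rw [Real.dist_eq]
          unfold c1_rf
          simp only
          rw [sub_neg_eq_add, abs_of_nonneg (by linarith)]
          have e1 : (2 : ℝ) ^ (k + 1) = 2 * 2 ^ k := by ring
          rw [e1] at ha1 hb1' ha2 hb2'
          linarith [ha1.1, hb1'.1, ha2.2.1, hb2'.2.1]
    have g3 : ∀ p ∈ X x, ∑ q ∈ (X y).filter (R p), Wf p q ≤
        (((X y).filter (fun q => Nul D t p q ∧ R p q)).card : ℝ) +
        (((X y).filter (fun q => Nul D t p (c1_rf q) ∧ R p q)).card : ℝ) +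
        2 / t ^ 2 * (X y).card := by
      intro p hp
      have e1 : ∑ q ∈ (X y).filter (R p), Wf p q ≤ ∑ q ∈ (X y).filter (R p),
          ((if Nul D t p q then 1 else 0) + (if Nul D t p (c1_rf q) then 1 else 0) +
            2 / t ^ 2) := by
        refine Finset.sum_le_sum fun q hq => ?_
        rw [Finset.mem_filter] at hq
        exact c1_W ht h16 hDk (hSmem p (hXS x hp)).1 (hSmem q (hXS y hq.1)).1
          ((hR p q).mp hq.2).1
      refine e1.trans ?_
      rw [Finset.sum_add_distrib, Finset.sum_add_distrib, Finset.sum_const, nsmul_eq_mul]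
      have e2 : ∀ N : P d → Prop, ∑ q ∈ (X y).filter (R p), (if N q then (1 : ℝ) else 0) =
          (((X y).filter (fun q => N q ∧ R p q)).card : ℝ) := by
        intro N
        rw [← Finset.sum_filter, Finset.sum_const, nsmul_eq_mul, mul_one, Finset.filter_filter]
        simp only [and_comm]
      rw [e2 (fun q => Nul D t p q), e2 (fun q => Nul D t p (c1_rf q))]
      have e3 : (((X y).filter (R p)).card : ℝ) * (2 / t ^ 2) ≤ 2 / t ^ 2 * (X y).card := by
        rw [mul_comm]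
        apply mul_le_mul_of_nonneg_left _ (by positivity)
        exact_mod_cast Finset.card_filter_le _ _
      linarith
    have g4 : ∑ p ∈ X x, ∑ q ∈ (X y).filter (R p), Wf p q ≤ ∑ p ∈ X x,
        ((((X y).filter (fun q => Nul D t p q ∧ R p q)).card : ℝ) +
        (((X y).filter (fun q => Nul D t p (c1_rf q) ∧ R p q)).card : ℝ) +
        2 / t ^ 2 * (X y).card) := Finset.sum_le_sum g3
    rw [Finset.sum_add_distrib, Finset.sum_add_distrib, Finset.sum_const, nsmul_eq_mul] at g4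
    have g5 : (X x).card * (2 / t ^ 2 * (X y).card) ≤ 2 / t ^ 2 * (U * (X x).card) := by
      have e1 : (X x).card * (2 / t ^ 2 * (X y).card) = 2 / t ^ 2 * ((X y).card * (X x).card) := by
        ring
      rw [e1]
      apply mul_le_mul_of_nonneg_left _ (by positivity)
      exact mul_le_mul_of_nonneg_right (hXU y) hA0
    linarith
  -- sum over the cells
  obtain ⟨K, hK⟩ : ∃ K, K = S.image (c1_cell (L / d)) := ⟨_, rfl⟩
  have hmaps : ∀ p ∈ S, c1_cell (L / d) p ∈ K := fun p hp => by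
    rw [hK]
    exact Finset.mem_image_of_mem _ hp
  have hsplit : ∀ F : P d → ℝ, ∑ p ∈ S, F p = ∑ x ∈ K, ∑ p ∈ X x, F p := by
    intro F
    rw [← Finset.sum_fiberwise_of_maps_to hmaps F]
    refine Finset.sum_congr rfl fun x _ => ?_
    rw [hX]
  have hsplit2 : ∀ p, ∑ q ∈ S.filter (R p), Wf p q =
      ∑ y ∈ K, ∑ q ∈ (X y).filter (R p), Wf p q := by
    intro p
    rw [Finset.sum_filter, hsplit]
    refine Finset.sum_congr rfl fun y _ => ?_
    rw [Finset.sum_filter]
  have hfar : ∀ x y, ¬ c1_near (8 * (d : ℤ) + 1) x y → ∀ p ∈ X x,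
      ∑ q ∈ (X y).filter (R p), Wf p q = 0 := by
    intro x y hxy p hp
    have : (X y).filter (R p) = ∅ := by
      rw [Finset.filter_eq_empty_iff]
      intro q hq hpq
      apply hxy
      rw [hX, Finset.mem_filter] at hp hq
      rw [← hp.2, ← hq.2]
      exact c1_cell_near hd0 hL0 (((hR p q).mp hpq).2.trans hDL)
    rw [this, Finset.sum_empty]
  have hlhs : ∑ p ∈ S, ∑ q ∈ S.filter (fun q => D / 2 < dist p q ∧ dist p q ≤ D), Wf p q =
      ∑ x ∈ K, ∑ y ∈ K, ∑ p ∈ X x, ∑ q ∈ (X y).filter (R p), Wf p q := by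
    have e1 : ∀ p, S.filter (fun q => D / 2 < dist p q ∧ dist p q ≤ D) = S.filter (R p) := by
      intro p
      refine Finset.filter_congr fun q _ => (hR p q).symm
    simp only [e1]
    rw [hsplit]
    refine Finset.sum_congr rfl fun x _ => ?_
    rw [Finset.sum_comm]
    refine Finset.sum_congr rfl fun p _ => ?_
    exact hsplit2 p
  have hM : (((8 * d + 1 : ℕ) : ℕ) : ℤ) = 8 * (d : ℤ) + 1 := by push_cast; ring
  have hbound : ∑ x ∈ K, ∑ y ∈ K, ∑ p ∈ X x, ∑ q ∈ (X y).filter (R p), Wf p q ≤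
      ∑ x ∈ K, ∑ y ∈ K,
        ((if c1_near (((8 * d + 1 : ℕ) : ℕ) : ℤ) x y then
          (2 * (δ * U) + 2 / t ^ 2 * U) * ((X x).card : ℝ) else 0) +
         (if c1_near (((8 * d + 1 : ℕ) : ℕ) : ℤ) x y then
          (2 * (δ * U)) * ((X y).card : ℝ) else 0)) := by
    refine Finset.sum_le_sum fun x _ => Finset.sum_le_sum fun y _ => ?_
    by_cases hxy : c1_near (((8 * d + 1 : ℕ) : ℕ) : ℤ) x y
    · rw [if_pos hxy, if_pos hxy]
      refine (hpair x y).trans (le_of_eq ?_)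
      ring
    · rw [if_neg hxy, if_neg hxy, add_zero]
      rw [hM] at hxy
      exact le_of_eq (Finset.sum_eq_zero fun p hp => hfar x y hxy p hp)
  have hcardS : ∑ x ∈ K, ((X x).card : ℝ) = S.card := by
    have e1 := hsplit (fun _ => (1 : ℝ))
    simp only [Finset.sum_const, nsmul_eq_mul, mul_one] at e1
    exact e1.symm
  rw [hlhs]
  refine hbound.trans ?_
  simp only [Finset.sum_add_distrib]
  have hδU : 0 ≤ δ * U := mul_nonneg hδ.le hU0.le
  have ht2 : 0 ≤ 2 / t ^ 2 * U := by positivity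
  have b1 := c1_near_sum (8 * d + 1) K (fun x => (2 * (δ * U) + 2 / t ^ 2 * U) * ((X x).card : ℝ))
    (fun x => mul_nonneg (by linarith) (Nat.cast_nonneg _))
  have b2 := c1_near_sum' (8 * d + 1) K (fun x => (2 * (δ * U)) * ((X x).card : ℝ))
    (fun x => mul_nonneg (by linarith) (Nat.cast_nonneg _))
  rw [← Finset.mul_sum, hcardS, ← hCd] at b1 b2
  refine (add_le_add b1 b2).trans ?_
  have hS0 : (0 : ℝ) ≤ S.card := Nat.cast_nonneg _
  have hUD : U ≤ u * D := by
    rw [hUdef]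
    exact mul_le_mul_of_nonneg_left hLD (by linarith)
  have f1 : Cd * ((2 * (δ * U) + 2 / t ^ 2 * U) * S.card) + Cd * (2 * (δ * U) * S.card) ≤
      4 * Cd * (δ + 1 / t ^ 2) * U * S.card := by
    have e1 : 4 * Cd * (δ + 1 / t ^ 2) * U * S.card -
        (Cd * ((2 * (δ * U) + 2 / t ^ 2 * U) * S.card) + Cd * (2 * (δ * U) * S.card)) =
        2 * (Cd * (1 / t ^ 2) * U * S.card) := by ring
    have e2 : 0 ≤ Cd * (1 / t ^ 2) * U * S.card := by positivity
    linarith
  refine f1.trans ?_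
  have f2 : 0 ≤ (δ + 1 / t ^ 2) := by positivity
  calc 4 * Cd * (δ + 1 / t ^ 2) * U * S.card ≤ 4 * Cd * (δ + 1 / t ^ 2) * (u * D) * S.card := by
        apply mul_le_mul_of_nonneg_right _ hS0
        exact mul_le_mul_of_nonneg_left hUD (by positivity)
    _ ≤ (C0 + 4 * Cd) * (δ + 1 / t ^ 2) * (u * D) * S.card := by
        apply mul_le_mul_of_nonneg_right _ hS0
        apply mul_le_mul_of_nonneg_right _ (mul_nonneg (by linarith) (by linarith))
        apply mul_le_mul_of_nonneg_right _ f2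
        linarith
    _ = (C0 + 4 * Cd) * (δ + 1 / t ^ 2) * u * D * S.card := by ring

end Pool.LibLP59
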