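import Pool.Agent.LibLP59.Defs
import Pool.Agent.LibSR53.L1

/-
PLAN (C2). A pair with M < |p.2 - q.2| exists only if M < 2^k. For such a pair choose i with 2^i/2 < dist p q <= 2^i; M < |p.2-q.2| <= dist p q <= 2^i. Cases: (a) i <= k+3 and 2^i <= 2 M':
kernel <= 2^nu 2^(-i nu) Wf, use hmid, sum over these i of 2^(i(1-nu)) <= C M^(1-nu) (geometric, nu >= 3/2; geom_tail_aux of L1 may help). (b) 2^i > 2 M': dist >= M', Wf <= 2, far_sum (LibSR53.L1)
with L = M' for every p: <= C u M'^(1-nu). (c) i > k+3: dist > 2^(k+3), then |p.1-q.1| = dist (radii differ by < 2^k), both terms of Wf are <= 1/(1+2^k)^2, so Wf <= 2 2^(-2k); far_sum with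
L = 2^(k+3): total <= C u 2^(k(1-nu)) 2^(-2k) <= C u M^(-1-nu) since 2^k > M.
-/

set_option autoImplicit false

noncomputable section

open MeasureTheory Metric Set Filter

namespace Pool.LibLP59

open Pool.LibSR53 Pool.LibTP53

open scoped Classical in
/-- sum of the kernel over the pairs with distant radii -/
theorem far_light (d : ℕ) (hd : 4 ≤ d) : ∃ C : ℝ, 0 < C ∧ ∀ (T : Finset (P d))
    (u M M' lam : ℝ) (k : ℕ), Adm T → 1 ≤ u → Dens u T → 1 ≤ M → M ≤ M' → 0 ≤ lam →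
    (∀ i : ℕ, i ≤ k + 3 → M < (2 : ℝ) ^ i → (2 : ℝ) ^ i ≤ 2 * M' →
      ∑ p ∈ sc k T, ∑ q ∈ (sc k T).filter (fun q => (2 : ℝ) ^ i / 2 < dist p q ∧
        dist p q ≤ (2 : ℝ) ^ i), Wf p q ≤ lam * 2 ^ i * ((sc k T).card : ℝ)) →
    ∑ p ∈ sc k T, ∑ q ∈ (sc k T).filter (fun q => M < |p.2 - q.2|),
      (1 + dist p q) ^ (-nu d) / (1 + dist p q / 2 ^ k) ^ (d + 2) * Wf p q ≤
      C * (lam * M ^ (1 - nu d) + u * M' ^ (1 - nu d) + u * M ^ (-1 - nu d)) *
        ((sc k T).card : ℝ) := by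
  obtain ⟨C1, hC1, hfar⟩ := far_sum d hd
  have hν : (3 : ℝ) / 2 ≤ nu d := by
    unfold nu
    have : (4 : ℝ) ≤ (d : ℝ) := by exact_mod_cast hd
    linarith
  set r : ℝ := (2 : ℝ) ^ (1 - nu d) with hr
  have hr0 : 0 < r := Real.rpow_pos_of_pos (by norm_num) _
  have hr1 : r < 1 := Real.rpow_lt_one_of_one_lt_of_neg (by norm_num) (by linarith)
  have h1r : 0 < 1 - r := by linarith
  have hrj : ∀ j : ℕ, ((2 : ℝ) ^ j) ^ (1 - nu d) = r ^ j := by
    intro j
    rw [hr, ← Real.rpow_natCast, ← Real.rpow_natCast, ← Real.rpow_mul (by norm_num),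
      ← Real.rpow_mul (by norm_num), mul_comm]
  have h2ν : (0 : ℝ) < (2 : ℝ) ^ (nu d) := Real.rpow_pos_of_pos (by norm_num) _
  refine ⟨(2 : ℝ) ^ (nu d) / (1 - r) + 2 * C1, by positivity, ?_⟩
  intro T u M M' lam k hT hu hD hM hMM hlam hmid
  have hM0 : 0 < M := by linarith
  have hM'0 : 0 < M' := by linarith
  have h2k : (0 : ℝ) < (2 : ℝ) ^ k := by positivity
  have hMr : 0 < M ^ (1 - nu d) := Real.rpow_pos_of_pos hM0 _
  have hM'r : 0 < M' ^ (1 - nu d) := Real.rpow_pos_of_pos hM'0 _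
  have hMr2 : 0 < M ^ (-1 - nu d) := Real.rpow_pos_of_pos hM0 _
  set S : Finset (P d) := sc k T with hS
  have hmem : ∀ p ∈ S, (2 : ℝ) ^ k ≤ p.2 ∧ p.2 < (2 : ℝ) ^ (k + 1) := by
    intro p hp
    exact (Finset.mem_filter.1 hp).2
  have hdiff : ∀ p ∈ S, ∀ q ∈ S, |p.2 - q.2| < (2 : ℝ) ^ k := by
    intro p hp q hq
    have h1 := hmem p hp
    have h2 := hmem q hq
    rw [pow_succ] at h1 h2
    rw [abs_lt]
    constructor <;> linarith [h1.1, h1.2, h2.1, h2.2]
  have hRHS : 0 ≤ ((2 : ℝ) ^ (nu d) / (1 - r) + 2 * C1) *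
      (lam * M ^ (1 - nu d) + u * M' ^ (1 - nu d) + u * M ^ (-1 - nu d)) * (S.card : ℝ) := by
    positivity
  by_cases hMk : (2 : ℝ) ^ k ≤ M
  · have h0 : ∑ p ∈ S, ∑ q ∈ S.filter (fun q => M < |p.2 - q.2|),
        (1 + dist p q) ^ (-nu d) / (1 + dist p q / 2 ^ k) ^ (d + 2) * Wf p q = 0 := by
      refine Finset.sum_eq_zero fun p hp => ?_
      have h1 : S.filter (fun q => M < |p.2 - q.2|) = ∅ := by
        rw [Finset.filter_eq_empty_iff]
        intro q hq h2
        have := hdiff p hp q hq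
        linarith
      rw [h1, Finset.sum_empty]
    rw [h0]
    exact hRHS
  have hMk' : M < (2 : ℝ) ^ k := not_le.1 hMk
  -- the kernel
  set ke : P d → P d → ℝ := fun p q =>
    (1 + dist p q) ^ (-nu d) / (1 + dist p q / 2 ^ k) ^ (d + 2) with hke
  have hke0 : ∀ p q, 0 ≤ ke p q := by
    intro p q
    have : 0 ≤ dist p q := dist_nonneg
    rw [hke]
    positivity
  have hW0 : ∀ p q : P d, 0 ≤ Wf p q := by
    intro p q
    unfold Wf
    positivity
  have hinv : ∀ x : ℝ, 0 ≤ x → 1 / (1 + x) ^ 2 ≤ 1 := by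
    intro x hx
    rw [div_le_one (by positivity)]
    nlinarith
  have hW2 : ∀ p q : P d, Wf p q ≤ 2 := by
    intro p q
    unfold Wf
    have h1 := hinv _ (abs_nonneg (‖p.1 - q.1‖ - (|p.2 - q.2|)))
    have h2 := hinv _ (abs_nonneg (‖p.1 - q.1‖ - (p.2 + q.2)))
    linarith
  set I : Finset ℕ := (Finset.range (k + 4)).filter
    (fun i => M < (2 : ℝ) ^ i ∧ (2 : ℝ) ^ i ≤ 2 * M') with hI
  set fA : P d → P d → ℕ → ℝ := fun p q i =>
    if (2 : ℝ) ^ i / 2 < dist p q ∧ dist p q ≤ (2 : ℝ) ^ i then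
      (2 : ℝ) ^ (nu d) * ((2 : ℝ) ^ i) ^ (-nu d) * Wf p q else 0 with hfA
  set fB : P d → P d → ℝ := fun p q => if M' ≤ dist q p then 2 * ke p q else 0 with hfB
  set fC : P d → P d → ℝ := fun p q =>
    if (2 : ℝ) ^ (k + 3) ≤ dist q p then 2 * (((2 : ℝ) ^ k) ^ 2)⁻¹ * ke p q else 0 with hfC
  have hfA0 : ∀ p q i, 0 ≤ fA p q i := by
    intro p q i
    rw [hfA]
    dsimp only
    split_ifs
    · have := hW0 p q
      positivity
    · exact le_rfl
  have hfB0 : ∀ p q, 0 ≤ fB p q := by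
    intro p q
    rw [hfB]
    dsimp only
    split_ifs
    · have := hke0 p q
      positivity
    · exact le_rfl
  have hfC0 : ∀ p q, 0 ≤ fC p q := by
    intro p q
    rw [hfC]
    dsimp only
    split_ifs
    · have := hke0 p q
      positivity
    · exact le_rfl
  have hpt : ∀ p ∈ S, ∀ q ∈ S, M < |p.2 - q.2| →
      ke p q * Wf p q ≤ ∑ i ∈ I, fA p q i + fB p q + fC p q := by
    intro p hp q hq hpq
    have hd2 : |p.2 - q.2| ≤ dist p q := by
      have h1 : dist p.2 q.2 ≤ dist p q := le_max_right _ _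
      rwa [Real.dist_eq] at h1
    have hdM : M < dist p q := lt_of_lt_of_le hpq hd2
    have hd1 : 1 < dist p q := lt_of_le_of_lt hM hdM
    have hex : ∃ i : ℕ, dist p q ≤ (2 : ℝ) ^ i :=
      (pow_unbounded_of_one_lt (dist p q) one_lt_two).imp fun _ h => h.le
    set i : ℕ := Nat.find hex with hi
    have hi1 : dist p q ≤ (2 : ℝ) ^ i := Nat.find_spec hex
    have hi0 : i ≠ 0 := by
      intro h0
      rw [h0, pow_zero] at hi1
      linarith
    have hi2 : (2 : ℝ) ^ (i - 1) < dist p q := by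
      have := Nat.find_min hex (m := i - 1) (by omega)
      exact not_le.1 this
    have hi3 : (2 : ℝ) ^ i / 2 = (2 : ℝ) ^ (i - 1) := by
      have h1 : (2 : ℝ) ^ i = (2 : ℝ) ^ (i - 1) * 2 := by
        rw [← pow_succ, Nat.sub_add_cancel (by omega)]
      rw [h1]
      ring
    have hA0 : 0 ≤ ∑ i ∈ I, fA p q i := Finset.sum_nonneg fun i _ => hfA0 p q i
    have hB0 := hfB0 p q
    have hC0 := hfC0 p q
    have hW := hW0 p q
    by_cases h1 : i ≤ k + 3 ∧ (2 : ℝ) ^ i ≤ 2 * M'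
    · have hiI : i ∈ I := by
        rw [hI, Finset.mem_filter, Finset.mem_range]
        exact ⟨by omega, lt_of_lt_of_le hdM hi1, h1.2⟩
      have h2 : fA p q i ≤ ∑ i ∈ I, fA p q i :=
        Finset.single_le_sum (fun i _ => hfA0 p q i) hiI
      have h3 : fA p q i = (2 : ℝ) ^ (nu d) * ((2 : ℝ) ^ i) ^ (-nu d) * Wf p q := by
        rw [hfA]
        dsimp only
        rw [if_pos ⟨by rw [hi3]; exact hi2, hi1⟩]
      have h4 : ke p q ≤ (2 : ℝ) ^ (nu d) * ((2 : ℝ) ^ i) ^ (-nu d) := by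
        have h5 : ke p q ≤ (1 + dist p q) ^ (-nu d) := by
          rw [hke]
          refine div_le_self (by positivity) ?_
          apply one_le_pow₀
          have : (0 : ℝ) ≤ dist p q / 2 ^ k := by positivity
          linarith
        have h6 : (1 + dist p q) ^ (-nu d) ≤ ((2 : ℝ) ^ i / 2) ^ (-nu d) := by
          refine Real.rpow_le_rpow_of_nonpos (by positivity) ?_ (by linarith)
          rw [hi3]
          linarith
        have h7 : ((2 : ℝ) ^ i / 2) ^ (-nu d) = (2 : ℝ) ^ (nu d) * ((2 : ℝ) ^ i) ^ (-nu d) := by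
          rw [Real.div_rpow (by positivity) (by norm_num), Real.rpow_neg (by norm_num : (0:ℝ) ≤ 2),
            div_inv_eq_mul, mul_comm]
        exact h5.trans (h6.trans h7.le)
      have h5 : ke p q * Wf p q ≤ fA p q i := by
        rw [h3]
        exact mul_le_mul_of_nonneg_right h4 hW
      linarith
    · by_cases h2 : (2 : ℝ) ^ i ≤ 2 * M'
      · have h3 : k + 3 < i := by
          by_contra h4
          exact h1 ⟨by omega, h2⟩
        have h4 : (2 : ℝ) ^ (k + 3) ≤ (2 : ℝ) ^ (i - 1) :=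
          pow_le_pow_right₀ (by norm_num) (by omega)
        have h5 : (2 : ℝ) ^ (k + 3) < dist p q := lt_of_le_of_lt h4 hi2
        have h8 : (2 : ℝ) ^ (k + 3) = 8 * 2 ^ k := by
          rw [pow_add]
          norm_num
          ring
        have h6 : fC p q = 2 * (((2 : ℝ) ^ k) ^ 2)⁻¹ * ke p q := by
          rw [hfC]
          dsimp only
          rw [if_pos (by rw [dist_comm]; exact h5.le)]
        have h7 : dist p q = ‖p.1 - q.1‖ := by
          have e1 : dist p q = max (dist p.1 q.1) (dist p.2 q.2) := rfl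
          have e2 : dist p.2 q.2 < (2 : ℝ) ^ k := by
            rw [Real.dist_eq]
            exact hdiff p hp q hq
          rw [e1] at h5 ⊢
          rcases lt_max_iff.1 h5 with h9 | h9
          · rw [max_eq_left, dist_eq_norm]
            linarith
          · exfalso
            linarith
        rw [h7, h8] at h5
        have hp2 := hmem p hp
        have hq2 := hmem q hq
        rw [pow_succ] at hp2 hq2
        have hdf := hdiff p hp q hq
        have g1 : (2 : ℝ) ^ k ≤ |‖p.1 - q.1‖ - (|p.2 - q.2|)| := by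
          refine le_trans ?_ (le_abs_self _)
          linarith
        have g2 : (2 : ℝ) ^ k ≤ |‖p.1 - q.1‖ - (p.2 + q.2)| := by
          refine le_trans ?_ (le_abs_self _)
          linarith [hp2.2, hq2.2]
        have g3 : ∀ x : ℝ, (2 : ℝ) ^ k ≤ x → 1 / (1 + x) ^ 2 ≤ (((2 : ℝ) ^ k) ^ 2)⁻¹ := by
          intro x hx
          rw [one_div]
          apply inv_anti₀ (by positivity)
          apply pow_le_pow_left₀ h2k.le
          linarith
        have g4 : Wf p q ≤ 2 * (((2 : ℝ) ^ k) ^ 2)⁻¹ := by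
          unfold Wf
          have e1 := g3 _ g1
          have e2 := g3 _ g2
          linarith
        have g5 : ke p q * Wf p q ≤ fC p q := by
          rw [h6, mul_comm (ke p q)]
          exact mul_le_mul_of_nonneg_right g4 (hke0 p q)
        linarith
      · have h3 : M' ≤ dist q p := by
          rw [dist_comm]
          have : 2 * M' < (2 : ℝ) ^ i := not_le.1 h2
          have h4 : M' < (2 : ℝ) ^ i / 2 := by linarith
          rw [hi3] at h4
          linarith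
        have h4 : fB p q = 2 * ke p q := by
          rw [hfB]
          dsimp only
          rw [if_pos h3]
        have h5 : ke p q * Wf p q ≤ fB p q := by
          rw [h4, mul_comm]
          exact mul_le_mul_of_nonneg_right (hW2 p q) (hke0 p q)
        linarith
  -- the three sums
  have hcard0 : (0 : ℝ) ≤ (S.card : ℝ) := Nat.cast_nonneg _
  have hsumA : ∑ p ∈ S, ∑ q ∈ S, ∑ i ∈ I, fA p q i ≤
      (2 : ℝ) ^ (nu d) / (1 - r) * (lam * M ^ (1 - nu d)) * (S.card : ℝ) := by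
    have h1 : ∑ p ∈ S, ∑ q ∈ S, ∑ i ∈ I, fA p q i = ∑ i ∈ I, ∑ p ∈ S, ∑ q ∈ S, fA p q i := by
      have e1 : ∀ p ∈ S, ∑ q ∈ S, ∑ i ∈ I, fA p q i = ∑ i ∈ I, ∑ q ∈ S, fA p q i :=
        fun p _ => Finset.sum_comm
      rw [Finset.sum_congr rfl e1, Finset.sum_comm]
    have h2 : ∀ i ∈ I, ∑ p ∈ S, ∑ q ∈ S, fA p q i ≤
        (2 : ℝ) ^ (nu d) * lam * (S.card : ℝ) * r ^ i := by
      intro i hi
      rw [hI, Finset.mem_filter, Finset.mem_range] at hi
      have e1 : ∑ p ∈ S, ∑ q ∈ S, fA p q i = (2 : ℝ) ^ (nu d) * ((2 : ℝ) ^ i) ^ (-nu d) *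
          ∑ p ∈ S, ∑ q ∈ S.filter (fun q => (2 : ℝ) ^ i / 2 < dist p q ∧
            dist p q ≤ (2 : ℝ) ^ i), Wf p q := by
        rw [Finset.mul_sum]
        refine Finset.sum_congr rfl fun p _ => ?_
        rw [hfA]
        dsimp only
        rw [← Finset.sum_filter, Finset.mul_sum]
      have e2 := hmid i (by omega) hi.2.1 hi.2.2
      have e3 : ((2 : ℝ) ^ i) ^ (-nu d) * 2 ^ i = r ^ i := by
        rw [← hrj i]
        have h2i : (0 : ℝ) < 2 ^ i := by positivity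
        have : (1 : ℝ) - nu d = -nu d + 1 := by ring
        rw [this, Real.rpow_add h2i, Real.rpow_one]
      rw [e1]
      calc (2 : ℝ) ^ (nu d) * ((2 : ℝ) ^ i) ^ (-nu d) *
            ∑ p ∈ S, ∑ q ∈ S.filter (fun q => (2 : ℝ) ^ i / 2 < dist p q ∧
              dist p q ≤ (2 : ℝ) ^ i), Wf p q
          ≤ (2 : ℝ) ^ (nu d) * ((2 : ℝ) ^ i) ^ (-nu d) * (lam * 2 ^ i * (S.card : ℝ)) :=
            mul_le_mul_of_nonneg_left e2 (by positivity)
        _ = (2 : ℝ) ^ (nu d) * lam * (S.card : ℝ) * (((2 : ℝ) ^ i) ^ (-nu d) * 2 ^ i) := by ring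
        _ = (2 : ℝ) ^ (nu d) * lam * (S.card : ℝ) * r ^ i := by rw [e3]
    have h3 : ∑ i ∈ I, r ^ i ≤ M ^ (1 - nu d) / (1 - r) := by
      obtain ⟨i0, hi0, hi0'⟩ := exists_nat_pow_near hM (by norm_num : (1 : ℝ) < 2)
      refine (geom_tail_aux r hr0.le hr1 (i0 + 1) I ?_).trans ?_
      · intro i hi
        rw [hI, Finset.mem_filter] at hi
        have e1 : (2 : ℝ) ^ i0 < 2 ^ i := lt_of_le_of_lt hi0 hi.2.1
        exact (pow_lt_pow_iff_right₀ (by norm_num : (1 : ℝ) < 2)).1 e1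
      · refine div_le_div_of_nonneg_right ?_ h1r.le
        rw [← hrj]
        exact Real.rpow_le_rpow_of_nonpos hM0 hi0'.le (by linarith)
    rw [h1]
    refine (Finset.sum_le_sum h2).trans ?_
    rw [← Finset.mul_sum]
    calc (2 : ℝ) ^ (nu d) * lam * (S.card : ℝ) * ∑ i ∈ I, r ^ i
        ≤ (2 : ℝ) ^ (nu d) * lam * (S.card : ℝ) * (M ^ (1 - nu d) / (1 - r)) :=
          mul_le_mul_of_nonneg_left h3 (by positivity)
      _ = (2 : ℝ) ^ (nu d) / (1 - r) * (lam * M ^ (1 - nu d)) * (S.card : ℝ) := by ring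
  have hsumB : ∑ p ∈ S, ∑ q ∈ S, fB p q ≤ 2 * C1 * (u * M' ^ (1 - nu d)) * (S.card : ℝ) := by
    have h1 : ∀ p ∈ S, ∑ q ∈ S, fB p q ≤ 2 * (C1 * u * M' ^ (1 - nu d)) := by
      intro p hp
      have h2 := hfar k u T (by linarith) hD p hp M' (by linarith)
      have h3 : ∑ q ∈ S, fB p q = 2 * ∑ q ∈ far S p M', ke p q := by
        rw [hfB]
        dsimp only
        rw [← Finset.sum_filter, Finset.mul_sum]
        rfl
      rw [h3]
      exact mul_le_mul_of_nonneg_left h2 (by norm_num)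
    refine (Finset.sum_le_sum h1).trans ?_
    rw [Finset.sum_const, nsmul_eq_mul]
    exact le_of_eq (by ring)
  have hsumC : ∑ p ∈ S, ∑ q ∈ S, fC p q ≤ 2 * C1 * (u * M ^ (-1 - nu d)) * (S.card : ℝ) := by
    have h1 : ∀ p ∈ S, ∑ q ∈ S, fC p q ≤ 2 * (C1 * u * M ^ (-1 - nu d)) := by
      intro p hp
      have h2 := hfar k u T (by linarith) hD p hp ((2 : ℝ) ^ (k + 3)) (one_le_pow₀ (by norm_num))
      have h3 : ∑ q ∈ S, fC p q =
          2 * (((2 : ℝ) ^ k) ^ 2)⁻¹ * ∑ q ∈ far S p ((2 : ℝ) ^ (k + 3)), ke p q := by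
        rw [hfC]
        dsimp only
        rw [← Finset.sum_filter, Finset.mul_sum]
        rfl
      rw [h3]
      have h4 : ((2 : ℝ) ^ (k + 3)) ^ (1 - nu d) ≤ ((2 : ℝ) ^ k) ^ (1 - nu d) := by
        refine Real.rpow_le_rpow_of_nonpos h2k ?_ (by linarith)
        exact pow_le_pow_right₀ (by norm_num) (by omega)
      have h5 : (((2 : ℝ) ^ k) ^ 2)⁻¹ * ((2 : ℝ) ^ k) ^ (1 - nu d) =
          ((2 : ℝ) ^ k) ^ (-1 - nu d) := by
        have e1 : (((2 : ℝ) ^ k) ^ 2)⁻¹ = ((2 : ℝ) ^ k) ^ (-2 : ℝ) := by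
          rw [Real.rpow_neg h2k.le]
          norm_cast
        rw [e1, ← Real.rpow_add h2k]
        congr 1
        ring
      have h6 : ((2 : ℝ) ^ k) ^ (-1 - nu d) ≤ M ^ (-1 - nu d) :=
        Real.rpow_le_rpow_of_nonpos hM0 hMk'.le (by linarith)
      calc 2 * (((2 : ℝ) ^ k) ^ 2)⁻¹ * ∑ q ∈ far S p ((2 : ℝ) ^ (k + 3)), ke p q
          ≤ 2 * (((2 : ℝ) ^ k) ^ 2)⁻¹ * (C1 * u * ((2 : ℝ) ^ (k + 3)) ^ (1 - nu d)) :=
            mul_le_mul_of_nonneg_left h2 (by positivity)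
        _ ≤ 2 * (((2 : ℝ) ^ k) ^ 2)⁻¹ * (C1 * u * ((2 : ℝ) ^ k) ^ (1 - nu d)) := by
            refine mul_le_mul_of_nonneg_left ?_ (by positivity)
            exact mul_le_mul_of_nonneg_left h4 (by positivity)
        _ = 2 * (C1 * u * ((((2 : ℝ) ^ k) ^ 2)⁻¹ * ((2 : ℝ) ^ k) ^ (1 - nu d))) := by ring
        _ = 2 * (C1 * u * ((2 : ℝ) ^ k) ^ (-1 - nu d)) := by rw [h5]
        _ ≤ 2 * (C1 * u * M ^ (-1 - nu d)) := by
            refine mul_le_mul_of_nonneg_left ?_ (by norm_num)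
            exact mul_le_mul_of_nonneg_left h6 (by positivity)
    refine (Finset.sum_le_sum h1).trans ?_
    rw [Finset.sum_const, nsmul_eq_mul]
    exact le_of_eq (by ring)
  calc ∑ p ∈ S, ∑ q ∈ S.filter (fun q => M < |p.2 - q.2|), ke p q * Wf p q
      ≤ ∑ p ∈ S, ∑ q ∈ S.filter (fun q => M < |p.2 - q.2|),
          (∑ i ∈ I, fA p q i + fB p q + fC p q) := by
        refine Finset.sum_le_sum fun p hp => Finset.sum_le_sum fun q hq => ?_
        obtain ⟨hq1, hq2⟩ := Finset.mem_filter.1 hq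
        exact hpt p hp q hq1 hq2
    _ ≤ ∑ p ∈ S, ∑ q ∈ S, (∑ i ∈ I, fA p q i + fB p q + fC p q) := by
        refine Finset.sum_le_sum fun p hp => ?_
        refine Finset.sum_le_sum_of_subset_of_nonneg (Finset.filter_subset _ _) fun q _ _ => ?_
        have h1 : 0 ≤ ∑ i ∈ I, fA p q i := Finset.sum_nonneg fun i _ => hfA0 p q i
        have h2 := hfB0 p q
        have h3 := hfC0 p q
        linarith
    _ = ∑ p ∈ S, ∑ q ∈ S, ∑ i ∈ I, fA p q i + ∑ p ∈ S, ∑ q ∈ S, fB p q +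
          ∑ p ∈ S, ∑ q ∈ S, fC p q := by
        simp only [Finset.sum_add_distrib]
    _ ≤ (2 : ℝ) ^ (nu d) / (1 - r) * (lam * M ^ (1 - nu d)) * (S.card : ℝ) +
          2 * C1 * (u * M' ^ (1 - nu d)) * (S.card : ℝ) +
          2 * C1 * (u * M ^ (-1 - nu d)) * (S.card : ℝ) := by linarith
    _ ≤ ((2 : ℝ) ^ (nu d) / (1 - r) + 2 * C1) *
        (lam * M ^ (1 - nu d) + u * M' ^ (1 - nu d) + u * M ^ (-1 - nu d)) * (S.card : ℝ) := by
        have e1 : 0 ≤ (2 : ℝ) ^ (nu d) / (1 - r) * (u * M' ^ (1 - nu d)) * (S.card : ℝ) := by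
          positivity
        have e2 : 0 ≤ (2 : ℝ) ^ (nu d) / (1 - r) * (u * M ^ (-1 - nu d)) * (S.card : ℝ) := by
          positivity
        have e3 : 0 ≤ 2 * C1 * (lam * M ^ (1 - nu d)) * (S.card : ℝ) := by positivity
        nlinarith

end Pool.LibLP59
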