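import Pool.Agent.LibLP59.C2
import Pool.Agent.LibTP53.HA

/-
PLAN (C3). near_far (LibTP53.HA) with A = sc k T, c = Prod.snd, w p = gamma p . v p, near r s := |r - s| <= M, N = 2 M + 1 <= 3 M (radii of T differ by integers: LatP), D = C0 (2 2^k)^(d-1)
(Ker.fix on the centres of one radius, which are 1-separated by LatP; as hfix inside l2_diag of LibSR53.L2: copy), hoff: |<w p, w q>| <= C0 2^(k(d-1)) kernel (KerL.loc with R = 2^k, |gamma| <= 1)
and far_light. Result (3M C0 2^(d-1) + C0 C (...)) 2^(k(d-1)).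
-/

set_option autoImplicit false

noncomputable section

open MeasureTheory Metric Set Filter

namespace Pool.LibLP59

open Pool.LibSR53 Pool.LibTP53

open scoped Classical in
/-- one radius (copy of a step of LibSR53.L2) -/
private theorem c3_fix {H : Type} [NormedAddCommGroup H] [InnerProductSpace ℂ H] {d : ℕ}
    {C0 : ℝ} {v : P d → H} (hv : Ker d C0 v) (A : Finset (P d))
    (hsep : ∀ p ∈ A, ∀ q ∈ A, p ≠ q → 1 ≤ dist p q) (M : ℝ)
    (h1 : ∀ p ∈ A, 1 ≤ p.2) (hM : ∀ p ∈ A, p.2 ≤ M) (γ : P d → ℂ) (hγ : ∀ p, ‖γ p‖ ≤ 1) :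
    ∀ ρ ∈ A.image Prod.snd, ‖∑ p ∈ A.filter (fun p => p.2 = ρ), γ p • v p‖ ^ 2 ≤
      C0 * M ^ (d - 1) * ((A.filter (fun p => p.2 = ρ)).card : ℝ) := by
  have hC0 := hv.pos
  intro ρ hρ
  obtain ⟨p1, hp1, rfl⟩ := Finset.mem_image.1 hρ
  set T := A.filter (fun p => p.2 = p1.2) with hT
  have hinj : Set.InjOn Prod.fst (T : Set (P d)) := by
    intro a ha b hb hab
    have ha' := (Finset.mem_filter.1 ha).2
    have hb' := (Finset.mem_filter.1 hb).2
    exact Prod.ext hab (ha'.trans hb'.symm)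
  have hTs : ∑ p ∈ T, γ p • v p = ∑ y ∈ T.image Prod.fst, γ (y, p1.2) • v (y, p1.2) := by
    rw [Finset.sum_image hinj]
    refine Finset.sum_congr rfl fun p hp => ?_
    rw [← (Finset.mem_filter.1 hp).2]
  have hcard : (T.image Prod.fst).card = T.card := Finset.card_image_of_injOn hinj
  have h2 := hv.fix p1.2 (h1 p1 hp1) (T.image Prod.fst) (fun y => γ (y, p1.2)) (by
    intro y hy z hz hyz
    obtain ⟨a, ha, rfl⟩ := Finset.mem_image.1 hy
    obtain ⟨b, hb, rfl⟩ := Finset.mem_image.1 hz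
    have ha' := (Finset.mem_filter.1 ha)
    have hb' := (Finset.mem_filter.1 hb)
    have h3 := hsep a ha'.1 b hb'.1 (fun h => hyz (by rw [h]))
    rw [Prod.dist_eq, ha'.2, hb'.2, dist_self, max_eq_left dist_nonneg] at h3
    exact h3)
  rw [hTs]
  refine h2.trans ?_
  have h4 : ∑ y ∈ T.image Prod.fst, ‖γ (y, p1.2)‖ ^ 2 ≤ (T.card : ℝ) := by
    rw [← hcard]
    calc ∑ y ∈ T.image Prod.fst, ‖γ (y, p1.2)‖ ^ 2 ≤ ∑ y ∈ T.image Prod.fst, (1 : ℝ) := by
          refine Finset.sum_le_sum fun y _ => ?_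
          exact pow_le_one₀ (norm_nonneg _) (hγ _)
      _ = ((T.image Prod.fst).card : ℝ) := by simp
  have h5 : p1.2 ^ (d - 1) ≤ M ^ (d - 1) :=
    pow_le_pow_left₀ (le_trans zero_le_one (h1 p1 hp1)) (hM p1 hp1) _
  have h6 : 0 ≤ p1.2 := le_trans zero_le_one (h1 p1 hp1)
  have h7 : 0 ≤ M := le_trans h6 (hM p1 hp1)
  gcongr

/-- different points of a lattice translate are separated -/
private theorem c3_sep {d : ℕ} {T : Finset (P d)} (hT : LatP T) :
    ∀ p ∈ T, ∀ q ∈ T, p ≠ q → 1 ≤ dist p q := by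
  intro p hp q hq hpq
  obtain ⟨h1, n, hn⟩ := hT p hp q hq
  by_cases h2 : p.2 = q.2
  · have h3 : p.1 ≠ q.1 := fun h => hpq (Prod.ext h h2)
    obtain ⟨i, hi⟩ : ∃ i, p.1 i ≠ q.1 i := by
      by_contra hcon
      push Not at hcon
      exact h3 (by ext i; exact hcon i)
    obtain ⟨m, hm⟩ := h1 i
    have h4 : (p - q).1 i = p.1 i - q.1 i := rfl
    rw [h4] at hm
    have h5 : m ≠ 0 := by
      rintro rfl
      apply hi
      have : p.1 i - q.1 i = 0 := by rw [hm]; simp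
      linarith
    have h6 : (1 : ℝ) ≤ |(m : ℝ)| := by
      rw [← Int.cast_abs]
      exact_mod_cast Int.one_le_abs h5
    have h7 : |p.1 i - q.1 i| ≤ ‖p.1 - q.1‖ := by
      have := PiLp.norm_apply_le (p.1 - q.1) i
      simpa [Real.norm_eq_abs] using this
    calc (1 : ℝ) ≤ |(m : ℝ)| := h6
      _ = |p.1 i - q.1 i| := by rw [hm]
      _ ≤ ‖p.1 - q.1‖ := h7
      _ = dist p.1 q.1 := (dist_eq_norm _ _).symm
      _ ≤ dist p q := by rw [Prod.dist_eq]; exact le_max_left _ _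
  · have h4 : (p - q).2 = p.2 - q.2 := rfl
    rw [h4] at hn
    have h5 : n ≠ 0 := by
      rintro rfl
      apply h2
      have : p.2 - q.2 = 0 := by rw [hn]; simp
      linarith
    have h6 : (1 : ℝ) ≤ |(n : ℝ)| := by
      rw [← Int.cast_abs]
      exact_mod_cast Int.one_le_abs h5
    calc (1 : ℝ) ≤ |(n : ℝ)| := h6
      _ = |p.2 - q.2| := by rw [hn]
      _ = dist p.2 q.2 := (Real.dist_eq _ _).symm
      _ ≤ dist p q := by rw [Prod.dist_eq]; exact le_max_right _ _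

open scoped Classical in
/-- few radii near a given one -/
private theorem c3_near {d : ℕ} {A : Finset (P d)} (hA : LatP A) {M : ℝ} (hM : 1 ≤ M) :
    ∀ r ∈ A.image Prod.snd,
      (((A.image Prod.snd).filter (fun s => |r - s| ≤ M)).card : ℝ) ≤ 3 * M := by
  intro r hr
  obtain ⟨p, hp, rfl⟩ := Finset.mem_image.1 hr
  have h1 : ∀ s ∈ (A.image Prod.snd).filter (fun s => |p.2 - s| ≤ M),
      ∃ n : ℤ, p.2 - s = n := by
    intro s hs
    obtain ⟨q, hq, rfl⟩ := Finset.mem_image.1 (Finset.mem_filter.1 hs).1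
    exact (hA p hp q hq).2
  have h2 : ((A.image Prod.snd).filter (fun s => |p.2 - s| ≤ M)).card ≤
      (Finset.Icc (-⌊M⌋) ⌊M⌋).card := by
    apply Finset.card_le_card_of_injOn (fun s => ⌊p.2 - s⌋)
    · intro s hs
      obtain ⟨n, hn⟩ := h1 s hs
      have h3 := (Finset.mem_filter.1 hs).2
      simp only
      rw [hn, Int.floor_intCast]
      rw [hn, abs_le] at h3
      rw [Finset.mem_coe, Finset.mem_Icc]
      constructor
      · rw [neg_le]
        apply Int.le_floor.2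
        push_cast
        linarith
      · exact Int.le_floor.2 h3.2
    · intro s hs s' hs' hss
      obtain ⟨n, hn⟩ := h1 s hs
      obtain ⟨n', hn'⟩ := h1 s' hs'
      simp only at hss
      rw [hn, hn', Int.floor_intCast, Int.floor_intCast] at hss
      rw [hss] at hn
      linarith
  have h3 : ((Finset.Icc (-⌊M⌋) ⌊M⌋).card : ℝ) ≤ 3 * M := by
    rw [Int.card_Icc]
    have h4 : (0 : ℤ) ≤ ⌊M⌋ := Int.floor_nonneg.2 (by linarith)
    have h5 : ((⌊M⌋ + 1 - -⌊M⌋).toNat : ℤ) = ⌊M⌋ + 1 - -⌊M⌋ := Int.toNat_of_nonneg (by omega)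
    have h6 : (((⌊M⌋ + 1 - -⌊M⌋).toNat : ℕ) : ℝ) = ((⌊M⌋ + 1 - -⌊M⌋ : ℤ) : ℝ) := by
      exact_mod_cast h5
    rw [h6]
    push_cast
    have h7 := Int.floor_le M
    linarith
  exact le_trans (by exact_mod_cast h2) h3

open scoped Classical in
/-- square function estimate inside one scale -/
theorem same_scale_light {H : Type} [NormedAddCommGroup H] [InnerProductSpace ℂ H] (d : ℕ)
    (hd : 4 ≤ d) (C0 : ℝ) (v : P d → H) (hv : KerL d C0 v) : ∃ C : ℝ, 0 < C ∧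
    ∀ (T : Finset (P d)) (u M M' lam : ℝ) (k : ℕ), Adm T → 1 ≤ u → Dens u T → 1 ≤ M → M ≤ M' →
    0 ≤ lam →
    (∀ i : ℕ, i ≤ k + 3 → M < (2 : ℝ) ^ i → (2 : ℝ) ^ i ≤ 2 * M' →
      ∑ p ∈ sc k T, ∑ q ∈ (sc k T).filter (fun q => (2 : ℝ) ^ i / 2 < dist p q ∧
        dist p q ≤ (2 : ℝ) ^ i), Wf p q ≤ lam * 2 ^ i * ((sc k T).card : ℝ)) →
    ∀ γ : P d → ℂ, (∀ p, ‖γ p‖ ≤ 1) →
    ‖∑ p ∈ sc k T, γ p • v p‖ ^ 2 ≤
      C * (M + lam * M ^ (1 - nu d) + u * M' ^ (1 - nu d) + u * M ^ (-1 - nu d)) *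
        2 ^ (k * (d - 1)) * ((sc k T).card : ℝ) := by
  obtain ⟨Cf, hCf, hfar⟩ := far_light d hd
  have hker : Ker d C0 v := hv.toKer
  have hC0 := hker.pos
  refine ⟨C0 * (3 * 2 ^ (d - 1) + Cf), by positivity, ?_⟩
  intro T u M M' lam k hT hu hdens hM hMM' hlam hmid γ hγ
  have h2k : (1 : ℝ) ≤ 2 ^ k := one_le_pow₀ (by norm_num)
  have hmem : ∀ p ∈ sc k T, p ∈ T ∧ (2 : ℝ) ^ k ≤ p.2 ∧ p.2 < (2 : ℝ) ^ (k + 1) := by
    intro p hp
    simp only [sc, Finset.mem_filter] at hp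
    exact hp
  have hlat : LatP (sc k T) := fun a ha b hb => hT.2 a (hmem a ha).1 b (hmem b hb).1
  have h2k1 : (2 : ℝ) ^ (k + 1) = 2 * 2 ^ k := by rw [pow_succ]; ring
  set B : ℝ := C0 * ((2 : ℝ) ^ k) ^ (d - 1) *
    (Cf * (lam * M ^ (1 - nu d) + u * M' ^ (1 - nu d) + u * M ^ (-1 - nu d))) with hB
  have key := near_far (sc k T) Prod.snd (fun p => γ p • v p) (fun r s : ℝ => |r - s| ≤ M)
    (fun r s h => by rwa [abs_sub_comm]) (3 * M) B (C0 * (2 * 2 ^ k) ^ (d - 1))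
    (by linarith) (by positivity) (c3_near hlat hM)
    (c3_fix hker (sc k T) (c3_sep hlat) (2 * 2 ^ k)
      (fun p hp => le_trans h2k (hmem p hp).2.1)
      (fun p hp => by rw [← h2k1]; exact (hmem p hp).2.2.le) γ hγ)
    (by
      have h1 : ∑ p ∈ sc k T, ∑ q ∈ (sc k T).filter (fun q => ¬ |p.2 - q.2| ≤ M),
          ‖(inner ℂ (γ p • v p) (γ q • v q) : ℂ)‖ ≤
          ∑ p ∈ sc k T, ∑ q ∈ (sc k T).filter (fun q => M < |p.2 - q.2|),
            C0 * ((2 : ℝ) ^ k) ^ (d - 1) *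
              ((1 + dist p q) ^ (-nu d) / (1 + dist p q / 2 ^ k) ^ (d + 2) * Wf p q) := by
        refine Finset.sum_le_sum fun p hp => ?_
        rw [show (sc k T).filter (fun q => ¬ |p.2 - q.2| ≤ M) =
          (sc k T).filter (fun q => M < |p.2 - q.2|) from
            Finset.filter_congr fun q _ => not_le]
        refine Finset.sum_le_sum fun q hq => ?_
        have hq' := (Finset.mem_filter.1 hq).1
        have h2 : ‖(inner ℂ (γ p • v p) (γ q • v q) : ℂ)‖ ≤ ‖(inner ℂ (v p) (v q) : ℂ)‖ := by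
          rw [inner_smul_left, inner_smul_right, norm_mul, norm_mul, RCLike.norm_conj]
          have h3 := hγ p
          have h4 := hγ q
          have h5 : 0 ≤ ‖(inner ℂ (v p) (v q) : ℂ)‖ := norm_nonneg _
          calc ‖γ p‖ * (‖γ q‖ * ‖(inner ℂ (v p) (v q) : ℂ)‖)
              ≤ 1 * (1 * ‖(inner ℂ (v p) (v q) : ℂ)‖) := by gcongr
            _ = _ := by ring
        refine h2.trans ?_
        exact hv.loc (2 ^ k) h2k p q (hmem p hp).2.1
          (by rw [← h2k1]; exact (hmem p hp).2.2.le) (hmem q hq').2.1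
          (by rw [← h2k1]; exact (hmem q hq').2.2.le)
      refine h1.trans ?_
      simp only [← Finset.mul_sum]
      have h2 := hfar T u M M' lam k hT hu hdens hM hMM' hlam hmid
      calc C0 * ((2 : ℝ) ^ k) ^ (d - 1) * ∑ p ∈ sc k T, ∑ q ∈ (sc k T).filter
            (fun q => M < |p.2 - q.2|),
            (1 + dist p q) ^ (-nu d) / (1 + dist p q / 2 ^ k) ^ (d + 2) * Wf p q
          ≤ C0 * ((2 : ℝ) ^ k) ^ (d - 1) * (Cf * (lam * M ^ (1 - nu d) + u * M' ^ (1 - nu d) +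
            u * M ^ (-1 - nu d)) * ((sc k T).card : ℝ)) := by gcongr
        _ = B * ((sc k T).card : ℝ) := by rw [hB]; ring)
  refine key.trans ?_
  have hM0 : 0 < M := by linarith
  have hM'0 : 0 < M' := by linarith
  have hu0 : 0 ≤ u := by linarith
  have e1 : 0 ≤ lam * M ^ (1 - nu d) := mul_nonneg hlam (Real.rpow_nonneg hM0.le _)
  have e2 : 0 ≤ u * M' ^ (1 - nu d) := mul_nonneg hu0 (Real.rpow_nonneg hM'0.le _)
  have e3 : 0 ≤ u * M ^ (-1 - nu d) := mul_nonneg hu0 (Real.rpow_nonneg hM0.le _)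
  set X := lam * M ^ (1 - nu d) with hX
  set Y := u * M' ^ (1 - nu d) with hY
  set Z := u * M ^ (-1 - nu d) with hZ
  have h3 : ((2 : ℝ) ^ k) ^ (d - 1) = 2 ^ (k * (d - 1)) := (pow_mul _ _ _).symm
  have h4 : 3 * M * (C0 * (2 * 2 ^ k) ^ (d - 1)) + B ≤
      C0 * (3 * 2 ^ (d - 1) + Cf) * (M + X + Y + Z) * 2 ^ (k * (d - 1)) := by
    rw [hB, mul_pow, h3]
    have h5 : (0 : ℝ) < 2 ^ (k * (d - 1)) := by positivity
    have h6 : C0 * (3 * 2 ^ (d - 1) + Cf) * (M + X + Y + Z) * 2 ^ (k * (d - 1)) -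
        (3 * M * (C0 * (2 ^ (d - 1) * 2 ^ (k * (d - 1)))) +
          C0 * 2 ^ (k * (d - 1)) * (Cf * (X + Y + Z))) =
        C0 * 2 ^ (k * (d - 1)) * (3 * 2 ^ (d - 1) * (X + Y + Z) + Cf * M) := by ring
    have h7 : 0 ≤ C0 * 2 ^ (k * (d - 1)) * (3 * 2 ^ (d - 1) * (X + Y + Z) + Cf * M) := by
      have : 0 ≤ X + Y + Z := by linarith
      positivity
    linarith
  exact mul_le_mul_of_nonneg_right h4 (Nat.cast_nonneg _)

end Pool.LibLP59
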