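import Pool.Agent.LibLP59.Defs

/-
PLAN (C5). Pure real exponents. n0 = min i k >= i - 3, so 2^n0 >= 2^i/8. m := u^(-kap) u 2^n0 >= u^(1-kap) 2^i / 8. be >= u^(-kap (d+3)) u^(2-2kap) 4^i/64 / (u^(kap/2) 2^i)^(d+1) =
(1/64) u^(2 - kap(d+5+(d+1)/2)) (2^i)^(1-d), and (2^i)^(d-1) <= 2^(d-1) u^(2(1+2kap)) (hyp. 2^i <= 2 u^((1+2kap)/nu), nu = (d-1)/2), so be >= c u^(-kap(1.5 d + 9.5)).
pn = u^(-kap(d+2)) be m >= c u^(1 - kap(2.5 d + 12.5)) 2^i. t / be^2 <= C u^(kap/2 + kap(3d+19)).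
-/

set_option autoImplicit false

noncomputable section

open MeasureTheory Metric Set Filter

namespace Pool.LibLP59

open Pool.LibSR53 Pool.LibTP53

/-- exponent loss in the number of points -/
def em (d : ℕ) : ℝ := 5 / 2 * d + 25 / 2

/-- exponent of the thickness -/
def eh (d : ℕ) : ℝ := 3 * d + 39 / 2

private theorem c5_X (d : ℕ) (hd : 4 ≤ d) (u κ X : ℝ) (hu : 1 ≤ u) (hX : 0 < X)
    (h : X ≤ 2 * u ^ ((1 + 2 * κ) / nu d)) :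
    X ^ (d - 1) ≤ 2 ^ (d - 1) * u ^ (2 + 4 * κ) := by
  have hu0 : 0 < u := by linarith
  have h1 : X ^ (d - 1) ≤ (2 * u ^ ((1 + 2 * κ) / nu d)) ^ (d - 1) :=
    pow_le_pow_left₀ hX.le h _
  rw [mul_pow] at h1
  have h2 : (u ^ ((1 + 2 * κ) / nu d)) ^ (d - 1) = u ^ (2 + 4 * κ) := by
    rw [← Real.rpow_natCast, ← Real.rpow_mul hu0.le]
    congr 1
    have hd1 : ((d - 1 : ℕ) : ℝ) = (d : ℝ) - 1 := by
      rw [Nat.cast_sub (by omega)]; norm_num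
    rw [hd1]
    unfold nu
    have : (d : ℝ) - 1 ≠ 0 := by
      have : (4 : ℝ) ≤ d := by exact_mod_cast hd
      linarith
    field_simp
    ring
  rwa [h2] at h1

private theorem c5_be (d : ℕ) (hd : 4 ≤ d) (u κ X N : ℝ) (hu : 1 ≤ u) (hX : 0 < X)
    (hN : 0 < N) (hXN : X ≤ 8 * N)
    (h : X ≤ 2 * u ^ ((1 + 2 * κ) / nu d)) :
    1 / (64 * 2 ^ (d - 1)) * u ^ (-(κ * (3 / 2 * d + 19 / 2))) ≤
      be d X (u ^ (κ / 2)) (u ^ (-κ)) (u ^ (-κ) * u * N) := by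
  have hu0 : 0 < u := by linarith
  have hX1 := c5_X d hd u κ X hu hX h
  have hX2 : X ^ 2 ≤ 64 * N ^ 2 := by
    have := pow_le_pow_left₀ hX.le hXN 2
    calc X ^ 2 ≤ (8 * N) ^ 2 := this
      _ = 64 * N ^ 2 := by ring
  unfold be
  rw [le_div_iff₀ (by positivity)]
  have e1 : (u ^ (-κ)) ^ (d + 3) = u ^ (-κ * (d + 3)) := by
    rw [← Real.rpow_natCast, ← Real.rpow_mul hu0.le]; push_cast; rfl
  have e2 : (u ^ (κ / 2)) ^ (d + 1) = u ^ (κ / 2 * (d + 1)) := by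
    rw [← Real.rpow_natCast, ← Real.rpow_mul hu0.le]; push_cast; rfl
  have e3 : (u ^ (-κ)) ^ 2 = u ^ (-κ * 2) := by
    rw [← Real.rpow_natCast, ← Real.rpow_mul hu0.le]; push_cast; rfl
  have e4 : u ^ 2 = u ^ (2 : ℝ) := by
    rw [← Real.rpow_natCast]; norm_num
  have e5 : X ^ (d + 1) = X ^ (d - 1) * X ^ 2 := by
    rw [← pow_add]; congr 1; omega
  rw [mul_pow, mul_pow, mul_pow, e1, e2, e3, e4, e5]
  have hp : (0 : ℝ) < 2 ^ (d - 1) := by positivity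
  have key : X ^ (d - 1) * X ^ 2 ≤ (2 ^ (d - 1) * u ^ (2 + 4 * κ)) * (64 * N ^ 2) :=
    mul_le_mul hX1 hX2 (by positivity) (by positivity)
  calc 1 / (64 * 2 ^ (d - 1)) * u ^ (-(κ * (3 / 2 * d + 19 / 2))) *
        (u ^ (κ / 2 * (d + 1)) * (X ^ (d - 1) * X ^ 2))
      ≤ 1 / (64 * 2 ^ (d - 1)) * u ^ (-(κ * (3 / 2 * d + 19 / 2))) *
        (u ^ (κ / 2 * (d + 1)) * ((2 ^ (d - 1) * u ^ (2 + 4 * κ)) * (64 * N ^ 2))) := by
        gcongr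
    _ = (u ^ (-(κ * (3 / 2 * d + 19 / 2))) * u ^ (κ / 2 * (d + 1)) * u ^ (2 + 4 * κ)) * N ^ 2 := by
        field_simp
    _ = u ^ (-κ * (d + 3)) * (u ^ (-κ * 2) * u ^ (2 : ℝ) * N ^ 2) := by
        rw [← mul_assoc, ← Real.rpow_add hu0, ← Real.rpow_add hu0, ← Real.rpow_add hu0,
          ← Real.rpow_add hu0]
        congr 2
        ring
    _ ≤ _ := le_rfl

/-- bounds for the number of points and the thickness, all quantities powers of u -/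
theorem pn_lower (d : ℕ) (hd : 4 ≤ d) : ∃ c C : ℝ, 0 < c ∧ 0 < C ∧ ∀ (u κ : ℝ) (i k : ℕ),
    1 ≤ u → 0 < κ → κ ≤ 1 → i ≤ k + 3 → (2 : ℝ) ^ i ≤ 2 * u ^ ((1 + 2 * κ) / nu d) →
    c * (u ^ (1 - κ * em d) * 2 ^ i) ≤
      pn d ((2 : ℝ) ^ i) (u ^ (κ / 2)) (u ^ (-κ)) (u ^ (-κ) * u * 2 ^ min i k) ∧
    u ^ (κ / 2) / be d ((2 : ℝ) ^ i) (u ^ (κ / 2)) (u ^ (-κ)) (u ^ (-κ) * u * 2 ^ min i k) ^ 2 ≤
      C * u ^ (κ * eh d) := by
  refine ⟨1 / (64 * 2 ^ (d - 1)) / 8, (64 * 2 ^ (d - 1)) ^ 2, by positivity, by positivity, ?_⟩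
  intro u κ i k hu hκ hκ1 hik hi
  have hu0 : 0 < u := by linarith
  have hX : (0 : ℝ) < 2 ^ i := by positivity
  have hN : (0 : ℝ) < 2 ^ min i k := by positivity
  have hXN : (2 : ℝ) ^ i ≤ 8 * 2 ^ min i k := by
    calc (2 : ℝ) ^ i ≤ 2 ^ (min i k + 3) := pow_le_pow_right₀ (by norm_num) (by omega)
      _ = 8 * 2 ^ min i k := by rw [pow_add]; ring
  have hb := c5_be d hd u κ ((2 : ℝ) ^ i) ((2 : ℝ) ^ min i k) hu hX hN hXN hi
  set B := be d ((2 : ℝ) ^ i) (u ^ (κ / 2)) (u ^ (-κ)) (u ^ (-κ) * u * 2 ^ min i k) with hB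
  have hc0 : (0 : ℝ) < 1 / (64 * 2 ^ (d - 1)) := by positivity
  have hbpos : (0 : ℝ) < 1 / (64 * 2 ^ (d - 1)) * u ^ (-(κ * (3 / 2 * d + 19 / 2))) := by
    positivity
  have hBpos : 0 < B := lt_of_lt_of_le hbpos hb
  have e1 : (u ^ (-κ)) ^ (d + 2) = u ^ (-κ * (d + 2)) := by
    rw [← Real.rpow_natCast, ← Real.rpow_mul hu0.le]; push_cast; rfl
  constructor
  · unfold pn
    rw [← hB, e1]
    have hN' : (2 : ℝ) ^ i / 8 ≤ 2 ^ min i k := by linarith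
    calc 1 / (64 * 2 ^ (d - 1)) / 8 * (u ^ (1 - κ * em d) * 2 ^ i)
        = u ^ (-κ * (d + 2)) * (1 / (64 * 2 ^ (d - 1)) * u ^ (-(κ * (3 / 2 * d + 19 / 2)))) *
          (u ^ (-κ) * u ^ (1 : ℝ) * (2 ^ i / 8)) := by
          have e6 : u ^ (1 - κ * em d) = u ^ (-κ * (d + 2)) *
              u ^ (-(κ * (3 / 2 * d + 19 / 2))) * (u ^ (-κ) * u ^ (1 : ℝ)) := by
            rw [← Real.rpow_add hu0, ← Real.rpow_add hu0, ← Real.rpow_add hu0]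
            congr 1
            unfold em
            ring
          rw [e6]
          ring
      _ ≤ u ^ (-κ * (d + 2)) * B * (u ^ (-κ) * u ^ (1 : ℝ) * 2 ^ min i k) := by
          gcongr
      _ = u ^ (-κ * (d + 2)) * B * (u ^ (-κ) * u * 2 ^ min i k) := by
          rw [Real.rpow_one]
  · rw [div_le_iff₀ (by positivity)]
    have h2 : (1 / (64 * 2 ^ (d - 1)) * u ^ (-(κ * (3 / 2 * d + 19 / 2)))) ^ 2 ≤ B ^ 2 :=
      pow_le_pow_left₀ hbpos.le hb 2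
    have e3 : (u ^ (-(κ * (3 / 2 * d + 19 / 2)))) ^ 2 = u ^ (-(κ * (3 / 2 * d + 19 / 2)) * 2) := by
      rw [← Real.rpow_natCast, ← Real.rpow_mul hu0.le]; push_cast; rfl
    calc u ^ (κ / 2) = (64 * 2 ^ (d - 1)) ^ 2 * u ^ (κ * eh d) *
          (1 / (64 * 2 ^ (d - 1)) * u ^ (-(κ * (3 / 2 * d + 19 / 2)))) ^ 2 := by
          rw [mul_pow (1 / (64 * 2 ^ (d - 1)) : ℝ), e3]
          have e7 : u ^ (κ / 2) = u ^ (κ * eh d) * u ^ (-(κ * (3 / 2 * d + 19 / 2)) * 2) := by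
            rw [← Real.rpow_add hu0]
            congr 1
            unfold eh
            ring
          rw [e7]
          field_simp
      _ ≤ (64 * 2 ^ (d - 1)) ^ 2 * u ^ (κ * eh d) * B ^ 2 := by gcongr

end Pool.LibLP59
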