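import Pool.Agent.LibLP59.Defs

/-
PLAN (G1). one_le, sep (distinct points differ by >= 1 in some coordinate: integer differences; dist = max of the norms of the components, |x i| <= norm x), rad_sep (integer difference < 1 in absolute
value is 0), rad: the radii of S in [a, a+D] are 1-separated, hence <= D + 1 <= 2 D of them (as in good_of_sparse, LibSR53.F4).
adm_sub: subsets.
-/

set_option autoImplicit false

noncomputable section

open MeasureTheory Metric Set Filter

namespace Pool.LibLP59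

open Pool.LibSR53 Pool.LibTP53

theorem adm_sub {d : ℕ} {S T : Finset (P d)} (hS : Adm S) (hT : T ⊆ S) : Adm T :=
  ⟨fun a ha => hS.1 a (hT ha), fun a ha b hb => hS.2 a (hT ha) b (hT hb)⟩

/-- admissible families satisfy the hypotheses of LibSR53 with alpha = 1 -/
theorem adm_good {d : ℕ} {S : Finset (P d)} (hS : Adm S) : Good 2 1 S := by
  obtain ⟨h2, h1⟩ := hS
  have hrs : ∀ p ∈ S, ∀ q ∈ S, |p.2 - q.2| < 1 → p.2 = q.2 := by
    intro p hp q hq h
    obtain ⟨n, hn⟩ := (h1 p hp q hq).2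
    have hn' : p.2 - q.2 = n := hn
    rw [hn'] at h
    have h0 : n = 0 := by
      have : |n| < 1 := by exact_mod_cast h
      exact Int.abs_lt_one_iff.mp this
    rw [h0] at hn'
    simp at hn'
    linarith
  refine ⟨fun p hp => h2 p hp, ?_, hrs, ?_⟩
  · intro p hp q hq hpq
    obtain ⟨hc, n, hn⟩ := h1 p hp q hq
    rw [dist_eq_norm]
    by_cases h2' : p.2 = q.2
    · have h1' : p.1 ≠ q.1 := fun h => hpq (Prod.ext h h2')
      have : ∃ i, p.1 i ≠ q.1 i := by
        by_contra hcon
        push Not at hcon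
        exact h1' (by ext i; exact hcon i)
      obtain ⟨i, hi⟩ := this
      obtain ⟨m, hm⟩ := hc i
      have hm' : p.1 i - q.1 i = m := hm
      have hm0 : m ≠ 0 := by
        rintro rfl
        apply hi
        simp at hm'
        linarith
      have h3 : (1 : ℝ) ≤ |p.1 i - q.1 i| := by
        rw [hm', ← Int.cast_abs]
        exact_mod_cast Int.one_le_abs hm0
      have h4 : |p.1 i - q.1 i| ≤ ‖p.1 - q.1‖ := by
        have h5 : ‖(p.1 - q.1) i‖ ≤ ‖p.1 - q.1‖ := PiLp.norm_apply_le _ i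
        simpa using h5
      have h6 : ‖(p - q).1‖ ≤ ‖p - q‖ := norm_fst_le _
      have h7 : (p - q).1 = p.1 - q.1 := rfl
      rw [h7] at h6
      linarith
    · have hn' : p.2 - q.2 = n := hn
      have hn0 : n ≠ 0 := by
        rintro rfl
        apply h2'
        simp at hn'
        linarith
      have h3 : (1 : ℝ) ≤ |p.2 - q.2| := by
        rw [hn', ← Int.cast_abs]
        exact_mod_cast Int.one_le_abs hn0
      have h6 : ‖(p - q).2‖ ≤ ‖p - q‖ := norm_snd_le _
      have h7 : ‖(p - q).2‖ = |p.2 - q.2| := by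
        rw [Real.norm_eq_abs]; rfl
      linarith
  · intro a D hD1 _
    have hD0 : 0 ≤ D := by linarith
    have hle : {r : ℝ | (∃ p ∈ S, p.2 = r) ∧ a ≤ r ∧ r ≤ a + D}.ncard ≤
        ((Finset.range (⌊D⌋₊ + 1) : Finset ℕ) : Set ℕ).ncard := by
      refine Set.ncard_le_ncard_of_injOn (fun r => ⌊r - a⌋₊) ?_ ?_ (Finset.finite_toSet _)
      · rintro r ⟨_, _, hr⟩
        simp only [Finset.coe_range, Set.mem_Iio]
        exact Nat.lt_succ_of_le (Nat.floor_le_floor (by linarith))
      · rintro r ⟨⟨p, hp, rfl⟩, hr1, _⟩ s ⟨⟨q, hq, rfl⟩, hs1, _⟩ hrs'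
        have e : ⌊p.2 - a⌋₊ = ⌊q.2 - a⌋₊ := hrs'
        refine hrs p hp q hq ?_
        have f1 := Nat.floor_le (show 0 ≤ p.2 - a by linarith)
        have f2 := Nat.lt_floor_add_one (p.2 - a)
        have f3 := Nat.floor_le (show 0 ≤ q.2 - a by linarith)
        have f4 := Nat.lt_floor_add_one (q.2 - a)
        rw [e] at f1 f2
        rw [abs_lt]
        constructor <;> linarith
    rw [Set.ncard_coe_finset, Finset.card_range] at hle
    have h3 : ((⌊D⌋₊ + 1 : ℕ) : ℝ) ≤ D + 1 := by
      push_cast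
      have := Nat.floor_le hD0
      linarith
    rw [Real.rpow_one]
    calc ((({r : ℝ | (∃ p ∈ S, p.2 = r) ∧ a ≤ r ∧ r ≤ a + D}).ncard : ℕ) : ℝ)
        ≤ ((⌊D⌋₊ + 1 : ℕ) : ℝ) := by exact_mod_cast hle
      _ ≤ 2 * D := by linarith

end Pool.LibLP59
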