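import Pool.Agent.LibLP59.C1
import Pool.Agent.LibLP59.C3
import Pool.Agent.LibLP59.C4
import Pool.Agent.LibLP59.C5
import Pool.Agent.LibLP59.G1

/-
PLAN (C6). delta = u^(-kap), t = u^(kap/2), M = u^((1-kap)/nu), M' = u^((1+2kap)/nu), c0 = c_mid c_pn / 2, Ch = C_mid C_pn, u0 such that 16 u^(kap/2) <= u^((1-kap)/nu) for u >= u0 (kap <= 1/d,
exponent (1-kap)/nu - kap/2 > 0). u >= u0: mid gives hmid with lam = C 2 u^(1-kap) for all k; same_scale_light: M + lam M^(1-nu) + u M'^(1-nu) + u M^(-1-nu) <= C Lam, Lam = u^((1-kap)/nu):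
1 - kap + (1-nu)(1-kap)/nu = (1-kap)/nu; 1 + (1-nu)(1+2kap)/nu <= (1-kap)/nu iff 2(nu-1) >= 1 (d >= 4); 1 - (1+nu)(1-kap)/nu <= 0 as kap <= 1/d. total_light. u < u0: total of LibSR53 with alpha = 1
(adm_good): (1+log u) u^(1/nu) <= (1+log u) u^((1-kap)/nu) u0^(kap/nu).
-/

set_option autoImplicit false

noncomputable section

open MeasureTheory Metric Set Filter

namespace Pool.LibLP59

open Pool.LibSR53 Pool.LibTP53

theorem c6_exp (d : ℕ) (hd : 4 ≤ d) (κ : ℝ) (hκ0 : 0 < κ) (hκ : κ * d ≤ 1) (u Cm : ℝ)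
    (hu : 1 ≤ u) (hCm : 0 < Cm) :
    u ^ ((1 - κ) / nu d) + (2 * Cm * u ^ (1 - κ)) * (u ^ ((1 - κ) / nu d)) ^ (1 - nu d) +
      u * (u ^ ((1 + 2 * κ) / nu d)) ^ (1 - nu d) +
      u * (u ^ ((1 - κ) / nu d)) ^ (-1 - nu d) ≤ (3 + 2 * Cm) * u ^ ((1 - κ) / nu d) := by
  have hd' : (4 : ℝ) ≤ d := by exact_mod_cast hd
  have hu0 : 0 < u := by linarith
  have hν : nu d = ((d : ℝ) - 1) / 2 := rfl
  have hν1 : (3 : ℝ) / 2 ≤ nu d := by rw [hν]; linarith
  have hν0 : 0 < nu d := by linarith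
  have hκ1 : κ ≤ 1 / 4 := by
    have : κ * 4 ≤ κ * d := mul_le_mul_of_nonneg_left hd' hκ0.le
    linarith
  have e1 : (2 * Cm * u ^ (1 - κ)) * (u ^ ((1 - κ) / nu d)) ^ (1 - nu d) =
      2 * Cm * u ^ ((1 - κ) / nu d) := by
    rw [← Real.rpow_mul hu0.le, mul_assoc, ← Real.rpow_add hu0]
    congr 2
    field_simp
    ring
  have e2 : u * (u ^ ((1 + 2 * κ) / nu d)) ^ (1 - nu d) ≤ u ^ ((1 - κ) / nu d) := by
    rw [← Real.rpow_mul hu0.le]
    nth_rewrite 1 [← Real.rpow_one u]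
    rw [← Real.rpow_add hu0]
    apply Real.rpow_le_rpow_of_exponent_le hu
    rw [div_mul_eq_mul_div, ← sub_nonneg]
    have h1 : (1 - κ) / nu d - (1 + (1 + 2 * κ) * (1 - nu d) / nu d) =
        κ * (2 * nu d - 3) / nu d := by
      field_simp
      ring
    rw [h1]
    apply div_nonneg _ hν0.le
    apply mul_nonneg hκ0.le
    linarith
  have e3 : u * (u ^ ((1 - κ) / nu d)) ^ (-1 - nu d) ≤ u ^ ((1 - κ) / nu d) := by
    rw [← Real.rpow_mul hu0.le]
    nth_rewrite 1 [← Real.rpow_one u]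
    rw [← Real.rpow_add hu0]
    apply Real.rpow_le_rpow_of_exponent_le hu
    have h1 : 1 + (1 - κ) / nu d * (-1 - nu d) ≤ 0 := by
      have h2 : 1 + (1 - κ) / nu d * (-1 - nu d) = (κ * (1 + nu d) - 1) / nu d := by
        field_simp
        ring
      rw [h2]
      apply div_nonpos_of_nonpos_of_nonneg _ hν0.le
      have h3 : κ * (1 + nu d) ≤ κ * d := by
        apply mul_le_mul_of_nonneg_left _ hκ0.le
        rw [hν]
        linarith
      linarith
    have h4 : 0 ≤ (1 - κ) / nu d := div_nonneg (by linarith) hν0.le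
    linarith
  rw [e1]
  nlinarith

/-- the improved L2 bound for light families -/
theorem light_L2 {H : Type} [NormedAddCommGroup H] [InnerProductSpace ℂ H] (d : ℕ) (hd : 4 ≤ d)
    (C0 : ℝ) (v : P d → H) (hv : KerL d C0 v) (κ : ℝ) (hκ0 : 0 < κ) (hκ : κ * d ≤ 1) :
    ∃ C c0 Ch u0 : ℝ, 0 < C ∧ 0 < c0 ∧ 1 ≤ Ch ∧ 1 ≤ u0 ∧ ∀ (T : Finset (P d)) (u : ℝ), Adm T →
    1 ≤ u → Dens u T →
    (u0 ≤ u → ∀ i : ℕ, u ^ ((1 - κ) / nu d) < (2 : ℝ) ^ i →
      (2 : ℝ) ^ i ≤ 2 * u ^ ((1 + 2 * κ) / nu d) →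
      Light T i (Ch * u ^ (κ * eh d)) (c0 * (u ^ (1 - κ * em d) * 2 ^ i))) →
    ∀ γ : P d → ℂ, (∀ p, ‖γ p‖ ≤ 1) →
    ‖∑ p ∈ T, γ p • v p‖ ^ 2 ≤ C * (1 + Real.log u) * u ^ ((1 - κ) / nu d) * wt T := by
  classical
  have hd' : (4 : ℝ) ≤ d := by exact_mod_cast hd
  have hν : nu d = ((d : ℝ) - 1) / 2 := rfl
  have hν1 : (3 : ℝ) / 2 ≤ nu d := by rw [hν]; linarith
  have hν0 : 0 < nu d := by linarith
  have hκ1 : κ ≤ 1 / 4 := by
    have : κ * 4 ≤ κ * d := mul_le_mul_of_nonneg_left hd' hκ0.le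
    linarith
  obtain ⟨Cm, cm, hCm, hcm, hmid⟩ := mid d (by omega)
  obtain ⟨cp, Cp, hcp, hCp, hpn⟩ := pn_lower d hd
  obtain ⟨Cs, hCs, hsame⟩ := same_scale_light d hd C0 v hv
  obtain ⟨Ct, hCt, htot⟩ := total_light d hd C0 v hv.toKer (Cs * (3 + 2 * Cm)) (by positivity)
  obtain ⟨Cu, hCu, hsmall⟩ := total d hd C0 v hv.toKer 2 1 zero_le_one le_rfl
  set e0 : ℝ := (1 - κ) / nu d - κ / 2 with he0
  have he0' : 0 < e0 := by
    have h1 : κ / 2 < (1 - κ) / nu d := by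
      rw [lt_div_iff₀ hν0, hν]
      nlinarith
    rw [he0]
    linarith
  set u0 : ℝ := (16 : ℝ) ^ (1 / e0) with hu0
  have hu01 : 1 ≤ u0 := Real.one_le_rpow (by norm_num) (by positivity)
  have hu0pos : 0 < u0 := by linarith
  refine ⟨Ct + Cu * u0 ^ (κ / nu d), cm * cp / 2, max 1 (Cm * Cp), u0, by positivity,
    by positivity, le_max_left _ _, hu01, ?_⟩
  intro T u hT hu hD hlight γ hγ
  have hupos : 0 < u := by linarith
  have hlog : 0 ≤ Real.log u := Real.log_nonneg hu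
  have hwt : 0 ≤ wt T := by
    unfold wt
    refine Finset.sum_nonneg fun p hp => ?_
    have := hT.1 p hp
    positivity
  have hLam0 : 0 < u ^ ((1 - κ) / nu d) := Real.rpow_pos_of_pos hupos _
  have hLam1 : 1 ≤ u ^ ((1 - κ) / nu d) :=
    Real.one_le_rpow hu (div_nonneg (by linarith) hν0.le)
  by_cases huu : u0 ≤ u
  · have hl := hlight huu
    have h16 : 16 * u ^ (κ / 2) ≤ u ^ ((1 - κ) / nu d) := by
      have h1 : (16 : ℝ) ≤ u ^ e0 := by
        have h2 : u0 ^ e0 ≤ u ^ e0 := Real.rpow_le_rpow hu0pos.le huu he0'.le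
        have h3 : u0 ^ e0 = 16 := by
          rw [hu0, ← Real.rpow_mul (by norm_num), one_div, inv_mul_cancel₀ he0'.ne',
            Real.rpow_one]
        linarith
      have h4 : u ^ ((1 - κ) / nu d) = u ^ e0 * u ^ (κ / 2) := by
        rw [← Real.rpow_add hupos]
        congr 1
        rw [he0]
        ring
      rw [h4]
      exact mul_le_mul_of_nonneg_right h1 (by positivity)
    have hscale : ∀ k : ℕ, ‖∑ p ∈ sc k T, γ p • v p‖ ^ 2 ≤
        Cs * (3 + 2 * Cm) * u ^ ((1 - κ) / nu d) * 2 ^ (k * (d - 1)) *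
          ((sc k T).card : ℝ) := by
      intro k
      have h1 := hsame T u (u ^ ((1 - κ) / nu d)) (u ^ ((1 + 2 * κ) / nu d))
        (2 * Cm * u ^ (1 - κ)) k hT hu hD hLam1
        (Real.rpow_le_rpow_of_exponent_le hu (by
          apply div_le_div_of_nonneg_right _ hν0.le
          linarith)) (by positivity) (by
          intro i hik hi1 hi2
          obtain ⟨hp1, hp2⟩ := hpn u κ i k hu hκ0 (by linarith) hik hi2
          have ht1 : 1 ≤ u ^ (κ / 2) := Real.one_le_rpow hu (by linarith)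
          have hδ1 : u ^ (-κ) ≤ 1 := Real.rpow_le_one_of_one_le_of_nonpos hu (by linarith)
          have hδ0 : 0 < u ^ (-κ) := Real.rpow_pos_of_pos hupos _
          have h2 := hmid T u (u ^ (-κ)) (u ^ (κ / 2)) (max 1 (Cm * Cp) * u ^ (κ * eh d))
            (cm * cp / 2 * (u ^ (1 - κ * em d) * 2 ^ i)) k i hT hu hD hik ht1
            (h16.trans hi1.le) hδ0 hδ1 (hl i hi1 hi2) (by
              have h3 : Cm * (u ^ (κ / 2) / be d ((2 : ℝ) ^ i) (u ^ (κ / 2)) (u ^ (-κ))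
                  (u ^ (-κ) * u * 2 ^ min i k) ^ 2) ≤ Cm * (Cp * u ^ (κ * eh d)) :=
                mul_le_mul_of_nonneg_left hp2 hCm.le
              have h4 : Cm * Cp * u ^ (κ * eh d) ≤ max 1 (Cm * Cp) * u ^ (κ * eh d) :=
                mul_le_mul_of_nonneg_right (le_max_right _ _) (by positivity)
              rw [mul_div_assoc]
              linarith) (by
              have h3 : cm * (cp * (u ^ (1 - κ * em d) * 2 ^ i)) ≤
                  cm * pn d ((2 : ℝ) ^ i) (u ^ (κ / 2)) (u ^ (-κ)) (u ^ (-κ) * u * 2 ^ min i k) :=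
                mul_le_mul_of_nonneg_left hp1 hcm.le
              have h4 : 0 < cm * (cp * (u ^ (1 - κ * em d) * 2 ^ i)) := by positivity
              linarith)
          refine h2.trans (le_of_eq ?_)
          have h5 : 1 / (u ^ (κ / 2)) ^ 2 = u ^ (-κ) := by
            rw [← Real.rpow_natCast, ← Real.rpow_mul hupos.le, Real.rpow_neg hupos.le, one_div]
            congr 2
            push_cast
            ring
          have h6 : u ^ (1 - κ) = u ^ (-κ) * u := by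
            rw [sub_eq_neg_add, Real.rpow_add hupos, Real.rpow_one]
          rw [h5, h6]
          ring) γ hγ
      have h2 := c6_exp d hd κ hκ0 hκ u Cm hu hCm
      refine h1.trans ?_
      have h3 : Cs * (u ^ ((1 - κ) / nu d) +
          (2 * Cm * u ^ (1 - κ)) * (u ^ ((1 - κ) / nu d)) ^ (1 - nu d) +
          u * (u ^ ((1 + 2 * κ) / nu d)) ^ (1 - nu d) +
          u * (u ^ ((1 - κ) / nu d)) ^ (-1 - nu d)) ≤
          Cs * (3 + 2 * Cm) * u ^ ((1 - κ) / nu d) := by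
        rw [mul_assoc Cs]
        exact mul_le_mul_of_nonneg_left h2 hCs.le
      exact mul_le_mul_of_nonneg_right (mul_le_mul_of_nonneg_right h3 (by positivity))
        (Nat.cast_nonneg _)
    have h1 := htot T u (u ^ ((1 - κ) / nu d)) hT.1 hu hD hLam1 γ hγ hscale
    refine h1.trans ?_
    have h2 : 0 ≤ Cu * u0 ^ (κ / nu d) * ((1 + Real.log u) * u ^ ((1 - κ) / nu d) * wt T) := by
      positivity
    have h3 : (Ct + Cu * u0 ^ (κ / nu d)) * (1 + Real.log u) * u ^ ((1 - κ) / nu d) * wt T =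
        Ct * (1 + Real.log u) * u ^ ((1 - κ) / nu d) * wt T +
          Cu * u0 ^ (κ / nu d) * ((1 + Real.log u) * u ^ ((1 - κ) / nu d) * wt T) := by ring
    linarith
  · have huu' : u ≤ u0 := (not_le.1 huu).le
    have h1 := hsmall T u (adm_good hT) hu hD γ hγ
    refine h1.trans ?_
    have h2 : (1 : ℝ) / (nu d - 1 + 1) = (1 - κ) / nu d + κ / nu d := by
      rw [sub_add_cancel, ← add_div]
      congr 1
      ring
    have h3 : u ^ ((1 : ℝ) / (nu d - 1 + 1)) ≤ u ^ ((1 - κ) / nu d) * u0 ^ (κ / nu d) := by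
      rw [h2, Real.rpow_add hupos]
      refine mul_le_mul_of_nonneg_left ?_ hLam0.le
      exact Real.rpow_le_rpow hupos.le huu' (by positivity)
    calc Cu * (1 + Real.log u) * u ^ ((1 : ℝ) / (nu d - 1 + 1)) * wt T
        ≤ Cu * (1 + Real.log u) * (u ^ ((1 - κ) / nu d) * u0 ^ (κ / nu d)) * wt T := by
          refine mul_le_mul_of_nonneg_right ?_ hwt
          exact mul_le_mul_of_nonneg_left h3 (by positivity)
      _ = Cu * u0 ^ (κ / nu d) * ((1 + Real.log u) * u ^ ((1 - κ) / nu d) * wt T) := by ring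
      _ ≤ Ct * ((1 + Real.log u) * u ^ ((1 - κ) / nu d) * wt T) +
          Cu * u0 ^ (κ / nu d) * ((1 + Real.log u) * u ^ ((1 - κ) / nu d) * wt T) := by
          have : 0 ≤ Ct * ((1 + Real.log u) * u ^ ((1 - κ) / nu d) * wt T) := by positivity
          linarith
      _ = (Ct + Cu * u0 ^ (κ / nu d)) * (1 + Real.log u) * u ^ ((1 - κ) / nu d) * wt T := by
          ring

end Pool.LibLP59
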