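import Pool.Agent.LibLP59.Defs

/-
PLAN (D1). greedy: strong induction on card T. If Light T i h m0: T' = T, no pieces. Otherwise there are k, c, w with i <= k+3 and plank (sc k T) c w (2^i) h of more than m0 >= 0 points: piece X0,
apply the induction hypothesis to T \ X0 (pieces of a subset are pieces of T: sc and plank are monotone; c in sc k (T \ X0) subset of sc k T). The sum identities: Finset.sum_sdiff (X0 subset T).
Note X is a finset of finsets: X0 is not among the later pieces since they are nonempty subsets of T \ X0. greedy_all: induction on the finset I, applying greedy to the remaining set; Light passes to subsets.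
-/

set_option autoImplicit false

noncomputable section

open MeasureTheory Metric Set Filter

namespace Pool.LibLP59

open Pool.LibSR53 Pool.LibTP53

private lemma d1_sc {d : ℕ} {T T' : Finset (P d)} (hT : T' ⊆ T) (k : ℕ) : sc k T' ⊆ sc k T := by
  classical
  exact Finset.filter_subset_filter _ hT

private lemma d1_plank {d : ℕ} {T T' : Finset (P d)} (hT : T' ⊆ T) (c : P d) (w : E d)
    (D h : ℝ) : plank T' c w D h ⊆ plank T c w D h := by
  classical
  exact Finset.filter_subset_filter _ hT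

private lemma d1_piece {d : ℕ} {T T' : Finset (P d)} (hT : T' ⊆ T) {i : ℕ} {h m0 : ℝ}
    {X : Finset (P d)} (hX : Piece T' i h m0 X) : Piece T i h m0 X := by
  obtain ⟨h1, k, hk, c, hc, w, hw, hs⟩ := hX
  exact ⟨h1, k, hk, c, d1_sc hT k hc, w, hw, hs.trans (d1_plank (d1_sc hT k) _ _ _ _)⟩

private lemma d1_light {d : ℕ} {T T' : Finset (P d)} (hT : T' ⊆ T) {i : ℕ} {h m0 : ℝ}
    (hL : Light T i h m0) : Light T' i h m0 := by
  intro k hk c hc w hw
  refine le_trans ?_ (hL k hk c (d1_sc hT k hc) w hw)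
  exact_mod_cast Finset.card_le_card (d1_plank (d1_sc hT k) _ _ _ _)

/-- removal of all rich planks of one length -/
theorem greedy {d : ℕ} (T : Finset (P d)) (i : ℕ) (h m0 : ℝ) (hm : 0 ≤ m0) :
    ∃ (T' : Finset (P d)) (X : Finset (Finset (P d))), T' ⊆ T ∧ Light T' i h m0 ∧
      (∀ Y ∈ X, Piece T i h m0 Y ∧ Y ⊆ T) ∧
      (∀ (f : P d → ℝ), ∑ p ∈ T, f p = ∑ p ∈ T', f p + ∑ Y ∈ X, ∑ p ∈ Y, f p) ∧
      ∀ (f : P d → ℂ), ∑ p ∈ T, f p = ∑ p ∈ T', f p + ∑ Y ∈ X, ∑ p ∈ Y, f p := by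
  classical
  induction T using Finset.strongInduction with
  | H T ih =>
    by_cases hL : Light T i h m0
    · exact ⟨T, ∅, Finset.Subset.refl _, hL, by simp, fun f => by simp, fun f => by simp⟩
    · unfold Light at hL
      push Not at hL
      obtain ⟨k, hk, c, hc, w, hw, hgt⟩ := hL
      have hsub : plank (sc k T) c w ((2 : ℝ) ^ i) h ⊆ T :=
        (Finset.filter_subset _ _).trans (Finset.filter_subset _ _)
      have hne : (plank (sc k T) c w ((2 : ℝ) ^ i) h).Nonempty := by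
        rw [← Finset.card_pos]
        have h1 : (0 : ℝ) < (plank (sc k T) c w ((2 : ℝ) ^ i) h).card := lt_of_le_of_lt hm hgt
        exact_mod_cast h1
      have hss : T \ plank (sc k T) c w ((2 : ℝ) ^ i) h ⊂ T := Finset.sdiff_ssubset hsub hne
      obtain ⟨T', X, hT', hLt, hP, hs1, hs2⟩ := ih _ hss
      have hnot : plank (sc k T) c w ((2 : ℝ) ^ i) h ∉ X := by
        intro hmem
        have h1 := (hP _ hmem).2
        obtain ⟨x, hx⟩ := hne
        exact (Finset.mem_sdiff.1 (h1 hx)).2 hx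
      refine ⟨T', insert (plank (sc k T) c w ((2 : ℝ) ^ i) h) X, hT'.trans Finset.sdiff_subset,
        hLt, ?_, ?_, ?_⟩
      · intro Y hY
        rcases Finset.mem_insert.1 hY with rfl | hY
        · exact ⟨⟨hgt, k, hk, c, hc, w, hw, Finset.Subset.refl _⟩, hsub⟩
        · have h1 := hP Y hY
          exact ⟨d1_piece Finset.sdiff_subset h1.1, h1.2.trans Finset.sdiff_subset⟩
      · intro f
        rw [Finset.sum_insert hnot, ← Finset.sum_sdiff hsub, hs1 f]
        ring
      · intro f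
        rw [Finset.sum_insert hnot, ← Finset.sum_sdiff hsub, hs2 f]
        ring

/-- removal of all rich planks of the lengths in I -/
theorem greedy_all {d : ℕ} (T : Finset (P d)) (I : Finset ℕ) (h : ℝ) (m0 : ℕ → ℝ)
    (hm : ∀ i, 0 ≤ m0 i) :
    ∃ (T' : Finset (P d)) (X : ℕ → Finset (Finset (P d))), T' ⊆ T ∧
      (∀ i ∈ I, Light T' i h (m0 i)) ∧
      (∀ i ∈ I, ∀ Y ∈ X i, Piece T i h (m0 i) Y ∧ Y ⊆ T) ∧
      (∀ (f : P d → ℝ), ∑ p ∈ T, f p = ∑ p ∈ T', f p + ∑ i ∈ I, ∑ Y ∈ X i, ∑ p ∈ Y, f p) ∧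
      ∀ (f : P d → ℂ), ∑ p ∈ T, f p = ∑ p ∈ T', f p + ∑ i ∈ I, ∑ Y ∈ X i, ∑ p ∈ Y, f p := by
  classical
  induction I using Finset.induction_on with
  | empty =>
    exact ⟨T, fun _ => ∅, Finset.Subset.refl _, by simp, by simp, fun f => by simp,
      fun f => by simp⟩
  | insert a I ha ih =>
    obtain ⟨T1, X1, hT1, hL1, hP1, hs1, hs1'⟩ := ih
    obtain ⟨T2, Xa, hT2, hL2, hP2, hs2, hs2'⟩ := greedy T1 a h (m0 a) (hm a)
    have hne : ∀ i ∈ I, i ≠ a := fun i hi h1 => ha (h1 ▸ hi)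
    obtain ⟨X, hXa, hXi⟩ : ∃ X : ℕ → Finset (Finset (P d)), X a = Xa ∧ ∀ i ∈ I, X i = X1 i :=
      ⟨fun i => if i = a then Xa else X1 i, if_pos rfl, fun i hi => if_neg (hne i hi)⟩
    refine ⟨T2, X, hT2.trans hT1, ?_, ?_, ?_, ?_⟩
    · intro i hi
      rcases Finset.mem_insert.1 hi with rfl | hi
      · exact hL2
      · exact d1_light hT2 (hL1 i hi)
    · intro i hi Y hY
      rcases Finset.mem_insert.1 hi with rfl | hi
      · rw [hXa] at hY
        have h1 := hP2 Y hY
        exact ⟨d1_piece hT1 h1.1, h1.2.trans hT1⟩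
      · rw [hXi i hi] at hY
        exact hP1 i hi Y hY
    · intro f
      have h1 : ∑ i ∈ I, ∑ Y ∈ X i, ∑ p ∈ Y, f p = ∑ i ∈ I, ∑ Y ∈ X1 i, ∑ p ∈ Y, f p :=
        Finset.sum_congr rfl (fun i hi => by rw [hXi i hi])
      rw [Finset.sum_insert ha, hs1 f, hs2 f, hXa, h1]
      ring
    · intro f
      have h1 : ∑ i ∈ I, ∑ Y ∈ X i, ∑ p ∈ Y, f p = ∑ i ∈ I, ∑ Y ∈ X1 i, ∑ p ∈ Y, f p :=
        Finset.sum_congr rfl (fun i hi => by rw [hXi i hi])
      rw [Finset.sum_insert ha, hs1' f, hs2' f, hXa, h1]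
      ring

end Pool.LibLP59
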