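import Pool.Agent.LibTP53.Defs
import Pool.Agent.LibSR53.F2

set_option autoImplicit false

noncomputable section

open MeasureTheory Metric Set Filter

namespace Pool.LibLP59

open Pool.LibSR53 Pool.LibTP53

/-! ### linear algebra part (real vectors indexed by a finite type) -/

/-- bilinear form with signs s -/
def bf {ι : Type} [Fintype ι] (s x y : ι → ℝ) : ℝ := ∑ i, s i * x i * y i

/-- finite sets all of whose differences are integer vectors -/
def LatV {ι : Type} (A : Finset (ι → ℝ)) : Prop :=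
  ∀ a ∈ A, ∀ b ∈ A, ∀ i, ∃ n : ℤ, a i - b i = n

/-- affine combinations of the z k with coefficients in [-1,1] -/
def InBox {ι κ : Type} [Fintype κ] (z : κ → ι → ℝ) (a : ι → ℝ) : Prop :=
  ∃ μ : κ → ℝ, ∑ k, μ k = 1 ∧ (∀ k, |μ k| ≤ 1) ∧ a = ∑ k, μ k • z k

/-! ### index points -/

/-- finite subsets of a translate of the integer lattice -/
def LatP {d : ℕ} (A : Finset (P d)) : Prop := ∀ a ∈ A, ∀ b ∈ A, IsInt (a - b)

/-- admissible families -/
def Adm {d : ℕ} (S : Finset (P d)) : Prop := (∀ a ∈ S, 1 ≤ a.2) ∧ LatP S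

/-- component orthogonal to the unit vector w -/
def perp {d : ℕ} (w v : E d) : E d := v - (inner ℝ v w : ℝ) • w

/-- q lies in the light plank of length D and thickness h with centre c and direction w -/
def InPl {d : ℕ} (c : P d) (w : E d) (D h : ℝ) (q : P d) : Prop :=
  |inner ℝ (q.1 - c.1) w - (q.2 - c.2)| ≤ h ∧ ‖perp w (q.1 - c.1)‖ ^ 2 ≤ D * h ∧
    |q.2 - c.2| ≤ 16 * D

/-- the points of S in a light plank -/
def plank {d : ℕ} (S : Finset (P d)) (c : P d) (w : E d) (D h : ℝ) : Finset (P d) :=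
  open scoped Classical in S.filter (fun q => InPl c w D h q)

/-- no plank of length 2^i and thickness h contains more than m0 points of one scale -/
def Light {d : ℕ} (T : Finset (P d)) (i : ℕ) (h m0 : ℝ) : Prop :=
  ∀ k : ℕ, i ≤ k + 3 → ∀ c ∈ sc k T, ∀ w : E d, ‖w‖ = 1 →
    ((plank (sc k T) c w ((2 : ℝ) ^ i) h).card : ℝ) ≤ m0

/-- light-like related with tolerance t, at distance about D -/
def Nul {d : ℕ} (D t : ℝ) (a b : P d) : Prop :=
  D / 8 ≤ ‖a.1 - b.1‖ ∧ |‖a.1 - b.1‖ - (|a.2 - b.2|)| ≤ t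

/-- the quantity beta of the structure theorem, for two sets with at least m points each -/
def be (d : ℕ) (D t δ m : ℝ) : ℝ := δ ^ (d + 3) * m ^ 2 / (t * D) ^ (d + 1)

/-- number of points in a plank -/
def pn (d : ℕ) (D t δ m : ℝ) : ℝ := δ ^ (d + 2) * be d D t δ m * m

/-- pieces of planks of length 2^i with more than m0 points -/
def Piece {d : ℕ} (T : Finset (P d)) (i : ℕ) (h m0 : ℝ) (X : Finset (P d)) : Prop :=
  m0 < (X.card : ℝ) ∧ ∃ k : ℕ, i ≤ k + 3 ∧ ∃ c ∈ sc k T, ∃ w : E d, ‖w‖ = 1 ∧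
    X ⊆ plank (sc k T) c w ((2 : ℝ) ^ i) h

/-- the cap zone of a plank -/
def zone {d : ℕ} (c : P d) (w : E d) (D h R A : ℝ) : Set (E d) :=
  {x : E d | ‖perp w (x - c.1)‖ ≤ 64 * A * R * Real.sqrt (h / D) ∧ inner ℝ (x - c.1) w < 0 ∧
    |‖x - c.1‖ - c.2| ≤ 36 * D}

end Pool.LibLP59
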