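import Pool.Agent.LibLP59.Defs

set_option autoImplicit false

noncomputable section

open MeasureTheory Metric Set Filter

namespace Pool.LibLP59

open Pool.LibSR53 Pool.LibTP53

/-- the analytic input: measurability, fixed radius, L2 bound of density families, tails -/
structure FHyp (d : ℕ) (F : P d → E d → ℂ) (C0 : ℝ) : Prop where
  pos : 0 < C0
  meas : ∀ p : P d, 1 ≤ p.2 → AEStronglyMeasurable (F p) volume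
  fix : ∀ r : ℝ, 1 ≤ r → ∀ (S : Finset (E d)) (γ : E d → ℂ),
    (∀ y ∈ S, ∀ z ∈ S, y ≠ z → 1 ≤ dist y z) →
    ∫⁻ x, ‖∑ y ∈ S, γ y * F (y, r) x‖ₑ ^ (2 : ℝ) ≤
      ENNReal.ofReal (C0 * r ^ (d - 1) * ∑ y ∈ S, ‖γ y‖ ^ 2)
  l2 : ∀ (S : Finset (P d)) (u : ℝ), Adm S → 1 ≤ u → Dens u S → ∀ γ : P d → ℂ,
    (∀ p, ‖γ p‖ ≤ 1) → ∫⁻ x, ‖∑ p ∈ S, γ p * F p x‖ₑ ^ (2 : ℝ) ≤
      ENNReal.ofReal (C0 * (1 + Real.log u) * u ^ (1 / nu d) * wt S)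
  tail : ∀ M : ℕ, ∃ C : ℝ, 0 < C ∧ ∀ (p : P d) (D : ℝ), 1 ≤ p.2 → 1 ≤ D →
    ∫⁻ x in {x : E d | D < |‖x - p.1‖ - p.2|}, ‖F p x‖ₑ ≤
      ENNReal.ofReal (C * p.2 ^ (d - 1) / D ^ M)

end Pool.LibLP59
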