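import Pool.Agent.LibLP59.Defs

/-
PLAN (E1). X = x - c.1, a = inner X w, Xp = perp w X. For p: s = inner (p.1-c.1) w, o = perp w (p.1 - c.1), |o|^2 <= D h; p.2 = c.2 + s + e', |e'| <= h; |x-p.1| = p.2 + e'', |e''| <= t; so with
e = e'+e'', |e| <= h+t: |x-p.1|^2 = (a-s)^2 + |Xp - o|^2 = (c.2+s+e)^2, i.e. bp gp = |Xp-o|^2 =: Np, bp = c.2+a+e, gp = c.2+2s-a+e, bp+gp = 2|x-p.1| in [0, 10 R] (t <= A, A^2 h <= D <= 8R,
R >= 1), hence bp, gp >= 0 (product >= 0), both <= 10 R. 2 s = gp + a - c.2 - e, gp = Np/bp.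
CASE I: |Xp| > 64 A R sqrt(h/D): |o| <= sqrt(D h) <= |Xp|/2, Np >= |Xp|^2/4, bp >= |Xp|^2/(40R) >= 12 A^2 h >= 6(h+t). |Np - Nq| <= 3|Xp| 2 sqrt(D h), so |Np-Nq|/bp <= 240 R sqrt(Dh)/|Xp| <=
4 D/A; Nq|1/bp - 1/bq| = gq |ep-eq|/bp <= 10 R 2(h+t) 40 R/|Xp|^2 <= C D (h+t)/(A^2 h) <= C D t/A; |ep - eq| <= 2(h+t) <= 4 h t <= 4 D t/A.
CASE II: |Xp| small, a >= 0. If R < 4(h+t): |p.2-q.2| <= R. Else bp >= R/2, |Np-Nq| <= (sqrt Np + sqrt Nq) 2 sqrt(D h) <= 40 R sqrt(Dh), /bp <= 80 sqrt(D h) <= 80 D/A (A^2 h <= D);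
gq|ep-eq|/bp <= C (h+t) <= C D t/A. Finally |p.2 - q.2| <= |sp - sq| + 2h.
-/

set_option autoImplicit false

noncomputable section

open MeasureTheory Metric Set Filter

namespace Pool.LibLP59

open Pool.LibSR53 Pool.LibTP53

private theorem e1_perp_sub {d : ℕ} (w v v' : E d) : perp w (v - v') = perp w v - perp w v' := by
  unfold perp
  rw [inner_sub_left, sub_smul]
  abel

private theorem e1_pyth {d : ℕ} (w v : E d) (hw : ‖w‖ = 1) :
    ‖v‖ ^ 2 = (inner ℝ v w : ℝ) ^ 2 + ‖perp w v‖ ^ 2 := by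
  unfold perp
  rw [norm_sub_sq_real, norm_smul, inner_smul_right, hw, Real.norm_eq_abs, mul_one, sq_abs]
  ring

private theorem e1_nonneg {b g : ℝ} (h : 0 ≤ b * g) (hs : 0 ≤ b + g) : 0 ≤ b ∧ 0 ≤ g := by
  constructor
  · by_contra hb
    push Not at hb
    have hg : 0 < g := by linarith
    have := mul_neg_of_neg_of_pos hb hg
    linarith
  · by_contra hg
    push Not at hg
    have hb : 0 < b := by linarith
    have := mul_neg_of_pos_of_neg hb hg
    linarith

/-- the comparison of `gp` and `gq` -/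
private theorem e1_quot {bp bq gp gq ep eq Np Nq K : ℝ} (hbp : 0 < bp) (hp : Np = bp * gp)
    (hq : Nq = bq * gq) (hb : bp - bq = ep - eq) (hK : |Np - Nq| + |ep - eq| * |gq| ≤ K * bp) :
    |gp - gq| ≤ K := by
  have h1 : bp * (gp - gq) = (Np - Nq) - (ep - eq) * gq := by
    rw [hp, hq, ← hb]
    ring
  have h2 : bp * |gp - gq| ≤ K * bp := by
    calc bp * |gp - gq| = |bp * (gp - gq)| := by rw [abs_mul, abs_of_pos hbp]
      _ = |(Np - Nq) - (ep - eq) * gq| := by rw [h1]
      _ ≤ |Np - Nq| + |(ep - eq) * gq| := abs_sub _ _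
      _ = |Np - Nq| + |ep - eq| * |gq| := by rw [abs_mul]
      _ ≤ K * bp := hK
  rw [mul_comm] at h2
  exact le_of_mul_le_mul_right h2 hbp

private theorem e1_core {R A t h u m N a cr sp ep rp sq eq rq : ℝ}
    (hR : 1 ≤ R) (hA : 1 ≤ A) (ht : 1 ≤ t) (hh : 1 ≤ h) (hu : A * h ≤ u) (hm0 : 0 ≤ m)
    (hm : m ^ 2 = A * u * h) (hDR : A * u ≤ 8 * R) (hcr : R ≤ cr)
    (hep : |ep| ≤ h + t) (heq : |eq| ≤ h + t) (hrp : 0 ≤ rp) (hrq : 0 ≤ rq) (hN : 0 ≤ N)
    (hp : rp ^ 2 = (cr + a + ep) * (cr + 2 * sp - a + ep))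
    (hq : rq ^ 2 = (cr + a + eq) * (cr + 2 * sq - a + eq))
    (hsp0 : 0 ≤ cr + sp + ep) (hsp : cr + sp + ep ≤ 5 * R)
    (hsq0 : 0 ≤ cr + sq + eq) (hsq : cr + sq + eq ≤ 5 * R)
    (hNp : |N - rp| ≤ m) (hNq : |N - rq| ≤ m)
    (hcase : 64 * A * R * m < N * (A * u) ∨ (0 ≤ a ∧ 4 * (h + t) ≤ R)) :
    |sp - sq| ≤ 62 * (u * t) := by
  have hA0 : 0 < A := by linarith
  have hh0 : 0 < h := by linarith
  have ht0 : 0 < t := by linarith
  have hR0 : 0 < R := by linarith
  have hAh : h ≤ A * h := le_mul_of_one_le_left hh0.le hA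
  have hhu : h ≤ u := le_trans hAh hu
  have hu0 : 0 < u := by linarith
  have hut : u ≤ u * t := le_mul_of_one_le_right hu0.le ht
  have hht : h + t ≤ 2 * (h * t) := by
    have h1 : 0 ≤ (h - 1) * (t - 1) := mul_nonneg (by linarith) (by linarith)
    have h2 : 1 ≤ h * t := one_le_mul_of_one_le_of_one_le hh ht
    have h3 : (h - 1) * (t - 1) = h * t - h - t + 1 := by ring
    linarith
  have hhut : h * t ≤ u * t := mul_le_mul_of_nonneg_right hhu ht0.le
  have hmu : m ≤ u := by
    have h1 : m ^ 2 ≤ u ^ 2 := by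
      calc m ^ 2 = u * (A * h) := by rw [hm]; ring
        _ ≤ u * u := mul_le_mul_of_nonneg_left hu hu0.le
        _ = u ^ 2 := by ring
    exact abs_le_of_sq_le_sq' h1 hu0.le |>.2
  have hee : |ep - eq| ≤ 2 * (h + t) := by
    calc |ep - eq| ≤ |ep| + |eq| := abs_sub _ _
      _ ≤ 2 * (h + t) := by linarith
  have hP := e1_nonneg (b := cr + a + ep) (g := cr + 2 * sp - a + ep) (by rw [← hp]; positivity)
    (by linarith)
  have hQ := e1_nonneg (b := cr + a + eq) (g := cr + 2 * sq - a + eq) (by rw [← hq]; positivity)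
    (by linarith)
  have hgp : cr + 2 * sp - a + ep ≤ 10 * R := by linarith [hP.1]
  have hgq : cr + 2 * sq - a + eq ≤ 10 * R := by linarith [hQ.1]
  have hgq' : |cr + 2 * sq - a + eq| ≤ 10 * R := by rw [abs_of_nonneg hQ.2]; exact hgq
  have hsecond : |ep - eq| * |cr + 2 * sq - a + eq| ≤ 40 * (h * t) * R := by
    calc |ep - eq| * |cr + 2 * sq - a + eq| ≤ (2 * (h + t)) * (10 * R) :=
          mul_le_mul hee hgq' (abs_nonneg _) (by positivity)
      _ ≤ (2 * (2 * (h * t))) * (10 * R) := by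
          apply mul_le_mul_of_nonneg_right _ (by positivity)
          linarith
      _ = 40 * (h * t) * R := by ring
  have hrr : |rp - rq| ≤ 2 * m := by
    have h1 : rp - rq = (N - rq) - (N - rp) := by ring
    rw [h1]
    calc |(N - rq) - (N - rp)| ≤ |N - rq| + |N - rp| := abs_sub _ _
      _ ≤ 2 * m := by linarith
  have hdiff : |rp ^ 2 - rq ^ 2| ≤ 2 * m * (rp + rq) := by
    have h1 : rp ^ 2 - rq ^ 2 = (rp - rq) * (rp + rq) := by ring
    rw [h1, abs_mul, abs_of_nonneg (by linarith : 0 ≤ rp + rq)]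
    exact mul_le_mul_of_nonneg_right hrr (by linarith)
  have key : |(cr + 2 * sp - a + ep) - (cr + 2 * sq - a + eq)| ≤ 120 * (u * t) := by
    rcases hcase with hc | ⟨ha, hRt⟩
    · -- case I
      have h8 : 8 * m < N := by
        have h1 : 64 * A * R * m < N * (8 * R) :=
          lt_of_lt_of_le hc (mul_le_mul_of_nonneg_left hDR hN)
        have h2 : 8 * A * m < N := by
          have : (8 * A * m) * (8 * R) < N * (8 * R) := by
            calc (8 * A * m) * (8 * R) = 64 * A * R * m := by ring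
              _ < N * (8 * R) := h1
          exact lt_of_mul_lt_mul_right this (by positivity)
        have h3 : m ≤ A * m := le_mul_of_one_le_left hm0 hA
        linarith
      have hN0 : 0 < N := by linarith
      have hrp1 : 7 / 8 * N ≤ rp := by
        have := (abs_le.1 hNp).2
        linarith
      have hrp2 : rp ≤ 9 / 8 * N := by
        have := (abs_le.1 hNp).1
        linarith
      have hrq2 : rq ≤ 9 / 8 * N := by
        have := (abs_le.1 hNq).1
        linarith
      have hrpsq : N ^ 2 / 4 ≤ rp ^ 2 := by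
        have h1 : (7 / 8 * N) ^ 2 ≤ rp ^ 2 := pow_le_pow_left₀ (by positivity) hrp1 2
        have h2 : (7 / 8 * N) ^ 2 = 49 / 64 * N ^ 2 := by ring
        have h3 : 0 ≤ N ^ 2 := sq_nonneg N
        linarith
      have hbp : N ^ 2 ≤ 40 * R * (cr + a + ep) := by
        have h1 : rp ^ 2 ≤ (cr + a + ep) * (10 * R) := by
          rw [hp]
          exact mul_le_mul_of_nonneg_left hgp hP.1
        have h2 : 40 * R * (cr + a + ep) = 4 * ((cr + a + ep) * (10 * R)) := by ring
        linarith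
      have hbp0 : 0 < cr + a + ep := by
        have h1 : 0 < 40 * R * (cr + a + ep) := lt_of_lt_of_le (by positivity) hbp
        exact (mul_pos_iff_of_pos_left (by positivity)).1 h1
      refine e1_quot (ep := ep) (eq := eq) hbp0 hp hq (by ring) ?_
      -- first term
      have h1 : |rp ^ 2 - rq ^ 2| ≤ 4 * u * (cr + a + ep) := by
        have h2 : |rp ^ 2 - rq ^ 2| ≤ 6 * (m * N) := by
          refine hdiff.trans ?_
          have : 2 * m * (rp + rq) ≤ 2 * m * (9 / 4 * N) :=
            mul_le_mul_of_nonneg_left (by linarith) (by positivity)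
          have h4 : 0 ≤ m * N := by positivity
          linarith
        have h3 : 60 * R * m ≤ N * u := by
          have h4 : 64 * R * m < N * u := by
            have : A * (64 * R * m) < A * (N * u) := by
              calc A * (64 * R * m) = 64 * A * R * m := by ring
                _ < N * (A * u) := hc
                _ = A * (N * u) := by ring
            exact lt_of_mul_lt_mul_left this hA0.le
          have : 0 ≤ R * m := by positivity
          linarith
        have h5 : 10 * R * (6 * (m * N)) ≤ 10 * R * (4 * u * (cr + a + ep)) := by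
          calc 10 * R * (6 * (m * N)) = (60 * R * m) * N := by ring
            _ ≤ (N * u) * N := mul_le_mul_of_nonneg_right h3 hN
            _ = u * N ^ 2 := by ring
            _ ≤ u * (40 * R * (cr + a + ep)) := mul_le_mul_of_nonneg_left hbp hu0.le
            _ = 10 * R * (4 * u * (cr + a + ep)) := by ring
        exact h2.trans (le_of_mul_le_mul_left h5 (by positivity))
      have h2 : 40 * (h * t) * R ≤ (u * t) * (cr + a + ep) := by
        have h3 : 4096 * (A * R ^ 2 * h) ≤ N ^ 2 * u := by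
          have h4 : (64 * R * m) ^ 2 ≤ (N * u) ^ 2 := by
            have h5 : 64 * R * m < N * u := by
              have : A * (64 * R * m) < A * (N * u) := by
                calc A * (64 * R * m) = 64 * A * R * m := by ring
                  _ < N * (A * u) := hc
                  _ = A * (N * u) := by ring
              exact lt_of_mul_lt_mul_left this hA0.le
            have h6 : 0 ≤ 64 * R * m := by positivity
            exact pow_le_pow_left₀ h6 h5.le 2
          have h5 : u * (4096 * (A * R ^ 2 * h)) ≤ u * (N ^ 2 * u) := by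
            calc u * (4096 * (A * R ^ 2 * h)) = 4096 * R ^ 2 * (A * u * h) := by ring
              _ = (64 * R * m) ^ 2 := by rw [← hm]; ring
              _ ≤ (N * u) ^ 2 := h4
              _ = u * (N ^ 2 * u) := by ring
          exact le_of_mul_le_mul_left h5 hu0
        have h6 : 40 * R * (40 * (h * t) * R) ≤ 40 * R * ((u * t) * (cr + a + ep)) := by
          calc 40 * R * (40 * (h * t) * R) = t * (1600 * (1 * R ^ 2 * h)) := by ring
            _ ≤ t * (4096 * (A * R ^ 2 * h)) := by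
                apply mul_le_mul_of_nonneg_left _ ht0.le
                have h7 : 0 ≤ R ^ 2 * h := by positivity
                have h8 : R ^ 2 * h ≤ A * (R ^ 2 * h) := le_mul_of_one_le_left h7 hA
                linarith
            _ ≤ t * (N ^ 2 * u) := mul_le_mul_of_nonneg_left h3 ht0.le
            _ = (u * t) * N ^ 2 := by ring
            _ ≤ (u * t) * (40 * R * (cr + a + ep)) :=
                mul_le_mul_of_nonneg_left hbp (by positivity)
            _ = 40 * R * ((u * t) * (cr + a + ep)) := by ring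
        exact le_of_mul_le_mul_left h6 (by positivity)
      have h3 : 4 * u * (cr + a + ep) ≤ 4 * (u * t) * (cr + a + ep) := by
        apply mul_le_mul_of_nonneg_right _ hP.1
        linarith
      have h4 : 0 ≤ (u * t) * (cr + a + ep) := mul_nonneg (by positivity) hP.1
      calc |rp ^ 2 - rq ^ 2| + |ep - eq| * |cr + 2 * sq - a + eq|
          ≤ 4 * (u * t) * (cr + a + ep) + (u * t) * (cr + a + ep) := by
            linarith [h1.trans h3, hsecond.trans h2]
        _ ≤ 120 * (u * t) * (cr + a + ep) := by linarith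
    · -- case II
      have hbp : R / 2 ≤ cr + a + ep := by
        have := (abs_le.1 hep).1
        linarith
      have hbp0 : 0 < cr + a + ep := by linarith
      refine e1_quot (ep := ep) (eq := eq) hbp0 hp hq (by ring) ?_
      have hrp5 : rp ≤ 5 * R := by
        have h1 : rp ^ 2 ≤ (5 * R) ^ 2 := by
          have h2 : (cr + a + ep) * (cr + 2 * sp - a + ep) =
            (cr + sp + ep) ^ 2 - (a - sp) ^ 2 := by ring
          have h3 : (cr + sp + ep) ^ 2 ≤ (5 * R) ^ 2 := pow_le_pow_left₀ hsp0 hsp 2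
          rw [hp, h2]
          linarith [sq_nonneg (a - sp)]
        exact abs_le_of_sq_le_sq' h1 (by positivity) |>.2
      have hrq5 : rq ≤ 5 * R := by
        have h1 : rq ^ 2 ≤ (5 * R) ^ 2 := by
          have h2 : (cr + a + eq) * (cr + 2 * sq - a + eq) =
            (cr + sq + eq) ^ 2 - (a - sq) ^ 2 := by ring
          have h3 : (cr + sq + eq) ^ 2 ≤ (5 * R) ^ 2 := pow_le_pow_left₀ hsq0 hsq 2
          rw [hq, h2]
          linarith [sq_nonneg (a - sq)]
        exact abs_le_of_sq_le_sq' h1 (by positivity) |>.2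
      have h1 : |rp ^ 2 - rq ^ 2| ≤ 40 * (u * t) * (cr + a + ep) := by
        calc |rp ^ 2 - rq ^ 2| ≤ 2 * m * (rp + rq) := hdiff
          _ ≤ 2 * (u * t) * (10 * R) := by
              apply mul_le_mul (by linarith) (by linarith) (by linarith) (by positivity)
          _ = 40 * (u * t) * (R / 2) := by ring
          _ ≤ 40 * (u * t) * (cr + a + ep) := mul_le_mul_of_nonneg_left hbp (by positivity)
      have h2 : 40 * (h * t) * R ≤ 80 * (u * t) * (cr + a + ep) := by
        calc 40 * (h * t) * R ≤ 40 * (u * t) * R := by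
              apply mul_le_mul_of_nonneg_right _ hR0.le
              linarith
          _ = 80 * (u * t) * (R / 2) := by ring
          _ ≤ 80 * (u * t) * (cr + a + ep) := mul_le_mul_of_nonneg_left hbp (by positivity)
      calc |rp ^ 2 - rq ^ 2| + |ep - eq| * |cr + 2 * sq - a + eq|
          ≤ 40 * (u * t) * (cr + a + ep) + 80 * (u * t) * (cr + a + ep) := by
            linarith [hsecond.trans h2]
        _ = 120 * (u * t) * (cr + a + ep) := by ring
  have h2s : 2 * (sp - sq) = ((cr + 2 * sp - a + ep) - (cr + 2 * sq - a + eq)) - (ep - eq) := by ring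
  have h3 : |2 * (sp - sq)| ≤ 120 * (u * t) + 4 * (u * t) := by
    rw [h2s]
    refine (abs_sub _ _).trans ?_
    have : |ep - eq| ≤ 4 * (u * t) := by linarith
    linarith
  rw [abs_mul, abs_two] at h3
  linarith

/-- off the zone of a plank only few radii are active -/
theorem sep_radii (d : ℕ) : ∃ C : ℝ, 0 < C ∧ ∀ (c : P d) (w : E d) (D h R A t : ℝ) (x : E d)
    (p q : P d), ‖w‖ = 1 → 1 ≤ D → 1 ≤ h → 1 ≤ R → D ≤ 8 * R → 1 ≤ A → A ^ 2 * h ≤ D → 1 ≤ t →
    t ≤ A → R ≤ c.2 → c.2 ≤ 2 * R → R ≤ p.2 → p.2 ≤ 2 * R → R ≤ q.2 → q.2 ≤ 2 * R →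
    InPl c w D h p → InPl c w D h q → |‖x - p.1‖ - p.2| ≤ t → |‖x - q.1‖ - q.2| ≤ t →
    ¬ (‖perp w (x - c.1)‖ ≤ 64 * A * R * Real.sqrt (h / D) ∧ inner ℝ (x - c.1) w < 0) →
    |p.2 - q.2| ≤ C * (D * t / A) := by
  refine ⟨100, by norm_num, ?_⟩
  intro c w D h R A t x p q hw hD hh hR hDR hA hAD ht htA hc1 hc2 hp1 hp2 hq1 hq2 hp hq hxp hxq hz
  have hA0 : 0 < A := by linarith
  have hh0 : 0 < h := by linarith
  have ht0 : 0 < t := by linarith
  have hR0 : 0 < R := by linarith
  have hD0 : 0 < D := by linarith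
  obtain ⟨u, hu⟩ : ∃ u, u = D / A := ⟨_, rfl⟩
  have hAu : A * u = D := by rw [hu]; field_simp
  have hu0 : 0 < u := by rw [hu]; positivity
  have hDtA : D * t / A = u * t := by rw [hu]; ring
  have hAhu : A * h ≤ u := by
    have : A * (A * h) ≤ A * u := by rw [hAu]; linarith [hAD, (by ring : A * (A * h) = A ^ 2 * h)]
    exact le_of_mul_le_mul_left this hA0
  have hhu : h ≤ u := le_trans (le_mul_of_one_le_left hh0.le hA) hAhu
  have hht : h + t ≤ 2 * (h * t) := by
    have h1 : 0 ≤ (h - 1) * (t - 1) := mul_nonneg (by linarith) (by linarith)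
    have h2 : 1 ≤ h * t := one_le_mul_of_one_le_of_one_le hh ht
    have h3 : (h - 1) * (t - 1) = h * t - h - t + 1 := by ring
    linarith
  have hhut : h * t ≤ u * t := mul_le_mul_of_nonneg_right hhu ht0.le
  have htu : h ≤ u * t := hhu.trans (le_mul_of_one_le_right hu0.le ht)
  rw [hDtA]
  obtain ⟨m, hm⟩ : ∃ m, m = Real.sqrt (D * h) := ⟨_, rfl⟩
  have hm0 : 0 ≤ m := by rw [hm]; exact Real.sqrt_nonneg _
  have hm2 : m ^ 2 = D * h := by rw [hm]; exact Real.sq_sqrt (by positivity)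
  have hsq : Real.sqrt (h / D) = m / D := by
    have h1 : h / D = D * h / D ^ 2 := by field_simp
    rw [h1, Real.sqrt_div (by positivity), Real.sqrt_sq hD0.le, hm]
  have hAR : A ≤ 3 * R := by
    by_contra hcon
    push Not at hcon
    have h1 : A ^ 2 ≤ 8 * R := by
      have : A ^ 2 ≤ A ^ 2 * h := le_mul_of_one_le_right (by positivity) hh
      linarith
    have h2 : (3 * R) ^ 2 ≤ A ^ 2 := pow_le_pow_left₀ (by positivity) hcon.le 2
    have h3 : R ≤ R * R := le_mul_of_one_le_left hR0.le hR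
    have h4 : (3 * R) ^ 2 = 9 * (R * R) := by ring
    linarith
  obtain ⟨hpa, hpb, -⟩ := hp
  obtain ⟨hqa, hqb, -⟩ := hq
  have hdecomp : ∀ r : P d, x - r.1 = (x - c.1) - (r.1 - c.1) := fun r => by abel
  -- the data of a point
  have hdata : ∀ r : P d, |inner ℝ (r.1 - c.1) w - (r.2 - c.2)| ≤ h →
      ‖perp w (r.1 - c.1)‖ ^ 2 ≤ D * h → R ≤ r.2 → r.2 ≤ 2 * R → |‖x - r.1‖ - r.2| ≤ t →
      |(‖x - r.1‖ - c.2 - inner ℝ (r.1 - c.1) w)| ≤ h + t ∧
      ‖perp w (x - r.1)‖ ^ 2 = (c.2 + inner ℝ (x - c.1) w +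
        (‖x - r.1‖ - c.2 - inner ℝ (r.1 - c.1) w)) * (c.2 + 2 * inner ℝ (r.1 - c.1) w -
        inner ℝ (x - c.1) w + (‖x - r.1‖ - c.2 - inner ℝ (r.1 - c.1) w)) ∧
      0 ≤ c.2 + inner ℝ (r.1 - c.1) w + (‖x - r.1‖ - c.2 - inner ℝ (r.1 - c.1) w) ∧
      c.2 + inner ℝ (r.1 - c.1) w + (‖x - r.1‖ - c.2 - inner ℝ (r.1 - c.1) w) ≤ 5 * R ∧
      |‖perp w (x - c.1)‖ - ‖perp w (x - r.1)‖| ≤ m := by
    intro r ha hb h1 h2 hx
    refine ⟨?_, ?_, ?_, ?_, ?_⟩
    · rw [abs_le] at ha hx ⊢
      constructor <;> linarith [ha.1, ha.2, hx.1, hx.2]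
    · have h3 := e1_pyth w (x - r.1) hw
      have h4 : inner ℝ (x - r.1) w = inner ℝ (x - c.1) w - inner ℝ (r.1 - c.1) w := by
        rw [hdecomp r, inner_sub_left]
      rw [h4] at h3
      linear_combination -h3
    · have : c.2 + inner ℝ (r.1 - c.1) w + (‖x - r.1‖ - c.2 - inner ℝ (r.1 - c.1) w) =
          ‖x - r.1‖ := by ring
      rw [this]
      exact norm_nonneg _
    · have h5 : c.2 + inner ℝ (r.1 - c.1) w + (‖x - r.1‖ - c.2 - inner ℝ (r.1 - c.1) w) =
          ‖x - r.1‖ := by ring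
      rw [h5]
      have := (abs_le.1 hx).2
      linarith
    · have h5 : perp w (x - r.1) = perp w (x - c.1) - perp w (r.1 - c.1) := by
        rw [hdecomp r, e1_perp_sub]
      have h6 : ‖perp w (r.1 - c.1)‖ ≤ m := by
        rw [hm]
        exact Real.le_sqrt_of_sq_le hb
      refine (abs_norm_sub_norm_le _ _).trans ?_
      rw [h5]
      have h7 : perp w (x - c.1) - (perp w (x - c.1) - perp w (r.1 - c.1)) =
          perp w (r.1 - c.1) := by abel
      rw [h7]
      exact h6
  obtain ⟨P1, P2, P3, P4, P5⟩ := hdata p hpa hpb hp1 hp2 hxp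
  obtain ⟨Q1, Q2, Q3, Q4, Q5⟩ := hdata q hqa hqb hq1 hq2 hxq
  by_cases hRs : R < 4 * (h + t)
  · have h1 : |p.2 - q.2| ≤ R := by
      rw [abs_le]
      constructor <;> linarith
    have : 0 < u * t := by positivity
    linarith
  · push Not at hRs
    have hcase : 64 * A * R * m < ‖perp w (x - c.1)‖ * (A * u) ∨
        (0 ≤ (inner ℝ (x - c.1) w : ℝ) ∧ 4 * (h + t) ≤ R) := by
      by_cases hN : ‖perp w (x - c.1)‖ ≤ 64 * A * R * Real.sqrt (h / D)
      · right
        refine ⟨?_, hRs⟩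
        by_contra hcon
        push Not at hcon
        exact hz ⟨hN, hcon⟩
      · left
        push Not at hN
        rw [hsq] at hN
        rw [hAu]
        have h1 : 64 * A * R * (m / D) * D < ‖perp w (x - c.1)‖ * D :=
          mul_lt_mul_of_pos_right hN hD0
        have h2 : 64 * A * R * (m / D) * D = 64 * A * R * m := by field_simp
        rwa [h2] at h1
    have hfin := e1_core (R := R) (A := A) (t := t) (h := h) (u := u) (m := m)
      (N := ‖perp w (x - c.1)‖) (a := inner ℝ (x - c.1) w) (cr := c.2)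
      (sp := inner ℝ (p.1 - c.1) w) (ep := ‖x - p.1‖ - c.2 - inner ℝ (p.1 - c.1) w)
      (rp := ‖perp w (x - p.1)‖) (sq := inner ℝ (q.1 - c.1) w)
      (eq := ‖x - q.1‖ - c.2 - inner ℝ (q.1 - c.1) w) (rq := ‖perp w (x - q.1)‖)
      hR hA ht hh hAhu hm0 (by rw [hAu]; exact hm2) (by rw [hAu]; exact hDR) hc1 P1 Q1
      (norm_nonneg _) (norm_nonneg _) (norm_nonneg _) P2 Q2 P3 P4 Q3 Q4 P5 Q5 hcase
    have h3 : p.2 - q.2 = (inner ℝ (p.1 - c.1) w - inner ℝ (q.1 - c.1) w) -
        (inner ℝ (p.1 - c.1) w - (p.2 - c.2)) + (inner ℝ (q.1 - c.1) w - (q.2 - c.2)) := by ring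
    rw [h3]
    have h4 := abs_le.1 hfin
    have h5 := abs_le.1 hpa
    have h6 := abs_le.1 hqa
    rw [abs_le]
    constructor <;> linarith [h4.1, h4.2, h5.1, h5.2, h6.1, h6.2]

end Pool.LibLP59
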