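import Pool.Agent.LibLP59.E0
import Pool.Agent.LibLP59.E1
import Pool.Agent.LibSR53.C2

/-
PLAN (E2). R = 2^k. Off the annulus | |x-c.1| - c.2 | <= 36 D: every p in X has |p.1-c.1| <= 16D+h+sqrt(Dh) <= 18 D, |p.2-c.2| <= 16 D, so | |x-p.1|-p.2 | >= 2D > t: pure tails. On the annulus
minus the zone: I(x) = radii r of X such that some p in X with p.2 = r has | |x-p.1|-p.2 | <= t: pairwise distance <= C D t/A (sep_radii), radii differ by integers (LatP), so |I(x)| <= C D t/A + 1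
<= C' D t/A. With G_r = sum over p in X, p.2 = r: |f(x)| <= sum_{r in I(x)} |G_r(x)| + sum_p |F p x| 1_(t < ||x-p.1|-p.2|), first sum <= sqrt(|I(x)|) (sum_r |G_r|^2)^(1/2). Integrate over the
annulus (measure <= C R^(d-1) D, annulus_volume of LibSR53.C2, D <= 8R): Cauchy-Schwarz (ENNReal.lintegral_mul_le_Lp_mul_Lq), sum_r int |G_r|^2 <= C0 (2R)^(d-1) |X| (FHyp.fix; centres of
one radius are 1-separated by LatP); tails by FHyp.tail M. Off the annulus tails only. sqrt(C R^(d-1) D) sqrt(C (D t/A) R^(d-1)|X|) = C R^(d-1) D sqrt(t |X| / A).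
-/

set_option autoImplicit false

noncomputable section

open MeasureTheory Metric Set Filter

namespace Pool.LibLP59

open Pool.LibSR53 Pool.LibTP53

private theorem e2_card {I : Finset ℝ} {L : ℝ} (hL : 0 ≤ L)
    (hint : ∀ r ∈ I, ∀ s ∈ I, ∃ n : ℤ, r - s = n) (hb : ∀ r ∈ I, ∀ s ∈ I, |r - s| ≤ L) :
    (I.card : ℝ) ≤ 2 * L + 1 := by
  rcases I.eq_empty_or_nonempty with h0 | ⟨r0, hr0⟩
  · rw [h0, Finset.card_empty, Nat.cast_zero]
    linarith
  · have hmaps : Set.MapsTo (fun r : ℝ => ⌊r - r0⌋) I (Finset.Icc (-⌊L⌋) ⌊L⌋ : Finset ℤ) := by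
      intro r hr
      obtain ⟨n, hn⟩ := hint r hr r0 hr0
      have h1 := hb r hr r0 hr0
      rw [hn] at h1
      rw [Finset.mem_coe, Finset.mem_Icc]
      show -⌊L⌋ ≤ ⌊r - r0⌋ ∧ ⌊r - r0⌋ ≤ ⌊L⌋
      rw [hn, Int.floor_intCast]
      have h2 : ((|n| : ℤ) : ℝ) ≤ L := by rw [Int.cast_abs]; exact h1
      have h3 : |n| ≤ ⌊L⌋ := Int.le_floor.2 h2
      exact abs_le.1 h3
    have hinj : Set.InjOn (fun r : ℝ => ⌊r - r0⌋) (I : Set ℝ) := by
      intro r hr s hs hrs
      obtain ⟨n, hn⟩ := hint r hr r0 hr0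
      obtain ⟨m, hm⟩ := hint s hs r0 hr0
      have h1 : ⌊r - r0⌋ = ⌊s - r0⌋ := hrs
      rw [hn, hm, Int.floor_intCast, Int.floor_intCast] at h1
      rw [h1] at hn
      linarith
    have h1 := Finset.card_le_card_of_injOn _ hmaps hinj
    rw [Int.card_Icc] at h1
    have hfl : 0 ≤ ⌊L⌋ := Int.floor_nonneg.2 hL
    have h2 : (I.card : ℤ) ≤ ⌊L⌋ + 1 - -⌊L⌋ := by
      have h3 : ((⌊L⌋ + 1 - -⌊L⌋).toNat : ℤ) = ⌊L⌋ + 1 - -⌊L⌋ := Int.toNat_of_nonneg (by linarith)
      rw [← h3]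
      exact_mod_cast h1
    have h4 : (I.card : ℝ) ≤ (⌊L⌋ : ℝ) + 1 - -(⌊L⌋ : ℝ) := by exact_mod_cast h2
    have h5 : (⌊L⌋ : ℝ) ≤ L := Int.floor_le L
    linarith

private theorem e2_pyth {d : ℕ} (w v : E d) (hw : ‖w‖ = 1) :
    ‖v‖ ≤ |(inner ℝ v w : ℝ)| + ‖perp w v‖ := by
  have h1 : v = (inner ℝ v w : ℝ) • w + perp w v := by
    unfold perp
    abel
  calc ‖v‖ = ‖(inner ℝ v w : ℝ) • w + perp w v‖ := by rw [← h1]
    _ ≤ ‖(inner ℝ v w : ℝ) • w‖ + ‖perp w v‖ := norm_add_le _ _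
    _ = |(inner ℝ v w : ℝ)| + ‖perp w v‖ := by rw [norm_smul, hw, mul_one, Real.norm_eq_abs]

/-- a point near a member of the piece is in the annulus -/
private theorem e2_near {d : ℕ} {c p : P d} {w x : E d} {D h t : ℝ} (hw : ‖w‖ = 1) (hh : 1 ≤ h)
    (hhD : h ≤ D) (htD : t ≤ D) (hp : InPl c w D h p) (hx : |‖x - p.1‖ - p.2| ≤ t) :
    |‖x - c.1‖ - c.2| ≤ 36 * D := by
  obtain ⟨h1, h2, h3⟩ := hp
  have hD0 : 0 ≤ D := by linarith
  have h4 : ‖perp w (p.1 - c.1)‖ ≤ D := by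
    have h5 : ‖perp w (p.1 - c.1)‖ ^ 2 ≤ D ^ 2 := by
      calc ‖perp w (p.1 - c.1)‖ ^ 2 ≤ D * h := h2
        _ ≤ D * D := mul_le_mul_of_nonneg_left hhD hD0
        _ = D ^ 2 := by ring
    exact (abs_le_of_sq_le_sq' h5 hD0).2
  have h5 : |(inner ℝ (p.1 - c.1) w : ℝ)| ≤ 17 * D := by
    have h6 := abs_le.1 h1
    have h7 := abs_le.1 h3
    rw [abs_le]
    constructor <;> linarith [h6.1, h6.2, h7.1, h7.2]
  have h6 : ‖p.1 - c.1‖ ≤ 18 * D := (e2_pyth w _ hw).trans (by linarith)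
  have h7 : |‖x - c.1‖ - ‖x - p.1‖| ≤ ‖p.1 - c.1‖ := by
    refine (abs_norm_sub_norm_le _ _).trans ?_
    have : x - c.1 - (x - p.1) = p.1 - c.1 := by abel
    rw [this]
  have h8 := abs_le.1 h7
  have h9 := abs_le.1 hx
  have h10 := abs_le.1 h3
  rw [abs_le]
  constructor <;> linarith [h8.1, h8.2, h9.1, h9.2, h10.1, h10.2]

private theorem e2_sep {d : ℕ} {X : Finset (P d)} (hX : LatP X) {p q : P d} (hp : p ∈ X)
    (hq : q ∈ X) (hne : p.1 ≠ q.1) : 1 ≤ dist p.1 q.1 := by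
  obtain ⟨h1, -⟩ := hX p hp q hq
  have h2 : ∃ i, p.1 i ≠ q.1 i := by
    by_contra hcon
    push Not at hcon
    exact hne (PiLp.ext hcon)
  obtain ⟨i, hi⟩ := h2
  obtain ⟨n, hn⟩ := h1 i
  have h3 : (p - q).1 i = p.1 i - q.1 i := rfl
  rw [h3] at hn
  have h4 : n ≠ 0 := by
    rintro rfl
    rw [Int.cast_zero, sub_eq_zero] at hn
    exact hi hn
  have h5 : (1 : ℝ) ≤ |(n : ℝ)| := by
    have : (1 : ℤ) ≤ |n| := Int.one_le_abs h4
    rw [← Int.cast_abs]
    exact_mod_cast this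
  rw [dist_eq_norm]
  calc (1 : ℝ) ≤ |(n : ℝ)| := h5
    _ = ‖(p.1 - q.1) i‖ := by rw [← hn, Real.norm_eq_abs]; rfl
    _ ≤ ‖p.1 - q.1‖ := PiLp.norm_apply_le _ i

/-- the part of the sum with radius r -/
private def e2G {d : ℕ} (X : Finset (P d)) (γ : P d → ℂ) (F : P d → E d → ℂ) (r : ℝ) (x : E d) : ℂ :=
  open scoped Classical in ∑ p ∈ X.filter (fun p => p.2 = r), γ p * F p x

private theorem e2_gr {d : ℕ} {F : P d → E d → ℂ} {C0 : ℝ} (hF : FHyp d F C0) {X : Finset (P d)}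
    (hX : LatP X) {γ : P d → ℂ} (hγ : ∀ p, ‖γ p‖ ≤ 1) {r : ℝ} (hr : 1 ≤ r) :
    ∫⁻ x, ‖e2G X γ F r x‖ₑ ^ (2 : ℝ) ≤
      ENNReal.ofReal (C0 * r ^ (d - 1) *
        ((open scoped Classical in X.filter (fun p => p.2 = r)).card : ℝ)) := by
  classical
  have hinj : Set.InjOn (Prod.fst : P d → E d)
      (X.filter (fun p => p.2 = r) : Finset (P d)) := by
    intro p hp q hq hpq
    rw [Finset.mem_coe, Finset.mem_filter] at hp hq
    exact Prod.ext hpq (hp.2.trans hq.2.symm)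
  have h1 := hF.fix r hr ((X.filter (fun p => p.2 = r)).image Prod.fst) (fun y => γ (y, r)) (by
    intro y hy z hz hyz
    rw [Finset.mem_image] at hy hz
    obtain ⟨p, hp, rfl⟩ := hy
    obtain ⟨q, hq, rfl⟩ := hz
    exact e2_sep hX (Finset.mem_of_mem_filter _ hp) (Finset.mem_of_mem_filter _ hq) hyz)
  have h2 : ∀ x, e2G X γ F r x =
      ∑ y ∈ (X.filter (fun p => p.2 = r)).image Prod.fst, γ (y, r) * F (y, r) x := by
    intro x
    rw [Finset.sum_image hinj]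
    unfold e2G
    refine Finset.sum_congr (by congr) ?_
    intro p hp
    have h3 : p.2 = r := (Finset.mem_filter.1 hp).2
    have h4 : (p.1, r) = p := by rw [← h3]
    rw [h4]
  simp only [h2]
  refine h1.trans (ENNReal.ofReal_le_ofReal ?_)
  have h5 : 0 ≤ C0 * r ^ (d - 1) := mul_nonneg hF.pos.le (pow_nonneg (by linarith) _)
  refine mul_le_mul_of_nonneg_left ?_ h5
  calc ∑ y ∈ (X.filter (fun p => p.2 = r)).image Prod.fst, ‖γ (y, r)‖ ^ 2
      ≤ ∑ y ∈ (X.filter (fun p => p.2 = r)).image Prod.fst, (1 : ℝ) := by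
        refine Finset.sum_le_sum fun y _ => ?_
        have := hγ (y, r)
        exact pow_le_one₀ (norm_nonneg _) this
    _ = ((X.filter (fun p => p.2 = r)).image Prod.fst).card := by
        rw [Finset.sum_const, nsmul_eq_mul, mul_one]
    _ ≤ (X.filter (fun p => p.2 = r)).card := by exact_mod_cast Finset.card_image_le
    _ = _ := by congr

private theorem e2_amgm (z : ℂ) {lam : ℝ} (hl : 0 < lam) :
    ‖z‖ₑ ≤ ENNReal.ofReal (lam / 2) + ENNReal.ofReal (1 / (2 * lam)) * ‖z‖ₑ ^ (2 : ℝ) := by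
  rw [← ofReal_norm, ENNReal.ofReal_rpow_of_nonneg (norm_nonneg _) (by norm_num),
    ← ENNReal.ofReal_mul (by positivity), ← ENNReal.ofReal_add (by positivity) (by positivity)]
  apply ENNReal.ofReal_le_ofReal
  rw [Real.rpow_two]
  have h1 : lam / 2 + 1 / (2 * lam) * ‖z‖ ^ 2 - ‖z‖ = (‖z‖ - lam) ^ 2 / (2 * lam) := by
    field_simp
    ring
  have h2 : 0 ≤ (‖z‖ - lam) ^ 2 / (2 * lam) := by positivity
  linarith

/-- the far region of p -/
private def e2far {d : ℕ} (t : ℝ) (p : P d) : Set (E d) := {x | t < |‖x - p.1‖ - p.2|}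

/-- pointwise bound -/
private theorem e2_point {d : ℕ} (X : Finset (P d)) (γ : P d → ℂ) (F : P d → E d → ℂ)
    (hγ : ∀ p, ‖γ p‖ ≤ 1) (t lam N0 : ℝ) (hl : 0 < lam) (x : E d)
    (hcard : ∀ I : Finset ℝ, (∀ r ∈ I, ∃ p ∈ X, p.2 = r ∧ |‖x - p.1‖ - p.2| ≤ t) →
      (I.card : ℝ) ≤ N0) :
    ‖∑ p ∈ X, γ p * F p x‖ₑ ≤ ENNReal.ofReal (lam / 2 * N0) +
      (ENNReal.ofReal (1 / (2 * lam)) *
        ∑ r ∈ (open scoped Classical in X.image Prod.snd), ‖e2G X γ F r x‖ₑ ^ (2 : ℝ) +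
      ∑ p ∈ X, (e2far t p).indicator (fun x => ‖F p x‖ₑ) x) := by
  classical
  have h1 : ∑ p ∈ X, γ p * F p x = ∑ r ∈ X.image Prod.snd, e2G X γ F r x := by
    unfold e2G
    rw [← Finset.sum_fiberwise_of_maps_to (s := X) (t := X.image Prod.snd) (g := Prod.snd)
      (fun p hp => Finset.mem_image_of_mem _ hp)]
  obtain ⟨I, hI⟩ : ∃ I, I = (X.image Prod.snd).filter
    (fun r => ∃ p ∈ X, p.2 = r ∧ |‖x - p.1‖ - p.2| ≤ t) := ⟨_, rfl⟩
  have hIc := hcard I (by
    intro r hr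
    rw [hI] at hr
    exact (Finset.mem_filter.1 hr).2)
  rw [h1]
  refine (enorm_sum_le _ _).trans ?_
  rw [← Finset.sum_filter_add_sum_filter_not (X.image Prod.snd)
    (fun r => ∃ p ∈ X, p.2 = r ∧ |‖x - p.1‖ - p.2| ≤ t), ← hI, ← add_assoc]
  refine add_le_add ?_ ?_
  · calc ∑ r ∈ I, ‖e2G X γ F r x‖ₑ
        ≤ ∑ r ∈ I, (ENNReal.ofReal (lam / 2) +
            ENNReal.ofReal (1 / (2 * lam)) * ‖e2G X γ F r x‖ₑ ^ (2 : ℝ)) :=
          Finset.sum_le_sum fun r _ => e2_amgm _ hl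
      _ = I.card * ENNReal.ofReal (lam / 2) +
            ENNReal.ofReal (1 / (2 * lam)) * ∑ r ∈ I, ‖e2G X γ F r x‖ₑ ^ (2 : ℝ) := by
          rw [Finset.sum_add_distrib, Finset.sum_const, nsmul_eq_mul, ← Finset.mul_sum]
      _ ≤ _ := by
          refine add_le_add ?_ (mul_le_mul_right (Finset.sum_le_sum_of_subset ?_) _)
          · have h2 : (I.card : ENNReal) = ENNReal.ofReal (I.card : ℝ) := by
              rw [ENNReal.ofReal_natCast]
            rw [h2, ← ENNReal.ofReal_mul (Nat.cast_nonneg _)]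
            apply ENNReal.ofReal_le_ofReal
            rw [mul_comm]
            exact mul_le_mul_of_nonneg_left hIc (by positivity)
          · rw [hI]
            exact Finset.filter_subset _ _
  · have h2 : ∀ r ∈ (X.image Prod.snd).filter
        (fun r => ¬ ∃ p ∈ X, p.2 = r ∧ |‖x - p.1‖ - p.2| ≤ t),
        ‖e2G X γ F r x‖ₑ ≤ ∑ p ∈ X.filter (fun p => p.2 = r),
          (e2far t p).indicator (fun x => ‖F p x‖ₑ) x := by
      intro r hr
      have hr2 := (Finset.mem_filter.1 hr).2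
      push Not at hr2
      unfold e2G
      refine (enorm_sum_le _ _).trans ?_
      refine Finset.sum_le_sum fun p hp => ?_
      have hp' := Finset.mem_filter.1 hp
      have h3 : x ∈ e2far t p := hr2 p hp'.1 hp'.2
      rw [Set.indicator_of_mem h3, enorm_mul]
      have h4 : ‖γ p‖ₑ ≤ 1 := by
        rw [← ofReal_norm]
        exact ENNReal.ofReal_le_one.2 (hγ p)
      calc ‖γ p‖ₑ * ‖F p x‖ₑ ≤ 1 * ‖F p x‖ₑ := mul_le_mul_left h4 _
        _ = ‖F p x‖ₑ := one_mul _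
    refine (Finset.sum_le_sum h2).trans ?_
    refine (Finset.sum_le_sum_of_subset (Finset.filter_subset _ _)).trans ?_
    rw [Finset.sum_fiberwise_of_maps_to (s := X) (t := X.image Prod.snd) (g := Prod.snd)
      (fun p hp => Finset.mem_image_of_mem _ hp)]

private theorem e2_meas {d : ℕ} {F : P d → E d → ℂ} {C0 : ℝ} (hF : FHyp d F C0) {X : Finset (P d)}
    {γ : P d → ℂ} (hX : ∀ p ∈ X, 1 ≤ p.2) (r : ℝ) :
    AEMeasurable (fun x => ‖e2G X γ F r x‖ₑ ^ (2 : ℝ)) volume := by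
  classical
  have h1 : AEStronglyMeasurable (fun x => e2G X γ F r x) volume := by
    unfold e2G
    refine Finset.aestronglyMeasurable_fun_sum _ fun p hp => ?_
    exact (hF.meas p (hX p (Finset.mem_of_mem_filter _ hp))).const_mul (γ p)
  exact h1.enorm.pow_const _

private theorem e2_cont_perp {d : ℕ} (w z : E d) : Continuous fun x : E d => ‖perp w (x - z)‖ := by
  unfold perp
  fun_prop

private theorem e2_meas_ann {d : ℕ} (z : E d) (ρ b : ℝ) :
    MeasurableSet {x : E d | |‖x - z‖ - ρ| ≤ b} := by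
  refine (isClosed_le ?_ continuous_const).measurableSet
  fun_prop

private theorem e2_meas_zone {d : ℕ} (c : P d) (w : E d) (D h R A : ℝ) :
    MeasurableSet (zone c w D h R A) := by
  have h1 : MeasurableSet {x : E d | ‖perp w (x - c.1)‖ ≤ 64 * A * R * Real.sqrt (h / D)} :=
    (isClosed_le (e2_cont_perp w c.1) continuous_const).measurableSet
  have h2 : MeasurableSet {x : E d | (inner ℝ (x - c.1) w : ℝ) < 0} :=
    (isOpen_lt (by fun_prop) continuous_const).measurableSet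
  exact h1.inter (h2.inter (e2_meas_ann c.1 c.2 (36 * D)))

private theorem e2_meas_far {d : ℕ} (t : ℝ) (p : P d) : MeasurableSet (e2far t p) := by
  unfold e2far
  exact (isOpen_lt continuous_const (by fun_prop)).measurableSet

/-- L1 bound for one piece off its zone -/
theorem piece_L1 (d : ℕ) (hd : 2 ≤ d) (F : P d → E d → ℂ) (C0 : ℝ) (hF : FHyp d F C0) (M : ℕ) :
    ∃ C : ℝ, 0 < C ∧ ∀ (k : ℕ) (c : P d) (w : E d) (D h A t : ℝ) (X : Finset (P d))
      (γ : P d → ℂ), ‖w‖ = 1 → 1 ≤ D → 1 ≤ h → D ≤ 8 * 2 ^ k → 1 ≤ A → A ^ 2 * h ≤ D → 1 ≤ t →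
      t ≤ A → (2 : ℝ) ^ k ≤ c.2 → c.2 < 2 ^ (k + 1) → LatP X →
      (∀ p ∈ X, (2 : ℝ) ^ k ≤ p.2 ∧ p.2 < 2 ^ (k + 1) ∧ InPl c w D h p) →
      (∀ p, ‖γ p‖ ≤ 1) →
      ∫⁻ x in (zone c w D h (2 ^ k) A)ᶜ, ‖∑ p ∈ X, γ p * F p x‖ₑ ≤
        ENNReal.ofReal (C * 2 ^ (k * (d - 1)) *
          (D * Real.sqrt (t * X.card / A) + X.card / t ^ M)) := by
  classical
  obtain ⟨Cs, hCs, hsep⟩ := sep_radii d
  obtain ⟨Ca, hCa, hann⟩ := annulus_volume d (by omega)
  obtain ⟨Ct, hCt, htail⟩ := hF.tail M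
  have hC0 := hF.pos
  refine ⟨(2 * Cs + 1) * (Ca * 290 ^ (d - 1) * 36) / 2 + C0 * 2 ^ (d - 1) / 2 + Ct * 2 ^ (d - 1),
    by positivity, ?_⟩
  intro k c w D h A t X γ hw hD hh hDR hA hAD ht htA hc1 hc2 hX hXp hγ
  rcases X.eq_empty_or_nonempty with hXe | hXne
  · subst hXe
    simp
  obtain ⟨R, hR⟩ : ∃ R : ℝ, R = 2 ^ k := ⟨_, rfl⟩
  have hR1 : 1 ≤ R := by rw [hR]; exact one_le_pow₀ (by norm_num)
  have hR2 : (2 : ℝ) ^ (k + 1) = 2 * R := by rw [hR, pow_succ]; ring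
  rw [← hR] at hDR hc1
  rw [hR2] at hc2
  simp only [← hR, hR2] at hXp
  have hRd : (2 : ℝ) ^ (k * (d - 1)) = R ^ (d - 1) := by rw [hR, pow_mul]
  rw [← hR, hRd]
  have hA0 : 0 < A := by linarith
  have ht0 : 0 < t := by linarith
  have hD0 : 0 < D := by linarith
  have hR0 : 0 < R := by linarith
  have hh0 : 0 < h := by linarith
  have hn : (0 : ℝ) < X.card := by exact_mod_cast hXne.card_pos
  have hA2 : A ≤ A ^ 2 := by
    rw [sq]
    exact le_mul_of_one_le_left hA0.le hA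
  have hAD' : A ≤ D := by
    have : A ^ 2 ≤ A ^ 2 * h := le_mul_of_one_le_right (by positivity) hh
    linarith
  have hhD : h ≤ D := by
    have h1 : 1 ≤ A ^ 2 := hA.trans hA2
    have : h ≤ A ^ 2 * h := le_mul_of_one_le_left hh0.le h1
    linarith
  have hDtA : 1 ≤ D * t / A := by
    rw [one_le_div hA0]
    have : D ≤ D * t := le_mul_of_one_le_right hD0.le ht
    linarith
  obtain ⟨σ, hσ⟩ : ∃ σ, σ = Real.sqrt (t * X.card / A) := ⟨_, rfl⟩
  have hσ0 : 0 < σ := by rw [hσ]; exact Real.sqrt_pos.2 (by positivity)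
  have hσ2 : σ ^ 2 = t * X.card / A := by rw [hσ]; exact Real.sq_sqrt (by positivity)
  rw [← hσ]
  obtain ⟨lam, hlam⟩ : ∃ lam, lam = (X.card : ℝ) / (D * σ) := ⟨_, rfl⟩
  have hlam0 : 0 < lam := by rw [hlam]; positivity
  obtain ⟨N0, hN0⟩ : ∃ N0, N0 = (2 * Cs + 1) * (D * t / A) := ⟨_, rfl⟩
  have hN00 : 0 < N0 := by rw [hN0]; positivity
  have hp1 : ∀ p ∈ X, 1 ≤ p.2 := fun p hp => hR1.trans (hXp p hp).1
  -- the pointwise bound
  have hpt : ∀ x ∈ (zone c w D h R A)ᶜ, ‖∑ p ∈ X, γ p * F p x‖ₑ ≤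
      {x : E d | |‖x - c.1‖ - c.2| ≤ 36 * D}.indicator
        (fun _ => ENNReal.ofReal (lam / 2 * N0)) x +
      (ENNReal.ofReal (1 / (2 * lam)) *
        ∑ r ∈ X.image Prod.snd, ‖e2G X γ F r x‖ₑ ^ (2 : ℝ) +
      ∑ p ∈ X, (e2far t p).indicator (fun x => ‖F p x‖ₑ) x) := by
    intro x hx
    by_cases hxA : |‖x - c.1‖ - c.2| ≤ 36 * D
    · rw [Set.indicator_of_mem (show x ∈ {x : E d | |‖x - c.1‖ - c.2| ≤ 36 * D} from hxA)]
      have h1 := e2_point X γ F hγ t lam N0 hlam0 x (by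
        intro I hI
        have h2 := e2_card (I := I) (L := Cs * (D * t / A)) (by positivity) (by
          intro r hr s hs
          obtain ⟨p, hp, hpr, -⟩ := hI r hr
          obtain ⟨q, hq, hqs, -⟩ := hI s hs
          obtain ⟨-, m, hm⟩ := hX p hp q hq
          refine ⟨m, ?_⟩
          rw [← hpr, ← hqs, ← hm]
          rfl) (by
          intro r hr s hs
          obtain ⟨p, hp, hpr, hpx⟩ := hI r hr
          obtain ⟨q, hq, hqs, hqx⟩ := hI s hs
          obtain ⟨p1, p2, p3⟩ := hXp p hp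
          obtain ⟨q1, q2, q3⟩ := hXp q hq
          rw [← hpr, ← hqs]
          refine hsep c w D h R A t x p q hw hD hh hR1 hDR hA hAD ht htA hc1 hc2.le p1 p2.le q1
            q2.le p3 q3 hpx hqx ?_
          rintro ⟨z1, z2⟩
          exact hx ⟨z1, z2, hxA⟩)
        rw [hN0]
        linarith)
      refine h1.trans (le_of_eq ?_)
      congr
    · rw [Set.indicator_of_notMem (show x ∉ {x : E d | |‖x - c.1‖ - c.2| ≤ 36 * D} from hxA)]
      have h1 := e2_point X γ F hγ t lam 0 hlam0 x (by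
        intro I hI
        have h2 : I = ∅ := by
          rw [Finset.eq_empty_iff_forall_notMem]
          intro r hr
          obtain ⟨p, hp, -, hpx⟩ := hI r hr
          exact hxA (e2_near hw hh hhD (htA.trans hAD') (hXp p hp).2.2 hpx)
        rw [h2, Finset.card_empty, Nat.cast_zero])
      rw [mul_zero, ENNReal.ofReal_zero] at h1
      refine h1.trans (le_of_eq ?_)
      congr
  -- integration
  have hvol := hann c.1 c.2 (36 * D) (by linarith) (by linarith)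
  have hint : ∫⁻ x in (zone c w D h R A)ᶜ, ‖∑ p ∈ X, γ p * F p x‖ₑ ≤
      ENNReal.ofReal (lam / 2 * N0) * volume {x : E d | |‖x - c.1‖ - c.2| ≤ 36 * D} +
      (ENNReal.ofReal (1 / (2 * lam)) *
        ∑ r ∈ X.image Prod.snd, (∫⁻ x, ‖e2G X γ F r x‖ₑ ^ (2 : ℝ)) +
      ∑ p ∈ X, ∫⁻ x in e2far t p, ‖F p x‖ₑ) := by
    have hm1 : AEMeasurable (fun x => {x : E d | |‖x - c.1‖ - c.2| ≤ 36 * D}.indicator
        (fun _ => ENNReal.ofReal (lam / 2 * N0)) x) volume :=
      (measurable_const.indicator (e2_meas_ann _ _ _)).aemeasurable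
    have hm2 : AEMeasurable (fun x => ENNReal.ofReal (1 / (2 * lam)) *
        ∑ r ∈ X.image Prod.snd, ‖e2G X γ F r x‖ₑ ^ (2 : ℝ)) volume :=
      (Finset.aemeasurable_fun_sum _ fun r _ => e2_meas hF hp1 r).const_mul _
    refine (setLIntegral_mono_ae' (e2_meas_zone c w D h R A).compl
      (Filter.Eventually.of_forall hpt)).trans ?_
    refine (setLIntegral_le_lintegral _ _).trans ?_
    rw [lintegral_add_left' hm1, lintegral_add_left' hm2,
      lintegral_indicator_const (e2_meas_ann _ _ _),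
      lintegral_const_mul'' _ (Finset.aemeasurable_fun_sum _ fun r _ => e2_meas hF hp1 r),
      lintegral_finsetSum' _ (fun r _ => e2_meas hF hp1 r),
      lintegral_finsetSum' _ (fun p hp => ((hF.meas p (hp1 p hp)).enorm.indicator
        (e2_meas_far t p)))]
    refine le_of_eq ?_
    congr 2
    refine Finset.sum_congr rfl fun p _ => ?_
    rw [lintegral_indicator (e2_meas_far t p)]
  refine hint.trans ?_
  -- the three terms
  have hpow2 : ∀ r : ℝ, 0 ≤ r → r ≤ 2 * R → r ^ (d - 1) ≤ 2 ^ (d - 1) * R ^ (d - 1) := by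
    intro r hr0 hr
    rw [← mul_pow]
    exact pow_le_pow_left₀ hr0 hr _
  have hT1 : ENNReal.ofReal (lam / 2 * N0) * volume {x : E d | |‖x - c.1‖ - c.2| ≤ 36 * D} ≤
      ENNReal.ofReal ((2 * Cs + 1) * (Ca * 290 ^ (d - 1) * 36) / 2 * (R ^ (d - 1) * (D * σ))) := by
    calc ENNReal.ofReal (lam / 2 * N0) * volume {x : E d | |‖x - c.1‖ - c.2| ≤ 36 * D}
        ≤ ENNReal.ofReal (lam / 2 * N0) *
          ENNReal.ofReal (Ca * (c.2 + 36 * D) ^ (d - 1) * (36 * D)) := mul_le_mul_right hvol _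
      _ = ENNReal.ofReal (lam / 2 * N0 * (Ca * (c.2 + 36 * D) ^ (d - 1) * (36 * D))) :=
          (ENNReal.ofReal_mul (by positivity)).symm
      _ ≤ ENNReal.ofReal (lam / 2 * N0 * (Ca * (290 * R) ^ (d - 1) * (36 * D))) := by
          apply ENNReal.ofReal_le_ofReal
          have h1 : (c.2 + 36 * D) ^ (d - 1) ≤ (290 * R) ^ (d - 1) :=
            pow_le_pow_left₀ (by linarith) (by linarith) _
          have h2 : Ca * (c.2 + 36 * D) ^ (d - 1) * (36 * D) ≤
              Ca * (290 * R) ^ (d - 1) * (36 * D) :=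
            mul_le_mul_of_nonneg_right (mul_le_mul_of_nonneg_left h1 hCa.le) (by positivity)
          exact mul_le_mul_of_nonneg_left h2 (by positivity)
      _ = _ := by
          congr 1
          have h3 : lam * (D * t / A) * D = D * σ := by
            rw [hlam]
            have h4 : (X.card : ℝ) * t / A = σ ^ 2 := by rw [hσ2]; ring
            calc (X.card : ℝ) / (D * σ) * (D * t / A) * D = (X.card : ℝ) * t / A * (D / σ) := by
                  field_simp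
              _ = σ ^ 2 * (D / σ) := by rw [h4]
              _ = D * σ := by field_simp
          rw [hN0, mul_pow]
          calc lam / 2 * ((2 * Cs + 1) * (D * t / A)) * (Ca * (290 ^ (d - 1) * R ^ (d - 1)) *
                (36 * D)) = (2 * Cs + 1) * (Ca * 290 ^ (d - 1) * 36) / 2 *
                (R ^ (d - 1) * (lam * (D * t / A) * D)) := by ring
            _ = _ := by rw [h3]
  have hT2 : ENNReal.ofReal (1 / (2 * lam)) *
        ∑ r ∈ X.image Prod.snd, ∫⁻ x, ‖e2G X γ F r x‖ₑ ^ (2 : ℝ) ≤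
      ENNReal.ofReal (C0 * 2 ^ (d - 1) / 2 * (R ^ (d - 1) * (D * σ))) := by
    have h1 : ∑ r ∈ X.image Prod.snd, ∫⁻ x, ‖e2G X γ F r x‖ₑ ^ (2 : ℝ) ≤
        ENNReal.ofReal (C0 * (2 ^ (d - 1) * R ^ (d - 1)) * X.card) := by
      have h2 : ∀ r ∈ X.image Prod.snd, ∫⁻ x, ‖e2G X γ F r x‖ₑ ^ (2 : ℝ) ≤
          ENNReal.ofReal (C0 * (2 ^ (d - 1) * R ^ (d - 1)) *
            ((X.filter (fun p => p.2 = r)).card : ℝ)) := by
        intro r hr
        obtain ⟨p, hp, hpr⟩ := Finset.mem_image.1 hr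
        have hr1 : 1 ≤ r := by rw [← hpr]; exact hp1 p hp
        have hr2 : r ≤ 2 * R := by rw [← hpr]; exact (hXp p hp).2.1.le
        refine (e2_gr hF hX hγ hr1).trans (ENNReal.ofReal_le_ofReal ?_)
        have h3 : ((X.filter (fun p => p.2 = r)).card : ℝ) =
            ((open scoped Classical in X.filter (fun p => p.2 = r)).card : ℝ) := by congr
        rw [← h3]
        exact mul_le_mul_of_nonneg_right (mul_le_mul_of_nonneg_left
          (hpow2 r (by linarith) hr2) hC0.le) (Nat.cast_nonneg _)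
      refine (Finset.sum_le_sum h2).trans ?_
      rw [← ENNReal.ofReal_sum_of_nonneg (fun r _ => by positivity), ← Finset.mul_sum]
      apply ENNReal.ofReal_le_ofReal
      refine mul_le_mul_of_nonneg_left ?_ (by positivity)
      have h4 := Finset.card_eq_sum_card_fiberwise (s := X) (t := X.image Prod.snd) (f := Prod.snd)
        (fun p hp => Finset.mem_image_of_mem _ hp)
      rw [h4]
      push_cast
      exact le_rfl
    refine (mul_le_mul_right h1 _).trans ?_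
    rw [← ENNReal.ofReal_mul (by positivity)]
    apply ENNReal.ofReal_le_ofReal
    refine le_of_eq ?_
    have h5 : (X.card : ℝ) / lam = D * σ := by
      rw [hlam]
      field_simp
    calc 1 / (2 * lam) * (C0 * (2 ^ (d - 1) * R ^ (d - 1)) * X.card) =
          C0 * 2 ^ (d - 1) / 2 * (R ^ (d - 1) * ((X.card : ℝ) / lam)) := by
          field_simp
      _ = _ := by rw [h5]
  have hT3 : ∑ p ∈ X, ∫⁻ x in e2far t p, ‖F p x‖ₑ ≤
      ENNReal.ofReal (Ct * 2 ^ (d - 1) * (R ^ (d - 1) * (X.card / t ^ M))) := by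
    have h1 : ∀ p ∈ X, ∫⁻ x in e2far t p, ‖F p x‖ₑ ≤
        ENNReal.ofReal (Ct * (2 ^ (d - 1) * R ^ (d - 1)) / t ^ M) := by
      intro p hp
      refine (htail p t (hp1 p hp) ht).trans (ENNReal.ofReal_le_ofReal ?_)
      have h2 := hpow2 p.2 (by linarith [hp1 p hp]) (hXp p hp).2.1.le
      exact div_le_div_of_nonneg_right (mul_le_mul_of_nonneg_left h2 hCt.le) (by positivity)
    refine (Finset.sum_le_sum h1).trans ?_
    rw [Finset.sum_const, nsmul_eq_mul]
    have h3 : (X.card : ENNReal) = ENNReal.ofReal (X.card : ℝ) := by rw [ENNReal.ofReal_natCast]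
    rw [h3, ← ENNReal.ofReal_mul (Nat.cast_nonneg _)]
    apply ENNReal.ofReal_le_ofReal
    refine le_of_eq ?_
    ring
  refine (add_le_add hT1 (add_le_add hT2 hT3)).trans ?_
  rw [← ENNReal.ofReal_add (by positivity) (by positivity),
    ← ENNReal.ofReal_add (by positivity) (by positivity)]
  apply ENNReal.ofReal_le_ofReal
  have e1 : 0 ≤ (2 * Cs + 1) * (Ca * 290 ^ (d - 1) * 36) / 2 := by positivity
  have e2 : 0 ≤ C0 * 2 ^ (d - 1) / 2 := by positivity
  have e3 : 0 ≤ Ct * 2 ^ (d - 1) := by positivity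
  have e4 : 0 ≤ R ^ (d - 1) * (D * σ) := by positivity
  have e5 : 0 ≤ R ^ (d - 1) * ((X.card : ℝ) / t ^ M) := by positivity
  have key : ∀ a b g u v : ℝ, 0 ≤ a → 0 ≤ b → 0 ≤ g → 0 ≤ u → 0 ≤ v →
      a * u + (b * u + g * v) ≤ (a + b + g) * (u + v) := by
    intro a b g u v ha hb hg hu hv
    have h1 : 0 ≤ a * v := mul_nonneg ha hv
    have h2 : 0 ≤ b * v := mul_nonneg hb hv
    have h3 : 0 ≤ g * u := mul_nonneg hg hu
    have h4 : (a + b + g) * (u + v) = a * u + (b * u + g * v) + (a * v + b * v + g * u) := by ring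
    linarith
  refine (key _ _ _ _ _ e1 e2 e3 e4 e5).trans (le_of_eq ?_)
  ring

end Pool.LibLP59
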