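import Pool.Agent.LibLP59.Defs
import Pool.Agent.LibSR53.C2

/-
PLAN (E3). R = 2^k, r1 = 64 A R sqrt(h/D). (0) cylinder: volume of {X : |inner X w| <= L and |perp w X| <= r} <= C L r^(d-1) (isometry taking w to the first unit vector and Fubini, or: it is inside the
image of the ball of radius 2 under X |-> L (inner X w) w + r perp w X, determinant L r^(d-1)). (1) If 200 D >= R: X = x - c.1 has |X| <= c.2 + 36 D <= C D.., so the zone is in a cylinder
with L = C D, r = r1: C D r1^(d-1) = C R^(d-1) A^(d-1) h^nu D^(1-nu). (2) If 200 D < R: |X| >= R/2, so the zone is inside {|perp w X| <= (2 r1/R)|X|} (a cone) intersected with the annulus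
c.2 - 36D <= |X| <= c.2 + 36D. volume(cone cap ball rho) = rho^d V (scaling), V = volume of the cone in the unit ball <= C (2 r1/R)^(d-1) by (0); difference ((c.2+36D)^d - (c.2-36D)^d) V <=
C R^(d-1) D V. Measurability: closed/open conditions of continuous functions (perp w is continuous).
-/

set_option autoImplicit false

noncomputable section

open MeasureTheory Metric Set Filter

namespace Pool.LibLP59

open Pool.LibSR53 Pool.LibTP53

private theorem e3_perp_cont {d : ℕ} (w : E d) : Continuous (fun v : E d => perp w v) := by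
  unfold perp
  fun_prop

private theorem e3_box (n : ℕ) (l : Fin (n + 1) → ℝ) (hl : ∀ i, 0 ≤ l i) :
    volume {y : E (n + 1) | ∀ i, |y i| ≤ l i} = ENNReal.ofReal (∏ i, (2 * l i)) := by
  have h1 : {y : E (n + 1) | ∀ i, |y i| ≤ l i} =
      (WithLp.ofLp) ⁻¹' (Set.pi univ fun i => Icc (-(l i)) (l i)) := by
    ext y
    simp only [mem_setOf_eq, mem_preimage, Set.mem_pi, mem_univ, true_implies, mem_Icc, abs_le]
  rw [h1, (PiLp.volume_preserving_ofLp (Fin (n + 1))).measure_preimage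
    (MeasurableSet.univ_pi fun i => measurableSet_Icc).nullMeasurableSet, Set.pi_univ_Icc,
    Real.volume_Icc_pi, ENNReal.ofReal_prod_of_nonneg fun i _ => by have := hl i; positivity]
  refine Finset.prod_congr rfl fun i _ => ?_
  congr 1
  ring

private theorem e3_cyl0 (n : ℕ) (w : E (n + 1)) (hw : ‖w‖ = 1) {L r : ℝ} (hL : 0 ≤ L) (hr : 0 ≤ r) :
    volume {x : E (n + 1) | |(inner ℝ x w : ℝ)| ≤ L ∧ ‖perp w x‖ ≤ r} ≤
      ENNReal.ofReal (2 * L * (2 * r) ^ n) := by
  have hv : Orthonormal ℝ (({0} : Set (Fin (n + 1))).domRestrict (fun _ => w)) := by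
    refine ⟨fun i => hw, fun i j hij => ?_⟩
    exact absurd (Subsingleton.elim i j) hij
  obtain ⟨b, hb⟩ := hv.exists_orthonormalBasis_extension_of_card_eq (by simp)
  have hb0 : b 0 = w := hb 0 rfl
  have hsub : {x : E (n + 1) | |(inner ℝ x w : ℝ)| ≤ L ∧ ‖perp w x‖ ≤ r} ⊆
      b.repr ⁻¹' {y : E (n + 1) | ∀ i, |y i| ≤ (fun i : Fin (n + 1) => if i = 0 then L else r) i} := by
    rintro x ⟨h1, h2⟩ i
    show |b.repr x i| ≤ if i = 0 then L else r
    rw [b.repr_apply_apply]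
    by_cases hi : i = 0
    · rw [if_pos hi, hi, hb0, real_inner_comm]
      exact h1
    · rw [if_neg hi]
      have h3 : (inner ℝ (b i) x : ℝ) = inner ℝ (b i) (perp w x) := by
        unfold perp
        rw [inner_sub_right, inner_smul_right, ← hb0, b.orthonormal.2 hi]
        ring
      rw [h3]
      calc |(inner ℝ (b i) (perp w x) : ℝ)| ≤ ‖b i‖ * ‖perp w x‖ := abs_real_inner_le_norm _ _
        _ = ‖perp w x‖ := by rw [b.norm_eq_one, one_mul]
        _ ≤ r := h2
  have hmeas : MeasurableSet {y : E (n + 1) | ∀ i, |y i| ≤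
      (fun i : Fin (n + 1) => if i = 0 then L else r) i} := by
    have : {y : E (n + 1) | ∀ i, |y i| ≤ (fun i : Fin (n + 1) => if i = 0 then L else r) i} =
        ⋂ i, {y : E (n + 1) | |y i| ≤ if i = 0 then L else r} := by
      ext y
      simp
    rw [this]
    refine MeasurableSet.iInter fun i => ?_
    exact (isClosed_le (by fun_prop) (by fun_prop)).measurableSet
  refine (measure_mono hsub).trans ?_
  rw [b.measurePreserving_repr.measure_preimage hmeas.nullMeasurableSet, e3_box]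
  · rw [Fin.prod_univ_succ]
    simp [Fin.succ_ne_zero]
  · intro i
    show 0 ≤ if i = 0 then L else r
    split_ifs
    · exact hL
    · exact hr

private theorem e3_perp_smul {d : ℕ} (w v : E d) (a : ℝ) : perp w (a • v) = a • perp w v := by
  unfold perp
  rw [real_inner_smul_left, smul_sub, smul_smul]

open scoped Pointwise in
private theorem e3_cone (n : ℕ) (w : E (n + 1)) (hw : ‖w‖ = 1) {η a b : ℝ} (hη : 0 ≤ η) (ha : 0 < a)
    (hab : a ≤ b) :
    volume {x : E (n + 1) | ‖perp w x‖ ≤ η * ‖x‖ ∧ a < ‖x‖ ∧ ‖x‖ ≤ b} ≤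
      ENNReal.ofReal ((n + 1) * b ^ n * (b - a) * (2 * (2 * η) ^ n)) := by
  obtain ⟨K, hK⟩ : ∃ K : Set (E (n + 1)), K = {x | ‖perp w x‖ ≤ η * ‖x‖} := ⟨_, rfl⟩
  have hKc : IsClosed K := by
    rw [hK]
    exact isClosed_le (e3_perp_cont w).norm (by fun_prop)
  have hb : 0 < b := ha.trans_le hab
  have hscale : ∀ ρ : ℝ, 0 < ρ → volume (K ∩ closedBall 0 ρ) =
      ENNReal.ofReal (ρ ^ (n + 1)) * volume (K ∩ closedBall 0 1) := by
    intro ρ hρ
    have h1 : K ∩ closedBall 0 ρ = ρ • (K ∩ closedBall (0 : E (n + 1)) 1) := by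
      ext x
      rw [Set.mem_smul_set_iff_inv_smul_mem₀ hρ.ne']
      simp only [hK, mem_inter_iff, mem_setOf_eq, mem_closedBall, dist_zero_right, e3_perp_smul,
        norm_smul, norm_inv, Real.norm_eq_abs, abs_of_pos hρ]
      constructor
      · rintro ⟨h2, h3⟩
        refine ⟨?_, ?_⟩
        · calc ρ⁻¹ * ‖perp w x‖ ≤ ρ⁻¹ * (η * ‖x‖) := mul_le_mul_of_nonneg_left h2 (by positivity)
            _ = η * (ρ⁻¹ * ‖x‖) := by ring
        · rw [inv_mul_le_iff₀ hρ, mul_one]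
          exact h3
      · rintro ⟨h2, h3⟩
        refine ⟨?_, ?_⟩
        · have h4 : ρ * (ρ⁻¹ * ‖perp w x‖) ≤ ρ * (η * (ρ⁻¹ * ‖x‖)) :=
            mul_le_mul_of_nonneg_left h2 hρ.le
          have h5 : ρ * (ρ⁻¹ * ‖perp w x‖) = ‖perp w x‖ := by
            rw [← mul_assoc, mul_inv_cancel₀ hρ.ne', one_mul]
          have h6 : ρ * (η * (ρ⁻¹ * ‖x‖)) = η * ‖x‖ := by
            rw [show ρ * (η * (ρ⁻¹ * ‖x‖)) = (ρ * ρ⁻¹) * (η * ‖x‖) by ring,
              mul_inv_cancel₀ hρ.ne', one_mul]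
          rw [h5, h6] at h4
          exact h4
        · rw [inv_mul_le_iff₀ hρ, mul_one] at h3
          exact h3
    rw [h1, Measure.addHaar_smul_of_nonneg _ hρ.le, finrank_euclideanSpace_fin]
  have hV : volume (K ∩ closedBall (0 : E (n + 1)) 1) ≤ ENNReal.ofReal (2 * (2 * η) ^ n) := by
    have h1 : K ∩ closedBall (0 : E (n + 1)) 1 ⊆
        {x : E (n + 1) | |(inner ℝ x w : ℝ)| ≤ 1 ∧ ‖perp w x‖ ≤ η} := by
      rintro x ⟨h2, h3⟩
      rw [mem_closedBall, dist_zero_right] at h3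
      rw [hK] at h2
      refine ⟨?_, ?_⟩
      · calc |(inner ℝ x w : ℝ)| ≤ ‖x‖ * ‖w‖ := abs_real_inner_le_norm _ _
          _ = ‖x‖ := by rw [hw, mul_one]
          _ ≤ 1 := h3
      · have h4 : ‖perp w x‖ ≤ η * ‖x‖ := h2
        calc ‖perp w x‖ ≤ η * ‖x‖ := h4
          _ ≤ η * 1 := mul_le_mul_of_nonneg_left h3 hη
          _ = η := mul_one _
    refine (measure_mono h1).trans ((e3_cyl0 n w hw zero_le_one hη).trans (le_of_eq ?_))
    rw [mul_one]
  have hVf : volume (K ∩ closedBall (0 : E (n + 1)) 1) ≠ ⊤ :=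
    (hV.trans_lt ENNReal.ofReal_lt_top).ne
  have hsub : {x : E (n + 1) | ‖perp w x‖ ≤ η * ‖x‖ ∧ a < ‖x‖ ∧ ‖x‖ ≤ b} ⊆
      (K ∩ closedBall 0 b) \ (K ∩ closedBall 0 a) := by
    rintro x ⟨h1, h2, h3⟩
    refine ⟨⟨by rw [hK]; exact h1, by rw [mem_closedBall, dist_zero_right]; exact h3⟩, ?_⟩
    rintro ⟨-, h4⟩
    rw [mem_closedBall, dist_zero_right] at h4
    exact absurd h4 (not_le.2 h2)
  refine (measure_mono hsub).trans ?_
  have hm : NullMeasurableSet (K ∩ closedBall (0 : E (n + 1)) a) volume :=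
    (hKc.inter isClosed_closedBall).measurableSet.nullMeasurableSet
  have hfa : volume (K ∩ closedBall (0 : E (n + 1)) a) ≠ ⊤ := by
    rw [hscale a ha]
    exact ENNReal.mul_ne_top ENNReal.ofReal_ne_top hVf
  rw [measure_sdiff (inter_subset_inter_right _ (closedBall_subset_closedBall hab)) hm hfa,
    hscale a ha, hscale b hb]
  obtain ⟨V, hV0, hVe⟩ : ∃ V : ℝ, 0 ≤ V ∧ volume (K ∩ closedBall (0 : E (n + 1)) 1) = ENNReal.ofReal V :=
    ⟨_, ENNReal.toReal_nonneg, (ENNReal.ofReal_toReal hVf).symm⟩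
  rw [hVe] at hV ⊢
  have hV1 : V ≤ 2 * (2 * η) ^ n := (ENNReal.ofReal_le_ofReal_iff (by positivity)).1 hV
  rw [← ENNReal.ofReal_mul (by positivity), ← ENNReal.ofReal_mul (by positivity),
    ← ENNReal.ofReal_sub _ (by positivity)]
  apply ENNReal.ofReal_le_ofReal
  have h3 := pow_sub_pow_le_C2 n ha.le hab
  calc b ^ (n + 1) * V - a ^ (n + 1) * V = (b ^ (n + 1) - a ^ (n + 1)) * V := by ring
    _ ≤ ((n + 1) * b ^ n * (b - a)) * V := mul_le_mul_of_nonneg_right h3 hV0
    _ ≤ ((n + 1) * b ^ n * (b - a)) * (2 * (2 * η) ^ n) := by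
        refine mul_le_mul_of_nonneg_left hV1 ?_
        have : 0 ≤ b - a := by linarith
        positivity

theorem zone_meas {d : ℕ} (c : P d) (w : E d) (D h R A : ℝ) :
    MeasurableSet (zone c w D h R A) := by
  have h1 : MeasurableSet {x : E d | ‖perp w (x - c.1)‖ ≤ 64 * A * R * Real.sqrt (h / D)} :=
    (isClosed_le ((e3_perp_cont w).comp (by fun_prop : Continuous fun x : E d => x - c.1)).norm
      continuous_const).measurableSet
  have h2 : MeasurableSet {x : E d | (inner ℝ (x - c.1) w : ℝ) < 0} :=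
    (isOpen_lt (by fun_prop) continuous_const).measurableSet
  have h3 : MeasurableSet {x : E d | |‖x - c.1‖ - c.2| ≤ 36 * D} :=
    (isClosed_le (by fun_prop) continuous_const).measurableSet
  exact h1.inter (h2.inter h3)

/-- volume of the zone -/
theorem zone_volume (d : ℕ) (hd : 2 ≤ d) : ∃ C : ℝ, 0 < C ∧ ∀ (k : ℕ) (c : P d) (w : E d)
    (D h A : ℝ), ‖w‖ = 1 → 1 ≤ D → 1 ≤ h → D ≤ 8 * 2 ^ k → 1 ≤ A → (2 : ℝ) ^ k ≤ c.2 →
    c.2 < 2 ^ (k + 1) → volume (zone c w D h (2 ^ k) A) ≤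
      ENNReal.ofReal (C * 2 ^ (k * (d - 1)) * (A ^ (d - 1) * h ^ nu d * D ^ (1 - nu d))) := by
  obtain ⟨n, rfl⟩ : ∃ n, d = n + 1 := ⟨d - 1, by omega⟩
  refine ⟨(n + 1) * 368 * 12 ^ n * 64 ^ n, by positivity, ?_⟩
  intro k c w D h A hw hD hh hDk hA hc1 hc2
  rw [Nat.add_sub_cancel]
  have hD0 : 0 < D := one_pos.trans_le hD
  have hh0 : 0 < h := one_pos.trans_le hh
  have hA0 : 0 < A := one_pos.trans_le hA
  obtain ⟨R, hR⟩ : ∃ R : ℝ, R = 2 ^ k := ⟨_, rfl⟩
  have hR0 : 0 < R := by rw [hR]; positivity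
  have hc1' : R ≤ c.2 := by rw [hR]; exact hc1
  have hc2' : c.2 < 2 * R := by rw [hR]; rw [pow_succ] at hc2; linarith
  rw [← hR]
  obtain ⟨r, hr⟩ : ∃ r : ℝ, r = 64 * A * R * Real.sqrt (h / D) := ⟨_, rfl⟩
  have hr0 : 0 ≤ r := by rw [hr]; positivity
  -- the bound in terms of `r`
  have hkey : volume (zone c w D h R A) ≤ ENNReal.ofReal ((n + 1) * 368 * 12 ^ n * (D * r ^ n)) := by
    obtain ⟨Z, hZ⟩ : ∃ Z : Set (E (n + 1)), Z = {x | ‖perp w x‖ ≤ r ∧ |‖x‖ - c.2| ≤ 36 * D} := ⟨_, rfl⟩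
    have hz1 : zone c w D h R A ⊆ (fun x => x + (-c.1)) ⁻¹' Z := by
      rintro x ⟨h1, h2, h3⟩
      rw [mem_preimage, ← sub_eq_add_neg, hZ]
      exact ⟨by rw [hr]; exact h1, h3⟩
    refine (measure_mono hz1).trans ?_
    rw [measure_preimage_add_right]
    have hn1 : (1 : ℝ) ≤ n + 1 := by
      have := Nat.cast_nonneg (α := ℝ) n
      linarith
    rcases lt_or_ge R (74 * D) with hcase | hcase
    · have h1 : Z ⊆ {x : E (n + 1) | |(inner ℝ x w : ℝ)| ≤ 184 * D ∧ ‖perp w x‖ ≤ r} := by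
        intro x hx
        rw [hZ] at hx
        obtain ⟨h2, h3⟩ := hx
        refine ⟨?_, h2⟩
        rw [abs_le] at h3
        calc |(inner ℝ x w : ℝ)| ≤ ‖x‖ * ‖w‖ := abs_real_inner_le_norm _ _
          _ = ‖x‖ := by rw [hw, mul_one]
          _ ≤ 184 * D := by linarith [h3.2]
      refine (measure_mono h1).trans ((e3_cyl0 n w hw (by positivity) hr0).trans ?_)
      apply ENNReal.ofReal_le_ofReal
      have h4 : (2 * r) ^ n ≤ (12 : ℝ) ^ n * r ^ n := by
        rw [← mul_pow]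
        exact pow_le_pow_left₀ (by positivity) (by linarith) n
      calc 2 * (184 * D) * (2 * r) ^ n ≤ 2 * (184 * D) * ((12 : ℝ) ^ n * r ^ n) :=
            mul_le_mul_of_nonneg_left h4 (by positivity)
        _ = 1 * (368 * 12 ^ n * (D * r ^ n)) := by ring
        _ ≤ (n + 1) * (368 * 12 ^ n * (D * r ^ n)) := mul_le_mul_of_nonneg_right hn1 (by positivity)
        _ = _ := by ring
    · have h1 : Z ⊆ {x : E (n + 1) | ‖perp w x‖ ≤ (2 * r / R) * ‖x‖ ∧ c.2 - 37 * D < ‖x‖ ∧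
          ‖x‖ ≤ c.2 + 36 * D} := by
        intro x hx
        rw [hZ] at hx
        obtain ⟨h2, h3⟩ := hx
        rw [abs_le] at h3
        have h5 : R / 2 ≤ ‖x‖ := by linarith [h3.1]
        refine ⟨?_, by linarith [h3.1], by linarith [h3.2]⟩
        calc ‖perp w x‖ ≤ r := h2
          _ = (2 * r / R) * (R / 2) := by field_simp
          _ ≤ (2 * r / R) * ‖x‖ := mul_le_mul_of_nonneg_left h5 (by positivity)
      refine (measure_mono h1).trans ((e3_cone n w hw (by positivity) (by linarith) (by linarith)).trans ?_)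
      apply ENNReal.ofReal_le_ofReal
      have h6 : c.2 + 36 * D ≤ 3 * R := by linarith
      have h7 : 0 ≤ c.2 + 36 * D := by linarith
      have h8 : (c.2 + 36 * D) ^ n * (2 * (2 * r / R)) ^ n ≤ (12 : ℝ) ^ n * r ^ n := by
        rw [← mul_pow, ← mul_pow]
        refine pow_le_pow_left₀ (by positivity) ?_ n
        calc (c.2 + 36 * D) * (2 * (2 * r / R)) ≤ (3 * R) * (2 * (2 * r / R)) :=
              mul_le_mul_of_nonneg_right h6 (by positivity)
          _ = 12 * r := by field_simp; ring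
      have h9 : c.2 + 36 * D - (c.2 - 37 * D) = 73 * D := by ring
      rw [h9]
      calc (n + 1) * (c.2 + 36 * D) ^ n * (73 * D) * (2 * (2 * (2 * r / R)) ^ n)
          = (n + 1) * 146 * D * ((c.2 + 36 * D) ^ n * (2 * (2 * r / R)) ^ n) := by ring
        _ ≤ (n + 1) * 146 * D * ((12 : ℝ) ^ n * r ^ n) := mul_le_mul_of_nonneg_left h8 (by positivity)
        _ ≤ (n + 1) * 368 * D * ((12 : ℝ) ^ n * r ^ n) := by gcongr; norm_num
        _ = _ := by ring
  refine hkey.trans (ENNReal.ofReal_le_ofReal (le_of_eq ?_))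
  -- rewriting of the bound
  have hnu : nu (n + 1) = (n : ℝ) / 2 := by
    unfold nu
    push_cast
    ring
  have hs : Real.sqrt (h / D) ^ n = h ^ nu (n + 1) / D ^ nu (n + 1) := by
    rw [Real.sqrt_eq_rpow, ← Real.rpow_natCast, ← Real.rpow_mul (by positivity),
      ← Real.div_rpow hh0.le hD0.le, hnu]
    congr 1
    ring
  have hDD : D ^ (1 - nu (n + 1)) = D / D ^ nu (n + 1) := by
    rw [Real.rpow_sub hD0, Real.rpow_one]
  rw [hr, hDD, mul_pow, mul_pow, mul_pow, hs, hR, ← pow_mul]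
  ring

end Pool.LibLP59
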