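import Pool.Agent.LibLP59.E2
import Pool.Agent.LibLP59.E3

/-
PLAN (E4). For every Y in X choose k, c, w (Piece). Z = union of the zones. c in sc k T gives 2^k <= c.2 < 2^(k+1); every p in Y: in sc k T and InPl. i <= k+3: D = 2^i <= 8 2^k. LatP Y from Adm T.
piece_L1: int off Z <= sum_Y C 2^(k(d-1)) (D sqrt(t |Y|/A) + |Y|/t^M), and sqrt(t|Y|/A) = |Y| sqrt(t/(A|Y|)) <= |Y| sqrt(t/(A m0)), 2^(k(d-1)) |Y| <= sum_{p in Y} p.2^(d-1); the sum over Y of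
these is <= wt T (hsum). zone_volume: sum_Y C 2^(k(d-1)) (..) <= C (..)/m0 sum_Y 2^(k(d-1)) |Y| (m0 < |Y|).
-/

set_option autoImplicit false

noncomputable section

open MeasureTheory Metric Set Filter

namespace Pool.LibLP59

open Pool.LibSR53 Pool.LibTP53

private theorem e4_wt {d : ℕ} (k : ℕ) (Y : Finset (P d)) (h : ∀ p ∈ Y, (2 : ℝ) ^ k ≤ p.2) :
    (2 : ℝ) ^ (k * (d - 1)) * Y.card ≤ wt Y := by
  unfold wt
  have h1 : ∀ p ∈ Y, (2 : ℝ) ^ (k * (d - 1)) ≤ p.2 ^ (d - 1) := by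
    intro p hp
    rw [pow_mul]
    exact pow_le_pow_left₀ (by positivity) (h p hp) _
  calc (2 : ℝ) ^ (k * (d - 1)) * Y.card = ∑ p ∈ Y, (2 : ℝ) ^ (k * (d - 1)) := by
        rw [Finset.sum_const, nsmul_eq_mul, mul_comm]
    _ ≤ _ := Finset.sum_le_sum h1

private theorem e4_sqrt {n t A m0 : ℝ} (hm0 : 0 < m0) (hA : 0 < A) (ht : 0 < t) (hn : m0 ≤ n) :
    Real.sqrt (t * n / A) ≤ n * Real.sqrt (t / (A * m0)) := by
  have hn0 : 0 < n := hm0.trans_le hn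
  have h1 : t * n / A ≤ n ^ 2 * (t / (A * m0)) := by
    rw [div_le_iff₀ hA]
    have h2 : n ^ 2 * (t / (A * m0)) * A = t * n * (n / m0) := by
      field_simp
    rw [h2]
    have h3 : 1 ≤ n / m0 := by rwa [le_div_iff₀ hm0, one_mul]
    exact le_mul_of_one_le_right (by positivity) h3
  calc Real.sqrt (t * n / A) ≤ Real.sqrt (n ^ 2 * (t / (A * m0))) := Real.sqrt_le_sqrt h1
    _ = n * Real.sqrt (t / (A * m0)) := by
      rw [Real.sqrt_mul (by positivity), Real.sqrt_sq hn0.le]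

/-- all pieces of one length -/
theorem family (d : ℕ) (hd : 2 ≤ d) (F : P d → E d → ℂ) (C0 : ℝ) (hF : FHyp d F C0) (M : ℕ) :
    ∃ C : ℝ, 0 < C ∧ ∀ (T : Finset (P d)) (i : ℕ) (h m0 A t : ℝ) (X : Finset (Finset (P d)))
      (γ : P d → ℂ), Adm T → (∀ Y ∈ X, Piece T i h m0 Y ∧ Y ⊆ T) →
      (∑ Y ∈ X, wt Y ≤ wt T) → 0 < m0 → 1 ≤ h → 1 ≤ A → A ^ 2 * h ≤ 2 ^ i → 1 ≤ t → t ≤ A →
      (∀ p, ‖γ p‖ ≤ 1) →
      ∃ Z : Set (E d), MeasurableSet Z ∧
        volume Z ≤ ENNReal.ofReal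
          (C * (A ^ (d - 1) * h ^ nu d * ((2 : ℝ) ^ i) ^ (1 - nu d)) / m0 * wt T) ∧
        ∫⁻ x in Zᶜ, ‖∑ Y ∈ X, ∑ p ∈ Y, γ p * F p x‖ₑ ≤
          ENNReal.ofReal (C * ((2 : ℝ) ^ i * Real.sqrt (t / (A * m0)) + 1 / t ^ M) * wt T) := by
  classical
  obtain ⟨C1, hC1, h1⟩ := piece_L1 d hd F C0 hF M
  obtain ⟨C2, hC2, h2⟩ := zone_volume d hd
  refine ⟨C1 + C2, by positivity, ?_⟩
  intro T i h m0 A t X γ hAdm hP hsum hm0 hh hA hA2 ht htA hγ
  have hex : ∀ Y : Finset (P d), ∃ (k : ℕ) (c : P d) (w : E d), Y ∈ X →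
      (i ≤ k + 3 ∧ c ∈ sc k T ∧ ‖w‖ = 1 ∧ Y ⊆ plank (sc k T) c w ((2 : ℝ) ^ i) h) := by
    intro Y
    by_cases hY : Y ∈ X
    · obtain ⟨k, hk, c, hc, w, hw, hs⟩ := (hP Y hY).1.2
      exact ⟨k, c, w, fun _ => ⟨hk, hc, hw, hs⟩⟩
    · exact ⟨0, 0, 0, fun h => absurd h hY⟩
  choose k c w hk using hex
  have hA0 : 0 < A := one_pos.trans_le hA
  have ht0 : 0 < t := one_pos.trans_le ht
  have hh0 : 0 < h := one_pos.trans_le hh
  have hD1 : (1 : ℝ) ≤ 2 ^ i := one_le_pow₀ one_le_two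
  have hkey : ∀ Y ∈ X, ((2 : ℝ) ^ i ≤ 8 * 2 ^ k Y) ∧ ((2 : ℝ) ^ k Y ≤ (c Y).2) ∧
      ((c Y).2 < 2 ^ (k Y + 1)) ∧ (∀ p ∈ Y, (2 : ℝ) ^ k Y ≤ p.2 ∧ p.2 < 2 ^ (k Y + 1) ∧
        InPl (c Y) (w Y) (2 ^ i) h p) := by
    intro Y hY
    obtain ⟨h3, h4, h5, h6⟩ := hk Y hY
    refine ⟨?_, ?_, ?_, ?_⟩
    · calc (2 : ℝ) ^ i ≤ 2 ^ (k Y + 3) := pow_le_pow_right₀ one_le_two h3
        _ = 8 * 2 ^ k Y := by ring
    · exact (Finset.mem_filter.1 h4).2.1
    · exact (Finset.mem_filter.1 h4).2.2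
    · intro p hp
      have h7 := Finset.mem_filter.1 (h6 hp)
      have h8 := Finset.mem_filter.1 h7.1
      exact ⟨h8.2.1, h8.2.2, h7.2⟩
  have hm : ∀ Y ∈ X, m0 ≤ (Y.card : ℝ) := fun Y hY => (hP Y hY).1.1.le
  have hwt : ∀ Y ∈ X, (2 : ℝ) ^ (k Y * (d - 1)) * Y.card ≤ wt Y := fun Y hY =>
    e4_wt (k Y) Y fun p hp => ((hkey Y hY).2.2.2 p hp).1
  have hwt0 : ∀ Y ∈ X, 0 ≤ wt Y := fun Y hY => le_trans (by positivity) (hwt Y hY)
  have hwtT : 0 ≤ wt T := le_trans (Finset.sum_nonneg hwt0) hsum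
  refine ⟨⋃ Y ∈ X, zone (c Y) (w Y) (2 ^ i) h (2 ^ k Y) A, ?_, ?_, ?_⟩
  · exact Finset.measurableSet_biUnion _ fun Y _ => zone_meas _ _ _ _ _ _
  · have hB0 : 0 ≤ A ^ (d - 1) * h ^ nu d * ((2 : ℝ) ^ i) ^ (1 - nu d) := by positivity
    generalize hB : A ^ (d - 1) * h ^ nu d * ((2 : ℝ) ^ i) ^ (1 - nu d) = B at hB0 ⊢
    calc volume (⋃ Y ∈ X, zone (c Y) (w Y) (2 ^ i) h (2 ^ k Y) A)
        ≤ ∑ Y ∈ X, volume (zone (c Y) (w Y) (2 ^ i) h (2 ^ k Y) A) :=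
          measure_biUnion_finset_le _ _
      _ ≤ ∑ Y ∈ X, ENNReal.ofReal (C2 * 2 ^ (k Y * (d - 1)) * B) := by
          apply Finset.sum_le_sum
          intro Y hY
          obtain ⟨h3, h4, h5, h6⟩ := hkey Y hY
          rw [← hB]
          exact h2 (k Y) (c Y) (w Y) (2 ^ i) h A (hk Y hY).2.2.1 hD1 hh h3 hA h4 h5
      _ = ENNReal.ofReal (∑ Y ∈ X, C2 * 2 ^ (k Y * (d - 1)) * B) := by
          rw [ENNReal.ofReal_sum_of_nonneg]
          intro Y _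
          positivity
      _ ≤ _ := by
          apply ENNReal.ofReal_le_ofReal
          have h9 : ∑ Y ∈ X, C2 * 2 ^ (k Y * (d - 1)) * B ≤ ∑ Y ∈ X, (C2 * (B / m0)) * wt Y := by
            apply Finset.sum_le_sum
            intro Y hY
            have h10 : (2 : ℝ) ^ (k Y * (d - 1)) * m0 ≤ wt Y :=
              le_trans (mul_le_mul_of_nonneg_left (hm Y hY) (by positivity)) (hwt Y hY)
            have h11 : (2 : ℝ) ^ (k Y * (d - 1)) ≤ wt Y / m0 := by rwa [le_div_iff₀ hm0]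
            calc C2 * 2 ^ (k Y * (d - 1)) * B ≤ C2 * (wt Y / m0) * B := by gcongr
              _ = _ := by ring
          rw [← Finset.mul_sum] at h9
          calc _ ≤ _ := h9
            _ ≤ C2 * (B / m0) * wt T := mul_le_mul_of_nonneg_left hsum (by positivity)
            _ ≤ (C1 + C2) * B / m0 * wt T := by
              have h12 : 0 ≤ C1 * (B / m0) * wt T := by positivity
              have h13 : (C1 + C2) * B / m0 * wt T = C1 * (B / m0) * wt T +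
                  C2 * (B / m0) * wt T := by ring
              linarith
  · have hmeas : ∀ Y ∈ X, AEMeasurable (fun x => ‖∑ p ∈ Y, γ p * F p x‖ₑ) volume := by
      intro Y hY
      have h3 : AEStronglyMeasurable (fun x => ∑ p ∈ Y, γ p * F p x) volume := by
        apply Finset.aestronglyMeasurable_fun_sum
        intro p hp
        exact (hF.meas p (hAdm.1 p ((hP Y hY).2 hp))).const_mul _
      exact h3.enorm
    have hQ0 : 0 ≤ (2 : ℝ) ^ i * Real.sqrt (t / (A * m0)) + 1 / t ^ M := by positivity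
    generalize hQ : (2 : ℝ) ^ i * Real.sqrt (t / (A * m0)) + 1 / t ^ M = Q at hQ0 ⊢
    calc ∫⁻ x in (⋃ Y ∈ X, zone (c Y) (w Y) (2 ^ i) h (2 ^ k Y) A)ᶜ,
          ‖∑ Y ∈ X, ∑ p ∈ Y, γ p * F p x‖ₑ
        ≤ ∫⁻ x in (⋃ Y ∈ X, zone (c Y) (w Y) (2 ^ i) h (2 ^ k Y) A)ᶜ,
          ∑ Y ∈ X, ‖∑ p ∈ Y, γ p * F p x‖ₑ := lintegral_mono fun x => enorm_sum_le _ _
      _ = ∑ Y ∈ X, ∫⁻ x in (⋃ Y ∈ X, zone (c Y) (w Y) (2 ^ i) h (2 ^ k Y) A)ᶜ,
          ‖∑ p ∈ Y, γ p * F p x‖ₑ :=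
        lintegral_finsetSum' _ fun Y hY => (hmeas Y hY).restrict
      _ ≤ ∑ Y ∈ X, ∫⁻ x in (zone (c Y) (w Y) (2 ^ i) h (2 ^ k Y) A)ᶜ,
          ‖∑ p ∈ Y, γ p * F p x‖ₑ := by
        apply Finset.sum_le_sum
        intro Y hY
        apply lintegral_mono_set
        rw [compl_subset_compl]
        exact subset_biUnion_of_mem (u := fun Y => zone (c Y) (w Y) (2 ^ i) h (2 ^ k Y) A)
          (Finset.mem_coe.2 hY)
      _ ≤ ∑ Y ∈ X, ENNReal.ofReal (C1 * Q * wt Y) := by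
        apply Finset.sum_le_sum
        intro Y hY
        obtain ⟨h3, h4, h5, h6⟩ := hkey Y hY
        have hlat : LatP Y := fun a ha b hb =>
          hAdm.2 a ((hP Y hY).2 ha) b ((hP Y hY).2 hb)
        refine (h1 (k Y) (c Y) (w Y) (2 ^ i) h A t Y γ (hk Y hY).2.2.1 hD1 hh h3 hA hA2 ht htA
          h4 h5 hlat h6 hγ).trans ?_
        apply ENNReal.ofReal_le_ofReal
        have h7 := e4_sqrt hm0 hA0 ht0 (hm Y hY)
        have h8 : (2 : ℝ) ^ i * Real.sqrt (t * Y.card / A) + Y.card / t ^ M ≤ Y.card * Q := by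
          rw [← hQ]
          have h9 : (2 : ℝ) ^ i * Real.sqrt (t * Y.card / A) ≤
              (2 : ℝ) ^ i * (Y.card * Real.sqrt (t / (A * m0))) :=
            mul_le_mul_of_nonneg_left h7 (by positivity)
          have h10 : (Y.card : ℝ) * ((2 : ℝ) ^ i * Real.sqrt (t / (A * m0)) + 1 / t ^ M) =
              (2 : ℝ) ^ i * (Y.card * Real.sqrt (t / (A * m0))) + Y.card / t ^ M := by ring
          rw [h10]
          linarith
        calc C1 * 2 ^ (k Y * (d - 1)) *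
              ((2 : ℝ) ^ i * Real.sqrt (t * Y.card / A) + Y.card / t ^ M)
            ≤ C1 * 2 ^ (k Y * (d - 1)) * (Y.card * Q) :=
              mul_le_mul_of_nonneg_left h8 (by positivity)
          _ = C1 * Q * (2 ^ (k Y * (d - 1)) * Y.card) := by ring
          _ ≤ C1 * Q * wt Y := mul_le_mul_of_nonneg_left (hwt Y hY) (by positivity)
      _ = ENNReal.ofReal (∑ Y ∈ X, C1 * Q * wt Y) := by
        rw [ENNReal.ofReal_sum_of_nonneg]
        intro Y hY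
        have := hwt0 Y hY
        positivity
      _ ≤ _ := by
        apply ENNReal.ofReal_le_ofReal
        rw [← Finset.mul_sum]
        calc C1 * Q * ∑ Y ∈ X, wt Y ≤ C1 * Q * wt T :=
              mul_le_mul_of_nonneg_left hsum (by positivity)
          _ ≤ (C1 + C2) * Q * wt T := by
              have h12 : 0 ≤ C2 * Q * wt T := by positivity
              have h13 : (C1 + C2) * Q * wt T = C1 * Q * wt T + C2 * Q * wt T := by ring
              linarith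

end Pool.LibLP59
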