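import Pool.Agent.LibLP59.C6
import Pool.Agent.LibLP59.E0
import Pool.Agent.LibTP53.NJ
import Pool.Agent.LibSR53.V2
import Pool.Agent.LibSR53.L4

/-
PLAN (F0). ker_FkL gives C1, v with KerL (hence Ker via toKer); v p = Fk p a.e. Conversion: for a finset T of points with 1 <= p.2, int |sum_T gamma F|^2 = ofReal |sum_T gamma . v|^2: copy the block
h2 of the proof of discrete in LibSR53.F1 (fhyp part: the same for sums over centres y in S, points (y, r); or apply it to the image finset under y |-> (y, r), injective).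
meas: Fk_continuous (as hFm there). fix: Ker.fix. l2: total of LibSR53.L4 with K = 2, alpha = 1 (adm_good of G1; 1/(nu - 1 + 1) = 1/nu). tail: Fk_tail (V2). light: light_L2 (C6).
C0 = sum of the constants + 1 (enlarge: all quantities are nonnegative, wt T >= 0, log u >= 0).
-/

set_option autoImplicit false

noncomputable section

open MeasureTheory Metric Set Filter

namespace Pool.LibLP59

open Pool.LibSR53 Pool.LibTP53

/-- the improved L2 bound for light families, in the form of integrals -/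
def LHyp (d : ℕ) (F : P d → E d → ℂ) (κ C0 c0 Ch u0 : ℝ) : Prop :=
  ∀ (T : Finset (P d)) (u : ℝ), Adm T → 1 ≤ u → Dens u T →
    (u0 ≤ u → ∀ i : ℕ, u ^ ((1 - κ) / nu d) < (2 : ℝ) ^ i →
      (2 : ℝ) ^ i ≤ 2 * u ^ ((1 + 2 * κ) / nu d) →
      Light T i (Ch * u ^ (κ * eh d)) (c0 * (u ^ (1 - κ * em d) * 2 ^ i))) →
    ∀ γ : P d → ℂ, (∀ p, ‖γ p‖ ≤ 1) →
    ∫⁻ x, ‖∑ p ∈ T, γ p * F p x‖ₑ ^ (2 : ℝ) ≤
      ENNReal.ofReal (C0 * (1 + Real.log u) * u ^ ((1 - κ) / nu d) * wt T)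

/-- the L2 integral of a combination of the kernels as a Hilbert space norm -/
private theorem f0_conv {d : ℕ} {F : P d → E d → ℂ} {v : P d → Lp ℂ 2 (volume : Measure (E d))}
    (hae : ∀ p : P d, 1 ≤ p.2 → (v p : E d → ℂ) =ᵐ[volume] F p) {ι : Type} (S : Finset ι)
    (a : ι → P d) (ha : ∀ i ∈ S, 1 ≤ (a i).2) (γ : ι → ℂ) :
    ∫⁻ x, ‖∑ i ∈ S, γ i * F (a i) x‖ₑ ^ (2 : ℝ) =
      ENNReal.ofReal (‖∑ i ∈ S, γ i • v (a i)‖ ^ 2) := by
  have h3 : ((∑ i ∈ S, γ i • v (a i) : Lp ℂ 2 (volume : Measure (E d))) : E d → ℂ) =ᵐ[volume]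
      fun x => ∑ i ∈ S, γ i * F (a i) x := by
    have h4 : ∀ T : Finset ι, (∀ i ∈ T, 1 ≤ (a i).2) →
        ((∑ i ∈ T, γ i • v (a i) : Lp ℂ 2 (volume : Measure (E d))) : E d → ℂ) =ᵐ[volume]
        fun x => ∑ i ∈ T, γ i * F (a i) x := by
      classical
      intro T
      induction T using Finset.induction_on with
      | empty =>
        intro _
        simp only [Finset.sum_empty]
        exact Lp.coeFn_zero _ _ _
      | insert j T hj ih =>
        intro hT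
        rw [Finset.sum_insert hj]
        have e1 := Lp.coeFn_add (γ j • v (a j)) (∑ i ∈ T, γ i • v (a i))
        have e2 := Lp.coeFn_smul (γ j) (v (a j))
        have e3 := ih (fun i hi => hT i (Finset.mem_insert_of_mem hi))
        have e4 := hae (a j) (hT j (Finset.mem_insert_self _ _))
        filter_upwards [e1, e2, e3, e4] with x x1 x2 x3 x4
        rw [x1, Finset.sum_insert hj, Pi.add_apply, x2, x3, Pi.smul_apply, x4]
        simp
    exact h4 S ha
  have h8 := lintegral_congr_ae (h3.fun_comp (fun z : ℂ => ‖z‖ₑ ^ (2 : ℝ)))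
  simp only [Function.comp_def] at h8
  rw [← h8]
  set f := ∑ i ∈ S, γ i • v (a i) with hf
  have h5 : ‖f‖ₑ = (∫⁻ x, ‖(f : E d → ℂ) x‖ₑ ^ (2 : ℝ)) ^ (1 / (2 : ℝ)) := by
    rw [Lp.enorm_def, eLpNorm_eq_lintegral_rpow_enorm_toReal (by simp) (by simp)]
    simp
  have h6 : ‖f‖ₑ ^ (2 : ℝ) = ∫⁻ x, ‖(f : E d → ℂ) x‖ₑ ^ (2 : ℝ) := by
    rw [h5, ← ENNReal.rpow_mul]
    norm_num
  rw [← h6, ← ofReal_norm_eq_enorm, ENNReal.ofReal_rpow_of_nonneg (norm_nonneg _) (by norm_num)]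
  norm_num

private theorem f0_wt {d : ℕ} {S : Finset (P d)} (h : ∀ p ∈ S, 1 ≤ p.2) : 0 ≤ wt S :=
  Finset.sum_nonneg fun p hp => pow_nonneg (by linarith [h p hp]) _

/-- the analytic input for the kernel of the problem -/
theorem input_Fk (d : ℕ) (hd : 4 ≤ d) (η : SchwartzMap (E d) ℂ) (ε : ℝ) (hε : 0 < ε)
    (hη : Van η ε) (κ : ℝ) (hκ0 : 0 < κ) (hκ : κ * d ≤ 1) :
    ∃ C0 c0 Ch u0 : ℝ, 0 < c0 ∧ 1 ≤ Ch ∧ 1 ≤ u0 ∧
      FHyp d (fun a => Fk η a.1 a.2) C0 ∧ LHyp d (fun a => Fk η a.1 a.2) κ C0 c0 Ch u0 := by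
  have hd2 : 2 ≤ d := by omega
  obtain ⟨C1, v, hv, hae⟩ := ker_FkL hd2 η ε hε hη
  obtain ⟨C2, hC2, htot⟩ := total d hd C1 v hv.toKer 2 1 zero_le_one le_rfl
  obtain ⟨C3, c0, Ch, u0, hC3, hc0, hCh, hu0, hlight⟩ := light_L2 d hd C1 v hv κ hκ0 hκ
  have hC1 : 0 < C1 := hv.toKer.pos
  have hae' : ∀ p : P d, 1 ≤ p.2 → (v p : E d → ℂ) =ᵐ[volume] (fun a : P d => Fk η a.1 a.2) p := hae
  refine ⟨C1 + C2 + C3, c0, Ch, u0, hc0, hCh, hu0, ?_, ?_⟩
  · refine ⟨by positivity, ?_, ?_, ?_, ?_⟩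
    · intro p hp
      exact (Fk_continuous hd2 η p.1 p.2 (by linarith)).aestronglyMeasurable
    · intro r hr S γ hsep
      have h1 := f0_conv hae' S (fun y => ((y, r) : P d)) (fun _ _ => hr) γ
      rw [h1]
      refine ENNReal.ofReal_le_ofReal ((hv.toKer.fix r hr S γ hsep).trans ?_)
      have h2 : 0 ≤ r ^ (d - 1) * ∑ y ∈ S, ‖γ y‖ ^ 2 :=
        mul_nonneg (pow_nonneg (by linarith) _) (Finset.sum_nonneg fun _ _ => sq_nonneg _)
      rw [mul_assoc, mul_assoc]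
      exact mul_le_mul_of_nonneg_right (by linarith) h2
    · intro S u hS hu hD γ hγ
      have h1 := f0_conv hae' S (fun p => p) (fun p hp => hS.1 p hp) γ
      rw [h1]
      refine ENNReal.ofReal_le_ofReal ((htot S u (adm_good hS) hu hD γ hγ).trans ?_)
      have h2 : (1 : ℝ) / (nu d - 1 + 1) = 1 / nu d := by
        rw [sub_add_cancel]
      rw [h2]
      have h3 : 0 ≤ (1 + Real.log u) * u ^ (1 / nu d) * wt S :=
        mul_nonneg (mul_nonneg (by linarith [Real.log_nonneg hu])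
          (Real.rpow_nonneg (by linarith) _)) (f0_wt hS.1)
      have e1 : C2 * (1 + Real.log u) * u ^ (1 / nu d) * wt S =
          C2 * ((1 + Real.log u) * u ^ (1 / nu d) * wt S) := by ring
      have e2 : (C1 + C2 + C3) * (1 + Real.log u) * u ^ (1 / nu d) * wt S =
          (C1 + C2 + C3) * ((1 + Real.log u) * u ^ (1 / nu d) * wt S) := by ring
      rw [e1, e2]
      exact mul_le_mul_of_nonneg_right (by linarith) h3
    · intro M
      obtain ⟨C, hC, h⟩ := Fk_tail hd2 η M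
      exact ⟨C, hC, fun p D hp hD => h p.1 p.2 D (by linarith) hD⟩
  · intro T u hT hu hD hL γ hγ
    have h1 := f0_conv hae' T (fun p => p) (fun p hp => hT.1 p hp) γ
    rw [h1]
    refine ENNReal.ofReal_le_ofReal ((hlight T u hT hu hD hL γ hγ).trans ?_)
    have h3 : 0 ≤ (1 + Real.log u) * u ^ ((1 - κ) / nu d) * wt T :=
      mul_nonneg (mul_nonneg (by linarith [Real.log_nonneg hu])
        (Real.rpow_nonneg (by linarith) _)) (f0_wt hT.1)
    have e1 : C3 * (1 + Real.log u) * u ^ ((1 - κ) / nu d) * wt T =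
        C3 * ((1 + Real.log u) * u ^ ((1 - κ) / nu d) * wt T) := by ring
    have e2 : (C1 + C2 + C3) * (1 + Real.log u) * u ^ ((1 - κ) / nu d) * wt T =
        (C1 + C2 + C3) * ((1 + Real.log u) * u ^ ((1 - κ) / nu d) * wt T) := by ring
    rw [e1, e2]
    exact mul_le_mul_of_nonneg_right (by linarith) h3

end Pool.LibLP59
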