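import Pool.Agent.LibLP59.F0

/-
PLAN (F1). Pure real numbers. With T = Theta = q/(2-q): q = 2T/(1+T), 2-q = 2/(1+T), q-1 = (T-1)/(1+T); hq2 says T (1 - kap) < nu. kap <= 1/208.
x1 : (2-q)(e1 + s) + (q-1)(1/nu + s) <= -s; divided by (2-q)/2: 2 e1 + (T-1)/nu + small = -1 + T/nu + kap(2/nu + 1/2 + em) - 1/(2d) + small, T/nu < 1/(1-kap) <= 1 + 1.005 kap, 2/nu <= 4/3:
  kap(1.005 + 4/3 + 1/2 + 2.5 d + 12.5) - 1/(2d) <= kap(2.5 d + 15.4) - kap(2.5 d + 16) < 0 as 1/(2d) = kap (5d+32)/2.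
x2 : (1-q/2) e2 + (q/2)(1/nu + s) <= -s; divided by (1-q/2): e2 + T/nu + small, e2 = (d-1)/(2d) - 2 + kap(nu eh + 1 + em), nu eh + em + 1 + 1.005 <= 1.5 d^2 + 10.75 d + 5,
  (d-1)/(2d) <= 1/2 and kap (1.5 d^2 + 10.75 d + 5) < 1/2 = kap(5d^2+32d)/2.
x3 : 1/d + kap eh < (1-kap)/nu: multiply by d(5d+32): (5d+32) + 3d + 19.5 = 8 d + 51.5 < 2 d (5d+32)(1-kap)/(d-1), and 2d(5d+32)(1-kap)/(d-1) >= 2 (5d+32)(207/208) = 9.95 d + 63.6.
Existence of s > 0: three strict inequalities that hold for s = 0 and are affine in s: choose s small (or the minimum of the three slacks divided by 10).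
-/

set_option autoImplicit false

noncomputable section

open MeasureTheory Metric Set Filter

namespace Pool.LibLP59

open Pool.LibSR53 Pool.LibTP53

/-- the value of kappa -/
def kap (d : ℕ) : ℝ := 1 / (d * (5 * d + 32))

/-- exponent of the L1 bound off the zones -/
def e1 (d : ℕ) : ℝ :=
  (1 + 2 * kap d) / (2 * nu d) + kap d / 4 - 1 / (4 * d) - 1 / 2 + kap d * em d / 2

/-- exponent of the measure of the zones -/
def e2 (d : ℕ) : ℝ := ((d : ℝ) - 1) / (2 * d) - 2 + kap d * (nu d * eh d + 1 + em d)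

private theorem f1_a (κ ν : ℝ) (hκ0 : 0 < κ) (hκ2 : κ ≤ 1 / 208) (hν : 3 / 2 ≤ ν) :
    0 < 1 - ((1 - ν) / 2 + κ * (1 - 3 * ν / 2)) ∧
    2 * ν * (1 - ((1 - ν) / 2 + κ * (1 - 3 * ν / 2))) ≤
      (1 - 2 * ((1 - ν) / 2 + κ * (1 - 3 * ν / 2))) * (ν + 1 - κ) := by
  have h1 : 0 ≤ κ * (3 * ν - 2) := mul_nonneg hκ0.le (by linarith)
  have h2 : κ * (3 * ν - 2) ≤ 1 / 208 * (3 * ν - 2) :=
    mul_le_mul_of_nonneg_right hκ2 (by linarith)
  constructor
  · have h3 : κ * (1 - 3 * ν / 2) = -(κ * (3 * ν - 2)) / 2 := by ring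
    rw [h3]
    linarith
  · have h4 : 0 ≤ κ * (2 * ν - 2 - κ * (3 * ν - 2)) := mul_nonneg hκ0.le (by linarith)
    have h5 : (1 - 2 * ((1 - ν) / 2 + κ * (1 - 3 * ν / 2))) * (ν + 1 - κ) -
        2 * ν * (1 - ((1 - ν) / 2 + κ * (1 - 3 * ν / 2))) =
        κ * (2 * ν - 2 - κ * (3 * ν - 2)) := by ring
    linarith

private theorem f1_b (κ ν F : ℝ) (hκ0 : 0 < κ) (hκ2 : κ ≤ 1 / 208) (hν : 3 / 2 ≤ ν)
    (hF : F ≤ ν * (-(11 / 10))) :
    0 < 1 - F ∧ 2 * ν * (1 - F) ≤ (-2 * F) * (ν + 1 - κ) := by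
  have hF0 : 0 < -F := by linarith
  refine ⟨by linarith, ?_⟩
  have h1 : κ * (-F) ≤ 1 / 208 * (-F) := mul_le_mul_of_nonneg_right hκ2 hF0.le
  have h2 : (-2 * F) * (ν + 1 - κ) - 2 * ν * (1 - F) = 2 * ((-F) - κ * (-F) - ν) := by ring
  linarith

private theorem f1_c (q κ ν E S : ℝ) (hS : 0 < S) (hE : 0 < 1 - E) (hq : q * S < 2 * ν)
    (h : 2 * ν * (1 - E) ≤ (κ - 2 * E) * S) : q * (1 - E) < κ - 2 * E := by
  have h5 : q * S * (1 - E) < 2 * ν * (1 - E) := mul_lt_mul_of_pos_right hq hE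
  have h6 : (q * (1 - E)) * S < (κ - 2 * E) * S := by
    have : (q * (1 - E)) * S = q * S * (1 - E) := by ring
    linarith
  exact lt_of_mul_lt_mul_right h6 hS.le

private theorem f1_d (D κ : ℝ) (hD : 4 ≤ D) (hκ0 : 0 < κ) (hκ1 : κ * (D * (5 * D + 32)) = 1) :
    κ * ((D - 1) / 2 * (3 * D + 39 / 2) + 1 + (5 / 2 * D + 25 / 2)) ≤ 2 / 5 := by
  have h3 : (D - 1) / 2 * (3 * D + 39 / 2) + 1 + (5 / 2 * D + 25 / 2) ≤
      2 / 5 * (D * (5 * D + 32)) := by nlinarith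
  have h4 := mul_le_mul_of_nonneg_left h3 hκ0.le
  have h5 : κ * (2 / 5 * (D * (5 * D + 32))) = 2 / 5 * (κ * (D * (5 * D + 32))) := by ring
  rw [h5, hκ1] at h4
  linarith

private theorem f1_e (D κ : ℝ) (hD : 4 ≤ D) (hκ0 : 0 < κ) (hκ1 : κ * (D * (5 * D + 32)) = 1) :
    (κ * (5 * D + 32) + κ * (3 * D + 39 / 2)) * ((D - 1) / 2) < 1 - κ := by
  have h1 : (κ * (5 * D + 32) + κ * (3 * D + 39 / 2)) * ((D - 1) / 2) =
      κ * ((8 * D + 103 / 2) * (D - 1) / 2 + 1) - κ := by ring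
  have h2 : (8 * D + 103 / 2) * (D - 1) / 2 + 1 < D * (5 * D + 32) := by nlinarith
  have h3 := mul_lt_mul_of_pos_left h2 hκ0
  rw [h1]
  linarith

/-- the exponents are negative -/
theorem exponents (d : ℕ) (hd : 4 ≤ d) (q : ℝ) (hq1 : 1 < q)
    (hq2 : q * (1 + (1 - kap d) / nu d) < 2) :
    0 < kap d ∧ kap d * d ≤ 1 ∧ kap d ≤ 1 / 208 ∧ ∃ s : ℝ, 0 < s ∧
      (2 - q) * e1 d + (q - 1) * (1 / nu d + s) ≤ -s ∧
      (1 - q / 2) * e2 d + q / 2 * (1 / nu d + s) ≤ -s ∧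
      1 / (d : ℝ) + kap d * eh d + s ≤ (1 - kap d) / nu d := by
  have hD : (4 : ℝ) ≤ (d : ℝ) := by exact_mod_cast hd
  have he1 : e1 d = (1 + 2 * kap d) / (2 * nu d) + kap d / 4 - 1 / (4 * d) - 1 / 2 +
      kap d * em d / 2 := rfl
  have he2 : e2 d = ((d : ℝ) - 1) / (2 * d) - 2 + kap d * (nu d * eh d + 1 + em d) := rfl
  have hem : em d = 5 / 2 * (d : ℝ) + 25 / 2 := rfl
  have heh : eh d = 3 * (d : ℝ) + 39 / 2 := rfl
  have hnu : nu d = ((d : ℝ) - 1) / 2 := rfl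
  have hkap : kap d = 1 / ((d : ℝ) * (5 * d + 32)) := rfl
  generalize e1 d = e₁ at *
  generalize e2 d = e₂ at *
  generalize em d = m at *
  generalize eh d = h at *
  generalize nu d = ν at *
  generalize kap d = κ at *
  generalize (d : ℝ) = D at *
  have hpos : 0 < D * (5 * D + 32) := by positivity
  have h208 : 208 ≤ D * (5 * D + 32) := by
    have h1 : 4 * (5 * 4 + 32) ≤ D * (5 * D + 32) := by
      apply mul_le_mul hD (by linarith) (by norm_num) (by linarith)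
    linarith
  have hκ0 : 0 < κ := by rw [hkap]; positivity
  have hκ1 : κ * (D * (5 * D + 32)) = 1 := by
    rw [hkap]
    exact one_div_mul_cancel hpos.ne'
  have hκ2 : κ ≤ 1 / 208 := by
    rw [hkap]
    exact one_div_le_one_div_of_le (by norm_num) h208
  have hD0 : D ≠ 0 := by linarith
  have hinv : 1 / D = κ * (5 * D + 32) := by
    rw [div_eq_iff hD0]
    linarith
  have hν : 3 / 2 ≤ ν := by rw [hnu]; linarith
  have hν0 : 0 < ν := by linarith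
  have hκD : κ * D ≤ 1 := by
    have h1 : κ * D * 1 ≤ κ * D * (5 * D + 32) :=
      mul_le_mul_of_nonneg_left (by linarith) (by positivity)
    linarith
  have hS : 0 < ν + 1 - κ := by linarith
  have hq3 : q * (ν + 1 - κ) < 2 * ν := by
    have h1 : q * (1 + (1 - κ) / ν) * ν < 2 * ν := mul_lt_mul_of_pos_right hq2 hν0
    have h2 : q * (1 + (1 - κ) / ν) * ν = q * (ν + 1 - κ) := by
      field_simp
      ring
    linarith
  have hq4 : q < 2 := by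
    by_contra hc
    push Not at hc
    have h1 : 2 * (ν + 1 - κ) ≤ q * (ν + 1 - κ) := mul_le_mul_of_nonneg_right hc hS.le
    linarith
  -- the first exponent
  have hE1 : ν * e₁ = (1 - ν) / 2 + κ * (1 - 3 * ν / 2) := by
    have h1 : ν * ((1 + 2 * κ) / (2 * ν)) = (1 + 2 * κ) / 2 := by
      field_simp
    have h2 : 1 / (4 * D) = κ * (5 * D + 32) / 4 := by
      rw [← hinv]
      field_simp
    rw [he1, h2, hem]
    have h3 : ν * ((1 + 2 * κ) / (2 * ν) + κ / 4 - κ * (5 * D + 32) / 4 - 1 / 2 +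
        κ * (5 / 2 * D + 25 / 2) / 2) = ν * ((1 + 2 * κ) / (2 * ν)) +
        ν * (κ / 4 - κ * (5 * D + 32) / 4 - 1 / 2 + κ * (5 / 2 * D + 25 / 2) / 2) := by ring
    rw [h3, h1]
    ring
  have hA : (2 - q) * e₁ + (q - 1) * (1 / ν) < 0 := by
    have h1 : ((2 - q) * e₁ + (q - 1) * (1 / ν)) * ν < 0 := by
      have h2 : ((2 - q) * e₁ + (q - 1) * (1 / ν)) * ν = (2 - q) * (ν * e₁) + (q - 1) := by
        field_simp
      rw [h2, hE1]
      obtain ⟨hE, h3⟩ := f1_a κ ν hκ0 hκ2 hν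
      have h7 := f1_c q 1 ν _ _ hS hE hq3 h3
      linarith
    by_contra hc
    push Not at hc
    have := mul_nonneg hc hν0.le
    linarith
  -- the second exponent
  have hE2 : e₂ ≤ -(11 / 10) := by
    have h1 : (D - 1) / (2 * D) ≤ 1 / 2 := by
      rw [div_le_div_iff₀ (by positivity) (by norm_num)]
      linarith
    have h2 : κ * (ν * h + 1 + m) ≤ 2 / 5 := by
      rw [hnu, heh, hem]
      exact f1_d D κ hD hκ0 hκ1
    linarith
  have hB : (1 - q / 2) * e₂ + q / 2 * (1 / ν) < 0 := by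
    have h1 : ((1 - q / 2) * e₂ + q / 2 * (1 / ν)) * (2 * ν) < 0 := by
      have h2 : ((1 - q / 2) * e₂ + q / 2 * (1 / ν)) * (2 * ν) = (2 - q) * (ν * e₂) + q := by
        field_simp
      rw [h2]
      have hF : ν * e₂ ≤ ν * (-(11 / 10)) := mul_le_mul_of_nonneg_left hE2 hν0.le
      obtain ⟨hE, h3⟩ := f1_b κ ν (ν * e₂) hκ0 hκ2 hν hF
      have h7 := f1_c q 0 ν (ν * e₂) _ hS hE hq3 (by
        have h8 : (0 - 2 * (ν * e₂)) * (ν + 1 - κ) = (-2 * (ν * e₂)) * (ν + 1 - κ) := by ring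
        linarith)
      linarith
    by_contra hc
    push Not at hc
    have := mul_nonneg hc (by positivity : (0 : ℝ) ≤ 2 * ν)
    linarith
  -- the third inequality
  have hC : 1 / D + κ * h < (1 - κ) / ν := by
    rw [lt_div_iff₀ hν0, hinv, heh, hnu]
    exact f1_e D κ hD hκ0 hκ1
  obtain ⟨s, hs0, hs1, hs2, hs3⟩ : ∃ s : ℝ, 0 < s ∧
      s ≤ -((2 - q) * e₁ + (q - 1) * (1 / ν)) / 2 ∧
      s ≤ -((1 - q / 2) * e₂ + q / 2 * (1 / ν)) / 2 ∧
      s ≤ (1 - κ) / ν - (1 / D + κ * h) :=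
    ⟨min (min (-((2 - q) * e₁ + (q - 1) * (1 / ν)) / 2)
      (-((1 - q / 2) * e₂ + q / 2 * (1 / ν)) / 2)) ((1 - κ) / ν - (1 / D + κ * h)),
      lt_min (lt_min (by linarith) (by linarith)) (by linarith),
      (min_le_left _ _).trans (min_le_left _ _), (min_le_left _ _).trans (min_le_right _ _),
      min_le_right _ _⟩
  have hqs : q * s ≤ 2 * s := mul_le_mul_of_nonneg_right hq4.le hs0.le
  refine ⟨hκ0, hκD, hκ2, s, hs0, ?_, ?_, by linarith⟩
  · have h1 : (2 - q) * e₁ + (q - 1) * (1 / ν + s) =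
        ((2 - q) * e₁ + (q - 1) * (1 / ν)) + q * s - s := by ring
    linarith
  · have h1 : (1 - q / 2) * e₂ + q / 2 * (1 / ν + s) =
        ((1 - q / 2) * e₂ + q / 2 * (1 / ν)) + q * s / 2 := by ring
    linarith

end Pool.LibLP59
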