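import Pool.Agent.LibLP59.E4
import Pool.Agent.LibLP59.F1

/-
PLAN (F2). Hoelder lemmas: copy q1_A, q1_B, q1_pow, q1_lin (private in LibSR53.Q1; rename). s0 from exponents, u1 such that Ch <= u1^(s0) and 1 <= u1. Given the data: A = u^(1/(2d)),
t = u^(kap/2) (t <= A since kap <= 1/d), h = Ch u^(kap eh) >= 1, m0 = c0 u^(1-kap em) 2^i > 0, A^2 h = Ch u^(1/d + kap eh) <= u^(1/d + kap eh + s0) <= u^((1-kap)/nu) < 2^i. M natural with
kap M / 2 >= - e1. family (E4) with this M: (its hypothesis sum wt Y <= wt T from hX with f p = |p.2|^(d-1)). Z.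
 L1: int off Z <= C (2^i sqrt(t/(A m0)) + t^(-M)) wt T <= C' u^(e1) wt T (2^i sqrt(t/(A m0)) = sqrt(2^i) sqrt(t/(A c0 u^(1-kap em))), 2^i <= 2 u^((1+2 kap)/nu)).
 L2: f = sum over p in T of gamma' p F p x, gamma' p = gamma p * (number of Y in X containing p), and this number is <= 1 (hX with f = indicator of p; p in T), 0 outside the pieces:
  FHyp.l2: int |f|^2 <= C0 (1+log u) u^(1/nu) wt T <= C u^(1/nu + s) wt T (log: 1 + log u <= C_s u^s; Real.log_le_rpow_div or as q1_lin).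
 |Z| <= C (A^(d-1) h^nu (2^i)^(1-nu))/m0 wt T <= C' u^(e2) wt T ((2^i)^(-nu) <= u^(-(1-kap))).
 int_Z |f|^q <= |Z|^(1-q/2)(int|f|^2)^(q/2), int off Z <= (int off Z |f|)^(2-q)(int |f|^2)^(q-1) (q1_A, q1_B), exponents (1-q/2)e2 + (q/2)(1/nu+s) <= -s and (2-q)e1 + (q-1)(1/nu+s) <= -s;
 powers of wt T add up to 1 (q1_pow with X = u). f is ae measurable: FHyp.meas.
-/

set_option autoImplicit false

noncomputable section

open MeasureTheory Metric Set Filter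

namespace Pool.LibLP59

open Pool.LibSR53 Pool.LibTP53

private lemma f2_pow {a b W X x1 x2 s t δ : ℝ} (ha : 0 ≤ a) (hb : 0 ≤ b) (hW : 0 ≤ W)
    (hX : 1 ≤ X) (hs : 0 ≤ s) (ht : 0 ≤ t) (hst : s + t = 1) (h : x1 * s + x2 * t ≤ -δ) :
    (a * W * X ^ x1) ^ s * (b * W * X ^ x2) ^ t ≤ a ^ s * b ^ t * (W * X ^ (-δ)) := by
  have hX0 : 0 < X := lt_of_lt_of_le one_pos hX
  have h1 : W ^ s * W ^ t = W := by
    rw [← Real.rpow_add_of_nonneg hW hs ht, hst, Real.rpow_one]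
  have h2 : (X ^ x1) ^ s * (X ^ x2) ^ t = X ^ (x1 * s + x2 * t) := by
    rw [← Real.rpow_mul hX0.le, ← Real.rpow_mul hX0.le, ← Real.rpow_add hX0]
  have h3 : X ^ (x1 * s + x2 * t) ≤ X ^ (-δ) := Real.rpow_le_rpow_of_exponent_le hX h
  calc (a * W * X ^ x1) ^ s * (b * W * X ^ x2) ^ t
      = a ^ s * b ^ t * ((W ^ s * W ^ t) * ((X ^ x1) ^ s * (X ^ x2) ^ t)) := by
        rw [Real.mul_rpow (mul_nonneg ha hW) (Real.rpow_nonneg hX0.le _), Real.mul_rpow ha hW,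
          Real.mul_rpow (mul_nonneg hb hW) (Real.rpow_nonneg hX0.le _), Real.mul_rpow hb hW]
        ring
    _ ≤ a ^ s * b ^ t * (W * X ^ (-δ)) := by
        rw [h1, h2]
        have : 0 ≤ a ^ s * b ^ t := mul_nonneg (Real.rpow_nonneg ha _) (Real.rpow_nonneg hb _)
        exact mul_le_mul_of_nonneg_left (mul_le_mul_of_nonneg_left h3 hW) this

/-- Hoelder on a set of finite measure -/
private lemma f2_A {d : ℕ} {g : E d → ENNReal} (hg : AEMeasurable g volume) (A : Set (E d)) {q : ℝ}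
    (hq1 : 1 < q) (hq2 : q < 2) :
    ∫⁻ x in A, g x ^ q ≤ (volume A) ^ (1 - q / 2) * (∫⁻ x, g x ^ (2 : ℝ)) ^ (q / 2) := by
  have h := ENNReal.lintegral_mul_norm_pow_le (μ := volume.restrict A) (f := fun _ => 1)
    (g := fun x => g x ^ (2 : ℝ)) aemeasurable_const (hg.restrict.pow_const 2)
    (p := 1 - q / 2) (q := q / 2) (by linarith) (by linarith) (by ring)
  have e : ∀ x, (1 : ENNReal) ^ (1 - q / 2) * (g x ^ (2 : ℝ)) ^ (q / 2) = g x ^ q := by
    intro x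
    rw [ENNReal.one_rpow, one_mul, ← ENNReal.rpow_mul]
    congr 1
    ring
  simp only [e] at h
  refine h.trans ?_
  rw [lintegral_const, Measure.restrict_apply_univ, one_mul]
  gcongr
  exact Measure.restrict_le_self

/-- Hoelder between 1 and 2 -/
private lemma f2_B {d : ℕ} {g : E d → ENNReal} (hg : AEMeasurable g volume) (A : Set (E d)) {q : ℝ}
    (hq1 : 1 < q) (hq2 : q < 2) :
    ∫⁻ x in A, g x ^ q ≤ (∫⁻ x in A, g x) ^ (2 - q) * (∫⁻ x, g x ^ (2 : ℝ)) ^ (q - 1) := by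
  have h := ENNReal.lintegral_mul_norm_pow_le (μ := volume.restrict A) (f := g)
    (g := fun x => g x ^ (2 : ℝ)) hg.restrict (hg.restrict.pow_const 2)
    (p := 2 - q) (q := q - 1) (by linarith) (by linarith) (by ring)
  have e : ∀ x, (g x) ^ (2 - q) * (g x ^ (2 : ℝ)) ^ (q - 1) = g x ^ q := by
    intro x
    rw [← ENNReal.rpow_mul, ← ENNReal.rpow_add_of_nonneg _ _ (by linarith) (by linarith)]
    congr 1
    ring
  simp only [e] at h
  refine h.trans ?_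
  gcongr
  exact Measure.restrict_le_self

/-- the number of members of X which contain p -/
private def f2_n {α : Type} (X : Finset (Finset α)) (p : α) : ℕ :=
  open scoped Classical in (X.filter (fun Y => p ∈ Y)).card

open scoped Classical in
private lemma f2_sum {α : Type} (T : Finset α) (X : Finset (Finset α)) (hY : ∀ Y ∈ X, Y ⊆ T)
    (g : α → ℂ) : ∑ Y ∈ X, ∑ p ∈ Y, g p = ∑ p ∈ T, (f2_n X p : ℂ) * g p := by
  unfold f2_n
  have h1 : ∀ Y ∈ X, ∑ p ∈ Y, g p = ∑ p ∈ T, if p ∈ Y then g p else 0 := by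
    intro Y hYX
    rw [Finset.sum_ite_mem, Finset.inter_eq_right.2 (hY Y hYX)]
  rw [Finset.sum_congr rfl h1, Finset.sum_comm]
  apply Finset.sum_congr rfl
  intro p _
  rw [← Finset.sum_filter, Finset.sum_const, nsmul_eq_mul]

open scoped Classical in
private lemma f2_count {α : Type} (T : Finset α) (X : Finset (Finset α))
    (hX : ∀ f : α → ℝ, (∀ p, 0 ≤ f p) → ∑ Y ∈ X, ∑ p ∈ Y, f p ≤ ∑ p ∈ T, f p) (p : α) :
    (f2_n X p : ℝ) ≤ 1 := by
  unfold f2_n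
  have h := hX (fun q => if q = p then 1 else 0) (fun q => by split_ifs <;> norm_num)
  simp only [Finset.sum_ite_eq'] at h
  rw [← Finset.sum_filter, Finset.sum_const, nsmul_eq_mul, mul_one] at h
  refine h.trans ?_
  split_ifs <;> norm_num

/-- the main term of the L1 bound -/
private lemma f2_L1 (d : ℕ) (c0 : ℝ) (hc0 : 0 < c0) (u L : ℝ) (hu : 1 ≤ u) (hL : 0 < L)
    (hL2 : L ≤ 2 * u ^ ((1 + 2 * kap d) / nu d)) :
    L * Real.sqrt (u ^ (kap d / 2) / (u ^ (1 / (2 * (d : ℝ))) *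
      (c0 * (u ^ (1 - kap d * em d) * L)))) ≤ Real.sqrt (2 / c0) * u ^ e1 d := by
  have hu0 : 0 < u := lt_of_lt_of_le one_pos hu
  have hE : u ^ ((1 + 2 * kap d) / nu d) * u ^ (kap d / 2) /
      (u ^ (1 / (2 * (d : ℝ))) * u ^ (1 - kap d * em d)) = (u ^ e1 d) ^ 2 := by
    rw [← Real.rpow_add hu0, ← Real.rpow_add hu0, ← Real.rpow_sub hu0, ← Real.rpow_natCast,
      ← Real.rpow_mul hu0.le]
    congr 1
    unfold e1
    push_cast
    ring
  have hA0 : 0 < u ^ (1 / (2 * (d : ℝ))) := Real.rpow_pos_of_pos hu0 _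
  have hm0 : 0 < u ^ (1 - kap d * em d) := Real.rpow_pos_of_pos hu0 _
  have ht0 : 0 < u ^ (kap d / 2) := Real.rpow_pos_of_pos hu0 _
  have he0 : 0 < u ^ e1 d := Real.rpow_pos_of_pos hu0 _
  rw [← pow_le_pow_iff_left₀ (by positivity) (by positivity) (two_ne_zero), mul_pow, mul_pow,
    Real.sq_sqrt (by positivity), Real.sq_sqrt (by positivity), ← hE]
  calc L ^ 2 * (u ^ (kap d / 2) / (u ^ (1 / (2 * (d : ℝ))) *
        (c0 * (u ^ (1 - kap d * em d) * L))))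
      = L * (u ^ (kap d / 2) / (u ^ (1 / (2 * (d : ℝ))) * (c0 * u ^ (1 - kap d * em d)))) := by
        field_simp
    _ ≤ (2 * u ^ ((1 + 2 * kap d) / nu d)) *
        (u ^ (kap d / 2) / (u ^ (1 / (2 * (d : ℝ))) * (c0 * u ^ (1 - kap d * em d)))) :=
        mul_le_mul_of_nonneg_right hL2 (by positivity)
    _ = 2 / c0 * (u ^ ((1 + 2 * kap d) / nu d) * u ^ (kap d / 2) /
        (u ^ (1 / (2 * (d : ℝ))) * u ^ (1 - kap d * em d))) := by
        field_simp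

/-- the measure of the zones -/
private lemma f2_vol (d : ℕ) (hd : 4 ≤ d) (c0 Ch : ℝ) (hc0 : 0 < c0) (hCh : 1 ≤ Ch) (u L : ℝ)
    (hu : 1 ≤ u) (hL : u ^ ((1 - kap d) / nu d) < L) :
    (u ^ (1 / (2 * (d : ℝ)))) ^ (d - 1) * (Ch * u ^ (kap d * eh d)) ^ nu d * L ^ (1 - nu d) /
      (c0 * (u ^ (1 - kap d * em d) * L)) ≤ Ch ^ nu d / c0 * u ^ e2 d := by
  have hu0 : 0 < u := lt_of_lt_of_le one_pos hu
  have hν : 0 < nu d := by
    unfold nu
    have : (4 : ℝ) ≤ (d : ℝ) := by exact_mod_cast hd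
    linarith
  have hd0 : (0 : ℝ) < (d : ℝ) := by
    have : (4 : ℝ) ≤ (d : ℝ) := by exact_mod_cast hd
    linarith
  have hK0 : 0 < u ^ ((1 - kap d) / nu d) := Real.rpow_pos_of_pos hu0 _
  have hL0 : 0 < L := hK0.trans hL
  have hC0 : 0 < Ch := lt_of_lt_of_le one_pos hCh
  have e1' : (u ^ (1 / (2 * (d : ℝ)))) ^ (d - 1) = u ^ (((d : ℝ) - 1) / (2 * d)) := by
    rw [← Real.rpow_natCast, ← Real.rpow_mul hu0.le, Nat.cast_sub (by omega)]
    congr 1
    push_cast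
    ring
  have e2' : (Ch * u ^ (kap d * eh d)) ^ nu d = Ch ^ nu d * u ^ (kap d * eh d * nu d) := by
    rw [Real.mul_rpow hC0.le (Real.rpow_nonneg hu0.le _), ← Real.rpow_mul hu0.le]
  have e3' : L ^ (1 - nu d) = L * L ^ (-nu d) := by
    rw [sub_eq_add_neg, Real.rpow_add hL0, Real.rpow_one]
  have e4' : L ^ (-nu d) ≤ u ^ (-(1 - kap d)) := by
    have h1 : L ^ (-nu d) ≤ (u ^ ((1 - kap d) / nu d)) ^ (-nu d) :=
      Real.rpow_le_rpow_of_nonpos hK0 hL.le (by linarith)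
    rw [← Real.rpow_mul hu0.le] at h1
    have h2 : (1 - kap d) / nu d * -nu d = -(1 - kap d) := by
      field_simp
    rwa [h2] at h1
  have e5' : u ^ (((d : ℝ) - 1) / (2 * d)) * u ^ (kap d * eh d * nu d) * u ^ (-(1 - kap d)) /
      u ^ (1 - kap d * em d) = u ^ e2 d := by
    rw [← Real.rpow_add hu0, ← Real.rpow_add hu0, ← Real.rpow_sub hu0]
    congr 1
    unfold e2
    ring
  have hm0 : 0 < u ^ (1 - kap d * em d) := Real.rpow_pos_of_pos hu0 _
  have hx0 : 0 < u ^ (((d : ℝ) - 1) / (2 * d)) := Real.rpow_pos_of_pos hu0 _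
  have hy0 : 0 < u ^ (kap d * eh d * nu d) := Real.rpow_pos_of_pos hu0 _
  have hCν : 0 < Ch ^ nu d := Real.rpow_pos_of_pos hC0 _
  rw [e1', e2', e3', ← e5']
  calc u ^ (((d : ℝ) - 1) / (2 * d)) * (Ch ^ nu d * u ^ (kap d * eh d * nu d)) *
        (L * L ^ (-nu d)) / (c0 * (u ^ (1 - kap d * em d) * L))
      = (Ch ^ nu d / c0 * (u ^ (((d : ℝ) - 1) / (2 * d)) * u ^ (kap d * eh d * nu d) /
          u ^ (1 - kap d * em d))) * L ^ (-nu d) := by
        field_simp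
    _ ≤ (Ch ^ nu d / c0 * (u ^ (((d : ℝ) - 1) / (2 * d)) * u ^ (kap d * eh d * nu d) /
          u ^ (1 - kap d * em d))) * u ^ (-(1 - kap d)) :=
        mul_le_mul_of_nonneg_left e4' (by positivity)
    _ = Ch ^ nu d / c0 * (u ^ (((d : ℝ) - 1) / (2 * d)) * u ^ (kap d * eh d * nu d) *
          u ^ (-(1 - kap d)) / u ^ (1 - kap d * em d)) := by
        ring

/-- the heavy pieces of one length -/
theorem heavy_q (d : ℕ) (hd : 4 ≤ d) (F : P d → E d → ℂ) (C0 : ℝ) (hF : FHyp d F C0)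
    (c0 Ch : ℝ) (hc0 : 0 < c0) (hCh : 1 ≤ Ch) (q : ℝ) (hq1 : 1 < q)
    (hq2 : q * (1 + (1 - kap d) / nu d) < 2) :
    ∃ C s u1 : ℝ, 0 < C ∧ 0 < s ∧ 1 ≤ u1 ∧ ∀ (T : Finset (P d)) (u : ℝ) (i : ℕ)
      (X : Finset (Finset (P d))) (γ : P d → ℂ), Adm T → u1 ≤ u → Dens u T →
      u ^ ((1 - kap d) / nu d) < (2 : ℝ) ^ i → (2 : ℝ) ^ i ≤ 2 * u ^ ((1 + 2 * kap d) / nu d) →
      (∀ Y ∈ X, Piece T i (Ch * u ^ (kap d * eh d)) (c0 * (u ^ (1 - kap d * em d) * 2 ^ i)) Y ∧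
        Y ⊆ T) →
      (∀ f : P d → ℝ, (∀ p, 0 ≤ f p) → ∑ Y ∈ X, ∑ p ∈ Y, f p ≤ ∑ p ∈ T, f p) →
      (∀ p, ‖γ p‖ ≤ 1) →
      ∫⁻ x, ‖∑ Y ∈ X, ∑ p ∈ Y, γ p * F p x‖ₑ ^ q ≤ ENNReal.ofReal (C * u ^ (-s) * wt T) := by
  classical
  obtain ⟨hk0, hkd, hk208, s, hs0, hx1, hx2, hx3⟩ := exponents d hd q hq1 hq2
  have hd4 : (4 : ℝ) ≤ (d : ℝ) := by exact_mod_cast hd
  have hd0 : (0 : ℝ) < (d : ℝ) := by linarith
  have hν : 0 < nu d := by
    unfold nu
    linarith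
  have heh : 0 ≤ eh d := by
    unfold eh
    linarith
  have hq2' : q < 2 := by
    have h1 : 0 ≤ (1 - kap d) / nu d := div_nonneg (by linarith) hν.le
    have h2 : 0 ≤ q * ((1 - kap d) / nu d) := mul_nonneg (by linarith) h1
    linarith
  obtain ⟨M, hM⟩ := exists_nat_ge (-(2 * e1 d) / kap d)
  rw [div_le_iff₀ hk0] at hM
  obtain ⟨C, hC, hfam⟩ := family d (by omega) F C0 hF M
  have hCh0 : 0 < Ch := lt_of_lt_of_le one_pos hCh
  set a1 : ℝ := C * (Real.sqrt (2 / c0) + 1) with ha1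
  set a2 : ℝ := C * (Ch ^ nu d / c0) with ha2
  set B : ℝ := C0 * (1 + 1 / s) with hB
  have hC00 := hF.pos
  have ha10 : 0 ≤ a1 := by positivity
  have ha20 : 0 ≤ a2 := by positivity
  have hB0 : 0 ≤ B := by positivity
  refine ⟨a2 ^ (1 - q / 2) * B ^ (q / 2) + a1 ^ (2 - q) * B ^ (q - 1) + 1, s,
    max 1 (Ch ^ (1 / s)), by positivity, hs0, le_max_left _ _, ?_⟩
  intro T u i X γ hT hu1 hDens hiL hiU hP hX hγ
  have hu : 1 ≤ u := (le_max_left _ _).trans hu1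
  have hu0 : 0 < u := lt_of_lt_of_le one_pos hu
  have hChu : Ch ≤ u ^ s := by
    have h1 : Ch ^ (1 / s) ≤ u := (le_max_right _ _).trans hu1
    have h2 : (Ch ^ (1 / s)) ^ s ≤ u ^ s := Real.rpow_le_rpow (by positivity) h1 hs0.le
    rw [← Real.rpow_mul hCh0.le, one_div_mul_cancel hs0.ne', Real.rpow_one] at h2
    exact h2
  have hL0 : (0 : ℝ) < 2 ^ i := by positivity
  set W := wt T with hW
  have hT1 : ∀ p ∈ T, 1 ≤ p.2 := hT.1
  have hW0 : 0 ≤ W := Finset.sum_nonneg fun p hp => pow_nonneg (zero_le_one.trans (hT1 p hp)) _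
  -- the conditions of the family lemma
  have hwt : ∑ Y ∈ X, wt Y ≤ wt T := by
    have h1 := hX (fun p => |p.2| ^ (d - 1)) (fun p => by positivity)
    have h2 : ∑ p ∈ T, |p.2| ^ (d - 1) = wt T := by
      unfold wt
      apply Finset.sum_congr rfl
      intro p hp
      rw [abs_of_nonneg (zero_le_one.trans (hT1 p hp))]
    have h3 : ∑ Y ∈ X, ∑ p ∈ Y, |p.2| ^ (d - 1) = ∑ Y ∈ X, wt Y := by
      apply Finset.sum_congr rfl
      intro Y hY
      unfold wt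
      apply Finset.sum_congr rfl
      intro p hp
      rw [abs_of_nonneg (zero_le_one.trans (hT1 p ((hP Y hY).2 hp)))]
    rw [h2, h3] at h1
    exact h1
  have hm0 : 0 < c0 * (u ^ (1 - kap d * em d) * 2 ^ i) := by positivity
  have hh1 : 1 ≤ Ch * u ^ (kap d * eh d) := by
    have h1 : (1 : ℝ) ≤ u ^ (kap d * eh d) := Real.one_le_rpow hu (mul_nonneg hk0.le heh)
    nlinarith
  have hA1 : 1 ≤ u ^ (1 / (2 * (d : ℝ))) := Real.one_le_rpow hu (by positivity)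
  have hAh : (u ^ (1 / (2 * (d : ℝ)))) ^ 2 * (Ch * u ^ (kap d * eh d)) ≤ 2 ^ i := by
    have e0 : (u ^ (1 / (2 * (d : ℝ)))) ^ 2 = u ^ (1 / (d : ℝ)) := by
      rw [← Real.rpow_natCast, ← Real.rpow_mul hu0.le]
      congr 1
      push_cast
      field_simp
    have h1 : 0 < u ^ (1 / (d : ℝ)) := Real.rpow_pos_of_pos hu0 _
    have h2 : 0 < u ^ (kap d * eh d) := Real.rpow_pos_of_pos hu0 _
    calc (u ^ (1 / (2 * (d : ℝ)))) ^ 2 * (Ch * u ^ (kap d * eh d))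
        ≤ u ^ (1 / (d : ℝ)) * (u ^ s * u ^ (kap d * eh d)) := by
          rw [e0]
          exact mul_le_mul_of_nonneg_left (mul_le_mul_of_nonneg_right hChu h2.le) h1.le
      _ = u ^ (1 / (d : ℝ) + kap d * eh d + s) := by
          rw [← Real.rpow_add hu0, ← Real.rpow_add hu0]
          congr 1
          ring
      _ ≤ u ^ ((1 - kap d) / nu d) := Real.rpow_le_rpow_of_exponent_le hu hx3
      _ ≤ 2 ^ i := hiL.le
  have ht1 : 1 ≤ u ^ (kap d / 2) := Real.one_le_rpow hu (by positivity)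
  have htA : u ^ (kap d / 2) ≤ u ^ (1 / (2 * (d : ℝ))) := by
    apply Real.rpow_le_rpow_of_exponent_le hu
    rw [div_le_div_iff₀ (by norm_num) (by positivity)]
    nlinarith
  obtain ⟨Z, hZm, hZv, hZ1⟩ := hfam T i (Ch * u ^ (kap d * eh d))
    (c0 * (u ^ (1 - kap d * em d) * 2 ^ i)) (u ^ (1 / (2 * (d : ℝ)))) (u ^ (kap d / 2)) X γ hT hP
    hwt hm0 hh1 hA1 hAh ht1 htA hγ
  -- the function as a sum over T
  set n : P d → ℂ := fun p => (f2_n X p : ℂ) with hn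
  have hfun : ∀ x, ∑ Y ∈ X, ∑ p ∈ Y, γ p * F p x = ∑ p ∈ T, (n p * γ p) * F p x := by
    intro x
    rw [f2_sum T X (fun Y hY => (hP Y hY).2) (fun p => γ p * F p x)]
    apply Finset.sum_congr rfl
    intro p _
    rw [mul_assoc]
  have hγ' : ∀ p, ‖n p * γ p‖ ≤ 1 := by
    intro p
    rw [norm_mul, hn]
    have h1 := f2_count T X hX p
    have h2 : ‖(f2_n X p : ℂ)‖ ≤ 1 := by
      rw [Complex.norm_natCast]
      exact h1
    calc ‖(f2_n X p : ℂ)‖ * ‖γ p‖ ≤ 1 * 1 :=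
          mul_le_mul h2 (hγ p) (norm_nonneg _) zero_le_one
      _ = 1 := one_mul 1
  have hfm : AEStronglyMeasurable (fun x => ∑ Y ∈ X, ∑ p ∈ Y, γ p * F p x) volume := by
    simp only [hfun]
    exact Finset.aestronglyMeasurable_fun_sum T fun p hp =>
      (hF.meas p (hT1 p hp)).const_mul (n p * γ p)
  have hg : AEMeasurable (fun x => ‖∑ Y ∈ X, ∑ p ∈ Y, γ p * F p x‖ₑ) volume := hfm.enorm
  -- the L2 bound
  have hL2 : ∫⁻ x, ‖∑ Y ∈ X, ∑ p ∈ Y, γ p * F p x‖ₑ ^ (2 : ℝ) ≤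
      ENNReal.ofReal (B * W * u ^ (1 / nu d + s)) := by
    simp only [hfun]
    refine (hF.l2 T u hT hu hDens (fun p => n p * γ p) hγ').trans (ENNReal.ofReal_le_ofReal ?_)
    have h1 : 1 + Real.log u ≤ (1 + 1 / s) * u ^ s := by
      have g1 := Real.log_le_rpow_div hu0.le hs0
      have g2 : (1 : ℝ) ≤ u ^ s := Real.one_le_rpow hu hs0.le
      have g3 : (1 + 1 / s) * u ^ s = u ^ s + u ^ s / s := by ring
      rw [g3]
      linarith
    have h2 : 0 ≤ u ^ (1 / nu d) * W := mul_nonneg (Real.rpow_nonneg hu0.le _) hW0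
    calc C0 * (1 + Real.log u) * u ^ (1 / nu d) * wt T
        = C0 * ((1 + Real.log u) * (u ^ (1 / nu d) * W)) := by rw [hW]; ring
      _ ≤ C0 * ((1 + 1 / s) * u ^ s * (u ^ (1 / nu d) * W)) :=
          mul_le_mul_of_nonneg_left (mul_le_mul_of_nonneg_right h1 h2) hC00.le
      _ = B * W * u ^ (1 / nu d + s) := by
          rw [hB, Real.rpow_add hu0]
          ring
  -- the measure of Z
  have hZv' : volume Z ≤ ENNReal.ofReal (a2 * W * u ^ e2 d) := by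
    refine hZv.trans (ENNReal.ofReal_le_ofReal ?_)
    have h1 := f2_vol d hd c0 Ch hc0 hCh u (2 ^ i) hu hiL
    have h2 : C * ((u ^ (1 / (2 * (d : ℝ)))) ^ (d - 1) * (Ch * u ^ (kap d * eh d)) ^ nu d *
        ((2 : ℝ) ^ i) ^ (1 - nu d)) / (c0 * (u ^ (1 - kap d * em d) * 2 ^ i)) * wt T =
        (C * W) * ((u ^ (1 / (2 * (d : ℝ)))) ^ (d - 1) * (Ch * u ^ (kap d * eh d)) ^ nu d *
        ((2 : ℝ) ^ i) ^ (1 - nu d) / (c0 * (u ^ (1 - kap d * em d) * 2 ^ i))) := by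
      rw [hW]
      ring
    rw [h2]
    calc _ ≤ (C * W) * (Ch ^ nu d / c0 * u ^ e2 d) :=
          mul_le_mul_of_nonneg_left h1 (mul_nonneg hC.le hW0)
      _ = a2 * W * u ^ e2 d := by
          rw [ha2]
          ring
  -- the L1 bound
  have hZ1' : ∫⁻ x in Zᶜ, ‖∑ Y ∈ X, ∑ p ∈ Y, γ p * F p x‖ₑ ≤
      ENNReal.ofReal (a1 * W * u ^ e1 d) := by
    refine hZ1.trans (ENNReal.ofReal_le_ofReal ?_)
    have h1 := f2_L1 d c0 hc0 u (2 ^ i) hu hL0 hiU
    have h2 : 1 / (u ^ (kap d / 2)) ^ M ≤ u ^ e1 d := by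
      have g1 : 1 / (u ^ (kap d / 2)) ^ M = u ^ (-(kap d / 2 * M)) := by
        rw [← Real.rpow_natCast (u ^ (kap d / 2)) M, ← Real.rpow_mul hu0.le,
          Real.rpow_neg hu0.le, one_div]
      rw [g1]
      apply Real.rpow_le_rpow_of_exponent_le hu
      linarith
    have h3 : (2 : ℝ) ^ i * Real.sqrt (u ^ (kap d / 2) / (u ^ (1 / (2 * (d : ℝ))) *
        (c0 * (u ^ (1 - kap d * em d) * 2 ^ i)))) + 1 / (u ^ (kap d / 2)) ^ M ≤
        (Real.sqrt (2 / c0) + 1) * u ^ e1 d := by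
      rw [add_mul, one_mul]
      exact add_le_add h1 h2
    calc _ ≤ C * ((Real.sqrt (2 / c0) + 1) * u ^ e1 d) * wt T := by
          apply mul_le_mul_of_nonneg_right _ hW0
          exact mul_le_mul_of_nonneg_left h3 hC.le
      _ = a1 * W * u ^ e1 d := by
          rw [ha1, hW]
          ring
  have hpA : ∫⁻ x in Z, ‖∑ Y ∈ X, ∑ p ∈ Y, γ p * F p x‖ₑ ^ q ≤
      ENNReal.ofReal (a2 ^ (1 - q / 2) * B ^ (q / 2) * (W * u ^ (-s))) := by
    refine (f2_A hg Z hq1 hq2').trans ?_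
    calc (volume Z) ^ (1 - q / 2) *
          (∫⁻ x, ‖∑ Y ∈ X, ∑ p ∈ Y, γ p * F p x‖ₑ ^ (2 : ℝ)) ^ (q / 2)
        ≤ (ENNReal.ofReal (a2 * W * u ^ e2 d)) ^ (1 - q / 2) *
          (ENNReal.ofReal (B * W * u ^ (1 / nu d + s))) ^ (q / 2) := by
          gcongr
          · linarith
      _ = ENNReal.ofReal ((a2 * W * u ^ e2 d) ^ (1 - q / 2) *
          (B * W * u ^ (1 / nu d + s)) ^ (q / 2)) := by
          rw [ENNReal.ofReal_rpow_of_nonneg (by positivity) (by linarith),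
            ENNReal.ofReal_rpow_of_nonneg (by positivity) (by linarith),
            ← ENNReal.ofReal_mul (by positivity)]
      _ ≤ _ := by
          refine ENNReal.ofReal_le_ofReal (f2_pow ha20 hB0 hW0 hu (by linarith) (by linarith)
            (by ring) ?_)
          linarith
  have hpB : ∫⁻ x in Zᶜ, ‖∑ Y ∈ X, ∑ p ∈ Y, γ p * F p x‖ₑ ^ q ≤
      ENNReal.ofReal (a1 ^ (2 - q) * B ^ (q - 1) * (W * u ^ (-s))) := by
    refine (f2_B hg Zᶜ hq1 hq2').trans ?_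
    calc (∫⁻ x in Zᶜ, ‖∑ Y ∈ X, ∑ p ∈ Y, γ p * F p x‖ₑ) ^ (2 - q) *
          (∫⁻ x, ‖∑ Y ∈ X, ∑ p ∈ Y, γ p * F p x‖ₑ ^ (2 : ℝ)) ^ (q - 1)
        ≤ (ENNReal.ofReal (a1 * W * u ^ e1 d)) ^ (2 - q) *
          (ENNReal.ofReal (B * W * u ^ (1 / nu d + s))) ^ (q - 1) := by
          gcongr
      _ = ENNReal.ofReal ((a1 * W * u ^ e1 d) ^ (2 - q) *
          (B * W * u ^ (1 / nu d + s)) ^ (q - 1)) := by
          rw [ENNReal.ofReal_rpow_of_nonneg (by positivity) (by linarith),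
            ENNReal.ofReal_rpow_of_nonneg (by positivity) (by linarith),
            ← ENNReal.ofReal_mul (by positivity)]
      _ ≤ _ := by
          refine ENNReal.ofReal_le_ofReal (f2_pow ha10 hB0 hW0 hu (by linarith) (by linarith)
            (by ring) ?_)
          linarith
  rw [← lintegral_add_compl _ hZm]
  refine (add_le_add hpA hpB).trans ?_
  rw [← ENNReal.ofReal_add (by positivity) (by positivity)]
  refine ENNReal.ofReal_le_ofReal ?_
  have h2 : 0 ≤ u ^ (-s) * W := by positivity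
  have h3 : (a2 ^ (1 - q / 2) * B ^ (q / 2) + a1 ^ (2 - q) * B ^ (q - 1) + 1) * u ^ (-s) * W =
      a2 ^ (1 - q / 2) * B ^ (q / 2) * (W * u ^ (-s)) + a1 ^ (2 - q) * B ^ (q - 1) *
        (W * u ^ (-s)) + u ^ (-s) * W := by ring
  rw [h3]
  linarith

end Pool.LibLP59
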