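import Pool.Agent.LibLP59.D1
import Pool.Agent.LibLP59.F2
import Pool.Agent.LibLP59.F3
import Pool.Agent.LibLP59.G1
import Pool.Agent.LibSR53.D1

/-
PLAN (F4). u = 2^(n+1), T = lev S m n (subset of S: Adm, wt T <= wt S; Dens u T by Lev.dens). u2 = max u0 u1 (u1 from heavy_q), theta = (1-kap)/nu.
Case u < u2: FHyp.l2 with (u^(1/nu) = u^theta u^(kap/nu) <= u^theta u2^(kap/nu)) and light_q for T itself with constant C0 u2^(kap/nu).
Case u2 <= u: I = filter over Finset.range N of the i with u^theta < 2^i <= 2 u^((1+2kap)/nu), N with 2 u^(..) < 2^N (then every i with these two inequalities is in I), greedy_all with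
h = Ch u^(kap eh), m0 i = c0 (u^(1-kap em) 2^i). T' : Adm, Dens (subsets: nb, sc monotone), LHyp: L2 bound for T', light_q (one application of light_q with the constant
C0' = C0 u2^(kap/nu), as C0 <= C0'; wt T' <= wt S). For i in I: hX of heavy_q for X i from the identity of greedy_all with f >= 0 (all other terms >= 0). heavy_q: int |f_i|^q <= C u^(-s) wt T.
Sum: |sum_{i in I} a_i|^q <= |I|^(q-1) sum |a_i|^q (ENNReal.rpow_sum_le_const_mul_sum_rpow or similar), |I| <= C (n + 2) (2^i <= 2 u^((1+2kap)/nu) <= 2^(1 + 2(n+1)) as (1+2kap)/nu <= 2, so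
i <= 2 n + 3), and (n+2)^q u^(-s) <= C 2^(-(s/2) n). Finally (a+b)^q <= 2^(q-1)(a^q+b^q); delta = min.
-/

set_option autoImplicit false

noncomputable section

open MeasureTheory Metric Set Filter

namespace Pool.LibLP59

open Pool.LibSR53 Pool.LibTP53

private lemma f4_lin {δ : ℝ} (hδ : 0 < δ) (n : ℕ) :
    (n : ℝ) + 2 ≤ (2 + 1 / (δ * Real.log 2)) * ((2 : ℝ) ^ n) ^ δ := by
  have hl : 0 < Real.log 2 := Real.log_pos (by norm_num)
  have h1 : ((2 : ℝ) ^ n) ^ δ = Real.exp (n * (δ * Real.log 2)) := by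
    rw [← Real.rpow_natCast, ← Real.rpow_mul (by norm_num), Real.rpow_def_of_pos (by norm_num)]
    congr 1
    ring
  rw [h1]
  have h2 := Real.add_one_le_exp ((n : ℝ) * (δ * Real.log 2))
  have h3 : 1 ≤ Real.exp (n * (δ * Real.log 2)) := Real.one_le_exp (by positivity)
  have h4 : (n : ℝ) ≤ 1 / (δ * Real.log 2) * Real.exp (n * (δ * Real.log 2)) := by
    rw [one_div, inv_mul_eq_div, le_div_iff₀ (by positivity)]
    linarith
  linarith

private lemma f4_wt {d : ℕ} {S T : Finset (P d)} (hT : T ⊆ S) (h1 : ∀ p ∈ S, 1 ≤ p.2) :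
    0 ≤ wt T ∧ wt T ≤ wt S := by
  constructor
  · exact Finset.sum_nonneg fun p hp => pow_nonneg (zero_le_one.trans (h1 p (hT hp))) _
  · exact Finset.sum_le_sum_of_subset_of_nonneg hT fun p hp _ =>
      pow_nonneg (zero_le_one.trans (h1 p hp)) _

private lemma f4_mem_sc {d : ℕ} {k : ℕ} {S : Finset (P d)} {p : P d} :
    p ∈ sc k S ↔ p ∈ S ∧ (2 : ℝ) ^ k ≤ p.2 ∧ p.2 < (2 : ℝ) ^ (k + 1) := by
  unfold sc; rw [Finset.mem_filter]

private lemma f4_mem_nb {d : ℕ} {S : Finset (P d)} {p q : P d} {h : ℝ} :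
    q ∈ nb S p h ↔ q ∈ S ∧ dist q p ≤ h := by
  unfold nb; rw [Finset.mem_filter]

private lemma f4_dens {d : ℕ} {u : ℝ} {S T : Finset (P d)} (h : Dens u S) (hT : T ⊆ S) :
    Dens u T := by
  intro k p hp i hi
  have hsc : ∀ q, q ∈ sc k T → q ∈ sc k S := by
    intro q hq
    rw [f4_mem_sc] at hq ⊢
    exact ⟨hT hq.1, hq.2⟩
  refine le_trans ?_ (h k p (hsc p hp) i hi)
  have h2 : (nb (sc k T) p ((2 : ℝ) ^ i)).card ≤ (nb (sc k S) p ((2 : ℝ) ^ i)).card := by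
    refine Finset.card_le_card fun q hq => ?_
    rw [f4_mem_nb] at hq ⊢
    exact ⟨hsc q hq.1, hq.2⟩
  exact_mod_cast h2

private lemma f4_sum {d : ℕ} {q : ℝ} (hq1 : 1 < q) (I : Finset ℕ) (a : E d → ℂ)
    (b : ℕ → E d → ℂ) (ha : AEStronglyMeasurable a volume)
    (hb : ∀ i ∈ I, AEStronglyMeasurable (b i) volume) (Ba Bb : ℝ) (hBa : 0 ≤ Ba) (hBb : 0 ≤ Bb)
    (h1 : ∫⁻ x, ‖a x‖ₑ ^ q ≤ ENNReal.ofReal Ba)
    (h2 : ∀ i ∈ I, ∫⁻ x, ‖b i x‖ₑ ^ q ≤ ENNReal.ofReal Bb) :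
    ∫⁻ x, ‖a x + ∑ i ∈ I, b i x‖ₑ ^ q ≤
      ENNReal.ofReal ((2 : ℝ) ^ (q - 1) * (Ba + (I.card : ℝ) ^ (q - 1) * ((I.card : ℝ) * Bb))) := by
  have hq0 : 0 ≤ q := by linarith
  have e1 : ∀ x, ‖a x + ∑ i ∈ I, b i x‖ₑ ^ q ≤
      (2 : ENNReal) ^ (q - 1) * (‖a x‖ₑ ^ q +
        (I.card : ENNReal) ^ (q - 1) * ∑ i ∈ I, ‖b i x‖ₑ ^ q) := by
    intro x
    calc ‖a x + ∑ i ∈ I, b i x‖ₑ ^ q ≤ (‖a x‖ₑ + ∑ i ∈ I, ‖b i x‖ₑ) ^ q := by
          gcongr
          refine (enorm_add_le _ _).trans ?_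
          gcongr
          exact enorm_sum_le _ _
      _ ≤ (2 : ENNReal) ^ (q - 1) * (‖a x‖ₑ ^ q + (∑ i ∈ I, ‖b i x‖ₑ) ^ q) :=
          ENNReal.rpow_add_le_mul_rpow_add_rpow _ _ hq1.le
      _ ≤ _ := by
          gcongr
          exact ENNReal.rpow_sum_le_const_mul_sum_rpow I _ hq1.le
  refine (lintegral_mono e1).trans ?_
  rw [lintegral_const_mul' _ _ (ENNReal.rpow_ne_top_of_nonneg (by linarith) ENNReal.ofNat_ne_top),
    lintegral_add_left' (ha.enorm.pow_const q),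
    lintegral_const_mul' _ _ (ENNReal.rpow_ne_top_of_nonneg (by linarith)
      (ENNReal.natCast_ne_top _)),
    lintegral_finsetSum' _ fun i hi => (hb i hi).enorm.pow_const q]
  have h3 : ∑ i ∈ I, ∫⁻ x, ‖b i x‖ₑ ^ q ≤ ENNReal.ofReal ((I.card : ℝ) * Bb) := by
    refine (Finset.sum_le_sum h2).trans ?_
    rw [Finset.sum_const, nsmul_eq_mul, ENNReal.ofReal_mul (Nat.cast_nonneg _),
      ENNReal.ofReal_natCast]
  have h4 : (2 : ENNReal) ^ (q - 1) = ENNReal.ofReal ((2 : ℝ) ^ (q - 1)) := by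
    rw [← ENNReal.ofReal_rpow_of_nonneg (by norm_num) (by linarith)]
    congr 1
    exact (ENNReal.ofReal_ofNat 2).symm
  have h5 : (I.card : ENNReal) ^ (q - 1) = ENNReal.ofReal ((I.card : ℝ) ^ (q - 1)) := by
    rw [← ENNReal.ofReal_rpow_of_nonneg (Nat.cast_nonneg _) (by linarith),
      ENNReal.ofReal_natCast]
  rw [h4, h5, ENNReal.ofReal_mul (by positivity), ENNReal.ofReal_add hBa (by positivity),
    ENNReal.ofReal_mul (by positivity)]
  gcongr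

private lemma f4_num {q s ρ C2 Cl CH u δl WT WS : ℝ} {n N : ℕ} (hq0 : 0 < q) (hs : 0 < s)
    (hρ : 0 < ρ) (hρs : ρ * q = s / 2) (hC2 : C2 = 2 + 1 / (ρ * Real.log 2)) (hCl : 0 < Cl)
    (hCH : 0 < CH) (hu : u = (2 : ℝ) ^ (n + 1)) (hWT : 0 ≤ WT) (hW : WT ≤ WS)
    (hN : (N : ℝ) ≤ 2 * ((n : ℝ) + 2)) :
    (2 : ℝ) ^ (q - 1) * (Cl * (2 : ℝ) ^ (-(δl * n)) * WS +
      (N : ℝ) ^ (q - 1) * ((N : ℝ) * (CH * u ^ (-s) * WT))) ≤
    (2 : ℝ) ^ (q - 1) * (Cl + (2 * C2) ^ q * CH) * (2 : ℝ) ^ (-(min δl (s / 2) * n)) * WS := by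
  have hWS : 0 ≤ WS := hWT.trans hW
  have hlog2 : 0 < Real.log 2 := Real.log_pos (by norm_num)
  have hC20 : 0 < C2 := by
    rw [hC2]
    positivity
  have hexp : (2 : ℝ) ^ (-(δl * n)) ≤ (2 : ℝ) ^ (-(min δl (s / 2) * n)) := by
    refine Real.rpow_le_rpow_of_exponent_le (by norm_num) (neg_le_neg ?_)
    exact mul_le_mul_of_nonneg_right (min_le_left _ _) (Nat.cast_nonneg _)
  have hexp2 : (2 : ℝ) ^ (-(s / 2 * n)) ≤ (2 : ℝ) ^ (-(min δl (s / 2) * n)) := by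
    refine Real.rpow_le_rpow_of_exponent_le (by norm_num) (neg_le_neg ?_)
    exact mul_le_mul_of_nonneg_right (min_le_right _ _) (Nat.cast_nonneg _)
  have h1 : (N : ℝ) ^ (q - 1) * ((N : ℝ) * (CH * u ^ (-s) * WT)) =
      (N : ℝ) ^ q * (CH * u ^ (-s) * WT) := by
    rw [← mul_assoc]
    congr 1
    rcases Nat.eq_zero_or_pos N with h0 | h0
    · rw [h0]
      simp [Real.zero_rpow hq0.ne']
    · have h00 : (0 : ℝ) < N := by exact_mod_cast h0
      rw [Real.rpow_sub_one h00.ne']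
      field_simp
  have h2 : (N : ℝ) ^ q ≤ (2 * C2) ^ q * (2 : ℝ) ^ (s / 2 * n) := by
    have h3 : (N : ℝ) ≤ (2 * C2) * ((2 : ℝ) ^ n) ^ ρ := by
      have := f4_lin hρ n
      rw [← hC2] at this
      rw [mul_assoc]
      exact hN.trans (mul_le_mul_of_nonneg_left this (by norm_num))
    have h4 : (((2 : ℝ) ^ n) ^ ρ) ^ q = (2 : ℝ) ^ (s / 2 * n) := by
      rw [← Real.rpow_mul (by positivity), ← Real.rpow_natCast, ← Real.rpow_mul (by norm_num),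
        hρs]
      congr 1
      ring
    calc (N : ℝ) ^ q ≤ ((2 * C2) * ((2 : ℝ) ^ n) ^ ρ) ^ q :=
          Real.rpow_le_rpow (Nat.cast_nonneg _) h3 hq0.le
      _ = (2 * C2) ^ q * (((2 : ℝ) ^ n) ^ ρ) ^ q :=
          Real.mul_rpow (by positivity) (by positivity)
      _ = _ := by rw [h4]
  have h3 : u ^ (-s) ≤ (2 : ℝ) ^ (-(s * n)) := by
    rw [hu, ← Real.rpow_natCast, ← Real.rpow_mul (by norm_num)]
    refine Real.rpow_le_rpow_of_exponent_le (by norm_num) ?_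
    push_cast
    nlinarith
  have h4 : (N : ℝ) ^ q * (CH * u ^ (-s) * WT) ≤
      (2 * C2) ^ q * CH * (2 : ℝ) ^ (-(s / 2 * n)) * WS := by
    have g1 : CH * u ^ (-s) * WT ≤ CH * (2 : ℝ) ^ (-(s * n)) * WS :=
      mul_le_mul (mul_le_mul_of_nonneg_left h3 hCH.le) hW hWT (by positivity)
    have hu0 : 0 < u := by rw [hu]; positivity
    calc (N : ℝ) ^ q * (CH * u ^ (-s) * WT)
        ≤ ((2 * C2) ^ q * (2 : ℝ) ^ (s / 2 * n)) * (CH * (2 : ℝ) ^ (-(s * n)) * WS) :=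
          mul_le_mul h2 g1 (by positivity) (by positivity)
      _ = (2 * C2) ^ q * CH * ((2 : ℝ) ^ (s / 2 * n) * (2 : ℝ) ^ (-(s * n))) * WS := by ring
      _ = _ := by
          rw [← Real.rpow_add (by norm_num)]
          congr 3
          ring
  rw [h1]
  have h6 : Cl * (2 : ℝ) ^ (-(δl * n)) * WS ≤
      Cl * (2 : ℝ) ^ (-(min δl (s / 2) * n)) * WS :=
    mul_le_mul_of_nonneg_right (mul_le_mul_of_nonneg_left hexp hCl.le) hWS
  have h7 : (2 * C2) ^ q * CH * (2 : ℝ) ^ (-(s / 2 * n)) * WS ≤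
      (2 * C2) ^ q * CH * (2 : ℝ) ^ (-(min δl (s / 2) * n)) * WS :=
    mul_le_mul_of_nonneg_right (mul_le_mul_of_nonneg_left hexp2 (by positivity)) hWS
  have h5 : Cl * (2 : ℝ) ^ (-(δl * n)) * WS + (N : ℝ) ^ q * (CH * u ^ (-s) * WT) ≤
      (Cl + (2 * C2) ^ q * CH) * (2 : ℝ) ^ (-(min δl (s / 2) * n)) * WS := by
    refine (add_le_add h6 (h4.trans h7)).trans (le_of_eq ?_)
    ring
  refine (mul_le_mul_of_nonneg_left h5 (by positivity)).trans (le_of_eq ?_)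
  ring

/-- the estimate for one level -/
theorem level_LP (d : ℕ) (hd : 4 ≤ d) (F : P d → E d → ℂ) (C0 c0 Ch u0 : ℝ) (hc0 : 0 < c0)
    (hCh : 1 ≤ Ch) (hu0 : 1 ≤ u0) (hF : FHyp d F C0) (hL : LHyp d F (kap d) C0 c0 Ch u0)
    (q : ℝ) (hq1 : 1 < q) (hq2 : q * (1 + (1 - kap d) / nu d) < 2) :
    ∃ C δ : ℝ, 0 < C ∧ 0 < δ ∧ ∀ (S : Finset (P d)) (m : P d → ℕ), Adm S → Lev S m →
      ∀ (n : ℕ) (γ : P d → ℂ), (∀ p, ‖γ p‖ ≤ 1) →
      ∫⁻ x, ‖∑ p ∈ lev S m n, γ p * F p x‖ₑ ^ q ≤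
        ENNReal.ofReal (C * (2 : ℝ) ^ (-(δ * n)) * wt S) := by
  classical
  obtain ⟨hk0, hkd, hk208, -⟩ := exponents d hd q hq1 hq2
  obtain ⟨CH, s, u1, hCH, hs, hu1, hH⟩ := heavy_q d hd F C0 hF c0 Ch hc0 hCh q hq1 hq2
  have hC0 : 0 < C0 := hF.pos
  have hd4 : (4 : ℝ) ≤ d := by exact_mod_cast hd
  have hnu : 3 / 2 ≤ nu d := by
    unfold nu
    linarith
  have hnu0 : 0 < nu d := by linarith
  have hq0 : 0 < q := by linarith
  set u2 : ℝ := max u0 u1 with hu2def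
  have hu2 : 1 ≤ u2 := le_max_of_le_left hu0
  have hkn : 0 ≤ kap d / nu d := div_nonneg hk0.le hnu0.le
  have hθ : 0 ≤ (1 - kap d) / nu d := div_nonneg (by linarith) hnu0.le
  set C0' : ℝ := C0 * u2 ^ (kap d / nu d) with hC0'def
  have hC0' : C0 ≤ C0' := le_mul_of_one_le_right hC0.le (Real.one_le_rpow hu2 hkn)
  have hC0'0 : 0 < C0' := hC0.trans_le hC0'
  obtain ⟨Cl, δl, hCl, hδl, hLq⟩ := light_q d (by omega) F ((1 - kap d) / nu d) C0' hθ hF.meas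
    hF.tail q hq1 hq2
  set ρ : ℝ := s / (2 * q) with hρdef
  have hρ : 0 < ρ := by positivity
  set C2 : ℝ := 2 + 1 / (ρ * Real.log 2) with hC2def
  have hlog2 : 0 < Real.log 2 := Real.log_pos (by norm_num)
  have hC20 : 0 < C2 := by positivity
  refine ⟨(2 : ℝ) ^ (q - 1) * (Cl + (2 * C2) ^ q * CH), min δl (s / 2), by positivity,
    lt_min hδl (by linarith), ?_⟩
  intro S m hS hm n γ hγ
  have hT : lev S m n ⊆ S := Finset.filter_subset _ _
  set T := lev S m n with hTdef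
  obtain ⟨hwT0, hwTS⟩ := f4_wt hT hS.1
  have hwS0 : 0 ≤ wt S := hwT0.trans hwTS
  have hAT : Adm T := adm_sub hS hT
  have hDT : Dens ((2 : ℝ) ^ (n + 1)) T := hm.dens n
  have hu : (1 : ℝ) ≤ (2 : ℝ) ^ (n + 1) := one_le_pow₀ (by norm_num)
  have hlogu : 0 ≤ 1 + Real.log ((2 : ℝ) ^ (n + 1)) := by
    have := Real.log_nonneg hu
    linarith
  have hone : ∀ p ∈ S, 1 ≤ p.2 := hS.1
  have hsep : ∀ p ∈ S, ∀ q ∈ S, p ≠ q → 1 ≤ dist p q := (adm_good hS).sep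
  have h2q : (1 : ℝ) ≤ (2 : ℝ) ^ (q - 1) := Real.one_le_rpow (by norm_num) (by linarith)
  have hexp : (2 : ℝ) ^ (-(δl * n)) ≤ (2 : ℝ) ^ (-(min δl (s / 2) * n)) := by
    refine Real.rpow_le_rpow_of_exponent_le (by norm_num) (neg_le_neg ?_)
    exact mul_le_mul_of_nonneg_right (min_le_left _ _) (Nat.cast_nonneg _)
  by_cases hlt : (2 : ℝ) ^ (n + 1) < u2
  · -- small u
    have hl2 : ∫⁻ x, ‖∑ p ∈ T, γ p * F p x‖ₑ ^ (2 : ℝ) ≤
        ENNReal.ofReal (C0' * (1 + Real.log ((2 : ℝ) ^ (n + 1))) *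
          ((2 : ℝ) ^ (n + 1)) ^ ((1 - kap d) / nu d) * wt S) := by
      refine (hF.l2 T _ hAT hu hDT γ hγ).trans (ENNReal.ofReal_le_ofReal ?_)
      have e1 : ((2 : ℝ) ^ (n + 1)) ^ (1 / nu d) =
          ((2 : ℝ) ^ (n + 1)) ^ ((1 - kap d) / nu d) * ((2 : ℝ) ^ (n + 1)) ^ (kap d / nu d) := by
        rw [← Real.rpow_add (by positivity)]
        congr 1
        rw [← add_div]
        congr 1
        ring
      have e2 : ((2 : ℝ) ^ (n + 1)) ^ (kap d / nu d) ≤ u2 ^ (kap d / nu d) :=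
        Real.rpow_le_rpow (by positivity) hlt.le hkn
      have e3 : 0 ≤ ((2 : ℝ) ^ (n + 1)) ^ ((1 - kap d) / nu d) := by positivity
      calc C0 * (1 + Real.log ((2 : ℝ) ^ (n + 1))) * ((2 : ℝ) ^ (n + 1)) ^ (1 / nu d) * wt T
          = C0 * (1 + Real.log ((2 : ℝ) ^ (n + 1))) * (((2 : ℝ) ^ (n + 1)) ^ ((1 - kap d) / nu d) *
            ((2 : ℝ) ^ (n + 1)) ^ (kap d / nu d)) * wt T := by rw [e1]
        _ ≤ C0 * (1 + Real.log ((2 : ℝ) ^ (n + 1))) * (((2 : ℝ) ^ (n + 1)) ^ ((1 - kap d) / nu d) *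
            u2 ^ (kap d / nu d)) * wt S := by
            gcongr
        _ = _ := by
            rw [hC0'def]
            ring
    refine (hLq S m hone hsep hm n T γ le_rfl hγ hl2).trans (ENNReal.ofReal_le_ofReal ?_)
    refine mul_le_mul_of_nonneg_right ?_ hwS0
    calc Cl * (2 : ℝ) ^ (-(δl * n)) ≤ Cl * (2 : ℝ) ^ (-(min δl (s / 2) * n)) :=
          mul_le_mul_of_nonneg_left hexp hCl.le
      _ ≤ (2 : ℝ) ^ (q - 1) * (Cl + (2 * C2) ^ q * CH) * (2 : ℝ) ^ (-(min δl (s / 2) * n)) := by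
          refine mul_le_mul_of_nonneg_right ?_ (by positivity)
          have : 0 ≤ (2 * C2) ^ q * CH := by positivity
          nlinarith
  · -- large u
    have hge : u2 ≤ (2 : ℝ) ^ (n + 1) := not_lt.1 hlt
    have hge0 : u0 ≤ (2 : ℝ) ^ (n + 1) := (le_max_left _ _).trans hge
    have hge1 : u1 ≤ (2 : ℝ) ^ (n + 1) := (le_max_right _ _).trans hge
    set u : ℝ := (2 : ℝ) ^ (n + 1) with hudef
    have hu00 : 0 < u := by positivity
    set I : Finset ℕ := (Finset.range (2 * n + 4)).filter (fun i =>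
      u ^ ((1 - kap d) / nu d) < (2 : ℝ) ^ i ∧ (2 : ℝ) ^ i ≤ 2 * u ^ ((1 + 2 * kap d) / nu d))
      with hI
    have hIc : (I.card : ℝ) ≤ 2 * ((n : ℝ) + 2) := by
      have h1 : I.card ≤ 2 * n + 4 := by
        refine (Finset.card_filter_le _ _).trans ?_
        rw [Finset.card_range]
      have h2 : (I.card : ℝ) ≤ ((2 * n + 4 : ℕ) : ℝ) := by exact_mod_cast h1
      push_cast at h2
      linarith
    have hImem : ∀ i : ℕ, u ^ ((1 - kap d) / nu d) < (2 : ℝ) ^ i →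
        (2 : ℝ) ^ i ≤ 2 * u ^ ((1 + 2 * kap d) / nu d) → i ∈ I := by
      intro i h1 h2
      rw [hI, Finset.mem_filter, Finset.mem_range]
      refine ⟨?_, h1, h2⟩
      have h3 : (1 + 2 * kap d) / nu d ≤ 2 := by
        rw [div_le_iff₀ hnu0]
        linarith
      have h4 : u ^ ((1 + 2 * kap d) / nu d) ≤ u ^ (2 : ℝ) :=
        Real.rpow_le_rpow_of_exponent_le hu h3
      have h5 : (2 : ℝ) ^ i ≤ (2 : ℝ) ^ (2 * n + 3) := by
        refine h2.trans ((mul_le_mul_of_nonneg_left h4 (by norm_num)).trans (le_of_eq ?_))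
        rw [Real.rpow_two, hudef]
        ring
      have h6 := (pow_le_pow_iff_right₀ (one_lt_two (α := ℝ))).mp h5
      omega
    obtain ⟨T', X, hT'T, hlight, hpiece, hidR, hidC⟩ := greedy_all T I (Ch * u ^ (kap d * eh d))
      (fun i => c0 * (u ^ (1 - kap d * em d) * 2 ^ i)) (fun i => by positivity)
    have hAT' : Adm T' := adm_sub hAT hT'T
    have hDT' : Dens u T' := f4_dens hDT hT'T
    obtain ⟨hwT'0, hwT'S⟩ := f4_wt (hT'T.trans hT) hS.1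
    -- the light part
    have hlt2 : ∫⁻ x, ‖∑ p ∈ T', γ p * F p x‖ₑ ^ (2 : ℝ) ≤
        ENNReal.ofReal (C0' * (1 + Real.log u) * u ^ ((1 - kap d) / nu d) * wt S) := by
      refine (hL T' u hAT' hu hDT' (fun _ i h1 h2 => hlight i (hImem i h1 h2)) γ hγ).trans
        (ENNReal.ofReal_le_ofReal ?_)
      gcongr
    have hla := hLq S m hone hsep hm n T' γ hT'T hγ hlt2
    -- the heavy parts
    have hhe : ∀ i ∈ I, ∫⁻ x, ‖∑ Y ∈ X i, ∑ p ∈ Y, γ p * F p x‖ₑ ^ q ≤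
        ENNReal.ofReal (CH * u ^ (-s) * wt T) := by
      intro i hi
      have hi2 := (Finset.mem_filter.1 hi).2
      refine hH T u i (X i) γ hAT hge1 hDT hi2.1 hi2.2 (hpiece i hi) ?_ hγ
      intro f hf
      rw [hidR f]
      have h1 : ∑ Y ∈ X i, ∑ p ∈ Y, f p ≤ ∑ i ∈ I, ∑ Y ∈ X i, ∑ p ∈ Y, f p :=
        Finset.single_le_sum (f := fun i => ∑ Y ∈ X i, ∑ p ∈ Y, f p)
          (fun j _ => Finset.sum_nonneg fun Y _ => Finset.sum_nonneg fun p _ => hf p) hi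
      have h2 : 0 ≤ ∑ p ∈ T', f p := Finset.sum_nonneg fun p _ => hf p
      linarith
    have hmeasT : ∀ p ∈ T, AEStronglyMeasurable (fun x => γ p * F p x) volume := fun p hp =>
      (hF.meas p (hAT.1 p hp)).const_mul (γ p)
    have hma : AEStronglyMeasurable (fun x => ∑ p ∈ T', γ p * F p x) volume :=
      Finset.aestronglyMeasurable_fun_sum T' fun p hp => hmeasT p (hT'T hp)
    have hmb : ∀ i ∈ I, AEStronglyMeasurable (fun x => ∑ Y ∈ X i, ∑ p ∈ Y, γ p * F p x)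
        volume := fun i hi =>
      Finset.aestronglyMeasurable_fun_sum (X i) fun Y hY =>
        Finset.aestronglyMeasurable_fun_sum Y fun p hp => hmeasT p ((hpiece i hi Y hY).2 hp)
    have hsplit : ∀ x, ∑ p ∈ T, γ p * F p x =
        ∑ p ∈ T', γ p * F p x + ∑ i ∈ I, ∑ Y ∈ X i, ∑ p ∈ Y, γ p * F p x := fun x =>
      hidC (fun p => γ p * F p x)
    simp only [hsplit]
    refine (f4_sum hq1 I (fun x => ∑ p ∈ T', γ p * F p x)
      (fun i x => ∑ Y ∈ X i, ∑ p ∈ Y, γ p * F p x) hma hmb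
      (Cl * (2 : ℝ) ^ (-(δl * n)) * wt S) (CH * u ^ (-s) * wt T) (by positivity)
      (by positivity) hla hhe).trans (ENNReal.ofReal_le_ofReal ?_)
    exact f4_num hq0 hs hρ (by rw [hρdef]; field_simp) hC2def hCl hCH hudef hwT0 hwTS hIc

end Pool.LibLP59
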