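import Pool.Agent.LibLP59.F5
import Pool.Agent.LibSR53.I1

/-
(F6) The discrete inequality: end of the proof of discrete (LibSR53.F1) for admissible families.
-/

set_option autoImplicit false

noncomputable section

open MeasureTheory Metric Set Filter

namespace Pool.LibLP59

open Pool.LibSR53 Pool.LibTP53

theorem kap_pos (d : ℕ) (hd : 4 ≤ d) : 0 < kap d ∧ kap d * d ≤ 1 ∧ kap d ≤ 1 / 208 := by
  have hd' : (4 : ℝ) ≤ d := by exact_mod_cast hd
  have h1 : (208 : ℝ) ≤ d * (5 * d + 32) := by nlinarith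
  have h2 : (0 : ℝ) < d * (5 * d + 32) := by linarith
  refine ⟨?_, ?_, ?_⟩
  · unfold kap; positivity
  · unfold kap
    rw [one_div, inv_mul_le_iff₀ h2]
    nlinarith
  · unfold kap
    exact one_div_le_one_div_of_le (by norm_num) h1

/-- the discrete inequality -/
theorem discreteLP (d : ℕ) (hd : 4 ≤ d) (η : SchwartzMap (E d) ℂ) (ε : ℝ) (hε : 0 < ε)
    (hη : Van η ε) (p : ℝ) (hp1 : 1 < p) (hp2 : p * (1 + (1 - kap d) / nu d) < 2) :
    ∃ C : ℝ, 0 < C ∧ ∀ S : Finset (P d), Adm S → ∀ γ : P d → ℂ,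
      ∫⁻ x, ‖∑ a ∈ S, γ a * Fk η a.1 a.2 x‖ₑ ^ p ≤
        ENNReal.ofReal (C * ∑ a ∈ S, ‖γ a‖ ^ p * a.2 ^ (d - 1)) := by
  have hd2 : 2 ≤ d := by omega
  have hd' : (4 : ℝ) ≤ d := by exact_mod_cast hd
  obtain ⟨hk0, hk1, hk2⟩ := kap_pos d hd
  have hν : 0 < nu d := by unfold nu; linarith
  obtain ⟨C0, c0, Ch, u0, hc0, hCh, hu0, hF, hL⟩ := input_Fk d hd η ε hε hη (kap d) hk0 hk1
  set θ := (1 - kap d) / nu d with hθdef
  have hθ : 0 ≤ θ := div_nonneg (by linarith) hν.le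
  set F : P d → E d → ℂ := fun a => Fk η a.1 a.2 with hFdef
  have hres : ∀ q : ℝ, 1 < q → q * (1 + θ) < 2 → ∃ C : ℝ, 0 < C ∧ ∀ S : Finset (P d),
      Adm S → ∀ γ : P d → ℂ, (∀ p, ‖γ p‖ ≤ 1) →
      ∫⁻ x, ‖∑ p ∈ S, γ p * F p x‖ₑ ^ q ≤ ENNReal.ofReal (C * wt S) := by
    intro q hq1 hq2
    obtain ⟨C, δ, hC, hδ, h⟩ := level_LP d hd F C0 c0 Ch u0 hc0 hCh hu0 hF hL q hq1 hq2
    exact restrictedLP d F hF.meas (fun S hS => exists_lev S hS) q hq1 C δ hC hδ h
  -- choice of s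
  have hpθ : p < 2 := by nlinarith
  obtain ⟨s, hs1, hs2, hs3⟩ : ∃ s : ℝ, 1 < s ∧ s < p ∧ (p - 1) * s / (s - 1) * (1 + θ) < 2 := by
    have hcont : ContinuousAt (fun s : ℝ => (p - 1) * s / (s - 1) * (1 + θ)) p := by
      apply ContinuousAt.mul _ continuousAt_const
      apply ContinuousAt.div
      · exact (continuous_const.mul continuous_id).continuousAt
      · exact (continuous_id.sub continuous_const).continuousAt
      · linarith
    have hval : (p - 1) * p / (p - 1) * (1 + θ) < 2 := by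
      rw [mul_div_assoc, mul_div_cancel₀ _ (by linarith : p - 1 ≠ 0)]
      exact hp2
    have hev : ∀ᶠ s in nhds p, (p - 1) * s / (s - 1) * (1 + θ) < 2 :=
      hcont.eventually_lt continuousAt_const hval
    obtain ⟨r, hr, hball⟩ := Metric.eventually_nhds_iff.mp hev
    refine ⟨max ((1 + p) / 2) (p - r / 2), ?_, ?_, ?_⟩
    · exact lt_of_lt_of_le (by linarith) (le_max_left _ _)
    · exact max_lt (by linarith) (by linarith)
    · apply hball
      rw [Real.dist_eq, abs_lt]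
      constructor
      · have := le_max_right ((1 + p) / 2) (p - r / 2)
        linarith
      · have : max ((1 + p) / 2) (p - r / 2) < p := max_lt (by linarith) (by linarith)
        linarith
  have hq2 : 1 < (p - 1) * s / (s - 1) := by
    rw [lt_div_iff₀ (by linarith)]
    nlinarith
  obtain ⟨Ca, hCa, ha⟩ := hres s hs1 (by nlinarith)
  obtain ⟨Cb, hCb, hb⟩ := hres _ hq2 hs3
  have hwt : ∀ S : Finset (P d), Adm S → 0 ≤ wt S := by
    intro S hS
    exact Finset.sum_nonneg (fun p hp => pow_nonneg (by linarith [hS.1 p hp]) _)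
  obtain ⟨C, hC, h⟩ := interpolate (volume : Measure (E d)) F (fun a : P d => a.2 ^ (d - 1))
    Adm (fun S T hS hT => adm_sub hS hT)
    (fun S hS i hi => pow_nonneg (by linarith [hS.1 i hi]) _)
    (fun S hS i hi => hF.meas i (hS.1 i hi)) p s (Ca + Cb) hp1 hpθ hs1 hs2
    (fun S hS γ hγ => (ha S hS γ hγ).trans (ENNReal.ofReal_le_ofReal (by
      have := hwt S hS
      have : Ca * wt S ≤ (Ca + Cb) * wt S := by nlinarith
      exact this)))
    (fun S hS γ hγ => (hb S hS γ hγ).trans (ENNReal.ofReal_le_ofReal (by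
      have := hwt S hS
      have : Cb * wt S ≤ (Ca + Cb) * wt S := by nlinarith
      exact this)))
  exact ⟨C, hC, h⟩

end Pool.LibLP59
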