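import Pool.Agent.LibLP59.F6
import Pool.Agent.LibSR53.F3

/-
(F7) The main theorem.
-/

set_option autoImplicit false

noncomputable section

open MeasureTheory Metric Set Filter

namespace Pool.LibLP59

open Pool.LibSR53 Pool.LibTP53

theorem mainLP (d : ℕ) (hd : 4 ≤ d) (p : ℝ) (hp1 : 1 < p)
    (hp2 : p < 2 * ((d : ℝ) - 1) / ((d : ℝ) + 1 - 2 / (5 * (d : ℝ) ^ 2 + 32 * d)))
    (η : SchwartzMap (EuclideanSpace ℝ (Fin d)) ℂ)
    (hη : ∃ ε : ℝ, 0 < ε ∧ ∀ ξ : EuclideanSpace ℝ (Fin d), ‖ξ‖ < ε →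
      ∫ x : EuclideanSpace ℝ (Fin d),
        Complex.exp (-(2 * (Real.pi : ℂ) * Complex.I * ((inner ℝ x ξ : ℝ) : ℂ))) * η x = 0) :
    ∃ C : ℝ, 0 < C ∧ ∀ g : EuclideanSpace ℝ (Fin d) × ℝ → ℂ, Measurable g →
      (∃ B : ℝ, ∀ z, ‖g z‖ ≤ B) → HasCompactSupport g →
      MeasureTheory.eLpNorm
        (fun x : EuclideanSpace ℝ (Fin d) =>
          ∫ r in Set.Ioi (1 : ℝ), ∫ z : EuclideanSpace ℝ (Fin d),
            (∫ y in Metric.sphere (0 : EuclideanSpace ℝ (Fin d)) r, η (x - y - z)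
              ∂(MeasureTheory.Measure.hausdorffMeasure ((d : ℝ) - 1))) * g (z, r))
        (ENNReal.ofReal p) MeasureTheory.volume
      ≤ ENNReal.ofReal C *
        (∫⁻ r in Set.Ioi (1 : ℝ), ∫⁻ x : EuclideanSpace ℝ (Fin d),
            ‖g (x, r)‖ₑ ^ p * ENNReal.ofReal (r ^ (d - 1))) ^ (1 / p) := by
  obtain ⟨ε, hε, hη'⟩ := hη
  have hd' : (4 : ℝ) ≤ d := by exact_mod_cast hd
  have hp3 : p * (1 + (1 - kap d) / nu d) < 2 := by
    have h0 : (0 : ℝ) < (d : ℝ) - 1 := by linarith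
    have h1 : (0 : ℝ) < 5 * (d : ℝ) ^ 2 + 32 * d := by positivity
    have h2 : 2 / (5 * (d : ℝ) ^ 2 + 32 * d) ≤ 1 := by
      rw [div_le_one h1]
      nlinarith
    have h3 : 2 / (5 * (d : ℝ) ^ 2 + 32 * d) = 2 * kap d := by
      unfold kap
      have : (5 * (d : ℝ) ^ 2 + 32 * d) = d * (5 * d + 32) := by ring
      rw [this]
      ring
    rw [h3] at hp2 h2
    have h4 : 1 + (1 - kap d) / nu d = ((d : ℝ) + 1 - 2 * kap d) / ((d : ℝ) - 1) := by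
      unfold nu
      field_simp
      ring
    rw [h4, ← mul_div_assoc, div_lt_iff₀ h0]
    rwa [lt_div_iff₀ (by linarith)] at hp2
  obtain ⟨C, hC, hdis⟩ := discreteLP d hd η ε hε hη' p hp1 hp3
  obtain ⟨C1, hC1, hav⟩ := averaging d (by omega) η p hp1 C hC Adm hdis
  refine ⟨C1, hC1, fun g hg hgb hgc => ?_⟩
  exact hav g hg hgb hgc (fun S hS1 hS2 => ⟨fun a ha => (hS2 a ha).1.le, hS1⟩)

end Pool.LibLP59
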